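import Pool.Agent.N3.ST.Stm
import Pool.Agent.W860.OB.Gap

/-!
# Project ST, part H: from progressions to sets of bounded doubling
-/

set_option autoImplicit false

open MeasureTheory Set
open scoped Pointwise

namespace Pool.Agent.N3.ST.H

/-- Freiman's theorem with constants depending only on the doubling -/
theorem freiman (d : ℕ) (K : ℝ) : ∃ (r0 : ℕ) (V0 T0 : ℝ), 1 ≤ V0 ∧ 1 ≤ T0 ∧
    ∀ A : Finset (Vec d × Vec d), A.Nonempty → ((A + A).card : ℝ) ≤ K * (A.card : ℝ) →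
    ∃ (r : ℕ) (g : Fin r → Vec d × Vec d) (L : Fin r → ℕ) (T : Finset (Vec d × Vec d)),
      r ≤ r0 ∧ ((∏ i, (2 * L i + 1) : ℕ) : ℝ) ≤ V0 * A.card ∧ (T.card : ℝ) ≤ T0 ∧
      ∀ a ∈ A, ∃ t ∈ T, ∃ c : Fin r → ℤ, (∀ i, |c i| ≤ L i) ∧ a = t + ∑ i, c i • g i := by
  classical
  refine ⟨⌊30000 / 1 * Real.log (2 * K)⌋₊,
    max 1 (Real.exp (4000000 / 1 ^ 2 * Real.log (2 * K) ^ ((1 : ℝ) + 1))),
    max 1 ((2 * K) ^ ((30000 : ℝ) / 1)), le_max_left _ _, le_max_left _ _, ?_⟩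
  intro A hA hK
  obtain ⟨r, g, L, H, T, hd, hH, hvol, hT, hcov⟩ :=
    W860.OB.gap_cover (ε₀ := 1) hA hK one_pos le_rfl
  have hHbot : ∀ h ∈ H, h = 0 := by
    intro h hh
    have h1 : Nat.card H • (⟨h, hh⟩ : H) = 0 := card_nsmul_eq_zero'
    have h2 : Nat.card H • h = 0 := by
      have h3 := congrArg H.subtype h1
      rw [map_nsmul, map_zero] at h3
      exact h3
    have h4 : (Nat.card H : ℝ) • h = 0 := by
      rw [Nat.cast_smul_eq_nsmul]; exact h2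
    rcases smul_eq_zero.1 h4 with h5 | h5
    · exact absurd h5 (by exact_mod_cast Nat.card_pos.ne')
    · exact h5
  have hHcard : Nat.card H = 1 := by
    rw [Nat.card_eq_one_iff_unique]
    refine ⟨⟨fun a b => Subtype.ext ?_⟩, ⟨0⟩⟩
    rw [hHbot a.1 a.2, hHbot b.1 b.2]
  refine ⟨r, g, L, T, Nat.le_floor hd, ?_, ?_, ?_⟩
  · rw [hHcard, Nat.cast_one, mul_one] at hvol
    exact hvol.trans (mul_le_mul_of_nonneg_right (le_max_right _ _) (Nat.cast_nonneg _))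
  · exact hT.trans (le_max_right _ _)
  · intro a ha
    obtain ⟨t, ht, c, hc, h, hh, e⟩ := hcov a ha
    refine ⟨t, ht, c, hc, ?_⟩
    rw [e, hHbot h hh, add_zero]

theorem count_F {d r : ℕ} {K δ V0 T0 : ℝ} (hK : 1 ≤ K) {A : Finset (Vec d × Vec d)}
    (hA : A.Nonempty)
    (hdir : ∀ F : Finset (Vec d × Vec d), F ⊆ A → (∃ v₀ : Vec d, ∀ p ∈ F, ‖p.1 - v₀‖ ≤ δ) →
      (F.card : ℝ) ≤ K)
    (g : Fin r → Vec d × Vec d) (L : Fin r → ℕ) (T : Finset (Vec d × Vec d))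
    (hvol : ((∏ i, (2 * L i + 1) : ℕ) : ℝ) ≤ V0 * A.card) (hT0 : 0 ≤ T0)
    (hT : (T.card : ℝ) ≤ T0)
    (τ : Vec d × Vec d → Vec d × Vec d) (c : Vec d × Vec d → Fin r → ℤ)
    (hτ : ∀ a ∈ A, τ a ∈ T) (hc : ∀ a ∈ A, ∀ i, |c a i| ≤ L i)
    (hac : ∀ a ∈ A, a = τ a + ∑ i, c a i • g i)
    (F : Finset (Fin r → ℤ))
    (hF : ∀ n ∈ F, (∀ i, |n i| ≤ L i) ∧ ‖∑ i, (n i : ℝ) • (g i).1‖ ≤ δ) :
    (F.card : ℝ) ≤ K * T0 * 2 ^ r * V0 := by
  classical
  set box : Finset (Fin r → ℤ) :=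
    Fintype.piFinset (fun i => Finset.Icc (-(2 * L i : ℤ)) (2 * L i)) with hbox
  have hboxc : (box.card : ℝ) ≤ 2 ^ r * (V0 * A.card) := by
    have h1 : box.card = ∏ i, (4 * L i + 1) := by
      rw [hbox, Fintype.card_piFinset]
      refine Finset.prod_congr rfl fun i _ => ?_
      rw [Int.card_Icc]; omega
    have h2 : ∏ i, (4 * L i + 1) ≤ 2 ^ r * ∏ i, (2 * L i + 1) := by
      have h3 : (2 : ℕ) ^ r = ∏ _i : Fin r, 2 := by simp
      rw [h3, ← Finset.prod_mul_distrib]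
      exact Finset.prod_le_prod' fun i _ => by omega
    calc (box.card : ℝ) ≤ ((2 ^ r * ∏ i, (2 * L i + 1) : ℕ) : ℝ) := by
          rw [h1]; exact_mod_cast h2
      _ = 2 ^ r * ((∏ i, (2 * L i + 1) : ℕ) : ℝ) := by push_cast; ring
      _ ≤ _ := mul_le_mul_of_nonneg_left hvol (by positivity)
  have hmain : (A ×ˢ F).card ≤ ⌊K⌋₊ * (T ×ˢ box).card := by
    refine Finset.card_le_mul_card_image_of_maps_to
      (f := fun q : (Vec d × Vec d) × (Fin r → ℤ) => (τ q.1, c q.1 + q.2)) ?_ _ ?_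
    · intro q hq
      rw [Finset.mem_product] at hq ⊢
      refine ⟨hτ _ hq.1, ?_⟩
      rw [hbox, Fintype.mem_piFinset]
      intro i
      rw [Finset.mem_Icc]
      have h1 := hc _ hq.1 i
      have h2 := (hF _ hq.2).1 i
      rw [abs_le] at h1 h2
      simp only [Pi.add_apply]
      constructor <;> linarith
    · intro b _
      set Q := {q ∈ A ×ˢ F | (τ q.1, c q.1 + q.2) = b} with hQ
      have hinj : Set.InjOn (Prod.fst : (Vec d × Vec d) × (Fin r → ℤ) → Vec d × Vec d) Q := by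
        intro q hq q' hq' hqq
        rw [hQ, Finset.mem_coe, Finset.mem_filter] at hq hq'
        have h1 := congrArg Prod.snd (hq.2.trans hq'.2.symm)
        simp only [hqq] at h1
        exact Prod.ext hqq (add_left_cancel h1)
      have h1 : ((Q.image Prod.fst).card : ℝ) ≤ K := by
        refine hdir _ ?_ ⟨(b.1 + ∑ i, b.2 i • g i).1, ?_⟩
        · intro p hp
          rw [Finset.mem_image] at hp
          obtain ⟨q, hq, rfl⟩ := hp
          rw [hQ, Finset.mem_filter, Finset.mem_product] at hq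
          exact hq.1.1
        · intro p hp
          rw [Finset.mem_image] at hp
          obtain ⟨q, hq, rfl⟩ := hp
          rw [hQ, Finset.mem_filter, Finset.mem_product] at hq
          obtain ⟨⟨hqA, hqF⟩, hqb⟩ := hq
          have h2 : q.1 - (b.1 + ∑ i, b.2 i • g i) = -∑ i, q.2 i • g i := by
            rw [← hqb, sub_eq_iff_eq_add]
            simp only [Pi.add_apply, add_smul, Finset.sum_add_distrib]
            conv_lhs => rw [hac _ hqA]
            abel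
          have h3 : q.1.1 - (b.1 + ∑ i, b.2 i • g i).1 = -∑ i, (q.2 i : ℝ) • (g i).1 := by
            rw [← Prod.fst_sub, h2, Prod.fst_neg, Prod.fst_sum]
            congr 1
            refine Finset.sum_congr rfl fun i _ => ?_
            rw [Prod.smul_fst, Int.cast_smul_eq_zsmul]
          rw [h3, norm_neg]
          exact (hF _ hqF).2
      rw [Finset.card_image_of_injOn hinj] at h1
      exact Nat.le_floor h1
  have hApos : (0 : ℝ) < A.card := by exact_mod_cast hA.card_pos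
  have hK0 : (0 : ℝ) ≤ K := by linarith
  have h5 : ((A.card : ℝ) * F.card) ≤ K * (T0 * (2 ^ r * (V0 * A.card))) := by
    calc ((A.card : ℝ) * F.card) = ((A ×ˢ F).card : ℝ) := by
          rw [Finset.card_product]; push_cast; ring
      _ ≤ ((⌊K⌋₊ * (T ×ˢ box).card : ℕ) : ℝ) := by exact_mod_cast hmain
      _ = (⌊K⌋₊ : ℝ) * ((T.card : ℝ) * box.card) := by
          rw [Finset.card_product]; push_cast; ring
      _ ≤ K * (T0 * (2 ^ r * (V0 * A.card))) := by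
          refine mul_le_mul (Nat.floor_le hK0) ?_ (by positivity) hK0
          exact mul_le_mul hT hboxc (by positivity) hT0
  have h6 : (A.card : ℝ) * F.card ≤ A.card * (K * T0 * 2 ^ r * V0) := by
    calc _ ≤ _ := h5
      _ = _ := by ring
  exact le_of_mul_le_mul_left h6 hApos

theorem pigeon {d : ℕ} {T0 lam : ℝ} (hT0 : 1 ≤ T0) (hlam : 1 ≤ lam)
    (T : Finset (Vec d × Vec d)) (hT : (T.card : ℝ) ≤ T0)
    (τ : Vec d × Vec d → Vec d × Vec d) (F : Finset (Vec d × Vec d)) (hτ : ∀ p ∈ F, τ p ∈ T)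
    (hF : lam ≤ F.card) :
    ∃ F' ⊆ F, (∃ b, ∀ p ∈ F', τ p = b) ∧ max 1 (lam / T0) ≤ (F'.card : ℝ) := by
  classical
  have hT0' : 0 < T0 := by linarith
  have hFne : F.Nonempty := by
    rw [Finset.nonempty_iff_ne_empty]
    rintro rfl
    rw [Finset.card_empty, Nat.cast_zero] at hF
    linarith
  have h1 : ∃ b ∈ T, lam / T0 ≤ (({p ∈ F | τ p = b} : Finset _).card : ℝ) := by
    by_contra! h
    have hTne : T.Nonempty := by
      obtain ⟨p, hp⟩ := hFne
      exact ⟨τ p, hτ p hp⟩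
    have h2 : (F.card : ℝ) = ∑ b ∈ T, (({p ∈ F | τ p = b} : Finset _).card : ℝ) := by
      rw [Finset.card_eq_sum_card_fiberwise (f := τ) (t := T) (fun p hp => hτ p hp)]
      push_cast; rfl
    have h3 : (F.card : ℝ) < T.card * (lam / T0) := by
      rw [h2, ← nsmul_eq_mul, ← Finset.sum_const]
      exact Finset.sum_lt_sum_of_nonempty hTne h
    have h4 : (T.card : ℝ) * (lam / T0) ≤ lam := by
      calc (T.card : ℝ) * (lam / T0) ≤ T0 * (lam / T0) :=
            mul_le_mul_of_nonneg_right hT (by positivity)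
        _ = lam := by field_simp
    linarith
  obtain ⟨b, _, hb⟩ := h1
  refine ⟨{p ∈ F | τ p = b}, Finset.filter_subset _ _, ⟨b, fun p hp => (Finset.mem_filter.1 hp).2⟩,
    max_le ?_ hb⟩
  have h2 : (0 : ℝ) < (({p ∈ F | τ p = b} : Finset _).card : ℝ) :=
    lt_of_lt_of_le (by positivity) hb
  have h3 : 0 < ({p ∈ F | τ p = b} : Finset _).card := by exact_mod_cast h2
  exact_mod_cast h3

theorem incl {d r : ℕ} {δ T0 lam t t₀ : ℝ} (hδ : 0 < δ) (hT0 : 1 ≤ T0) (hlam : 1 ≤ lam)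
    (A : Finset (Vec d × Vec d)) (g : Fin r → Vec d × Vec d) (L : Fin r → ℕ)
    (T : Finset (Vec d × Vec d)) (hT : (T.card : ℝ) ≤ T0)
    (τ : Vec d × Vec d → Vec d × Vec d) (c : Vec d × Vec d → Fin r → ℤ)
    (hτ : ∀ a ∈ A, τ a ∈ T) (hc : ∀ a ∈ A, ∀ i, |c a i| ≤ L i)
    (hac : ∀ a ∈ A, a = τ a + ∑ i, c a i • g i)
    (F : Finset (Vec d × Vec d)) (hFA : F ⊆ A) (x : Vec d)
    (hx : ∀ p ∈ F, ‖p.2 + t • p.1 - x‖ ≤ δ) (hF : lam ≤ F.card) :
    ∃ F' : Finset (Fin r → ℤ), (∀ n ∈ F', (∀ i, |(n i : ℝ)| ≤ max (2 * (L i : ℝ)) (1 / 2)) ∧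
      ‖∑ i, (n i : ℝ) • (((2 * δ)⁻¹ • ((g i).2 + t₀ • (g i).1)) +
        (t - t₀) • ((2 * δ)⁻¹ • (g i).1))‖ ≤ 1) ∧ max 1 (lam / T0) ≤ (F'.card : ℝ) := by
  classical
  obtain ⟨F₁, hF₁, ⟨b, hb⟩, hcard⟩ := pigeon hT0 hlam T hT τ F (fun p hp => hτ p (hFA hp)) hF
  have hne : F₁.Nonempty := by
    rw [Finset.nonempty_iff_ne_empty]
    rintro rfl
    rw [Finset.card_empty, Nat.cast_zero] at hcard
    have := le_max_left 1 (lam / T0)
    linarith
  obtain ⟨p₀, hp₀⟩ := hne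
  have hinj : Set.InjOn (fun p => c p - c p₀) (F₁ : Set (Vec d × Vec d)) := by
    intro p hp q hq hpq
    have h1 : c p = c q := sub_left_injective hpq
    rw [hac p (hFA (hF₁ hp)), hac q (hFA (hF₁ hq)), h1, hb p hp, hb q hq]
  refine ⟨F₁.image (fun p => c p - c p₀), ?_, ?_⟩
  · intro n hn
    rw [Finset.mem_image] at hn
    obtain ⟨p, hp, rfl⟩ := hn
    have hpA := hFA (hF₁ hp)
    have hp₀A := hFA (hF₁ hp₀)
    refine ⟨fun i => ?_, ?_⟩
    · refine le_trans ?_ (le_max_left _ _)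
      have h1 := hc p hpA i
      have h2 := hc p₀ hp₀A i
      have h3 : |(c p - c p₀) i| ≤ 2 * (L i : ℤ) := by
        rw [Pi.sub_apply]
        rw [abs_le] at h1 h2 ⊢
        constructor <;> linarith
      exact_mod_cast h3
    · have h1 : ∑ i, ((c p - c p₀) i) • g i = p - p₀ := by
        conv_rhs => rw [hac p hpA, hac p₀ hp₀A]
        rw [hb p hp, hb p₀ hp₀]
        simp only [Pi.sub_apply, sub_smul, Finset.sum_sub_distrib]
        abel
      have h2 : ∑ i, ((((c p - c p₀) i : ℤ)) : ℝ) • ((g i).2 + t • (g i).1) =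
          (p.2 + t • p.1 - x) - (p₀.2 + t • p₀.1 - x) := by
        have h3 := congrArg Prod.fst h1
        have h4 := congrArg Prod.snd h1
        rw [Prod.fst_sum] at h3
        rw [Prod.snd_sum] at h4
        simp only [Prod.smul_fst, Prod.smul_snd, Prod.fst_sub, Prod.snd_sub] at h3 h4
        have h5 : ∑ i, ((((c p - c p₀) i : ℤ)) : ℝ) • ((g i).2 + t • (g i).1) =
            (∑ i, (c p - c p₀) i • (g i).2) + t • ∑ i, (c p - c p₀) i • (g i).1 := by
          rw [Finset.smul_sum, ← Finset.sum_add_distrib]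
          refine Finset.sum_congr rfl fun i _ => ?_
          rw [smul_add, Int.cast_smul_eq_zsmul, smul_comm, Int.cast_smul_eq_zsmul]
        rw [h5, h3, h4, smul_sub]
        abel
      have h6 : ∑ i, (((c p - c p₀) i : ℤ) : ℝ) • (((2 * δ)⁻¹ • ((g i).2 + t₀ • (g i).1)) +
          (t - t₀) • ((2 * δ)⁻¹ • (g i).1)) =
          (2 * δ)⁻¹ • ((p.2 + t • p.1 - x) - (p₀.2 + t • p₀.1 - x)) := by
        rw [← h2, Finset.smul_sum]
        refine Finset.sum_congr rfl fun i _ => ?_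
        module
      rw [h6, norm_smul, Real.norm_of_nonneg (by positivity)]
      have h7 : ‖(p.2 + t • p.1 - x) - (p₀.2 + t • p₀.1 - x)‖ ≤ 2 * δ := by
        refine (norm_sub_le _ _).trans ?_
        have := hx p (hF₁ hp)
        have := hx p₀ (hF₁ hp₀)
        linarith
      rw [inv_mul_le_iff₀ (by positivity)]
      linarith
  · rw [Finset.card_image_of_injOn hinj]
    exact hcard

theorem main (hNL : S_NL) : S_double := by
  intro d hd K s hK hs0 hs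
  obtain ⟨r0, V0, T0, hV0, hT0, hfr⟩ := freiman d K
  have hNL' : ∀ r : ℕ, ∃ C : ℝ, 0 < C ∧ ∀ (L : Fin r → ℝ), (∀ i, 0 < L i) →
      ∀ (w u : Fin r → Vec d),
      (∀ F : Finset (Fin r → ℤ), (∀ n ∈ F, (∀ i, |(n i : ℝ)| ≤ 1 / 2 * L i) ∧
        ‖∑ i, (n i : ℝ) • u i‖ ≤ 1 / 2) → (F.card : ℝ) ≤ K * T0 * 2 ^ r * V0) →
      ∀ lam : ℝ, 1 ≤ lam → volume {t ∈ Ico (-1 : ℝ) 1 | ∃ F : Finset (Fin r → ℤ),
        (∀ n ∈ F, (∀ i, |(n i : ℝ)| ≤ L i) ∧ ‖∑ i, (n i : ℝ) • (w i + t • u i)‖ ≤ 1) ∧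
        lam ≤ (F.card : ℝ)} ≤ ENNReal.ofReal (C * lam ^ (-s)) := fun r =>
    hNL r d hd (K * T0 * 2 ^ r * V0) (1 / 2) s (by norm_num) (by norm_num) hs0 hs
  choose Cf hCf0 hCf using hNL'
  have hT0' : 0 < T0 := by linarith
  refine ⟨(∑ r ∈ Finset.range (r0 + 1), Cf r) * T0 ^ s, ?_, ?_⟩
  · refine mul_pos (Finset.sum_pos (fun r _ => hCf0 r) ⟨0, by simp⟩) (Real.rpow_pos_of_pos hT0' _)
  intro δ hδ A hA2 hdir t₀ lam hlam
  rcases A.eq_empty_or_nonempty with rfl | hA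
  · have : {t ∈ Ico (t₀ - 1) (t₀ + 1) | ∃ F ⊆ (∅ : Finset (Vec d × Vec d)),
        (∃ x : Vec d, ∀ p ∈ F, ‖p.2 + t • p.1 - x‖ ≤ δ) ∧ lam ≤ (F.card : ℝ)} = ∅ := by
      rw [Set.eq_empty_iff_forall_notMem]
      rintro t ⟨_, F, hF, _, hl⟩
      rw [Finset.subset_empty.1 hF, Finset.card_empty, Nat.cast_zero] at hl
      linarith
    rw [this, measure_empty]
    exact zero_le
  obtain ⟨r, g, L, T, hr, hvol, hT, hcov⟩ := hfr A hA hA2
  choose! τ hτ c hc hac using hcov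
  set L' : Fin r → ℝ := fun i => max (2 * (L i : ℝ)) (1 / 2) with hL'
  set w : Fin r → Vec d := fun i => (2 * δ)⁻¹ • ((g i).2 + t₀ • (g i).1) with hw
  set u : Fin r → Vec d := fun i => (2 * δ)⁻¹ • (g i).1 with hu
  have hL'0 : ∀ i, 0 < L' i := fun i => lt_of_lt_of_le (by norm_num) (le_max_right _ _)
  have hu' : ∀ F : Finset (Fin r → ℤ), (∀ n ∈ F, (∀ i, |(n i : ℝ)| ≤ 1 / 2 * L' i) ∧
        ‖∑ i, (n i : ℝ) • u i‖ ≤ 1 / 2) → (F.card : ℝ) ≤ K * T0 * 2 ^ r * V0 := by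
    intro F hF
    refine count_F hK hA hdir g L T hvol hT0'.le hT τ c hτ hc hac F ?_
    intro n hn
    obtain ⟨h1, h2⟩ := hF n hn
    refine ⟨fun i => ?_, ?_⟩
    · have h3 := h1 i
      have h4 : 1 / 2 * L' i < (L i : ℝ) + 1 := by
        rw [hL']
        simp only
        rcases le_total (2 * (L i : ℝ)) (1 / 2) with h5 | h5
        · rw [max_eq_right h5]
          have : (0 : ℝ) ≤ L i := Nat.cast_nonneg _
          linarith
        · rw [max_eq_left h5]; linarith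
      have h5 : |(n i : ℝ)| < (L i : ℝ) + 1 := lt_of_le_of_lt h3 h4
      have h6 : |n i| < (L i : ℤ) + 1 := by exact_mod_cast h5
      omega
    · have h3 : ∑ i, (n i : ℝ) • (g i).1 = (2 * δ) • ∑ i, (n i : ℝ) • u i := by
        rw [Finset.smul_sum]
        refine Finset.sum_congr rfl fun i _ => ?_
        rw [hu]
        simp only
        rw [smul_comm (2 * δ), smul_inv_smul₀ (by positivity)]
      rw [h3, norm_smul, Real.norm_of_nonneg (by positivity)]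
      nlinarith
  have hmain := hCf r L' hL'0 w u hu' (max 1 (lam / T0)) (le_max_left _ _)
  set N := {t ∈ Ico (-1 : ℝ) 1 | ∃ F : Finset (Fin r → ℤ),
        (∀ n ∈ F, (∀ i, |(n i : ℝ)| ≤ L' i) ∧ ‖∑ i, (n i : ℝ) • (w i + t • u i)‖ ≤ 1) ∧
        max 1 (lam / T0) ≤ (F.card : ℝ)} with hN
  have hsub : {t ∈ Ico (t₀ - 1) (t₀ + 1) | ∃ F ⊆ A,
      (∃ x : Vec d, ∀ p ∈ F, ‖p.2 + t • p.1 - x‖ ≤ δ) ∧ lam ≤ (F.card : ℝ)} ⊆
      (fun t => t + -t₀) ⁻¹' N := by
    rintro t ⟨ht, F, hFA, ⟨x, hx⟩, hl⟩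
    rw [Set.mem_preimage, hN]
    refine ⟨⟨by linarith [ht.1], by linarith [ht.2]⟩, ?_⟩
    rw [← sub_eq_add_neg]
    exact incl hδ hT0 hlam A g L T hT τ c hτ hc hac F hFA x hx hl
  refine (measure_mono hsub).trans ?_
  rw [measure_preimage_add_right]
  refine hmain.trans (ENNReal.ofReal_le_ofReal ?_)
  have h1 : (max 1 (lam / T0)) ^ (-s) ≤ (lam / T0) ^ (-s) :=
    Real.rpow_le_rpow_of_nonpos (by positivity) (le_max_right _ _) (by linarith)
  have h2 : (lam / T0) ^ (-s) = T0 ^ s * lam ^ (-s) := by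
    rw [Real.div_rpow (by linarith) hT0'.le, Real.rpow_neg hT0'.le, div_inv_eq_mul, mul_comm]
  have h3 : Cf r ≤ ∑ r ∈ Finset.range (r0 + 1), Cf r :=
    Finset.single_le_sum (fun i _ => (hCf0 i).le) (Finset.mem_range.2 (by omega))
  calc Cf r * (max 1 (lam / T0)) ^ (-s) ≤ Cf r * (T0 ^ s * lam ^ (-s)) := by
        rw [← h2]; exact mul_le_mul_of_nonneg_left h1 (hCf0 r).le
    _ ≤ (∑ r ∈ Finset.range (r0 + 1), Cf r) * (T0 ^ s * lam ^ (-s)) := by
        refine mul_le_mul_of_nonneg_right h3 ?_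
        have := Real.rpow_nonneg hT0'.le s
        have := Real.rpow_nonneg (show (0 : ℝ) ≤ lam by linarith) (-s)
        positivity
    _ = _ := by ring

end Pool.Agent.N3.ST.H
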