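import Mathlib

/-!
# Project ST (helper3): Kakeya tubes with additive structure, statements

Page MP_850839_an.  `Gd x` is the Gram determinant of a tuple of vectors.
-/

set_option autoImplicit false

open MeasureTheory Set
open scoped Pointwise

namespace Pool.Agent.N3.ST

/-- The Gram determinant of a tuple of vectors. -/
noncomputable def Gd {E : Type} [NormedAddCommGroup E] [InnerProductSpace ℝ E] {ι : Type}
    [Fintype ι] [DecidableEq ι] (x : ι → E) : ℝ := (Matrix.gram ℝ x).det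

/-- Euclidean space. -/
abbrev Vec (d : ℕ) : Type := EuclideanSpace ℝ (Fin d)

/-- ST/A (Hadamard-Fischer, submodularity of covolumes). -/
def S_fischer : Prop := ∀ (E : Type) [NormedAddCommGroup E] [InnerProductSpace ℝ E] (a b c : ℕ)
  (x : Fin a → E) (y : Fin b → E) (z : Fin c → E),
  Gd (Sum.elim (Sum.elim x y) z) * Gd x ≤ Gd (Sum.elim x y) * Gd (Sum.elim x z)

/-- ST/B (Minkowski's first theorem for the lattice spanned by independent vectors). -/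
def S_mink : Prop := ∀ k : ℕ, ∃ c : ℝ, 0 < c ∧ ∀ (E : Type) [NormedAddCommGroup E]
  [InnerProductSpace ℝ E] (x : Fin k → E) (ρ : ℝ), 0 < ρ → LinearIndependent ℝ x →
  √(Gd x) < c * ρ ^ k → ∃ m : Fin k → ℤ, m ≠ 0 ∧ ‖∑ i, (m i : ℝ) • x i‖ ≤ ρ

/-- ST/C (many points in a ball have small covolume). -/
def S_count : Prop := ∀ (E : Type) [NormedAddCommGroup E] [InnerProductSpace ℝ E]
  [FiniteDimensional ℝ E] (S : Finset E) (R : ℝ), 0 < R → S.Nonempty → (∀ s ∈ S, ‖s‖ ≤ R) →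
  ∃ (k : ℕ) (b : Fin k → E), (∀ i, ∃ s ∈ S, ∃ s' ∈ S, b i = s - s') ∧ LinearIndependent ℝ b ∧
    √(Gd b) * (S.card : ℝ) ≤ (6 * R) ^ k

/-- The vectors `(p i, y i + t z i)`. -/
noncomputable def fr {k : ℕ} {r d : ℕ} (p : Fin k → Fin r → ℝ) (y z : Fin k → Fin d → ℝ) (t : ℝ)
    (i : Fin k) : EuclideanSpace ℝ (Fin r ⊕ Fin d) :=
  WithLp.toLp 2 (Sum.elim (p i) (fun j => y i j + t * z i j))

/-- ST/D (Remez type inequality for the covolume of a moving frame, exponent `1/d`). -/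
def S_remez : Prop := ∀ k r d : ℕ, 1 ≤ d → ∃ C : ℝ, 0 < C ∧ ∀ (p : Fin k → Fin r → ℝ)
  (y z : Fin k → Fin d → ℝ) (a l M η : ℝ), 0 < l → 0 < M → 0 < η →
  (∃ t ∈ Ico a (a + l), M ≤ √(Gd (fr p y z t))) →
  volume {t ∈ Ico a (a + l) | √(Gd (fr p y z t)) < η} ≤
    ENNReal.ofReal (C * (η / M) ^ (1 / (d : ℝ))) * ENNReal.ofReal l

/-- ST/E (the covolume at infinity is controlled by the largest covolume on an interval). -/
def S_infty : Prop := ∀ k r d : ℕ, ∃ C : ℝ, 0 < C ∧ ∀ (p : Fin k → Fin r → ℝ)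
  (y z : Fin k → Fin d → ℝ), ∃ t ∈ Ico (-1 : ℝ) 1,
    √(Gd (fr p z (fun _ _ => 0) 0)) ≤ C * √(Gd (fr p y z t))

/-- integer vectors as rational vectors -/
def castQ {r : ℕ} (n : Fin r → ℤ) : Fin r → ℚ := fun i => n i

/-- ST/F (lattices in rational subspaces). -/
def S_lat : Prop := ∀ r : ℕ, ∃ b : (V : Submodule ℚ (Fin r → ℚ)) →
    (Fin (Module.finrank ℚ V) → Fin r → ℤ),
  (∀ V i, castQ (b V i) ∈ V) ∧ (∀ V, LinearIndependent ℚ (fun i => castQ (b V i))) ∧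
  (∀ (E : Type) [NormedAddCommGroup E] [InnerProductSpace ℝ E] (X : (Fin r → ℤ) →+ E)
    (V : Submodule ℚ (Fin r → ℚ)) (c : Fin (Module.finrank ℚ V) → Fin r → ℤ),
    (∀ i, castQ (c i) ∈ V) → LinearIndependent ℚ (fun i => castQ (c i)) →
    Gd (fun i => X (b V i)) ≤ Gd (fun i => X (c i))) ∧
  (∀ (E : Type) [NormedAddCommGroup E] [InnerProductSpace ℝ E] (X : (Fin r → ℤ) →+ E)
    (V W : Submodule ℚ (Fin r → ℚ)),
    Gd (fun i => X (b (V ⊓ W) i)) * Gd (fun i => X (b (V ⊔ W) i)) ≤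
      Gd (fun i => X (b V i)) * Gd (fun i => X (b W i)))

/-- ST/G: the main estimate for generalised arithmetic progressions: the set of the heights `t` for
which many elements of the progression are small has small measure. -/
def S_NL : Prop := ∀ (r d : ℕ), 1 ≤ d → ∀ (C' θ s : ℝ), 0 < θ → θ ≤ 1 → 0 < s → s < 1 / d →
  ∃ C : ℝ, 0 < C ∧ ∀ (L : Fin r → ℝ), (∀ i, 0 < L i) → ∀ (w u : Fin r → Vec d),
  (∀ F : Finset (Fin r → ℤ), (∀ n ∈ F, (∀ i, |(n i : ℝ)| ≤ θ * L i) ∧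
    ‖∑ i, (n i : ℝ) • u i‖ ≤ θ) → (F.card : ℝ) ≤ C') →
  ∀ lam : ℝ, 1 ≤ lam → volume {t ∈ Ico (-1 : ℝ) 1 | ∃ F : Finset (Fin r → ℤ),
    (∀ n ∈ F, (∀ i, |(n i : ℝ)| ≤ L i) ∧ ‖∑ i, (n i : ℝ) • (w i + t • u i)‖ ≤ 1) ∧
    lam ≤ (F.card : ℝ)} ≤ ENNReal.ofReal (C * lam ^ (-s))

/-- ST/H: the estimate for sets of bounded doubling, on the interval `[τ - 1, τ + 1)`. -/
def S_double : Prop := ∀ (d : ℕ), 1 ≤ d → ∀ (K s : ℝ), 1 ≤ K → 0 < s → s < 1 / d →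
  ∃ C : ℝ, 0 < C ∧ ∀ (δ : ℝ), 0 < δ → ∀ (A : Finset (Vec d × Vec d)),
  ((A + A).card : ℝ) ≤ K * (A.card : ℝ) →
  (∀ F : Finset (Vec d × Vec d), F ⊆ A → (∃ v₀ : Vec d, ∀ p ∈ F, ‖p.1 - v₀‖ ≤ δ) →
    (F.card : ℝ) ≤ K) →
  ∀ τ lam : ℝ, 1 ≤ lam → volume {t ∈ Ico (τ - 1) (τ + 1) | ∃ F ⊆ A,
    (∃ x : Vec d, ∀ p ∈ F, ‖p.2 + t • p.1 - x‖ ≤ δ) ∧ lam ≤ (F.card : ℝ)} ≤
    ENNReal.ofReal (C * lam ^ (-s))

end Pool.Agent.N3.ST
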