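import Pool.Agent.N3.ST.Stm2

/-!
# Project ST, job J: rounding to scale `δ`
-/

set_option autoImplicit false

open MeasureTheory Set
open scoped Pointwise

namespace Pool.Agent.N3.ST.J

open Pool.Agent.N3.ST
open Pool.Agent.H810R3.Tub (Space tube dir dir_sub_le tube_eq)

/-- packing -/
lemma pack {d : ℕ} (F : Finset (Vec d)) (v₀ : Vec d) (s r : ℝ) (hs : 0 < s) (hr : 0 ≤ r)
    (hsep : ∀ x ∈ F, ∀ y ∈ F, x ≠ y → s ≤ ‖x - y‖) (hball : ∀ x ∈ F, ‖x - v₀‖ ≤ r * s) :
    (F.card : ℝ) ≤ (2 * r + 1) ^ d := by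
  classical
  have hsub : (⋃ x ∈ F, Metric.ball x (s / 2)) ⊆ Metric.ball v₀ ((2 * r + 1) * (s / 2)) := by
    intro y hy
    simp only [mem_iUnion] at hy
    obtain ⟨x, hx, hy⟩ := hy
    rw [Metric.mem_ball, dist_eq_norm] at hy ⊢
    have h1 := hball x hx
    calc ‖y - v₀‖ = ‖(y - x) + (x - v₀)‖ := by rw [sub_add_sub_cancel]
      _ ≤ ‖y - x‖ + ‖x - v₀‖ := norm_add_le _ _
      _ < s / 2 + r * s := by linarith
      _ = _ := by ring
  have hdis : (F : Set (Vec d)).PairwiseDisjoint fun x => Metric.ball x (s / 2) := by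
    intro x hx y hy hxy
    apply Metric.ball_disjoint_ball
    rw [dist_eq_norm]
    have := hsep x hx y hy hxy
    linarith
  have h1 : volume (⋃ x ∈ F, Metric.ball x (s / 2)) =
      (F.card : ENNReal) * volume (Metric.ball (0 : Vec d) (s / 2)) := by
    rw [measure_biUnion_finset hdis fun x _ => measurableSet_ball]
    have : ∀ x ∈ F, volume (Metric.ball x (s / 2)) = volume (Metric.ball (0 : Vec d) (s / 2)) :=
      fun x _ => Measure.addHaar_ball_center _ _ _
    rw [Finset.sum_congr rfl this, Finset.sum_const, nsmul_eq_mul]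
  have h2 : volume (Metric.ball v₀ ((2 * r + 1) * (s / 2))) =
      ENNReal.ofReal ((2 * r + 1) ^ d) * volume (Metric.ball (0 : Vec d) (s / 2)) := by
    rw [Measure.addHaar_ball_center, Measure.addHaar_ball_mul_of_pos _ _ (by linarith)]
    simp [Vec]
  have h3 := measure_mono (μ := volume) hsub
  rw [h1, h2] at h3
  have h4 : volume (Metric.ball (0 : Vec d) (s / 2)) ≠ 0 :=
    (Metric.measure_ball_pos _ _ (by linarith)).ne'
  have h5 : volume (Metric.ball (0 : Vec d) (s / 2)) ≠ ⊤ := measure_ball_lt_top.ne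
  rw [ENNReal.mul_le_mul_iff_left h4 h5] at h3
  have h6 : ENNReal.ofReal (F.card : ℝ) ≤ ENNReal.ofReal ((2 * r + 1) ^ d) := by
    rw [ENNReal.ofReal_natCast]; exact h3
  exact (ENNReal.ofReal_le_ofReal_iff (by positivity)).1 h6

/-- rounding -/
noncomputable def rd {d : ℕ} (ρ : ℝ) (x : Vec d) : Vec d :=
  WithLp.toLp 2 fun j => ρ * ⌊x j / ρ⌋

/-- the lattice of scale `ρ` -/
def Lat {d : ℕ} (ρ : ℝ) (x : Vec d) : Prop := ∀ j, ∃ n : ℤ, x j = ρ * n

lemma lat_rd {d : ℕ} (ρ : ℝ) (x : Vec d) : Lat ρ (rd ρ x) := fun j => ⟨⌊x j / ρ⌋, rfl⟩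

lemma lat_add {d : ℕ} {ρ : ℝ} {x y : Vec d} (hx : Lat ρ x) (hy : Lat ρ y) : Lat ρ (x + y) := by
  intro j
  obtain ⟨n, hn⟩ := hx j
  obtain ⟨m, hm⟩ := hy j
  refine ⟨n + m, ?_⟩
  rw [PiLp.add_apply, hn, hm]
  push_cast
  ring

lemma lat_sep {d : ℕ} {ρ : ℝ} (hρ : 0 < ρ) {x y : Vec d} (hx : Lat ρ x) (hy : Lat ρ y)
    (hxy : x ≠ y) : ρ ≤ ‖x - y‖ := by
  have : ∃ j, x j ≠ y j := by
    by_contra hc
    push Not at hc
    apply hxy
    ext j
    exact hc j
  obtain ⟨j, hj⟩ := this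
  obtain ⟨n, hn⟩ := hx j
  obtain ⟨m, hm⟩ := hy j
  have h1 : ‖(x - y) j‖ ≤ ‖x - y‖ := PiLp.norm_apply_le _ _
  have h2 : ρ ≤ ‖(x - y) j‖ := by
    rw [PiLp.sub_apply, hn, hm, ← mul_sub, Real.norm_eq_abs, abs_mul, abs_of_pos hρ]
    have hnm : n ≠ m := by
      rintro rfl
      exact hj (hn.trans hm.symm)
    have h3 : (1 : ℝ) ≤ |(n : ℝ) - m| := by
      have : 1 ≤ |n - m| := Int.one_le_abs (sub_ne_zero.2 hnm)
      exact_mod_cast this
    nlinarith
  exact h2.trans h1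

lemma rd_close {d : ℕ} (hd : 1 ≤ d) {δ : ℝ} (hδ : 0 < δ) (x : Vec d) :
    ‖x - rd (δ / √(d : ℝ)) x‖ ≤ δ := by
  have hd0 : (0 : ℝ) < d := by exact_mod_cast hd
  have hs : 0 < √(d : ℝ) := Real.sqrt_pos.2 hd0
  set ρ := δ / √(d : ℝ) with hρ
  have hρ0 : 0 < ρ := by positivity
  have h1 : ∀ j, |(x - rd ρ x) j| ≤ ρ := by
    intro j
    rw [PiLp.sub_apply]
    show |x j - ρ * ⌊x j / ρ⌋| ≤ ρ
    have h2 := Int.floor_le (x j / ρ)
    have h3 := Int.lt_floor_add_one (x j / ρ)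
    have e : x j = ρ * (x j / ρ) := by field_simp
    have h4 : x j - ρ * ⌊x j / ρ⌋ = ρ * (x j / ρ - ⌊x j / ρ⌋) := by
      rw [mul_sub, ← e]
    rw [h4, abs_mul, abs_of_pos hρ0, abs_of_nonneg (by linarith)]
    nlinarith
  apply le_of_sq_le_sq _ hδ.le
  rw [EuclideanSpace.norm_sq_eq]
  calc ∑ j, ‖(x - rd ρ x) j‖ ^ 2 ≤ ∑ _j : Fin d, ρ ^ 2 := by
        refine Finset.sum_le_sum fun j _ => ?_
        rw [Real.norm_eq_abs]
        exact pow_le_pow_left₀ (abs_nonneg _) (h1 j) 2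
    _ = δ ^ 2 := by
        rw [Finset.sum_const, Finset.card_univ, Fintype.card_fin, nsmul_eq_mul, hρ, div_pow,
          Real.sq_sqrt hd0.le]
        field_simp

/-- lattice pairs near a pair -/
lemma lat_pairs {d : ℕ} (hd : 1 ≤ d) {δ : ℝ} (hδ : 0 < δ) (F : Finset (Vec d × Vec d))
    (hF : ∀ p ∈ F, Lat (δ / √(d : ℝ)) p.1 ∧ Lat (δ / √(d : ℝ)) p.2) (z : Vec d × Vec d)
    (hz : ∀ p ∈ F, ‖p.1 - z.1‖ ≤ 3 * δ ∧ ‖p.2 - z.2‖ ≤ 3 * δ) :
    (F.card : ℝ) ≤ (6 * √(d : ℝ) + 1) ^ d * (6 * √(d : ℝ) + 1) ^ d := by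
  classical
  have hd0 : (0 : ℝ) < d := by exact_mod_cast hd
  have hs : 0 < √(d : ℝ) := Real.sqrt_pos.2 hd0
  have hρ0 : 0 < δ / √(d : ℝ) := by positivity
  have e : 3 * √(d : ℝ) * (δ / √(d : ℝ)) = 3 * δ := by field_simp
  have h1 : ((F.image Prod.fst).card : ℝ) ≤ (2 * (3 * √(d : ℝ)) + 1) ^ d := by
    refine pack _ z.1 (δ / √(d : ℝ)) _ hρ0 (by positivity) ?_ ?_
    · intro x hx y hy hxy
      obtain ⟨p, hp, rfl⟩ := Finset.mem_image.1 hx
      obtain ⟨q, hq, rfl⟩ := Finset.mem_image.1 hy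
      exact lat_sep hρ0 (hF p hp).1 (hF q hq).1 hxy
    · intro x hx
      obtain ⟨p, hp, rfl⟩ := Finset.mem_image.1 hx
      rw [e]
      exact (hz p hp).1
  have h2 : ((F.image Prod.snd).card : ℝ) ≤ (2 * (3 * √(d : ℝ)) + 1) ^ d := by
    refine pack _ z.2 (δ / √(d : ℝ)) _ hρ0 (by positivity) ?_ ?_
    · intro x hx y hy hxy
      obtain ⟨p, hp, rfl⟩ := Finset.mem_image.1 hx
      obtain ⟨q, hq, rfl⟩ := Finset.mem_image.1 hy
      exact lat_sep hρ0 (hF p hp).2 (hF q hq).2 hxy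
    · intro x hx
      obtain ⟨p, hp, rfl⟩ := Finset.mem_image.1 hx
      rw [e]
      exact (hz p hp).2
  have h3 : F.card ≤ (F.image Prod.fst).card * (F.image Prod.snd).card := by
    rw [← Finset.card_product]
    refine Finset.card_le_card fun p hp => ?_
    rw [Finset.mem_product]
    exact ⟨Finset.mem_image_of_mem _ hp, Finset.mem_image_of_mem _ hp⟩
  have h4 : (F.card : ℝ) ≤ ((F.image Prod.fst).card : ℝ) * ((F.image Prod.snd).card : ℝ) := by
    exact_mod_cast h3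
  refine h4.trans ?_
  have e2 : 2 * (3 * √(d : ℝ)) + 1 = 6 * √(d : ℝ) + 1 := by ring
  rw [e2] at h1 h2
  exact mul_le_mul h1 h2 (Nat.cast_nonneg _) (by positivity)

theorem main (hT : S_tube) : S_round := by
  classical
  intro d hd K S ε hK hS hε
  set M' : ℝ := (6 * √(d : ℝ) + 1) ^ d * (6 * √(d : ℝ) + 1) ^ d with hM'
  set K' : ℝ := max (max (M' * K * 3 ^ d) (5 ^ d)) (1 + S) with hK'
  have hK'1 : 1 ≤ K' := le_trans (by linarith) (le_max_right _ _)
  obtain ⟨C, hC, hmain⟩ := hT d hd K' ε hK'1 hε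
  set n : ℕ := ⌈S⌉₊ + 2 with hn
  refine ⟨(2 * n + 1) * C, by positivity, ?_⟩
  intro δ hδ hδ1 ι _ v c h hv hh hsep hZ J
  obtain ⟨Z, hZK, hZ2⟩ := hZ
  set ρ : ℝ := δ / √(d : ℝ) with hρ
  set β : ι → Vec d := fun i => c i - h i • v i with hβ
  set R : ι → Vec d × Vec d := fun i => (rd ρ (v i), rd ρ (β i)) with hR
  set A : Finset (Vec d × Vec d) := Finset.univ.image R with hA
  have hsep' : ∀ i j, i ≠ j → δ ≤ ‖v i - v j‖ := fun i j hij => (hsep i j hij).trans (dir_sub_le _ _)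
  have hR1 : ∀ i, ‖v i - (R i).1‖ ≤ δ := fun i => rd_close hd hδ _
  have hR2 : ∀ i, ‖β i - (R i).2‖ ≤ δ := fun i => rd_close hd hδ _
  -- a packing lemma for slopes
  have hslope : ∀ (T : Finset ι) (v₀ : Vec d) (r : ℝ), 0 ≤ r → (∀ i ∈ T, ‖v i - v₀‖ ≤ r * δ) →
      (T.card : ℝ) ≤ (2 * r + 1) ^ d := by
    intro T v₀ r hr hT'
    have hinj : Set.InjOn v T := by
      intro i _ j _ hij
      by_contra hne
      have := hsep' i j hne
      rw [hij, sub_self, norm_zero] at this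
      linarith
    rw [← Finset.card_image_of_injOn hinj]
    refine pack _ v₀ δ r hδ hr ?_ ?_
    · intro x hx y hy hxy
      obtain ⟨i, _, rfl⟩ := Finset.mem_image.1 hx
      obtain ⟨j, _, rfl⟩ := Finset.mem_image.1 hy
      exact hsep' i j fun hij => hxy (by rw [hij])
    · intro x hx
      obtain ⟨i, hi, rfl⟩ := Finset.mem_image.1 hx
      exact hT' i hi
  -- (a)
  have ha : (Fintype.card ι : ℝ) ≤ 3 ^ d * A.card := by
    have h1 : (Finset.univ : Finset ι).card ≤ 3 ^ d * A.card := by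
      refine Finset.card_le_mul_card_image _ _ fun p _ => ?_
      have h2 : (((Finset.univ : Finset ι).filter fun i => R i = p).card : ℝ) ≤ (2 * 1 + 1) ^ d := by
        refine hslope _ p.1 1 zero_le_one fun i hi => ?_
        have hi' : R i = p := (Finset.mem_filter.1 hi).2
        rw [← hi', one_mul]
        exact hR1 i
      have h3 : (((Finset.univ : Finset ι).filter fun i => R i = p).card : ℝ) ≤
          ((3 ^ d : ℕ) : ℝ) := by
        refine h2.trans (le_of_eq ?_)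
        push_cast
        norm_num
      exact_mod_cast h3
    rw [Finset.card_univ] at h1
    exact_mod_cast h1
  -- (b)
  have hb : ((A + A).card : ℝ) ≤ M' * Z.card := by
    have hex : ∀ a ∈ A + A, ∃ z ∈ Z, ‖a.1 - z.1‖ ≤ 3 * δ ∧ ‖a.2 - z.2‖ ≤ 3 * δ := by
      intro a ha'
      obtain ⟨p, hp, q, hq, rfl⟩ := Finset.mem_add.1 ha'
      obtain ⟨i, _, rfl⟩ := Finset.mem_image.1 hp
      obtain ⟨j, _, rfl⟩ := Finset.mem_image.1 hq
      obtain ⟨z, hz, h1, h2⟩ := hZ2 i j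
      refine ⟨z, hz, ?_, ?_⟩
      · have e : (R i + R j).1 - z.1 = (v i + v j - z.1) - (v i - (R i).1) - (v j - (R j).1) := by
          rw [Prod.fst_add]; abel
        rw [e]
        have := norm_sub_le (v i + v j - z.1 - (v i - (R i).1)) (v j - (R j).1)
        have := norm_sub_le (v i + v j - z.1) (v i - (R i).1)
        linarith [hR1 i, hR1 j]
      · have e : (R i + R j).2 - z.2 = (β i + β j - z.2) - (β i - (R i).2) - (β j - (R j).2) := by
          rw [Prod.snd_add]; abel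
        rw [e]
        have := norm_sub_le (β i + β j - z.2 - (β i - (R i).2)) (β j - (R j).2)
        have := norm_sub_le (β i + β j - z.2) (β i - (R i).2)
        linarith [hR2 i, hR2 j]
    have hlat : ∀ a ∈ A + A, Lat ρ a.1 ∧ Lat ρ a.2 := by
      intro a ha'
      obtain ⟨p, hp, q, hq, rfl⟩ := Finset.mem_add.1 ha'
      obtain ⟨i, _, rfl⟩ := Finset.mem_image.1 hp
      obtain ⟨j, _, rfl⟩ := Finset.mem_image.1 hq
      exact ⟨lat_add (lat_rd _ _) (lat_rd _ _), lat_add (lat_rd _ _) (lat_rd _ _)⟩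
    have hcov : A + A ⊆ Z.biUnion fun z => (A + A).filter fun a =>
        ‖a.1 - z.1‖ ≤ 3 * δ ∧ ‖a.2 - z.2‖ ≤ 3 * δ := by
      intro a ha'
      obtain ⟨z, hz, h1⟩ := hex a ha'
      exact Finset.mem_biUnion.2 ⟨z, hz, Finset.mem_filter.2 ⟨ha', h1⟩⟩
    calc ((A + A).card : ℝ) ≤ ((Z.biUnion fun z => (A + A).filter fun a =>
        ‖a.1 - z.1‖ ≤ 3 * δ ∧ ‖a.2 - z.2‖ ≤ 3 * δ).card : ℝ) := by
          exact_mod_cast Finset.card_le_card hcov
      _ ≤ ∑ z ∈ Z, (((A + A).filter fun a =>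
        ‖a.1 - z.1‖ ≤ 3 * δ ∧ ‖a.2 - z.2‖ ≤ 3 * δ).card : ℝ) := by
          exact_mod_cast Finset.card_biUnion_le
      _ ≤ ∑ _z ∈ Z, M' := by
          refine Finset.sum_le_sum fun z _ => ?_
          refine lat_pairs hd hδ _ (fun p hp => ?_) z fun p hp => ?_
          · exact hlat p (Finset.mem_filter.1 hp).1
          · exact (Finset.mem_filter.1 hp).2
      _ = M' * Z.card := by rw [Finset.sum_const, nsmul_eq_mul]; ring
  have hM'0 : 0 ≤ M' := by positivity
  have hAA : ((A + A).card : ℝ) ≤ K' * (A.card : ℝ) := by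
    calc ((A + A).card : ℝ) ≤ M' * Z.card := hb
      _ ≤ M' * (K * Fintype.card ι) := mul_le_mul_of_nonneg_left hZK hM'0
      _ ≤ M' * (K * (3 ^ d * A.card)) :=
          mul_le_mul_of_nonneg_left (mul_le_mul_of_nonneg_left ha (by linarith)) hM'0
      _ = (M' * K * 3 ^ d) * A.card := by ring
      _ ≤ K' * A.card := mul_le_mul_of_nonneg_right
          ((le_max_left _ _).trans (le_max_left _ _)) (Nat.cast_nonneg _)
  -- (c)
  have hsl : ∀ F : Finset (Vec d × Vec d), F ⊆ A → (∃ v₀ : Vec d, ∀ p ∈ F, ‖p.1 - v₀‖ ≤ δ) →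
      (F.card : ℝ) ≤ K' := by
    intro F hF hv0
    obtain ⟨v₀, hv0⟩ := hv0
    have hch : ∀ p : Vec d × Vec d, p ∈ F → ∃ i, R i = p := by
      intro p hp
      obtain ⟨i, _, hi⟩ := Finset.mem_image.1 (hF hp)
      exact ⟨i, hi⟩
    set T : Finset ι := Finset.univ.filter fun i => R i ∈ F with hTd
    rcases F.eq_empty_or_nonempty with rfl | hne
    · simp only [Finset.card_empty, Nat.cast_zero]
      linarith
    · obtain ⟨p0, hp0⟩ := hne
      obtain ⟨i0, hi0⟩ := hch p0 hp0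
      let g : Vec d × Vec d → ι := fun p => if hp : p ∈ F then (hch p hp).choose else i0
      have hg : ∀ p ∈ F, R (g p) = p := by
        intro p hp
        simp only [g, dif_pos hp]
        exact (hch p hp).choose_spec
      have hginj : Set.InjOn g F := by
        intro p hp q hq hpq
        rw [← hg p hp, ← hg q hq, hpq]
      have h5 : ((F.image g).card : ℝ) ≤ (2 * 2 + 1) ^ d := by
        refine hslope _ v₀ 2 zero_le_two fun i hi => ?_
        obtain ⟨p, hp, rfl⟩ := Finset.mem_image.1 hi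
        have e : v (g p) - v₀ = (v (g p) - (R (g p)).1) + (p.1 - v₀) := by
          rw [hg p hp]; abel
        rw [e]
        have := norm_add_le (v (g p) - (R (g p)).1) (p.1 - v₀)
        linarith [hR1 (g p), hv0 p hp]
      rw [Finset.card_image_of_injOn hginj] at h5
      refine h5.trans (le_trans (le_of_eq ?_) ((le_max_right _ _).trans (le_max_left _ _)))
      norm_num
  -- (d)
  obtain ⟨hm1, hm2⟩ := hmain δ hδ hδ1 A hAA hsl {i // i ∈ J} (fun i => v i) (fun i => c i)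
    (fun i => h i) (fun i => hv i) (fun i j hij => hsep i j fun he => hij (Subtype.ext he))
    (fun i => by
      refine ⟨R i, Finset.mem_image_of_mem _ (Finset.mem_univ _), ?_, ?_⟩
      · exact (hR1 i).trans (by nlinarith)
      · have e : c i - ((R i).2 + h i • (R i).1) = (β i - (R i).2) +
            h i • (v i - (R i).1) := by
          simp only [hβ, smul_sub]; abel
        rw [e]
        have h1 : ‖h i • (v i - (R i).1)‖ ≤ S * δ := by
          rw [norm_smul, Real.norm_eq_abs]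
          exact mul_le_mul (hh i) (hR1 i) (norm_nonneg _) (by linarith)
        have h2 := norm_add_le (β i - (R i).2) (h i • (v i - (R i).1))
        have h3 : (1 + S) * δ ≤ K' * δ := mul_le_mul_of_nonneg_right (le_max_right _ _) hδ.le
        linarith [hR2 i])
  have htsum : (fun y => ∑ i ∈ J, (tube δ (dir (v i)) (WithLp.toLp 2 (c i, h i))).indicator
      (fun _ => (1 : ℝ)) y) = tsum δ (fun i : {i // i ∈ J} => v i) (fun i => c i) (fun i => h i) := by
    funext y
    unfold tsum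
    exact (Finset.sum_coe_sort J fun i =>
      (tube δ (dir (v i)) (WithLp.toLp 2 (c i, h i))).indicator (fun _ => (1 : ℝ)) y).symm
  have hn1 : (1 : ℝ) ≤ 2 * n + 1 := by
    have : (0 : ℝ) ≤ n := Nat.cast_nonneg n
    linarith
  refine ⟨fun q hq => ?_, fun lam hlam => ?_⟩
  · rw [htsum]
    refine (hm1 q hq).trans (ENNReal.ofReal_le_ofReal ?_)
    rw [Fintype.card_coe]
    have h0 : 0 ≤ C * δ ^ ((d : ℝ) / q) * (J.card : ℝ) ^ (1 - 1 / (q * d) + ε) := by positivity
    calc _ = 1 * (C * δ ^ ((d : ℝ) / q) * (J.card : ℝ) ^ (1 - 1 / (q * d) + ε)) := by rw [one_mul]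
      _ ≤ (2 * n + 1) * (C * δ ^ ((d : ℝ) / q) * (J.card : ℝ) ^ (1 - 1 / (q * d) + ε)) :=
          mul_le_mul_of_nonneg_right hn1 h0
      _ = _ := by ring
  · have hcov : {t : ℝ | ∃ x : Vec d, lam ≤ ∑ i ∈ J, (tube δ (dir (v i))
        (WithLp.toLp 2 (c i, h i))).indicator (fun _ => (1 : ℝ)) (WithLp.toLp 2 (x, t))} ⊆
        ⋃ τ ∈ Finset.Icc (-(n : ℤ)) n, {t ∈ Ico ((τ : ℝ) - 1) (τ + 1) | ∃ x : Vec d,
          lam ≤ tsum δ (fun i : {i // i ∈ J} => v i) (fun i => c i) (fun i => h i)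
            (WithLp.toLp 2 (x, t))} := by
      intro t ht
      obtain ⟨x, hx⟩ := ht
      have hx' := hx
      rw [show (∑ i ∈ J, (tube δ (dir (v i)) (WithLp.toLp 2 (c i, h i))).indicator
        (fun _ => (1 : ℝ)) (WithLp.toLp 2 (x, t))) = tsum δ (fun i : {i // i ∈ J} => v i)
          (fun i => c i) (fun i => h i) (WithLp.toLp 2 (x, t)) from
            congrFun htsum (WithLp.toLp 2 (x, t))] at hx'
      -- some tube contains the point
      have hex : ∃ i ∈ J, (WithLp.toLp 2 (x, t) : Space d) ∈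
          tube δ (dir (v i)) (WithLp.toLp 2 (c i, h i)) := by
        by_contra hcon
        push Not at hcon
        rw [Finset.sum_eq_zero fun i hi => indicator_of_notMem (hcon i hi) _] at hx
        linarith
      obtain ⟨i, _, hmem⟩ := hex
      have hci : c i = β i + h i • v i := by simp only [hβ, sub_add_cancel]
      rw [hci, tube_eq] at hmem
      obtain ⟨ht1, _⟩ := Pool.Agent.H803R2.KakFTO.tube_subset hδ hδ1 (fun _ => β i) (hv i) (h i)
        hmem
      have hS1 := abs_le.1 (hh i)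
      have hceil : S ≤ (⌈S⌉₊ : ℝ) := Nat.le_ceil S
      have hnS : S + 3 / 2 < n := by
        rw [hn]; push_cast; linarith
      have htn : |t| < n := by
        rw [abs_lt]
        constructor <;> linarith [ht1.1, ht1.2, hS1.1, hS1.2]
      rw [abs_lt] at htn
      have hf1 := Int.floor_le t
      have hf2 := Int.lt_floor_add_one t
      refine mem_iUnion₂.2 ⟨⌊t⌋, ?_, ?_⟩
      · rw [Finset.mem_Icc]
        constructor
        · rw [Int.le_floor]
          push_cast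
          linarith [htn.1]
        · have : (⌊t⌋ : ℝ) ≤ (n : ℝ) := by linarith [htn.2]
          exact_mod_cast this
      · exact ⟨⟨by linarith, hf2⟩, x, hx'⟩
    refine (measure_mono hcov).trans ((measure_biUnion_finset_le _ _).trans ?_)
    calc ∑ τ ∈ Finset.Icc (-(n : ℤ)) n, volume {t ∈ Ico ((τ : ℝ) - 1) (τ + 1) | ∃ x : Vec d,
          lam ≤ tsum δ (fun i : {i // i ∈ J} => v i) (fun i => c i) (fun i => h i)
            (WithLp.toLp 2 (x, t))}
        ≤ ∑ _τ ∈ Finset.Icc (-(n : ℤ)) n, ENNReal.ofReal (C * lam ^ (-(1 / (d : ℝ)) + ε)) :=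
          Finset.sum_le_sum fun τ _ => hm2 τ lam hlam
      _ = ENNReal.ofReal ((2 * n + 1) * C * lam ^ (-(1 / (d : ℝ)) + ε)) := by
          rw [Finset.sum_const, Int.card_Icc, nsmul_eq_mul]
          have e : ((n : ℤ) + 1 - -(n : ℤ)).toNat = 2 * n + 1 := by omega
          rw [e, ← ENNReal.ofReal_natCast, ← ENNReal.ofReal_mul (Nat.cast_nonneg _)]
          congr 1
          push_cast
          ring

end Pool.Agent.N3.ST.J
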