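import Pool.Agent.N3.ST.Stm2

/-!
# Project ST, part I: from sets of lines to tubes, geometric part
-/

set_option autoImplicit false
set_option linter.unusedSectionVars false
set_option linter.unusedVariables false

open MeasureTheory Set Metric
open scoped Pointwise ENNReal

namespace Pool.Agent.N3.ST.I

open Pool.Agent.H810R3.Tub (Space tube dir dir_sub_le tube_eq tube_closed)

variable {d : ℕ}

/-- points of a tube -/
theorem geo {δ : ℝ} (hδ : 0 < δ) (hδ1 : δ < 1) {v c : Vec d} (hv : ‖v‖ ≤ 1) (h : ℝ) {x : Vec d}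
    {t : ℝ} (hm : (WithLp.toLp 2 (x, t) : Space d) ∈ tube δ (dir v) (WithLp.toLp 2 (c, h))) :
    |t - h| ≤ 3 / 2 ∧ ‖x - (c + (t - h) • v)‖ ≤ 2 * δ := by
  have e : (WithLp.toLp 2 (c, h) : Space d) = WithLp.toLp 2 ((c - h • v) + h • v, h) := by
    rw [sub_add_cancel]
  rw [e, tube_eq] at hm
  obtain ⟨h1, h2⟩ := Pool.Agent.H803R2.KakFTO.tube_subset hδ hδ1 (fun _ => c - h • v) hv h hm
  refine ⟨by rw [abs_le]; constructor <;> linarith [h1.1, h1.2], ?_⟩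
  have e2 : x - (c + (t - h) • v) = x - (c - h • v + t • v) := by
    rw [sub_smul]; abel
  rw [e2]
  exact h2

/-- covering a ball by small balls -/
theorem cover (R ρ : ℝ) (hρ : 0 < ρ) : ∃ T : Finset (Vec d), closedBall (0 : Vec d) R ⊆
    ⋃ y ∈ T, ball y ρ := by
  have hc : IsCompact (closedBall (0 : Vec d) R) := isCompact_closedBall 0 R
  obtain ⟨T, -, hT, hcov⟩ := finite_cover_balls_of_compact hc hρ
  refine ⟨hT.toFinset, ?_⟩
  simpa using hcov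

/-- separated slopes near a given one -/
theorem packing (K : ℝ) : ∃ M : ℕ, 1 ≤ M ∧ ∀ (δ : ℝ), 0 < δ → ∀ (ι : Type) (v : ι → Vec d)
    (p : Vec d) (J : Finset ι), (∀ i ∈ J, ‖v i - p‖ ≤ K * δ) →
    (∀ i j, i ≠ j → δ ≤ ‖v i - v j‖) → J.card ≤ M := by
  classical
  obtain ⟨T, hT⟩ := cover (d := d) K (1 / 2) (by norm_num)
  refine ⟨T.card + 1, by omega, ?_⟩
  intro δ hδ ι v p J hJ hs
  have h1 : ∀ i ∈ J, ∃ y ∈ T, δ⁻¹ • (v i - p) ∈ ball y (1 / 2) := by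
    intro i hi
    have h2 : δ⁻¹ • (v i - p) ∈ closedBall (0 : Vec d) K := by
      rw [mem_closedBall, dist_zero_right, norm_smul, norm_inv, Real.norm_eq_abs, abs_of_pos hδ,
        inv_mul_le_iff₀ hδ, mul_comm]
      exact hJ i hi
    have h3 := hT h2
    simp only [mem_iUnion] at h3
    obtain ⟨y, hy, h4⟩ := h3
    exact ⟨y, hy, h4⟩
  choose! f hf using h1
  have h2 : J.card ≤ T.card := by
    refine Finset.card_le_card_of_injOn f (fun i hi => (hf i hi).1) ?_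
    intro i hi j hj hij
    by_contra hne
    have k1 := (hf i hi).2
    have k2 := (hf j hj).2
    rw [hij] at k1
    have k3 : dist (δ⁻¹ • (v i - p)) (δ⁻¹ • (v j - p)) < 1 := by
      calc _ ≤ dist (δ⁻¹ • (v i - p)) (f j) + dist (f j) (δ⁻¹ • (v j - p)) := dist_triangle _ _ _
        _ < 1 / 2 + 1 / 2 := by
            rw [dist_comm (f j)]
            exact add_lt_add k1 k2
        _ = 1 := by norm_num
    rw [dist_eq_norm, ← smul_sub, norm_smul, norm_inv, Real.norm_eq_abs, abs_of_pos hδ,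
      inv_mul_lt_iff₀ hδ, mul_one] at k3
    have e : v i - p - (v j - p) = v i - v j := by abel
    rw [e] at k3
    exact absurd (hs i j hne) (not_le.2 k3)
  omega

/-- the slope condition at a larger radius -/
theorem slopes (R : ℝ) : ∃ N0 : ℕ, 1 ≤ N0 ∧ ∀ (δ : ℝ), 0 < δ → ∀ (K : ℝ), 0 ≤ K →
    ∀ (A : Finset (Vec d × Vec d)),
    (∀ F : Finset (Vec d × Vec d), F ⊆ A → (∃ v₀ : Vec d, ∀ p ∈ F, ‖p.1 - v₀‖ ≤ δ) →
      (F.card : ℝ) ≤ K) →
    ∀ F : Finset (Vec d × Vec d), F ⊆ A → (∃ v₀ : Vec d, ∀ p ∈ F, ‖p.1 - v₀‖ ≤ R * δ) →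
      (F.card : ℝ) ≤ N0 * K := by
  classical
  obtain ⟨T, hT⟩ := cover (d := d) R 1 (by norm_num)
  refine ⟨T.card + 1, by omega, ?_⟩
  intro δ hδ K hK A hA F hF ⟨v₀, hv₀⟩
  have h1 : F ⊆ T.biUnion (fun y => F.filter fun p => ‖p.1 - (v₀ + δ • y)‖ ≤ δ) := by
    intro p hp
    have h2 : δ⁻¹ • (p.1 - v₀) ∈ closedBall (0 : Vec d) R := by
      rw [mem_closedBall, dist_zero_right, norm_smul, norm_inv, Real.norm_eq_abs, abs_of_pos hδ,
        inv_mul_le_iff₀ hδ, mul_comm]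
      exact hv₀ p hp
    have h3 := hT h2
    simp only [mem_iUnion] at h3
    obtain ⟨y, hy, h4⟩ := h3
    rw [Finset.mem_biUnion]
    refine ⟨y, hy, Finset.mem_filter.2 ⟨hp, ?_⟩⟩
    rw [mem_ball, dist_eq_norm] at h4
    have e : p.1 - (v₀ + δ • y) = δ • (δ⁻¹ • (p.1 - v₀) - y) := by
      rw [smul_sub, smul_smul, mul_inv_cancel₀ hδ.ne', one_smul]
      abel
    rw [e, norm_smul, Real.norm_eq_abs, abs_of_pos hδ]
    nlinarith
  have h2 : (F.card : ℝ) ≤ ∑ y ∈ T, ((F.filter fun p => ‖p.1 - (v₀ + δ • y)‖ ≤ δ).card : ℝ) := by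
    have h3 := (Finset.card_le_card h1).trans Finset.card_biUnion_le
    exact_mod_cast h3
  have h3 : ∑ y ∈ T, ((F.filter fun p => ‖p.1 - (v₀ + δ • y)‖ ≤ δ).card : ℝ) ≤ ∑ y ∈ T, K := by
    refine Finset.sum_le_sum fun y _ => ?_
    exact hA _ ((Finset.filter_subset _ _).trans hF) ⟨v₀ + δ • y, fun p hp =>
      (Finset.mem_filter.1 hp).2⟩
  rw [Finset.sum_const, nsmul_eq_mul] at h3
  push_cast
  nlinarith

section cnt

variable {ι : Type} [Fintype ι]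

open scoped Classical in
/-- the number of tubes through a point -/
noncomputable def cnt (δ : ℝ) (v c : ι → Vec d) (h : ι → ℝ) (y : Space d) : ℕ :=
  (Finset.univ.filter fun i => y ∈ tube δ (dir (v i)) (WithLp.toLp 2 (c i, h i))).card

theorem tsum_eq (δ : ℝ) (v c : ι → Vec d) (h : ι → ℝ) (y : Space d) :
    tsum δ v c h y = cnt δ v c h y := by
  classical
  unfold tsum cnt
  rw [Finset.card_filter]
  push_cast
  refine Finset.sum_congr rfl fun i _ => ?_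
  by_cases hy : y ∈ tube δ (dir (v i)) (WithLp.toLp 2 (c i, h i))
  · rw [indicator_of_mem hy, if_pos hy]
  · rw [indicator_of_notMem hy, if_neg hy]

theorem cnt_le (δ : ℝ) (v c : ι → Vec d) (h : ι → ℝ) (y : Space d) :
    cnt δ v c h y ≤ Fintype.card ι := by
  classical
  unfold cnt
  exact (Finset.card_le_card (Finset.filter_subset _ _)).trans (le_of_eq Finset.card_univ)

theorem cnt_eq (δ : ℝ) (v c : ι → Vec d) (h : ι → ℝ) (y : Space d) :
    (cnt δ v c h y : ℝ≥0∞) =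
      ∑ i, (tube δ (dir (v i)) (WithLp.toLp 2 (c i, h i))).indicator (fun _ => (1 : ℝ≥0∞)) y := by
  classical
  unfold cnt
  rw [Finset.card_filter]
  push_cast
  refine Finset.sum_congr rfl fun i _ => ?_
  by_cases hy : y ∈ tube δ (dir (v i)) (WithLp.toLp 2 (c i, h i))
  · rw [indicator_of_mem hy, if_pos hy]
  · rw [indicator_of_notMem hy, if_neg hy]

theorem cnt_meas (δ : ℝ) (v c : ι → Vec d) (h : ι → ℝ) :
    Measurable (fun y : Space d => (cnt δ v c h y : ℝ≥0∞)) := by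
  simp only [cnt_eq]
  refine Finset.measurable_fun_sum _ fun i _ => ?_
  exact measurable_const.indicator (tube_closed _ _ _).measurableSet

end cnt

/-- from tubes through a point to many elements of the set of lines -/
theorem to_points (K : ℝ) (hK : 1 ≤ K) : ∃ M : ℕ, 1 ≤ M ∧ ∀ (δ : ℝ), 0 < δ → δ < 1 →
    ∀ (A : Finset (Vec d × Vec d)) (ι : Type) [Fintype ι] (v c : ι → Vec d) (h : ι → ℝ),
    (∀ i, ‖v i‖ ≤ 1) → (∀ i j, i ≠ j → δ ≤ ‖dir (v i) - dir (v j)‖) →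
    (∀ i, ∃ p ∈ A, ‖v i - p.1‖ ≤ K * δ ∧ ‖c i - (p.2 + h i • p.1)‖ ≤ K * δ) →
    ∀ (x : Vec d) (t : ℝ), ∃ F ⊆ A, (∀ p ∈ F, ‖p.2 + t • p.1 - x‖ ≤ (2 + 5 / 2 * K) * δ) ∧
      cnt δ v c h (WithLp.toLp 2 (x, t)) ≤ M * F.card := by
  classical
  obtain ⟨M, hM1, hM⟩ := packing (d := d) K
  refine ⟨M, hM1, ?_⟩
  intro δ hδ hδ1 A ι _ v c h hv hs hA x t
  choose p hpA hp1 hp2 using hA
  have hs' : ∀ i j, i ≠ j → δ ≤ ‖v i - v j‖ := fun i j hij => (hs i j hij).trans (dir_sub_le _ _)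
  set I := Finset.univ.filter fun i => (WithLp.toLp 2 (x, t) : Space d) ∈
    tube δ (dir (v i)) (WithLp.toLp 2 (c i, h i)) with hI
  refine ⟨I.image p, ?_, ?_, ?_⟩
  · intro z hz
    obtain ⟨i, -, rfl⟩ := Finset.mem_image.1 hz
    exact hpA i
  · intro z hz
    obtain ⟨i, hi, rfl⟩ := Finset.mem_image.1 hz
    obtain ⟨g1, g2⟩ := geo hδ hδ1 (hv i) (h i) (Finset.mem_filter.1 hi).2
    have e : (p i).2 + t • (p i).1 - x = -(x - (c i + (t - h i) • v i)) -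
        (c i - ((p i).2 + h i • (p i).1)) - (t - h i) • (v i - (p i).1) := by
      rw [smul_sub, sub_smul, sub_smul]
      abel
    have k1 : ‖(t - h i) • (v i - (p i).1)‖ ≤ 3 / 2 * (K * δ) := by
      rw [norm_smul, Real.norm_eq_abs]
      exact mul_le_mul g1 (hp1 i) (norm_nonneg _) (by norm_num)
    rw [e]
    calc _ ≤ ‖-(x - (c i + (t - h i) • v i)) - (c i - ((p i).2 + h i • (p i).1))‖ +
          ‖(t - h i) • (v i - (p i).1)‖ := norm_sub_le _ _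
      _ ≤ ‖-(x - (c i + (t - h i) • v i))‖ + ‖c i - ((p i).2 + h i • (p i).1)‖ +
          ‖(t - h i) • (v i - (p i).1)‖ := by
          gcongr
          exact norm_sub_le _ _
      _ ≤ 2 * δ + K * δ + 3 / 2 * (K * δ) := by
          rw [norm_neg]
          have := hp2 i
          linarith
      _ = _ := by ring
  · have hc : cnt δ v c h (WithLp.toLp 2 (x, t)) = I.card := by
      unfold cnt
      rw [hI]
    rw [hc]
    refine Finset.card_le_mul_card_image I M fun z hz => ?_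
    refine hM δ hδ ι v z.1 _ (fun i hi => ?_) hs'
    rw [← (Finset.mem_filter.1 hi).2]
    exact hp1 i

/-- the estimate of the heights, at a given exponent -/
def Hts (d : ℕ) (K s C1 : ℝ) : Prop :=
  ∀ (δ : ℝ), 0 < δ → δ < 1 → ∀ (A : Finset (Vec d × Vec d)),
  ((A + A).card : ℝ) ≤ K * (A.card : ℝ) →
  (∀ F : Finset (Vec d × Vec d), F ⊆ A → (∃ v₀ : Vec d, ∀ p ∈ F, ‖p.1 - v₀‖ ≤ δ) →
    (F.card : ℝ) ≤ K) →
  ∀ (ι : Type) [Fintype ι] (v c : ι → Vec d) (h : ι → ℝ), (∀ i, ‖v i‖ ≤ 1) →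
  (∀ i j, i ≠ j → δ ≤ ‖dir (v i) - dir (v j)‖) →
  (∀ i, ∃ p ∈ A, ‖v i - p.1‖ ≤ K * δ ∧ ‖c i - (p.2 + h i • p.1)‖ ≤ K * δ) →
  ∀ τ lam : ℝ, 1 ≤ lam → volume {t ∈ Ico (τ - 1) (τ + 1) | ∃ x : Vec d,
    lam ≤ tsum δ v c h (WithLp.toLp 2 (x, t))} ≤ ENNReal.ofReal (C1 * lam ^ (-s))

theorem hts (hD : S_double) (hd : 1 ≤ d) {K : ℝ} (hK : 1 ≤ K) {s : ℝ} (hs : 0 < s)
    (hs1 : s < 1 / d) : ∃ C1 : ℝ, 0 < C1 ∧ Hts d K s C1 := by
  classical
  obtain ⟨M, hM1, hM⟩ := to_points (d := d) K hK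
  obtain ⟨N0, hN1, hN⟩ := slopes (d := d) (2 + 5 / 2 * K)
  have hN1' : (1 : ℝ) ≤ N0 := by exact_mod_cast hN1
  have hM1' : (1 : ℝ) ≤ M := by exact_mod_cast hM1
  have hM0 : (0 : ℝ) < M := by linarith
  have hNK : 1 ≤ N0 * K := by nlinarith
  have hKN : K ≤ N0 * K := by nlinarith
  obtain ⟨C0, hC0, hC⟩ := hD d hd (N0 * K) s hNK hs hs1
  have hMs : 0 < (M : ℝ) ^ s := Real.rpow_pos_of_pos hM0 _
  refine ⟨(C0 + 2) * (M : ℝ) ^ s, by positivity, ?_⟩
  intro δ hδ hδ1 A hA1 hA2 ι _ v c h hv hsep hp τ lam hlam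
  have hlam0 : 0 < lam := by linarith
  have hls : 0 < lam ^ (-s) := Real.rpow_pos_of_pos hlam0 _
  rcases le_or_gt (M : ℝ) lam with hl | hl
  · have h1 := hC ((2 + 5 / 2 * K) * δ) (by positivity) A
      (hA1.trans (mul_le_mul_of_nonneg_right hKN (Nat.cast_nonneg _)))
      (hN δ hδ K (by linarith) A hA2) τ (lam / M) (by rw [le_div_iff₀ hM0]; linarith)
    refine (measure_mono ?_).trans (h1.trans (ENNReal.ofReal_le_ofReal ?_))
    · rintro t ⟨ht, x, hx⟩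
      obtain ⟨F, hF, hF1, hF2⟩ := hM δ hδ hδ1 A ι v c h hv hsep hp x t
      refine ⟨ht, F, hF, ⟨x, hF1⟩, ?_⟩
      rw [tsum_eq] at hx
      rw [div_le_iff₀ hM0, mul_comm]
      have : (cnt δ v c h (WithLp.toLp 2 (x, t)) : ℝ) ≤ M * F.card := by exact_mod_cast hF2
      linarith
    · rw [Real.div_rpow hlam0.le hM0.le, Real.rpow_neg hM0.le s, div_inv_eq_mul]
      have : C0 * (lam ^ (-s) * (M : ℝ) ^ s) ≤ (C0 + 2) * (lam ^ (-s) * (M : ℝ) ^ s) :=
        mul_le_mul_of_nonneg_right (by linarith) (by positivity)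
      linarith
  · have h1 : volume {t ∈ Ico (τ - 1) (τ + 1) | ∃ x : Vec d,
        lam ≤ tsum δ v c h (WithLp.toLp 2 (x, t))} ≤ ENNReal.ofReal 2 := by
      refine (measure_mono (sep_subset _ _)).trans (le_of_eq ?_)
      rw [Real.volume_Ico]
      congr 1
      ring
    refine h1.trans (ENNReal.ofReal_le_ofReal ?_)
    have h2 : 1 ≤ (M : ℝ) ^ s * lam ^ (-s) := by
      rw [Real.rpow_neg hlam0.le, ← div_eq_mul_inv, ← Real.div_rpow hM0.le hlam0.le]
      exact Real.one_le_rpow (by rw [le_div_iff₀ hlam0]; linarith) hs.le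
    nlinarith

end Pool.Agent.N3.ST.I
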