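import Pool.Agent.N3.ST.Stm

/-!
# Project ST, task A: Hadamard-Fischer inequality for Gram determinants
-/

set_option autoImplicit false

namespace Pool.Agent.N3.ST.A

open Set Matrix
open scoped InnerProductSpace

variable {E : Type} [NormedAddCommGroup E] [InnerProductSpace ℝ E]

theorem Gd_nonneg {ι : Type} [Fintype ι] [DecidableEq ι] (x : ι → E) : 0 ≤ Gd x :=
  (Matrix.posSemidef_gram ℝ x).det_nonneg

theorem Gd_equiv {ι κ : Type} [Fintype ι] [DecidableEq ι] [Fintype κ] [DecidableEq κ]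
    (x : ι → E) (y : κ → E) (e : κ ≃ ι) (h : ∀ k, y k = x (e k)) : Gd y = Gd x := by
  unfold Gd
  rw [← Matrix.det_submatrix_equiv_self e (Matrix.gram ℝ x)]
  congr 1
  ext i j
  simp [Matrix.gram_apply, h]

theorem exists_proj {ι : Type} [Fintype ι] (l : ι → E) (v : E) :
    ∃ (c : ι → ℝ) (q : E), v = (∑ i, c i • l i) + q ∧ (∀ i, ⟪q, l i⟫_ℝ = 0) ∧
      ∀ w ∈ Submodule.span ℝ (range l), ‖q‖ ≤ ‖v - w‖ := by
  set K := Submodule.span ℝ (range l) with hK
  have : FiniteDimensional ℝ K := FiniteDimensional.span_of_finite _ (finite_range l)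
  have : CompleteSpace K := FiniteDimensional.complete ℝ K
  obtain ⟨c, hc⟩ := (Submodule.mem_span_range_iff_exists_fun ℝ).1 (K.orthogonalProjectionOnto v).2
  have hq : ∀ w ∈ K, ⟪v - (K.orthogonalProjectionOnto v : E), w⟫_ℝ = 0 :=
    fun w hw => K.starProjection_inner_eq_zero v w hw
  refine ⟨c, v - K.orthogonalProjectionOnto v, ?_, ?_, ?_⟩
  · rw [hc]; abel
  · intro i
    exact hq _ (Submodule.subset_span (mem_range_self i))
  · intro w hw
    have h1 : v - w = (v - (K.orthogonalProjectionOnto v : E)) + ((K.orthogonalProjectionOnto v : E) - w) := by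
      abel
    have h2 : ⟪v - (K.orthogonalProjectionOnto v : E), (K.orthogonalProjectionOnto v : E) - w⟫_ℝ = 0 :=
      hq _ (K.sub_mem (K.orthogonalProjectionOnto v).2 hw)
    rw [h1]
    have h3 := norm_add_sq_eq_norm_sq_add_norm_sq_of_inner_eq_zero _ _ h2
    nlinarith [norm_nonneg (v - (K.orthogonalProjectionOnto v : E)),
      norm_nonneg ((K.orthogonalProjectionOnto v : E) - w),
      norm_nonneg (v - (K.orthogonalProjectionOnto v : E) + ((K.orthogonalProjectionOnto v : E) - w))]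

/-- adding one vector -/
theorem Gd_add {ι : Type} [Fintype ι] [DecidableEq ι] (l : ι → E) (v : E) (c : ι → ℝ) (q : E)
    (hv : v = (∑ i, c i • l i) + q) (hq : ∀ i, ⟪q, l i⟫_ℝ = 0) :
    Gd (Sum.elim (fun _ : Unit => v) l) = ‖q‖ ^ 2 * Gd l := by
  unfold Gd
  set M := Matrix.gram ℝ (Sum.elim (fun _ : Unit => v) l) with hM
  set T : Matrix (Unit ⊕ ι) (Unit ⊕ ι) ℝ :=
    Matrix.fromBlocks 1 (Matrix.of fun _ i => -c i) 0 1 with hT
  have hTdet : T.det = 1 := by
    rw [hT, Matrix.det_fromBlocks_zero₂₁]; simp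
  have hTM : T * M = Matrix.fromBlocks (Matrix.of fun _ _ => ‖q‖ ^ 2) 0
      (Matrix.of fun i _ => ⟪l i, v⟫_ℝ) (Matrix.gram ℝ l) := by
    have hqv : ⟪q, v⟫_ℝ = ‖q‖ ^ 2 := by
      rw [hv, inner_add_right, inner_sum]
      simp only [inner_smul_right, hq, mul_zero, Finset.sum_const_zero, zero_add]
      exact real_inner_self_eq_norm_sq q
    have hp : ∀ w : E, ⟪v, w⟫_ℝ - ∑ i, c i * ⟪l i, w⟫_ℝ = ⟪q, w⟫_ℝ := by
      intro w
      rw [hv, inner_add_left, sum_inner]
      simp only [real_inner_smul_left]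
      ring
    have hM' : M = Matrix.fromBlocks (Matrix.of fun _ _ => ⟪v, v⟫_ℝ) (Matrix.of fun _ j => ⟪v, l j⟫_ℝ)
        (Matrix.of fun i _ => ⟪l i, v⟫_ℝ) (Matrix.gram ℝ l) := by
      rw [hM]
      ext i j
      rcases i with i | i <;> rcases j with j | j <;> simp [Matrix.gram_apply]
    rw [hT, hM', Matrix.fromBlocks_multiply]
    congr 1
    · ext i j
      simp only [Matrix.one_mul, Matrix.add_apply, Matrix.of_apply, Matrix.mul_apply, neg_mul,
        Finset.sum_neg_distrib]
      rw [← sub_eq_add_neg, hp, hqv]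
    · ext i j
      simp only [Matrix.one_mul, Matrix.add_apply, Matrix.of_apply, Matrix.mul_apply, neg_mul,
        Finset.sum_neg_distrib, Matrix.gram_apply, Matrix.zero_apply]
      rw [← sub_eq_add_neg, hp, hq]
    · simp
    · simp
  have h := congrArg Matrix.det hTM
  rw [Matrix.det_mul, hTdet, one_mul, Matrix.det_fromBlocks_zero₁₂] at h
  rw [h, Matrix.det_unique, Matrix.of_apply]

theorem main : S_fischer := by
  intro E _ _ a b c x y z
  induction c with
  | zero =>
    have h1 : Gd (Sum.elim (Sum.elim x y) z) = Gd (Sum.elim x y) :=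
      Gd_equiv _ _ (Equiv.sumEmpty _ _) (by
        rintro (i | i)
        · rfl
        · exact i.elim0)
    have h2 : Gd (Sum.elim x z) = Gd x :=
      Gd_equiv _ _ (Equiv.sumEmpty _ _) (by
        rintro (i | i)
        · rfl
        · exact i.elim0)
    rw [h1, h2]
  | succ c ih =>
    set z' : Fin c → E := fun i => z i.succ with hz'
    set v : E := z 0 with hv
    have key : ∀ (ι : Type) [Fintype ι] [DecidableEq ι] (w : ι → E),
        Gd (Sum.elim w z) = Gd (Sum.elim (fun _ : Unit => v) (Sum.elim w z')) := by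
      intro ι _ _ w
      let e : ι ⊕ Fin (c + 1) ≃ Unit ⊕ (ι ⊕ Fin c) :=
        { toFun := Sum.elim (fun i => Sum.inr (Sum.inl i))
            (Fin.cases (Sum.inl ()) (fun j => Sum.inr (Sum.inr j)))
          invFun := Sum.elim (fun _ => Sum.inr 0) (Sum.elim Sum.inl (fun j => Sum.inr j.succ))
          left_inv := by
            rintro (i | i)
            · rfl
            · refine Fin.cases ?_ (fun j => ?_) i <;> simp
          right_inv := by
            rintro (i | (i | i)) <;> simp }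
      refine Gd_equiv _ _ e ?_
      rintro (i | i)
      · rfl
      · refine Fin.cases ?_ (fun j => ?_) i
        · simp [e, hv]
        · simp [e, hz']
    obtain ⟨c1, q1, hv1, hq1, hm1⟩ := exists_proj (Sum.elim (Sum.elim x y) z') v
    obtain ⟨c2, q2, hv2, hq2, -⟩ := exists_proj (Sum.elim x z') v
    rw [key, key, Gd_add _ v c1 q1 hv1 hq1, Gd_add _ v c2 q2 hv2 hq2]
    have hle : ‖q1‖ ≤ ‖q2‖ := by
      have h1 := hm1 (∑ i, c2 i • Sum.elim x z' i) (by
        apply Submodule.sum_mem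
        intro i _
        apply Submodule.smul_mem
        apply Submodule.subset_span
        rcases i with i | i
        · exact ⟨Sum.inl (Sum.inl i), rfl⟩
        · exact ⟨Sum.inr i, rfl⟩)
      have h2 : v - ∑ i, c2 i • Sum.elim x z' i = q2 := by
        rw [hv2]; abel
      rwa [h2] at h1
    have h0 := ih z'
    have g1 := Gd_nonneg (Sum.elim x z')
    have g2 := Gd_nonneg (Sum.elim x y)
    have hsq : ‖q1‖ ^ 2 ≤ ‖q2‖ ^ 2 := pow_le_pow_left₀ (norm_nonneg _) hle 2
    calc ‖q1‖ ^ 2 * Gd (Sum.elim (Sum.elim x y) z') * Gd x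
        = ‖q1‖ ^ 2 * (Gd (Sum.elim (Sum.elim x y) z') * Gd x) := by ring
      _ ≤ ‖q1‖ ^ 2 * (Gd (Sum.elim x y) * Gd (Sum.elim x z')) := by gcongr
      _ ≤ ‖q2‖ ^ 2 * (Gd (Sum.elim x y) * Gd (Sum.elim x z')) := by gcongr
      _ = Gd (Sum.elim x y) * (‖q2‖ ^ 2 * Gd (Sum.elim x z')) := by ring

end Pool.Agent.N3.ST.A
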