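import Pool.Agent.N3.ST.Stm
import Pool.Agent.H393R2.Geom2

/-!
# Project ST, job B: Minkowski's theorem for the lattice of an independent tuple
-/

set_option autoImplicit false

open scoped MatrixOrder

namespace Pool.Agent.N3.ST.B

open Pool.Agent.N3.ST

lemma norm_sq_eq {E : Type} [NormedAddCommGroup E] [InnerProductSpace ℝ E] {k : ℕ}
    (x : Fin k → E) (B : Matrix (Fin k) (Fin k) ℝ) (hB : Matrix.gram ℝ x = B.conjTranspose * B)
    (m : Fin k → ℝ) : ‖∑ i, m i • x i‖ ^ 2 = ∑ l, (B.mulVec m l) ^ 2 := by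
  have h := Matrix.star_dotProduct_gram_mulVec (𝕜 := ℝ) x m m
  rw [real_inner_self_eq_norm_sq] at h
  rw [← h, hB, ← Matrix.mulVec_mulVec, Matrix.dotProduct_mulVec, Matrix.vecMul_conjTranspose,
    star_star]
  simp only [dotProduct, Pi.star_apply, star_trivial]
  exact Finset.sum_congr rfl fun l _ => by ring

theorem main : S_mink := by
  intro k
  refine ⟨(1 / √(k : ℝ)) ^ k, ?_, ?_⟩
  · rcases Nat.eq_zero_or_pos k with rfl | hk
    · simp
    · have : (0 : ℝ) < k := by exact_mod_cast hk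
      positivity
  intro E _ _ x ρ hρ hx hlt
  rcases Nat.eq_zero_or_pos k with rfl | hk
  · exfalso
    simp [Gd] at hlt
  have hk0 : (0 : ℝ) < k := by exact_mod_cast hk
  have hpos : (Matrix.gram ℝ x).PosDef := Matrix.posDef_gram_iff_linearIndependent.2 hx
  obtain ⟨B, hB⟩ := CStarAlgebra.nonneg_iff_eq_star_mul_self.mp hpos.posSemidef.nonneg
  rw [Matrix.star_eq_conjTranspose] at hB
  have hdet : Gd x = B.det ^ 2 := by
    unfold Gd
    rw [hB, Matrix.det_mul, Matrix.det_conjTranspose, star_trivial, sq]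
  have hdet0 : B.det ≠ 0 := by
    intro h0
    have h1 := hpos.det_pos
    unfold Gd at hdet
    rw [hdet, h0] at h1
    norm_num at h1
  have habs : √(Gd x) = |B.det| := by rw [hdet, Real.sqrt_sq_eq_abs]
  obtain ⟨m, hm0, hm⟩ := Pool.Agent.H393R2.Geom.minkowski_forms B hdet0
    (fun _ => ρ / √(k : ℝ)) (fun _ => by positivity) (by
      rw [← habs, Finset.prod_const, Finset.card_univ, Fintype.card_fin]
      refine hlt.trans_le (le_of_eq ?_)
      rw [← mul_pow]
      congr 1
      ring)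
  refine ⟨m, hm0, ?_⟩
  have h1 := norm_sq_eq x B hB (fun i => (m i : ℝ))
  have h2 : ∑ l, (B.mulVec (fun i => (m i : ℝ)) l) ^ 2 ≤ ρ ^ 2 := by
    calc ∑ l, (B.mulVec (fun i => (m i : ℝ)) l) ^ 2 ≤ ∑ _l : Fin k, (ρ / √(k : ℝ)) ^ 2 := by
          refine Finset.sum_le_sum fun l _ => ?_
          have h3 := hm l
          rw [Pool.Agent.H393R2.Geom.app_apply] at h3
          exact sq_le_sq' (by linarith [(abs_le.1 h3).1]) (abs_le.1 h3).2
      _ = ρ ^ 2 := by
          rw [Finset.sum_const, Finset.card_univ, Fintype.card_fin, nsmul_eq_mul, div_pow,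
            Real.sq_sqrt hk0.le]
          field_simp
  rw [← h1] at h2
  exact le_of_sq_le_sq h2 hρ.le

end Pool.Agent.N3.ST.B
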