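import Pool.Agent.N3.ST.Stm

/-!
# Project ST (helper3), part C: many points in a ball have small covolume (helper186)
-/

set_option autoImplicit false

open Set

namespace Pool.Agent.N3.ST.C

open Pool.Agent.N3.ST

variable {E : Type} [NormedAddCommGroup E] [InnerProductSpace ℝ E]

lemma card_image_le_of_factor {α β γ : Type*} [DecidableEq β] [DecidableEq γ] (S : Finset α)
    (F : α → β) (f : α → γ) (h : ∀ s ∈ S, ∀ s' ∈ S, F s = F s' → f s = f s') :
    (S.image f).card ≤ (S.image F).card := by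
  classical
  rcases S.eq_empty_or_nonempty with rfl | ⟨s₀, hs₀⟩
  · simp
  let H : β → γ := fun b => if hb : ∃ s ∈ S, F s = b then f (Classical.choose hb) else f s₀
  have hH : ∀ s ∈ S, H (F s) = f s := by
    intro s hs
    have hb : ∃ s' ∈ S, F s' = F s := ⟨s, hs, rfl⟩
    have : H (F s) = f (Classical.choose hb) := by
      simp only [H]
      rw [dif_pos hb]
    rw [this]
    exact h _ (Classical.choose_spec hb).1 _ hs (Classical.choose_spec hb).2
  have : S.image f ⊆ (S.image F).image H := by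
    intro c hc
    obtain ⟨s, hs, rfl⟩ := Finset.mem_image.1 hc
    exact Finset.mem_image.2 ⟨F s, Finset.mem_image_of_mem _ hs, hH s hs⟩
  exact (Finset.card_le_card this).trans Finset.card_image_le

/-- The Gram determinant of a tuple with one more vector. -/
lemma Gd_cons {n : ℕ} (l : Fin n → E) (v p : E) (hp : p ∈ Submodule.span ℝ (range l))
    (hq : ∀ i, inner ℝ (v - p) (l i) = 0) :
    Gd (Fin.cons v l : Fin (n + 1) → E) = ‖v - p‖ ^ 2 * Gd l := by
  obtain ⟨c, hc⟩ := (Submodule.mem_span_range_iff_exists_fun ℝ).1 hp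
  unfold Gd
  set A : Matrix (Fin (n + 1)) (Fin (n + 1)) ℝ :=
    Matrix.gram ℝ (Fin.cons v l : Fin (n + 1) → E) with hA
  let d : Fin (n + 1) → ℝ := Fin.cons 1 (fun i => - c i)
  have h1 := Matrix.det_updateRow_sum A 0 d
  have hd0 : d 0 = 1 := rfl
  rw [hd0, one_smul] at h1
  have hrow : ∀ j, (∑ k, d k • A k) j = inner ℝ (v - p) ((Fin.cons v l : Fin (n + 1) → E) j) := by
    intro j
    rw [Finset.sum_apply, Fin.sum_univ_succ]
    simp only [Pi.smul_apply, smul_eq_mul, hd0, one_mul, hA, Matrix.gram_apply, Fin.cons_zero,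
      Fin.cons_succ, d]
    rw [← hc, inner_sub_left, sum_inner]
    simp only [inner_smul_left, neg_mul, Finset.sum_neg_distrib]
    rfl
  have hpq : inner ℝ (v - p) p = 0 := by
    have : inner ℝ (v - p) (∑ i, c i • l i) = 0 := by
      rw [inner_sum]
      refine Finset.sum_eq_zero (fun i _ => ?_)
      rw [inner_smul_right, hq i, mul_zero]
    rwa [hc] at this
  have h0 : (∑ k, d k • A k) 0 = ‖v - p‖ ^ 2 := by
    rw [hrow 0, Fin.cons_zero]
    have : inner ℝ (v - p) v = inner ℝ (v - p) (v - p) + inner ℝ (v - p) p := by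
      rw [← inner_add_right]; congr 1; abel
    rw [this, hpq, add_zero, real_inner_self_eq_norm_sq]
  have hs : ∀ j : Fin n, (∑ k, d k • A k) j.succ = 0 := by
    intro j
    rw [hrow, Fin.cons_succ, hq j]
  rw [← h1, Matrix.det_succ_row_zero, Fin.sum_univ_succ]
  have hz : ∑ i : Fin n, (-1 : ℝ) ^ ((i.succ : Fin (n + 1)) : ℕ) *
      (A.updateRow 0 (∑ k, d k • A k)) 0 i.succ *
      ((A.updateRow 0 (∑ k, d k • A k)).submatrix Fin.succ i.succ.succAbove).det = 0 := by
    refine Finset.sum_eq_zero (fun i _ => ?_)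
    rw [Matrix.updateRow_self, hs i, mul_zero, zero_mul]
  rw [hz, add_zero, Matrix.updateRow_self, h0]
  simp only [Fin.val_zero, pow_zero, one_mul]
  congr 2

/-- The number of classes of `S` modulo the span of `l`. -/
noncomputable def Nc (S : Finset E) {n : ℕ} (l : Fin n → E) : ℕ := by
  classical
  exact (S.image (Submodule.mkQ (Submodule.span ℝ (range l)))).card

open Classical in
lemma step [FiniteDimensional ℝ E] (S : Finset E) (R : ℝ) (hR : 0 < R) (hS : ∀ s ∈ S, ‖s‖ ≤ R)
    {n : ℕ} (l : Fin n → E)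
    (hx : ∃ s ∈ S, ∃ s' ∈ S, s - s' ∉ Submodule.span ℝ (range l)) :
    ∃ v : E, (∃ s ∈ S, ∃ s' ∈ S, v = s - s') ∧ v ∉ Submodule.span ℝ (range l) ∧
      √(Gd (Fin.cons v l : Fin (n + 1) → E)) * (Nc S l : ℝ) ≤
        (6 * R) * √(Gd l) * (Nc S (Fin.cons v l : Fin (n + 1) → E) : ℝ) := by
  set W := Submodule.span ℝ (range l) with hW
  let T : Finset E := ((S ×ˢ S).image (fun p => p.1 - p.2)).filter (fun v => v ∉ W)
  have hT : T.Nonempty := by
    obtain ⟨s, hs, s', hs', h⟩ := hx
    exact ⟨s - s', Finset.mem_filter.2 ⟨Finset.mem_image.2 ⟨(s, s'),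
      Finset.mem_product.2 ⟨hs, hs'⟩, rfl⟩, h⟩⟩
  obtain ⟨v, hvT, hmin⟩ := Finset.exists_min_image T (fun v => ‖v - W.starProjection v‖) hT
  obtain ⟨hv1, hvW⟩ := Finset.mem_filter.1 hvT
  obtain ⟨⟨s₀, s₀'⟩, hss, hv⟩ := Finset.mem_image.1 hv1
  obtain ⟨hs₀, hs₀'⟩ := Finset.mem_product.1 hss
  simp only at hv hs₀ hs₀'
  refine ⟨v, ⟨s₀, hs₀, s₀', hs₀', hv.symm⟩, hvW, ?_⟩
  set q := v - W.starProjection v with hqdef
  have hqW : ∀ w ∈ W, inner ℝ q w = 0 := by
    intro w hw
    exact Submodule.starProjection_inner_eq_zero v w hw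
  have hq0 : q ≠ 0 := by
    intro h
    apply hvW
    have : v = W.starProjection v := by rw [← sub_eq_zero]; exact h
    rw [this]
    exact Submodule.starProjection_apply_mem W v
  set D := ‖q‖ with hD
  have hDpos : 0 < D := norm_pos_iff.2 hq0
  have hGd : Gd (Fin.cons v l : Fin (n + 1) → E) = D ^ 2 * Gd l :=
    Gd_cons l v (W.starProjection v) (Submodule.starProjection_apply_mem W v)
      (fun i => hqW _ (Submodule.subset_span ⟨i, rfl⟩))
  have hsq : √(Gd (Fin.cons v l : Fin (n + 1) → E)) = D * √(Gd l) := by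
    rw [hGd, Real.sqrt_mul (by positivity), Real.sqrt_sq hDpos.le]
  have hqv : inner ℝ q v = D ^ 2 := by
    have : v = q + W.starProjection v := by rw [hqdef]; abel
    rw [this, inner_add_right, hqW _ (Submodule.starProjection_apply_mem W v), add_zero,
      real_inner_self_eq_norm_sq]
  -- the function psi
  set ψ : E → ℝ := fun s => inner ℝ q s / D with hψ
  have hψb : ∀ s ∈ S, |ψ s| ≤ R := by
    intro s hs
    have : |inner ℝ q s| ≤ D * ‖s‖ := abs_real_inner_le_norm q s
    rw [hψ]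
    simp only
    rw [abs_div, abs_of_pos hDpos, div_le_iff₀ hDpos]
    have h2 := hS s hs
    nlinarith
  have hvl : range (Fin.cons v l : Fin (n + 1) → E) = insert v (range l) := Fin.range_cons v l
  -- separation
  have hsep : ∀ s ∈ S, ∀ s' ∈ S,
      (Submodule.span ℝ (range (Fin.cons v l : Fin (n + 1) → E))).mkQ s =
        (Submodule.span ℝ (range (Fin.cons v l : Fin (n + 1) → E))).mkQ s' →
      |ψ s - ψ s'| < D → W.mkQ s = W.mkQ s' := by
    intro s hs s' hs' he hlt
    rw [Submodule.mkQ_apply, Submodule.mkQ_apply, Submodule.Quotient.eq, hvl,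
      Submodule.mem_span_insert] at he
    obtain ⟨c, w, hw, hcw⟩ := he
    rw [Submodule.mkQ_apply, Submodule.mkQ_apply, Submodule.Quotient.eq]
    by_contra hne
    have hmem : s - s' ∈ T := Finset.mem_filter.2 ⟨Finset.mem_image.2 ⟨(s, s'),
      Finset.mem_product.2 ⟨hs, hs'⟩, rfl⟩, hne⟩
    have h1 := hmin _ hmem
    have h2 : s - s' - W.starProjection (s - s') = c • q := by
      rw [hcw, map_add, map_smul, Submodule.starProjection_eq_self_iff.2 hw, hqdef, smul_sub]
      abel
    rw [h2, norm_smul, Real.norm_eq_abs] at h1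
    have h3 : ψ s - ψ s' = c * D := by
      rw [hψ]
      simp only
      rw [← sub_div, ← inner_sub_right, hcw, inner_add_right, inner_smul_right, hqv,
        hqW w hw, add_zero]
      field_simp
    rw [h3, abs_mul, abs_of_pos hDpos] at hlt
    exact absurd h1 (not_le.2 hlt)
  set M : ℕ := ⌊2 * R / D⌋₊ with hM
  have hcount : (Nc S l : ℕ) ≤ Nc S (Fin.cons v l : Fin (n + 1) → E) * (M + 1) := by
    have h1 := card_image_le_of_factor S
      (fun s => ((Submodule.span ℝ (range (Fin.cons v l : Fin (n + 1) → E))).mkQ s,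
        ⌊(ψ s + R) / D⌋₊)) W.mkQ (by
        intro s hs s' hs' he
        simp only [Prod.mk.injEq] at he
        refine hsep s hs s' hs' he.1 ?_
        have ha : 0 ≤ (ψ s + R) / D := by
          have := (abs_le.1 (hψb s hs)).1
          apply div_nonneg _ hDpos.le
          linarith
        have hb : 0 ≤ (ψ s' + R) / D := by
          have := (abs_le.1 (hψb s' hs')).1
          apply div_nonneg _ hDpos.le
          linarith
        have h1 := Nat.floor_le ha
        have h2 := Nat.lt_floor_add_one ((ψ s + R) / D)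
        have h3 := Nat.floor_le hb
        have h4 := Nat.lt_floor_add_one ((ψ s' + R) / D)
        rw [he.2] at h1 h2
        have h5 : |(ψ s + R) / D - (ψ s' + R) / D| < 1 := by
          rw [abs_lt]; constructor <;> linarith
        have h6 : (ψ s + R) / D - (ψ s' + R) / D = (ψ s - ψ s') / D := by ring
        rw [h6, abs_div, abs_of_pos hDpos, div_lt_one hDpos] at h5
        exact h5)
    refine h1.trans ?_
    have h2 : S.image (fun s => ((Submodule.span ℝ
        (range (Fin.cons v l : Fin (n + 1) → E))).mkQ s, ⌊(ψ s + R) / D⌋₊)) ⊆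
        (S.image (Submodule.mkQ (Submodule.span ℝ
          (range (Fin.cons v l : Fin (n + 1) → E))))) ×ˢ (Finset.range (M + 1)) := by
      intro c hc
      obtain ⟨s, hs, rfl⟩ := Finset.mem_image.1 hc
      refine Finset.mem_product.2 ⟨Finset.mem_image_of_mem _ hs, Finset.mem_range.2 ?_⟩
      refine Nat.lt_succ_of_le (Nat.floor_le_floor ?_)
      have := (abs_le.1 (hψb s hs)).2
      gcongr
      linarith
    refine (Finset.card_le_card h2).trans ?_
    rw [Finset.card_product, Finset.card_range]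
    exact le_of_eq rfl
  have hD2 : D ≤ 2 * R := by
    have h1 : D * D ≤ D * ‖v‖ := by
      have := real_inner_le_norm q v
      rw [hqv] at this
      nlinarith
    have h2 : D ≤ ‖v‖ := le_of_mul_le_mul_left h1 hDpos
    have h3 : ‖v‖ ≤ R + R := by
      rw [← hv]
      exact (norm_sub_le _ _).trans (add_le_add (hS _ hs₀) (hS _ hs₀'))
    linarith
  have hM1 : D * ((M : ℝ) + 1) ≤ 6 * R := by
    have h1 : (M : ℝ) ≤ 2 * R / D := Nat.floor_le (by positivity)
    have h2 : D * (M : ℝ) ≤ 2 * R := by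
      calc D * (M : ℝ) ≤ D * (2 * R / D) := by gcongr
        _ = 2 * R := by field_simp
    nlinarith
  have hc2 : (Nc S l : ℝ) ≤ (Nc S (Fin.cons v l : Fin (n + 1) → E) : ℝ) * ((M : ℝ) + 1) := by
    exact_mod_cast hcount
  rw [hsq]
  have hg : 0 ≤ √(Gd l) := Real.sqrt_nonneg _
  have hN : (0 : ℝ) ≤ (Nc S (Fin.cons v l : Fin (n + 1) → E) : ℝ) := Nat.cast_nonneg _
  calc D * √(Gd l) * (Nc S l : ℝ)
      ≤ D * √(Gd l) * ((Nc S (Fin.cons v l : Fin (n + 1) → E) : ℝ) * ((M : ℝ) + 1)) := by gcongr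
    _ = (D * ((M : ℝ) + 1)) * (√(Gd l) * (Nc S (Fin.cons v l : Fin (n + 1) → E) : ℝ)) := by ring
    _ ≤ (6 * R) * (√(Gd l) * (Nc S (Fin.cons v l : Fin (n + 1) → E) : ℝ)) := by gcongr
    _ = _ := by ring

open Classical in
lemma Nc_le_one (S : Finset E) {n : ℕ} (l : Fin n → E)
    (h : ∀ s ∈ S, ∀ s' ∈ S, s - s' ∈ Submodule.span ℝ (range l)) : Nc S l ≤ 1 := by
  unfold Nc
  rw [Finset.card_le_one]
  intro a ha b hb
  obtain ⟨s, hs, rfl⟩ := Finset.mem_image.1 ha
  obtain ⟨s', hs', rfl⟩ := Finset.mem_image.1 hb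
  rw [Submodule.mkQ_apply, Submodule.mkQ_apply, Submodule.Quotient.eq]
  exact h s hs s' hs'

lemma induct [FiniteDimensional ℝ E] (S : Finset E) (R : ℝ) (hR : 0 < R) (hS : ∀ s ∈ S, ‖s‖ ≤ R) (m : ℕ) :
    ∀ (n : ℕ) (l : Fin n → E), (∀ i, ∃ s ∈ S, ∃ s' ∈ S, l i = s - s') →
      LinearIndependent ℝ l → Module.finrank ℝ E ≤ n + m →
      ∃ (j k : ℕ) (b : Fin k → E), (∀ i, ∃ s ∈ S, ∃ s' ∈ S, b i = s - s') ∧
        LinearIndependent ℝ b ∧ k = n + j ∧
        √(Gd b) * (Nc S l : ℝ) ≤ √(Gd l) * (6 * R) ^ j := by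
  induction m with
  | zero =>
    intro n l hl hli hfin
    refine ⟨0, n, l, hl, hli, rfl, ?_⟩
    have hN : Nc S l ≤ 1 := by
      apply Nc_le_one
      intro s _ s' _
      by_contra hcon
      have h2 : LinearIndependent ℝ (Fin.cons (s - s') l : Fin (n + 1) → E) :=
        linearIndependent_finCons.2 ⟨hli, hcon⟩
      have h3 := h2.fintype_card_le_finrank
      rw [Fintype.card_fin] at h3
      omega
    have : (Nc S l : ℝ) ≤ 1 := by exact_mod_cast hN
    have hg : 0 ≤ √(Gd l) := Real.sqrt_nonneg _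
    rw [pow_zero]
    gcongr
  | succ m ih =>
    intro n l hl hli hfin
    by_cases hall : ∀ s ∈ S, ∀ s' ∈ S, s - s' ∈ Submodule.span ℝ (range l)
    · refine ⟨0, n, l, hl, hli, rfl, ?_⟩
      have hN : Nc S l ≤ 1 := Nc_le_one S l hall
      have : (Nc S l : ℝ) ≤ 1 := by exact_mod_cast hN
      have hg : 0 ≤ √(Gd l) := Real.sqrt_nonneg _
      rw [pow_zero]
      gcongr
    · push Not at hall
      obtain ⟨v, hv, hvW, hstep⟩ := step S R hR hS l hall
      have hli2 : LinearIndependent ℝ (Fin.cons v l : Fin (n + 1) → E) :=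
        linearIndependent_finCons.2 ⟨hli, hvW⟩
      obtain ⟨j, k, b, hb, hbli, hk, hineq⟩ := ih (n + 1) (Fin.cons v l : Fin (n + 1) → E)
        (fun i => by
          refine Fin.cases ?_ ?_ i
          · simpa using hv
          · intro i; simpa using hl i) hli2 (by omega)
      refine ⟨j + 1, k, b, hb, hbli, by omega, ?_⟩
      -- combine
      set N' := (Nc S (Fin.cons v l : Fin (n + 1) → E) : ℝ) with hN'
      set g' := √(Gd (Fin.cons v l : Fin (n + 1) → E)) with hg'
      have hg'0 : 0 < g' := by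
        rw [hg']
        apply Real.sqrt_pos.2
        exact (Matrix.posDef_gram_of_linearIndependent hli2).det_pos
      have hb0 : 0 ≤ √(Gd b) := Real.sqrt_nonneg _
      have h6 : 0 ≤ 6 * R := by positivity
      have key : g' * (√(Gd b) * (Nc S l : ℝ)) ≤ g' * (√(Gd l) * (6 * R) ^ (j + 1)) := by
        calc g' * (√(Gd b) * (Nc S l : ℝ)) = √(Gd b) * (g' * (Nc S l : ℝ)) := by ring
          _ ≤ √(Gd b) * ((6 * R) * √(Gd l) * N') := by gcongr
          _ = ((6 * R) * √(Gd l)) * (√(Gd b) * N') := by ring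
          _ ≤ ((6 * R) * √(Gd l)) * (g' * (6 * R) ^ j) := by gcongr
          _ = g' * (√(Gd l) * (6 * R) ^ (j + 1)) := by ring
      exact le_of_mul_le_mul_left key hg'0

theorem main : S_count := by
  intro E _ _ _ S R hR hSne hS
  classical
  obtain ⟨j, k, b, hb, hbli, hk, hineq⟩ := induct S R hR hS (Module.finrank ℝ E) 0
    (Fin.elim0 : Fin 0 → E) (fun i => i.elim0) linearIndependent_empty_type (by omega)
  have hkj : k = j := by omega
  subst hkj
  refine ⟨k, b, hb, hbli, ?_⟩
  have hG : Gd (Fin.elim0 : Fin 0 → E) = 1 := by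
    unfold Gd
    exact Matrix.det_isEmpty
  have hN : Nc S (Fin.elim0 : Fin 0 → E) = S.card := by
    unfold Nc
    apply Finset.card_image_of_injective
    intro a c hac
    rw [Submodule.mkQ_apply, Submodule.mkQ_apply, Submodule.Quotient.eq] at hac
    have : Submodule.span ℝ (range (Fin.elim0 : Fin 0 → E)) = ⊥ := by
      rw [Submodule.span_eq_bot]
      rintro x ⟨i, _⟩
      exact i.elim0
    rw [this, Submodule.mem_bot, sub_eq_zero] at hac
    exact hac
  rw [hN, hG, Real.sqrt_one, one_mul] at hineq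
  exact hineq

end Pool.Agent.N3.ST.C
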