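import Pool.Agent.N3.ST.Stm
import Pool.Agent.H801R3.SB.CB
import Pool.Agent.Helper404.Sublevel

/-!
# Task ST/D: Remez inequality for the covolume of a moving frame
-/

set_option autoImplicit false

open MeasureTheory Set
open scoped Pointwise

namespace Pool.Agent.N3.ST.D

variable {k r d : ℕ}

/-- the matrix of the frame, with polynomial entries -/
noncomputable def Pp (p : Fin k → Fin r → ℝ) (y z : Fin k → Fin d → ℝ) :
    Matrix (Fin k) (Fin r ⊕ Fin d) (Polynomial ℝ) :=
  fun i => Sum.elim (fun j => Polynomial.C (p i j))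
    (fun j => Polynomial.C (y i j) + Polynomial.X * Polynomial.C (z i j))

/-- the matrix of the frame -/
noncomputable def Pm (p : Fin k → Fin r → ℝ) (y z : Fin k → Fin d → ℝ) (t : ℝ) :
    Matrix (Fin k) (Fin r ⊕ Fin d) ℝ :=
  fun i => Sum.elim (p i) (fun j => y i j + t * z i j)

/-- the minors as polynomials -/
noncomputable def q (p : Fin k → Fin r → ℝ) (y z : Fin k → Fin d → ℝ)
    (a : Fin k → Fin r ⊕ Fin d) : Polynomial ℝ := ((Pp p y z).submatrix id a).det

theorem q_eval (p : Fin k → Fin r → ℝ) (y z : Fin k → Fin d → ℝ) (a : Fin k → Fin r ⊕ Fin d)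
    (t : ℝ) : (q p y z a).eval t = ((Pm p y z t).submatrix id a).det := by
  unfold q
  have h := RingHom.map_det (Polynomial.evalRingHom t) ((Pp p y z).submatrix id a)
  rw [Polynomial.coe_evalRingHom] at h
  rw [h]
  congr 1
  ext i j
  simp only [RingHom.mapMatrix_apply, Matrix.map_apply, Matrix.submatrix_apply, id]
  unfold Pp Pm
  rcases a j with j' | j'
  · simp
  · simp
    ring

theorem natDegree_entry (p : Fin k → Fin r → ℝ) (y z : Fin k → Fin d → ℝ) (i : Fin k)
    (c : Fin r ⊕ Fin d) : (Pp p y z i c).natDegree ≤ if c.isRight then 1 else 0 := by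
  unfold Pp
  rcases c with c | c
  · simp
  · simp only [Sum.elim_inr, Sum.isRight_inr, if_true]
    refine (Polynomial.natDegree_add_le _ _).trans ?_
    refine max_le ?_ ?_
    · rw [Polynomial.natDegree_C]; exact Nat.zero_le _
    · refine (Polynomial.natDegree_mul_le).trans ?_
      rw [Polynomial.natDegree_C, Polynomial.natDegree_X]

theorem q_natDegree (p : Fin k → Fin r → ℝ) (y z : Fin k → Fin d → ℝ)
    (a : Fin k → Fin r ⊕ Fin d) : (q p y z a).natDegree ≤ d := by
  by_cases ha : Function.Injective a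
  · have hcard : ∑ i : Fin k, (if (a i).isRight then 1 else 0) ≤ d := by
      rw [← Finset.card_filter]
      have h1 : (Finset.univ.filter fun i => (a i).isRight = true).card ≤
          ((Finset.univ : Finset (Fin d)).image (Sum.inr : Fin d → Fin r ⊕ Fin d)).card := by
        refine Finset.card_le_card_of_injOn a ?_ (fun i _ j _ hij => ha hij)
        intro i hi
        rw [Finset.mem_coe, Finset.mem_filter] at hi
        obtain ⟨c, hc⟩ := Sum.isRight_iff.1 hi.2
        rw [Finset.mem_coe, Finset.mem_image]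
        exact ⟨c, Finset.mem_univ _, hc.symm⟩
      refine h1.trans (Finset.card_image_le.trans ?_)
      rw [Finset.card_univ, Fintype.card_fin]
    unfold q
    rw [Matrix.det_apply]
    refine Polynomial.natDegree_sum_le_of_forall_le _ _ fun σ _ => ?_
    refine (Polynomial.natDegree_smul_le _ _).trans ?_
    refine (Polynomial.natDegree_prod_le _ _).trans ?_
    refine le_trans (Finset.sum_le_sum fun i _ => ?_) hcard
    exact natDegree_entry p y z (σ i) (a i)
  · have : q p y z a = 0 := by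
      simp only [Function.Injective, not_forall] at ha
      obtain ⟨i, j, hij, hne⟩ := ha
      unfold q
      refine Matrix.det_zero_of_column_eq hne fun l => ?_
      simp only [Matrix.submatrix_apply, hij]
    rw [this, Polynomial.natDegree_zero]
    exact Nat.zero_le _

theorem Gd_eq (p : Fin k → Fin r → ℝ) (y z : Fin k → Fin d → ℝ) (t : ℝ) :
    Gd (fr p y z t) = (k.factorial : ℝ)⁻¹ *
      ∑ a : Fin k → Fin r ⊕ Fin d, ((q p y z a).eval t) ^ 2 := by
  have h1 : Matrix.gram ℝ (fr p y z t) = Pm p y z t * (Pm p y z t).transpose := by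
    ext i j
    rw [Matrix.gram_apply, Matrix.mul_apply, PiLp.inner_apply]
    refine Finset.sum_congr rfl fun c _ => ?_
    simp only [Matrix.transpose_apply]
    unfold fr Pm
    rcases c with c | c
    · simp [mul_comm]
    · simp [mul_comm]
  unfold Gd
  rw [h1, Pool.Agent.H801R3.SB.cauchyBinet]
  congr 1
  refine Finset.sum_congr rfl fun a _ => ?_
  have h2 : (Pm p y z t).transpose.submatrix a id = ((Pm p y z t).submatrix id a).transpose := rfl
  rw [h2, Matrix.det_transpose, q_eval, sq]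

theorem main : S_remez := by
  intro k r d hd
  have hN0 : (0 : ℝ) < ((r + d : ℕ) : ℝ) ^ k := by
    have : 0 < r + d := by omega
    have : (0 : ℝ) < ((r + d : ℕ) : ℝ) := by exact_mod_cast this
    positivity
  obtain ⟨N, hN⟩ : ∃ N : ℝ, N = ((r + d : ℕ) : ℝ) ^ k := ⟨_, rfl⟩
  rw [← hN] at hN0
  have hcardN : ((Fintype.card (Fin k → Fin r ⊕ Fin d) : ℕ) : ℝ) = N := by
    rw [hN]; simp
  refine ⟨4 * (d + 1) ^ 2 * (Real.sqrt N) ^ (1 / (d : ℝ)), by positivity, ?_⟩
  intro p y z a l M η hl hM hη ⟨t0, ht0, hMt0⟩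
  have hf0 : (0 : ℝ) < k.factorial := by exact_mod_cast Nat.factorial_pos k
  -- a large minor
  have hM2 : M ^ 2 ≤ Gd (fr p y z t0) := by
    rw [← Real.le_sqrt' hM]
    exact hMt0
  rw [Gd_eq, inv_mul_eq_div, le_div_iff₀ hf0] at hM2
  obtain ⟨c, hc⟩ : ∃ c : Fin k → Fin r ⊕ Fin d,
      M ^ 2 * k.factorial / N ≤ ((q p y z c).eval t0) ^ 2 := by
    by_contra hcon
    push Not at hcon
    have hne : (Finset.univ : Finset (Fin k → Fin r ⊕ Fin d)).Nonempty := by
      rw [Finset.univ_nonempty_iff, ← Fintype.card_pos_iff]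
      have : (0 : ℝ) < ((Fintype.card (Fin k → Fin r ⊕ Fin d) : ℕ) : ℝ) := by
        rw [hcardN]; exact hN0
      exact_mod_cast this
    have h1 : ∑ a : Fin k → Fin r ⊕ Fin d, ((q p y z a).eval t0) ^ 2 <
        ∑ _a : Fin k → Fin r ⊕ Fin d, M ^ 2 * k.factorial / N :=
      Finset.sum_lt_sum_of_nonempty hne fun a _ => hcon a
    rw [Finset.sum_const, Finset.card_univ, nsmul_eq_mul, hcardN] at h1
    have h2 : N * (M ^ 2 * k.factorial / N) = M ^ 2 * k.factorial := by field_simp
    rw [h2] at h1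
    linarith
  obtain ⟨ρ, hρ⟩ : ∃ ρ : ℝ, ρ = M * Real.sqrt k.factorial / Real.sqrt N := ⟨_, rfl⟩
  have hsN : 0 < Real.sqrt N := Real.sqrt_pos.2 hN0
  have hsf : 0 < Real.sqrt (k.factorial : ℝ) := Real.sqrt_pos.2 hf0
  have hρ0 : 0 < ρ := by rw [hρ]; positivity
  have hρle : ρ ≤ |(q p y z c).eval t0| := by
    refine abs_le_of_sq_le_sq' ?_ (abs_nonneg _) |>.2
    rw [sq_abs, hρ, div_pow, mul_pow, Real.sq_sqrt hf0.le, Real.sq_sqrt hN0.le]
    exact hc
  have hsub : {t ∈ Ico a (a + l) | √(Gd (fr p y z t)) < η} ⊆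
      {t ∈ Ico a (a + l) | |(q p y z c).eval t| < Real.sqrt k.factorial * η} := by
    rintro t ⟨ht, htη⟩
    refine ⟨ht, ?_⟩
    have h1 : Gd (fr p y z t) < η ^ 2 := by
      rwa [Real.sqrt_lt' hη] at htη
    rw [Gd_eq, inv_mul_eq_div, div_lt_iff₀ hf0] at h1
    have h2 : ((q p y z c).eval t) ^ 2 ≤ ∑ a : Fin k → Fin r ⊕ Fin d, ((q p y z a).eval t) ^ 2 :=
      Finset.single_le_sum (f := fun a => ((q p y z a).eval t) ^ 2) (fun a _ => sq_nonneg _)
        (Finset.mem_univ c)
    refine abs_lt_of_sq_lt_sq ?_ (by positivity)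
    rw [mul_pow, Real.sq_sqrt hf0.le]
    linarith
  refine (measure_mono hsub).trans ?_
  refine (Pool.Agent.Helper404.sublevel d hd (q p y z c) (q_natDegree p y z c) a l hl t0 ρ
    (Real.sqrt k.factorial * η) ht0 hρ0 hρle (by positivity)).trans (le_of_eq ?_)
  rw [← ENNReal.ofReal_mul (by positivity)]
  congr 1
  have h3 : Real.sqrt k.factorial * η / ρ = Real.sqrt N * (η / M) := by
    rw [hρ]
    field_simp
  rw [h3, Real.mul_rpow hsN.le (by positivity)]
  ring

end Pool.Agent.N3.ST.D
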