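import Mathlib
import Pool.Agent.N3.ST.Stm
import Pool.Agent.H801R3.SB.CB

/-!
# ST/E: the covolume at infinity
-/

set_option autoImplicit false

open Matrix Polynomial Set

namespace Pool.Agent.N3.ST.E

/-- the matrix with the columns of `p` and `y` -/
def mt {k r d : ℕ} (p : Fin k → Fin r → ℝ) (y : Fin k → Fin d → ℝ) :
    Matrix (Fin k) (Fin r ⊕ Fin d) ℝ := fun i => Sum.elim (p i) (y i)

lemma Gd_eq {k r d : ℕ} (p : Fin k → Fin r → ℝ) (y z : Fin k → Fin d → ℝ) (t : ℝ) :
    Gd (fr p y z t) = (k.factorial : ℝ)⁻¹ * ∑ a : Fin k → Fin r ⊕ Fin d,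
      ((mt p (fun i j => y i j + t * z i j)).submatrix id a).det ^ 2 := by
  have h1 : Matrix.gram ℝ (fr p y z t) = mt p (fun i j => y i j + t * z i j) *
      (mt p (fun i j => y i j + t * z i j))ᵀ := by
    ext i j
    rw [Matrix.gram_apply, Matrix.mul_apply, PiLp.inner_apply]
    refine Finset.sum_congr rfl fun a _ => ?_
    simp only [fr, mt, Matrix.transpose_apply, real_inner_eq_re_inner]
    rcases a with a | a <;> simp <;> ring
  unfold Gd
  rw [h1, Pool.Agent.H801R3.SB.cauchyBinet]
  congr 1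
  refine Finset.sum_congr rfl fun a _ => ?_
  rw [pow_two]
  congr 1
  rw [← Matrix.det_transpose]
  rfl

/-- the interpolation nodes -/
noncomputable def nd (i : ℕ) : ℝ := (i : ℝ) + 2

/-- the weights of the interpolation at `0` -/
noncomputable def wg (k i : ℕ) : ℝ := (Lagrange.basis (Finset.range (k + 1)) nd i).eval 0

lemma nd_inj : Function.Injective nd := by
  intro a b h
  unfold nd at h
  exact_mod_cast add_right_cancel h

lemma interp (k : ℕ) (g : ℝ[X]) (hg : g.natDegree ≤ k) :
    g.eval 0 = ∑ i ∈ Finset.range (k + 1), g.eval (nd i) * wg k i := by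
  have h := Lagrange.eq_interpolate (s := Finset.range (k + 1)) (v := nd) (f := g)
    (nd_inj.injOn) (by
      rw [Finset.card_range]
      refine lt_of_le_of_lt Polynomial.degree_le_natDegree ?_
      exact_mod_cast Nat.lt_succ_of_le hg)
  conv_lhs => rw [h]
  rw [Lagrange.interpolate_apply, Polynomial.eval_finsetSum]
  refine Finset.sum_congr rfl fun i _ => ?_
  rw [Polynomial.eval_mul, Polynomial.eval_C]
  rfl

lemma minor {k r d : ℕ} (p : Fin k → Fin r → ℝ) (y z : Fin k → Fin d → ℝ)
    (a : Fin k → Fin r ⊕ Fin d) :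
    |((mt p z).submatrix id a).det| ≤ ∑ i ∈ Finset.range (k + 1), (|wg k i| * nd i ^ k) *
      |((mt p (fun i' j => y i' j + (nd i)⁻¹ * z i' j)).submatrix id a).det| := by
  set A : Matrix (Fin k) (Fin k) ℝ := (mt (fun _ _ => 0) y).submatrix id a with hA
  set B : Matrix (Fin k) (Fin k) ℝ := (mt p z).submatrix id a with hB
  set g : ℝ[X] := det ((X : ℝ[X]) • A.map C + B.map C) with hg
  have h1 : g.natDegree ≤ k := by
    have := Polynomial.natDegree_det_X_add_C_le A B
    rwa [Fintype.card_fin] at this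
  have hev : ∀ s, g.eval s = (s • A + B).det := by
    intro s
    rw [hg]
    have := RingHom.map_det (Polynomial.evalRingHom s) ((X : ℝ[X]) • A.map C + B.map C)
    rw [Polynomial.coe_evalRingHom] at this
    rw [this]
    congr 1
    ext i j
    simp
    ring
  have h0 : g.eval 0 = B.det := by
    rw [hev, zero_smul, zero_add]
  rw [← h0, interp k g h1]
  refine (Finset.abs_sum_le_sum_abs _ _).trans (Finset.sum_le_sum fun i _ => ?_)
  have hnd : (1 : ℝ) ≤ nd i := by
    unfold nd
    have : (0 : ℝ) ≤ i := Nat.cast_nonneg i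
    linarith
  have hnd0 : nd i ≠ 0 := by linarith
  have e1 : (nd i • A + B).det = (∏ b, (Sum.elim (fun _ => (1 : ℝ)) (fun _ => nd i) (a b))) *
      ((mt p (fun i' j => y i' j + (nd i)⁻¹ * z i' j)).submatrix id a).det := by
    rw [← Matrix.det_mul_row]
    congr 1
    ext i' b
    simp only [hA, hB, mt, Matrix.add_apply, Matrix.smul_apply, Matrix.submatrix_apply, id,
      Matrix.of_apply]
    rcases h : a b with j | j
    · simp
    · simp only [Sum.elim_inr, smul_eq_mul]
      field_simp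
  rw [hev, e1, abs_mul, abs_mul]
  have h2 : |∏ b, (Sum.elim (fun _ => (1 : ℝ)) (fun _ => nd i) (a b))| ≤ nd i ^ k := by
    rw [Finset.abs_prod]
    calc _ ≤ ∏ _b : Fin k, nd i := by
          refine Finset.prod_le_prod (fun b _ => abs_nonneg _) fun b _ => ?_
          rcases a b with j | j
          · simpa using hnd
          · simp only [Sum.elim_inr]
            rw [abs_of_nonneg (by linarith)]
      _ = nd i ^ k := by simp
  have h3 := abs_nonneg (wg k i)
  have h4 := abs_nonneg ((mt p (fun i' j => y i' j + (nd i)⁻¹ * z i' j)).submatrix id a).det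
  calc _ ≤ nd i ^ k * |((mt p (fun i' j => y i' j + (nd i)⁻¹ * z i' j)).submatrix id a).det| *
        |wg k i| := by gcongr
    _ = _ := by ring

theorem main : S_infty := by
  intro k r d
  set W : ℝ := ∑ i ∈ Finset.range (k + 1), (|wg k i| * nd i ^ k) ^ 2 with hW
  have hW0 : 0 ≤ W := Finset.sum_nonneg fun i _ => sq_nonneg _
  refine ⟨√(W * (k + 1)) + 1, by positivity, fun p y z => ?_⟩
  obtain ⟨i0, hi0, hmax⟩ := Finset.exists_max_image (Finset.range (k + 1))
    (fun i => Gd (fr p y z (nd i)⁻¹)) ⟨0, by simp⟩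
  have hnd : (2 : ℝ) ≤ nd i0 := by
    unfold nd
    have : (0 : ℝ) ≤ i0 := Nat.cast_nonneg i0
    linarith
  refine ⟨(nd i0)⁻¹, ⟨?_, ?_⟩, ?_⟩
  · have : (0 : ℝ) < (nd i0)⁻¹ := by positivity
    linarith
  · exact inv_lt_one_of_one_lt₀ (by linarith)
  have hkey : Gd (fr p z (fun _ _ => 0) 0) ≤ W * (k + 1) * Gd (fr p y z (nd i0)⁻¹) := by
    have h1 : Gd (fr p z (fun _ _ => 0) 0) ≤
        W * ∑ i ∈ Finset.range (k + 1), Gd (fr p y z (nd i)⁻¹) := by
      simp only [Gd_eq]
      rw [← Finset.mul_sum, mul_left_comm]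
      refine mul_le_mul_of_nonneg_left ?_ (by positivity)
      rw [Finset.sum_comm, Finset.mul_sum]
      refine Finset.sum_le_sum fun a _ => ?_
      have h2 := minor p y z a
      have e : (mt p (fun i j => z i j + 0 * 0)) = mt p z := by
        congr 1
        ext i j
        simp
      rw [e, ← sq_abs]
      calc _ ≤ (∑ i ∈ Finset.range (k + 1), (|wg k i| * nd i ^ k) *
            |((mt p (fun i' j => y i' j + (nd i)⁻¹ * z i' j)).submatrix id a).det|) ^ 2 := by
            gcongr
        _ ≤ _ := by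
            refine (Finset.sum_mul_sq_le_sq_mul_sq _ _ _).trans (le_of_eq ?_)
            simp only [sq_abs]
            rfl
    have h3 : ∑ i ∈ Finset.range (k + 1), Gd (fr p y z (nd i)⁻¹) ≤
        (k + 1) * Gd (fr p y z (nd i0)⁻¹) := by
      refine (Finset.sum_le_sum hmax).trans (le_of_eq ?_)
      simp
    calc _ ≤ _ := h1
      _ ≤ W * ((k + 1) * Gd (fr p y z (nd i0)⁻¹)) := mul_le_mul_of_nonneg_left h3 hW0
      _ = _ := by ring
  calc √(Gd (fr p z (fun _ _ => 0) 0)) ≤ √(W * (k + 1) * Gd (fr p y z (nd i0)⁻¹)) :=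
        Real.sqrt_le_sqrt hkey
    _ = √(W * (k + 1)) * √(Gd (fr p y z (nd i0)⁻¹)) := Real.sqrt_mul (by positivity) _
    _ ≤ _ := by
        have := Real.sqrt_nonneg (Gd (fr p y z (nd i0)⁻¹))
        nlinarith

end Pool.Agent.N3.ST.E
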