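import Pool.Agent.N3.ST.Stm

/-!
# Project ST (helper3), task F: lattices in rational subspaces (written by helper918)
-/

set_option autoImplicit false

open Module

namespace Pool.Agent.N3.ST.F

open Pool.Agent.N3.ST

/-- The cast as a `ℤ`-linear map. -/
def castL (r : ℕ) : (Fin r → ℤ) →ₗ[ℤ] (Fin r → ℚ) where
  toFun := castQ
  map_add' a b := by ext i; simp [castQ]
  map_smul' a b := by ext i; simp [castQ]

theorem castQ_inj {r : ℕ} {a b : Fin r → ℤ} (h : castQ a = castQ b) : a = b := by
  ext i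
  have := congrFun h i
  simpa [castQ] using this

/-- The lattice of integer points of a rational subspace. -/
def Nl {r : ℕ} (V : Submodule ℚ (Fin r → ℚ)) : Submodule ℤ (Fin r → ℤ) :=
  (V.restrictScalars ℤ).comap (castL r)

theorem mem_Nl {r : ℕ} (V : Submodule ℚ (Fin r → ℚ)) (n : Fin r → ℤ) :
    n ∈ Nl V ↔ castQ n ∈ V := Iff.rfl

theorem castQ_smul {r : ℕ} (k : ℤ) (n : Fin r → ℤ) : castQ (k • n) = (k : ℚ) • castQ n := by
  ext i; simp [castQ]

theorem castQ_sum {r : ℕ} {ι : Type} (s : Finset ι) (f : ι → Fin r → ℤ) :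
    castQ (∑ i ∈ s, f i) = ∑ i ∈ s, castQ (f i) := map_sum (castL r) f s

/-- `castQ` of an integer independent tuple is rationally independent. -/
theorem indep_cast {r : ℕ} {ι : Type} {c : ι → Fin r → ℤ} (h : LinearIndependent ℤ c) :
    LinearIndependent ℚ (fun i => castQ (c i)) := by
  rw [← LinearIndependent.iff_fractionRing ℤ ℚ]
  have := h.map' (castL r) (by
    rw [LinearMap.ker_eq_bot]
    intro a b hab
    exact castQ_inj hab)
  exact this

theorem indep_basis {r : ℕ} (V : Submodule ℚ (Fin r → ℚ)) {ι : Type} (B : Basis ι ℤ (Nl V)) :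
    LinearIndependent ℚ (fun i => castQ (B i : Fin r → ℤ)) := by
  apply indep_cast
  have := B.linearIndependent.map' (Nl V).subtype (by simp)
  exact this

theorem exists_mul {r : ℕ} (v : Fin r → ℚ) : ∃ (k : ℤ) (n : Fin r → ℤ), k ≠ 0 ∧
    castQ n = (k : ℚ) • v := by
  refine ⟨∏ j, ((v j).den : ℤ), fun i => (v i).num * ∏ j ∈ Finset.univ.erase i, ((v j).den : ℤ),
    ?_, ?_⟩
  · exact Finset.prod_ne_zero_iff.2 fun i _ => by exact_mod_cast (v i).den_nz
  · ext i
    simp only [castQ, Pi.smul_apply, smul_eq_mul]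
    rw [← Finset.mul_prod_erase Finset.univ (fun j => ((v j).den : ℤ)) (Finset.mem_univ i)]
    push_cast
    have h' : ((v i).num : ℚ) = v i * (v i).den := (Rat.mul_den_eq_num (v i)).symm
    rw [h']
    ring

theorem span_basis {r : ℕ} (V : Submodule ℚ (Fin r → ℚ)) {ι : Type} (B : Basis ι ℤ (Nl V)) :
    Submodule.span ℚ (Set.range (fun i => castQ (B i : Fin r → ℤ))) = V := by
  apply le_antisymm
  · rw [Submodule.span_le]
    rintro _ ⟨i, rfl⟩
    exact (B i).2
  · intro v hv
    obtain ⟨k, n, hk, hn⟩ := exists_mul v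
    have hn' : n ∈ Nl V := by
      rw [mem_Nl, hn]; exact V.smul_mem _ hv
    have hk' : (k : ℚ) ≠ 0 := by exact_mod_cast hk
    have h1 : castQ n ∈ Submodule.span ℚ (Set.range (fun i => castQ (B i : Fin r → ℤ))) := by
      have h2 := B.linearCombination_repr ⟨n, hn'⟩
      have h3 : n = ∑ i ∈ (B.repr ⟨n, hn'⟩).support,
          (B.repr ⟨n, hn'⟩ i) • (B i : Fin r → ℤ) := by
        have h4 := congrArg (fun x : Nl V => (x : Fin r → ℤ)) h2
        simp only [Finsupp.linearCombination_apply, Finsupp.sum] at h4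
        refine h4.symm.trans ?_
        simp
      rw [h3, castQ_sum]
      refine Submodule.sum_mem _ fun i _ => ?_
      rw [castQ_smul]
      exact Submodule.smul_mem _ _ (Submodule.subset_span ⟨i, rfl⟩)
    have h5 : v = (k : ℚ)⁻¹ • castQ n := by
      rw [hn, smul_smul, inv_mul_cancel₀ hk', one_smul]
    rw [h5]
    exact Submodule.smul_mem _ _ h1

theorem card_basis {r : ℕ} (V : Submodule ℚ (Fin r → ℚ)) {ι : Type} [Fintype ι]
    (B : Basis ι ℤ (Nl V)) : Fintype.card ι = finrank ℚ V := by
  have h := finrank_span_eq_card (indep_basis V B)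
  rw [span_basis V B] at h
  exact h.symm

theorem Gd_nonneg {E : Type} [NormedAddCommGroup E] [InnerProductSpace ℝ E] {ι : Type}
    [Fintype ι] [DecidableEq ι] (x : ι → E) : 0 ≤ Gd x :=
  (Matrix.posSemidef_gram ℝ x).det_nonneg

theorem Gd_reindex {E : Type} [NormedAddCommGroup E] [InnerProductSpace ℝ E] {ι κ : Type}
    [Fintype ι] [DecidableEq ι] [Fintype κ] [DecidableEq κ] (e : ι ≃ κ) (x : κ → E) :
    Gd (fun i => x (e i)) = Gd x := by
  unfold Gd
  rw [← Matrix.det_submatrix_equiv_self e (Matrix.gram ℝ x)]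
  rfl

/-- The index argument. -/
theorem gd_le {r : ℕ} {E : Type} [NormedAddCommGroup E] [InnerProductSpace ℝ E]
    (X : (Fin r → ℤ) →+ E) (V : Submodule ℚ (Fin r → ℚ)) {ι : Type} [Fintype ι] [DecidableEq ι]
    (B : Basis ι ℤ (Nl V)) (c : ι → Fin r → ℤ) (hc : ∀ i, castQ (c i) ∈ V)
    (hli : LinearIndependent ℚ (fun i => castQ (c i))) :
    Gd (fun i => X (B i)) ≤ Gd (fun i => X (c i)) := by
  classical
  set A : Matrix ι ι ℤ := fun i j => B.repr ⟨c i, hc i⟩ j with hA
  have hcA : ∀ i, c i = ∑ j, A i j • (B j : Fin r → ℤ) := by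
    intro i
    have h2 := B.sum_repr ⟨c i, hc i⟩
    have h4 := congrArg (fun x : Nl V => (x : Fin r → ℤ)) h2
    simp only [Submodule.coe_sum, Submodule.coe_smul] at h4
    rw [← h4]
  have hdet : A.det ≠ 0 := by
    intro h0
    obtain ⟨v, hv, hvA⟩ := Matrix.exists_vecMul_eq_zero_iff.2 h0
    have h1 : ∑ i, (v i : ℚ) • castQ (c i) = 0 := by
      have h2 : ∑ i, v i • c i = 0 := by
        calc ∑ i, v i • c i = ∑ i, ∑ j, (v i * A i j) • (B j : Fin r → ℤ) := by
              refine Finset.sum_congr rfl fun i _ => ?_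
              rw [hcA i, Finset.smul_sum]
              refine Finset.sum_congr rfl fun j _ => ?_
              rw [smul_smul]
          _ = ∑ j, (∑ i, v i * A i j) • (B j : Fin r → ℤ) := by
              rw [Finset.sum_comm]
              refine Finset.sum_congr rfl fun j _ => ?_
              rw [Finset.sum_smul]
          _ = 0 := by
              refine Finset.sum_eq_zero fun j _ => ?_
              have := congrFun hvA j
              simp only [Matrix.vecMul, dotProduct, Pi.zero_apply] at this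
              rw [this, zero_smul]
      have h3 := congrArg castQ h2
      rw [castQ_sum] at h3
      simp only [castQ_smul] at h3
      rw [h3]
      ext i; simp [castQ]
    have h5 := Fintype.linearIndependent_iff.1 hli (fun i => (v i : ℚ)) h1
    apply hv
    ext i
    exact_mod_cast h5 i
  set AR : Matrix ι ι ℝ := A.map (fun a : ℤ => (a : ℝ)) with hAR
  have hX : ∀ i, X (c i) = ∑ j, AR i j • X (B j) := by
    intro i
    rw [hcA i, map_sum]
    refine Finset.sum_congr rfl fun j _ => ?_
    rw [map_zsmul]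
    simp only [hAR, Matrix.map_apply]
    exact (Int.cast_smul_eq_zsmul ℝ _ _).symm
  have hgram : Matrix.gram ℝ (fun i => X (c i)) =
      AR * Matrix.gram ℝ (fun i => X (B i)) * AR.transpose := by
    ext i j
    rw [Matrix.gram_apply, hX i, hX j, sum_inner]
    simp only [Matrix.mul_apply, Matrix.transpose_apply, inner_sum, inner_smul_left,
      inner_smul_right, Matrix.gram_apply, Finset.sum_mul]
    rw [Finset.sum_comm]
    refine Finset.sum_congr rfl fun a _ => Finset.sum_congr rfl fun b _ => ?_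
    simp
    ring
  have hdetR : AR.det = ((A.det : ℤ) : ℝ) := by
    have := (RingHom.map_det (Int.castRingHom ℝ) A)
    simpa [hAR] using this.symm
  have h1 : Gd (fun i => X (c i)) = (AR.det) ^ 2 * Gd (fun i => X (B i)) := by
    unfold Gd
    rw [hgram, Matrix.det_mul, Matrix.det_mul, Matrix.det_transpose]
    ring
  rw [h1, hdetR]
  have h2 : (1 : ℝ) ≤ ((A.det : ℤ) : ℝ) ^ 2 := by
    have : (1 : ℤ) ≤ A.det ^ 2 := by
      have := pow_pos (abs_pos.2 hdet) 2
      rw [sq_abs] at this
      omega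
    exact_mod_cast this
  have h3 := Gd_nonneg (fun i => X (B i))
  nlinarith

theorem gd_le' {r : ℕ} {E : Type} [NormedAddCommGroup E] [InnerProductSpace ℝ E]
    (X : (Fin r → ℤ) →+ E) (V : Submodule ℚ (Fin r → ℚ)) {ι κ : Type} [Fintype ι] [DecidableEq ι]
    [Fintype κ] [DecidableEq κ]
    (B : Basis ι ℤ (Nl V)) (c : κ → Fin r → ℤ) (hcard : Fintype.card κ = finrank ℚ V)
    (hc : ∀ i, castQ (c i) ∈ V)
    (hli : LinearIndependent ℚ (fun i => castQ (c i))) :
    Gd (fun i => X (B i)) ≤ Gd (fun i => X (c i)) := by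
  have e : ι ≃ κ := Fintype.equivOfCardEq (by rw [hcard, card_basis V B])
  have h := gd_le X V B (fun i => c (e i)) (fun i => hc _) (hli.comp e e.injective)
  rwa [Gd_reindex e (fun i => X (c i))] at h

/-- A basis of `Nl U` extends to a basis of `Nl V`. -/
theorem extend {r : ℕ} (U V : Submodule ℚ (Fin r → ℚ)) (hUV : U ≤ V) {ι : Type}
    [Fintype ι] [DecidableEq ι] (x : Basis ι ℤ (Nl U)) :
    ∃ (b : ℕ) (y : Fin b → Fin r → ℤ) (B : Basis (ι ⊕ Fin b) ℤ (Nl V)),
      ∀ i, (B i : Fin r → ℤ) = Sum.elim (fun i => (x i : Fin r → ℤ)) y i := by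
  have hle : Nl U ≤ Nl V := fun n hn => hUV hn
  set N : Submodule ℤ (Nl V) := (Nl U).comap (Nl V).subtype with hN
  let e : N ≃ₗ[ℤ] Nl U := Submodule.comapSubtypeEquivOfLe hle
  have hTF : IsTorsionFree ℤ (Nl V ⧸ N) := by
    refine Module.IsTorsionFree.of_smul_eq_zero fun k m hkm => ?_
    induction m using Submodule.Quotient.induction_on with
    | _ m =>
      by_cases hk : k = 0
      · exact Or.inl hk
      right
      rw [← Submodule.Quotient.mk_smul, Submodule.Quotient.mk_eq_zero] at hkm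
      rw [Submodule.Quotient.mk_eq_zero]
      have h1 : castQ ((k • m : Nl V) : Fin r → ℤ) ∈ U := hkm
      rw [Submodule.coe_smul, castQ_smul] at h1
      have h2 : castQ (m : Fin r → ℤ) ∈ U := by
        have hk' : (k : ℚ) ≠ 0 := by exact_mod_cast hk
        have h3 := U.smul_mem ((k : ℚ)⁻¹) h1
        rwa [smul_smul, inv_mul_cancel₀ hk', one_smul] at h3
      exact h2
  let bQ := Module.finBasis ℤ (Nl V ⧸ N)
  let B := Module.Basis.sumQuot (x.map e.symm) bQ
  refine ⟨_, fun j => (B (Sum.inr j) : Fin r → ℤ), B, ?_⟩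
  rintro (i | j)
  · simp only [Sum.elim_inl, B, Module.Basis.sumQuot_inl]
    rfl
  · rfl

theorem main (hA : S_fischer) : S_lat := by
  classical
  intro r
  have hB : ∀ V : Submodule ℚ (Fin r → ℚ), Nonempty (Basis (Fin (finrank ℚ V)) ℤ (Nl V)) := by
    intro V
    have b := Module.finBasis ℤ (Nl V)
    have h := card_basis V b
    exact ⟨b.reindex (Fintype.equivOfCardEq (by rw [h]; simp))⟩
  let B : ∀ V : Submodule ℚ (Fin r → ℚ), Basis (Fin (finrank ℚ V)) ℤ (Nl V) :=
    fun V => Classical.choice (hB V)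
  refine ⟨fun V i => ((B V) i : Fin r → ℤ), fun V i => ((B V) i).2, fun V => indep_basis V (B V),
    ?_, ?_⟩
  · intro E _ _ X V c hc hli
    exact gd_le X V (B V) c hc hli
  · intro E _ _ X V W
    obtain ⟨b, y, BV, hBV⟩ := extend (V ⊓ W) V inf_le_left (B (V ⊓ W))
    obtain ⟨c, z, BW, hBW⟩ := extend (V ⊓ W) W inf_le_right (B (V ⊓ W))
    set x : Fin (finrank ℚ ↥(V ⊓ W)) → Fin r → ℤ := fun i => ((B (V ⊓ W)) i : Fin r → ℤ) with hx
    have hcV := card_basis V BV
    have hcW := card_basis W BW
    simp only [Fintype.card_sum, Fintype.card_fin] at hcV hcW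
    have hdim := Submodule.finrank_sup_add_finrank_inf_eq V W
    -- the big tuple
    set t : (Fin (finrank ℚ ↥(V ⊓ W)) ⊕ Fin b) ⊕ Fin c → Fin r → ℤ :=
      Sum.elim (Sum.elim x y) z with ht
    have hspanV : Submodule.span ℚ (Set.range (fun i => castQ (Sum.elim x y i))) = V := by
      have := span_basis V BV
      simpa only [hBV] using this
    have hspanW : Submodule.span ℚ (Set.range (fun i => castQ (Sum.elim x z i))) = W := by
      have := span_basis W BW
      simpa only [hBW] using this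
    have hspan : Submodule.span ℚ (Set.range (fun i => castQ (t i))) = V ⊔ W := by
      refine Eq.trans ?_ (congrArg₂ (· ⊔ ·) hspanV hspanW)
      rw [← Submodule.span_union]
      congr 1
      ext v
      constructor
      · rintro ⟨(i | i), rfl⟩
        · exact Or.inl ⟨i, rfl⟩
        · exact Or.inr ⟨Sum.inr i, rfl⟩
      · rintro (⟨i, rfl⟩ | ⟨(i | i), rfl⟩)
        · exact ⟨Sum.inl i, rfl⟩
        · exact ⟨Sum.inl (Sum.inl i), rfl⟩
        · exact ⟨Sum.inr i, rfl⟩
    have hcard : Fintype.card ((Fin (finrank ℚ ↥(V ⊓ W)) ⊕ Fin b) ⊕ Fin c) =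
        finrank ℚ ↥(V ⊔ W) := by
      simp only [Fintype.card_sum, Fintype.card_fin]
      omega
    have hli : LinearIndependent ℚ (fun i => castQ (t i)) := by
      rw [linearIndependent_iff_card_eq_finrank_span, Set.finrank, hspan, hcard]
    have hmem : ∀ i, castQ (t i) ∈ V ⊔ W := by
      intro i
      rw [← hspan]
      exact Submodule.subset_span ⟨i, rfl⟩
    have h1 : Gd (fun i => X (B (V ⊔ W) i)) ≤ Gd (fun i => X (t i)) :=
      gd_le' X (V ⊔ W) (B (V ⊔ W)) t hcard hmem hli
    have h2 : Gd (fun i => X (Sum.elim x y i)) ≤ Gd (fun i => X (B V i)) := by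
      have := gd_le' X V BV (fun i => (B V i : Fin r → ℤ)) (by simp) (fun i => (B V i).2)
        (indep_basis V (B V))
      simpa only [hBV] using this
    have h3 : Gd (fun i => X (Sum.elim x z i)) ≤ Gd (fun i => X (B W i)) := by
      have := gd_le' X W BW (fun i => (B W i : Fin r → ℤ)) (by simp) (fun i => (B W i).2)
        (indep_basis W (B W))
      simpa only [hBW] using this
    have h4 := hA E _ _ _ (fun i => X (x i)) (fun i => X (y i)) (fun i => X (z i))
    have e1 : (fun i => X (t i)) = Sum.elim (Sum.elim (fun i => X (x i)) (fun i => X (y i)))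
        (fun i => X (z i)) := by
      ext i; rcases i with (i | i) | i <;> rfl
    have e2 : (fun i => X (Sum.elim x y i)) = Sum.elim (fun i => X (x i)) (fun i => X (y i)) := by
      ext i; rcases i with i | i <;> rfl
    have e3 : (fun i => X (Sum.elim x z i)) = Sum.elim (fun i => X (x i)) (fun i => X (z i)) := by
      ext i; rcases i with i | i <;> rfl
    rw [← e1, ← e2, ← e3] at h4
    have n0 := Gd_nonneg (fun i => X (x i))
    have n1 := Gd_nonneg (fun i => X (Sum.elim x y i))
    have n2 := Gd_nonneg (fun i => X (Sum.elim x z i))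
    calc Gd (fun i => X (x i)) * Gd (fun i => X (B (V ⊔ W) i))
        ≤ Gd (fun i => X (x i)) * Gd (fun i => X (t i)) := mul_le_mul_of_nonneg_left h1 n0
      _ = Gd (fun i => X (t i)) * Gd (fun i => X (x i)) := mul_comm _ _
      _ ≤ Gd (fun i => X (Sum.elim x y i)) * Gd (fun i => X (Sum.elim x z i)) := h4
      _ ≤ Gd (fun i => X (B V i)) * Gd (fun i => X (B W i)) :=
          mul_le_mul h2 h3 n2 (le_trans n1 h2)

end Pool.Agent.N3.ST.F
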