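import Pool.Agent.N3.ST.T1
import Pool.Agent.N3.ST.A
import Pool.Agent.N3.ST.B
import Pool.Agent.N3.ST.C
import Pool.Agent.N3.ST.D
import Pool.Agent.N3.ST.E
import Pool.Agent.N3.ST.F

/-!
# Project ST: the main estimate for generalised arithmetic progressions
-/

set_option autoImplicit false

open MeasureTheory Set

namespace Pool.Agent.N3.ST.G

/-- Rationally independent integer vectors are independent over the reals. -/
theorem indepR {k r : ℕ} (b : Fin k → Fin r → ℤ) (h : LinearIndependent ℚ (fun i => castQ (b i))) :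
    LinearIndependent ℝ (fun i (j : Fin r) => (b i j : ℝ)) := by
  classical
  have hinj : Function.Injective (Fintype.linearCombination ℚ (fun i => castQ (b i))) :=
    linearIndependent_iff_injective_fintypeLinearCombination.1 h
  obtain ⟨g, hg⟩ := LinearMap.exists_leftInverse_of_injective _ (LinearMap.ker_eq_bot.2 hinj)
  have hg' : ∀ i, g (castQ (b i)) = Pi.single i 1 := by
    intro i
    have h1 := LinearMap.congr_fun hg (Pi.single i 1)
    rw [LinearMap.comp_apply, LinearMap.id_apply] at h1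
    rw [← h1]
    congr 1
    rw [Fintype.linearCombination_apply_single, one_smul]
  set M : Fin k → Fin r → ℚ := fun i j => g (fun j' => if j = j' then 1 else 0) i with hM
  set gR : (Fin r → ℝ) →ₗ[ℝ] (Fin k → ℝ) :=
    Matrix.toLin' (Matrix.of fun i j => ((M i j : ℚ) : ℝ)) with hgR
  apply LinearIndependent.of_comp gR
  have h2 : (gR ∘ fun i (j : Fin r) => (b i j : ℝ)) = fun i => (Pi.basisFun ℝ (Fin k)) i := by
    funext i
    ext i'
    simp only [Function.comp_apply, hgR, Matrix.toLin'_apply, Matrix.mulVec, dotProduct,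
      Matrix.of_apply, Pi.basisFun_apply]
    have h3 := LinearMap.pi_apply_eq_sum_univ g (castQ (b i))
    have h4 := congrFun (hg' i) i'
    rw [h3, Finset.sum_apply] at h4
    have h5 : ∑ j, M i' j * (b i j : ℚ) = (Pi.single i 1 : Fin k → ℚ) i' := by
      rw [← h4]
      refine Finset.sum_congr rfl fun j _ => ?_
      rw [Pi.smul_apply, smul_eq_mul, mul_comm]
      rfl
    have h6 : (((∑ j, M i' j * (b i j : ℚ)) : ℚ) : ℝ) =
        (((Pi.single i 1 : Fin k → ℚ) i' : ℚ) : ℝ) := by rw [h5]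
    push_cast at h6
    rw [h6]
    by_cases hii : i' = i
    · subst hii; simp
    · simp [Pi.single_eq_of_ne hii]
  rw [h2]
  exact (Pi.basisFun ℝ (Fin k)).linearIndependent

variable {r d : ℕ}

/-- the frame -/
noncomputable def X (L : Fin r → ℝ) (w u : Fin r → Vec d) (t : ℝ) :
    (Fin r → ℤ) →+ EuclideanSpace ℝ (Fin r ⊕ Fin d) where
  toFun n := WithLp.toLp 2 (Sum.elim (fun i => (n i : ℝ) / L i)
    (fun j => (∑ i, (n i : ℝ) * w i j) + t * (∑ i, (n i : ℝ) * u i j)))
  map_zero' := by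
    ext x
    rcases x with x | x <;> simp
  map_add' n m := by
    ext x
    rcases x with x | x
    · simp [add_div]
    · simp [add_mul, Finset.sum_add_distrib]
      ring

theorem X_apply (L : Fin r → ℝ) (w u : Fin r → Vec d) (t : ℝ) (n : Fin r → ℤ) :
    X L w u t n = WithLp.toLp 2 (Sum.elim (fun i => (n i : ℝ) / L i)
      (fun j => (∑ i, (n i : ℝ) * w i j) + t * (∑ i, (n i : ℝ) * u i j))) := rfl

theorem norm_X_sq (L : Fin r → ℝ) (w u : Fin r → Vec d) (t : ℝ) (n : Fin r → ℤ) :
    ‖X L w u t n‖ ^ 2 = (∑ i, ((n i : ℝ) / L i) ^ 2) +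
      ‖∑ i, (n i : ℝ) • (w i + t • u i)‖ ^ 2 := by
  rw [EuclideanSpace.norm_sq_eq, Fintype.sum_sum_type, EuclideanSpace.norm_sq_eq, X_apply]
  congr 1
  · refine Finset.sum_congr rfl fun i _ => ?_
    simp only [Sum.elim_inl, Real.norm_eq_abs, sq_abs]
  · refine Finset.sum_congr rfl fun j _ => ?_
    simp only [Sum.elim_inr, Real.norm_eq_abs, sq_abs]
    congr 1
    rw [WithLp.ofLp_sum, Finset.sum_apply, Finset.mul_sum, ← Finset.sum_add_distrib]
    refine Finset.sum_congr rfl fun i _ => ?_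
    simp
    ring

theorem X_indep (L : Fin r → ℝ) (hL : ∀ i, 0 < L i) (w u : Fin r → Vec d) (t : ℝ) {k : ℕ}
    (b : Fin k → Fin r → ℤ) (h : LinearIndependent ℚ (fun i => castQ (b i))) :
    LinearIndependent ℝ (fun i => X L w u t (b i)) := by
  have h1 := indepR b h
  rw [Fintype.linearIndependent_iff] at h1 ⊢
  intro g hg
  apply h1
  ext j
  have h2 := congrArg (fun x : EuclideanSpace ℝ (Fin r ⊕ Fin d) => x (Sum.inl j)) hg
  simp only [WithLp.ofLp_sum, Finset.sum_apply, PiLp.smul_apply, X_apply, smul_eq_mul] at h2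
  simp only [Finset.sum_apply, Pi.smul_apply, smul_eq_mul, Pi.zero_apply]
  have h3 : ∑ i, g i * (b i j : ℝ) = (∑ i, g i * ((b i j : ℝ) / L j)) * L j := by
    rw [Finset.sum_mul]
    refine Finset.sum_congr rfl fun i _ => ?_
    have := (hL j).ne'
    field_simp
  rw [h3]
  have h4 : ∑ i, g i * ((b i j : ℝ) / L j) = 0 := by simpa using h2
  rw [h4, zero_mul]

theorem X_inj (L : Fin r → ℝ) (hL : ∀ i, 0 < L i) (w u : Fin r → Vec d) (t : ℝ) :
    Function.Injective (X L w u t) := by
  intro n m h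
  ext i
  have h2 := congrArg (fun x : EuclideanSpace ℝ (Fin r ⊕ Fin d) => x (Sum.inl i)) h
  simp only [X_apply, Sum.elim_inl] at h2
  have h3 := (hL i).ne'
  field_simp at h2
  exact_mod_cast h2

/-- the frame as a moving frame -/
theorem X_fr (L : Fin r → ℝ) (w u : Fin r → Vec d) (t : ℝ) {k : ℕ} (b : Fin k → Fin r → ℤ) :
    (fun i => X L w u t (b i)) = fr (fun i j => (b i j : ℝ) / L j)
      (fun i j => ∑ l, (b i l : ℝ) * w l j) (fun i j => ∑ l, (b i l : ℝ) * u l j) t := rfl

theorem X_fr0 (L : Fin r → ℝ) (u : Fin r → Vec d) {k : ℕ} (b : Fin k → Fin r → ℤ) :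
    (fun i => X L u (0 : Fin r → Vec d) 0 (b i)) = fr (fun i j => (b i j : ℝ) / L j)
      (fun i j => ∑ l, (b i l : ℝ) * u l j) (fun _ _ => 0) 0 := by
  funext i
  rw [X_apply]
  unfold fr
  congr 2
  funext j
  simp

theorem Gd_cont {k : ℕ} (p : Fin k → Fin r → ℝ) (y z : Fin k → Fin d → ℝ) :
    Continuous (fun t => √(Gd (fr p y z t))) := by
  apply Real.continuous_sqrt.comp
  unfold Gd
  apply Continuous.matrix_det
  apply continuous_matrix
  intro i j
  simp only [Matrix.gram_apply]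
  have h : ∀ i, Continuous (fun t => fr p y z t i) := by
    intro i
    unfold fr
    apply (PiLp.continuous_toLp 2 _).comp
    apply continuous_pi
    intro x
    rcases x with x | x
    · simp only [Sum.elim_inl]; exact continuous_const
    · simp only [Sum.elim_inr]; fun_prop
  exact (h i).inner (h j)

/-- lower bound for covolumes from the absence of short vectors -/
theorem low (L : Fin r → ℝ) (hL : ∀ i, 0 < L i) (w u : Fin r → Vec d) (t ρ : ℝ) (hρ : 0 < ρ)
    (hshort : ∀ n : Fin r → ℤ, n ≠ 0 → ρ < ‖X L w u t n‖) {k : ℕ} (c : ℝ)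
    (hc : ∀ (E : Type) [NormedAddCommGroup E]
      [InnerProductSpace ℝ E] (x : Fin k → E) (ρ : ℝ), 0 < ρ → LinearIndependent ℝ x →
      √(Gd x) < c * ρ ^ k → ∃ m : Fin k → ℤ, m ≠ 0 ∧ ‖∑ i, (m i : ℝ) • x i‖ ≤ ρ)
    (b : Fin k → Fin r → ℤ) (h : LinearIndependent ℚ (fun i => castQ (b i))) :
    c * ρ ^ k ≤ √(Gd (fun i => X L w u t (b i))) := by
  by_contra hcon
  push Not at hcon
  obtain ⟨m, hm0, hm⟩ := hc _ (fun i => X L w u t (b i)) ρ hρ (X_indep L hL w u t b h) hcon
  have h1 : ∑ i, (m i : ℝ) • X L w u t (b i) = X L w u t (∑ i, m i • b i) := by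
    rw [map_sum]
    refine Finset.sum_congr rfl fun i _ => ?_
    rw [map_zsmul, Int.cast_smul_eq_zsmul]
  rw [h1] at hm
  have h2 : ∑ i, m i • b i ≠ 0 := by
    intro h0
    apply hm0
    rw [Fintype.linearIndependent_iff] at h
    funext i
    have h3 := h (fun i => (m i : ℚ)) (by
      have : ∑ i, (m i : ℚ) • castQ (b i) = castQ (∑ i, m i • b i) := by
        funext j
        simp [castQ, Finset.sum_apply]
      rw [this, h0]
      funext j
      simp [castQ]) i
    exact_mod_cast h3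
  exact absurd hm (not_le.2 (hshort _ h2))

theorem main : S_NL := by
  classical
  intro r d hd C' θ s hθ hθ1 hs hs1
  obtain ⟨b, hb1, hb2, hb3, hb4⟩ := F.main A.main r
  have hrem : ∀ k : ℕ, ∃ C : ℝ, 0 < C ∧ ∀ (p : Fin k → Fin r → ℝ)
    (y z : Fin k → Fin d → ℝ) (a l M η : ℝ), 0 < l → 0 < M → 0 < η →
    (∃ t ∈ Ico a (a + l), M ≤ √(Gd (fr p y z t))) →
    volume {t ∈ Ico a (a + l) | √(Gd (fr p y z t)) < η} ≤
      ENNReal.ofReal (C * (η / M) ^ (1 / (d : ℝ))) * ENNReal.ofReal l := fun k => D.main k r d hd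
  choose CR hCR0 hCR using hrem
  have hinf : ∀ k : ℕ, ∃ C : ℝ, 0 < C ∧ ∀ (p : Fin k → Fin r → ℝ)
    (y z : Fin k → Fin d → ℝ), ∃ t ∈ Ico (-1 : ℝ) 1,
      √(Gd (fr p z (fun _ _ => 0) 0)) ≤ C * √(Gd (fr p y z t)) := fun k => E.main k r d
  choose CI hCI0 hCI using hinf
  choose cM hcM0 hcM using B.main
  set C₁ : ℝ := ∑ k ∈ Finset.range (r + 1), CR k with hC₁
  have hCR1 : ∀ k ≤ r, CR k ≤ C₁ := fun k hk =>
    Finset.single_le_sum (f := CR) (fun i _ => (hCR0 i).le) (Finset.mem_range.2 (by omega))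
  have hC₁0 : 0 ≤ C₁ := Finset.sum_nonneg fun i _ => (hCR0 i).le
  -- a uniform positive lower bound for finitely many positive numbers
  have hunif : ∀ φ : ℕ → ℝ, (∀ k, 0 < φ k) → ∃ c : ℝ, 0 < c ∧ ∀ k ≤ r, c ≤ φ k := by
    intro φ hφ
    obtain ⟨k, -, hk⟩ := Finset.exists_min_image (Finset.range (r + 1)) φ ⟨0, by simp⟩
    exact ⟨φ k, hφ k, fun j hj => hk j (Finset.mem_range.2 (by omega))⟩
  set p : ℕ := ⌈C'⌉₊ + 1 with hp
  have hp0 : (0 : ℝ) < p := by rw [hp]; positivity
  set ρ : ℝ := θ / p with hρ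
  have hρ0 : 0 < ρ := by positivity
  obtain ⟨c₀, hc₀, hc₀'⟩ := hunif (fun k => cM k * ρ ^ k / CI k) (fun k => by
    have := hcM0 k; have := hCI0 k; positivity)
  obtain ⟨C, hC, hmain⟩ := T1.nondiv r (1 / (d : ℝ)) C₁ s c₀ 2 hs hs1 hC₁0 hc₀ two_pos
  set R : ℝ := √((r : ℝ) + 1) with hR
  have hR1 : 1 ≤ R := by rw [hR]; exact Real.one_le_sqrt.2 (by linarith [(Nat.cast_nonneg r : (0 : ℝ) ≤ r)])
  refine ⟨C * (2 * (6 * R) ^ r) ^ s, by positivity, ?_⟩
  intro L hL w u hF lam hlam
  -- no short vectors at infinity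
  have hshort : ∀ n : Fin r → ℤ, n ≠ 0 → ρ < ‖X L u (0 : Fin r → Vec d) 0 n‖ := by
    intro n hn
    by_contra hcon
    push Not at hcon
    have hsq := norm_X_sq L u (0 : Fin r → Vec d) 0 n
    have hcomp : ∀ i, |(n i : ℝ)| ≤ ρ * L i := by
      intro i
      have h1 : ((n i : ℝ) / L i) ^ 2 ≤ ‖X L u (0 : Fin r → Vec d) 0 n‖ ^ 2 := by
        rw [hsq]
        have := Finset.single_le_sum (f := fun i => ((n i : ℝ) / L i) ^ 2)
          (fun i _ => sq_nonneg _) (Finset.mem_univ i)
        have h2 := sq_nonneg ‖∑ i, (n i : ℝ) • (u i + (0 : ℝ) • (0 : Fin r → Vec d) i)‖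
        linarith
      have h2 := sq_le_sq.1 h1
      rw [abs_of_nonneg (norm_nonneg _), abs_div, abs_of_pos (hL i), div_le_iff₀ (hL i)] at h2
      exact h2.trans (mul_le_mul_of_nonneg_right hcon (hL i).le)
    have hu : ‖∑ i, (n i : ℝ) • u i‖ ≤ ρ := by
      have h1 : ‖∑ i, (n i : ℝ) • u i‖ ^ 2 ≤ ‖X L u (0 : Fin r → Vec d) 0 n‖ ^ 2 := by
        rw [hsq]
        have h3 : ∑ i, (n i : ℝ) • (u i + (0 : ℝ) • (0 : Fin r → Vec d) i) =
            ∑ i, (n i : ℝ) • u i := by simp
        rw [h3]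
        have : 0 ≤ ∑ i, ((n i : ℝ) / L i) ^ 2 := Finset.sum_nonneg fun i _ => sq_nonneg _
        linarith
      exact (pow_le_pow_left₀ (norm_nonneg _) hcon 2 |> fun h => by
        have := h1.trans h
        exact abs_le_of_sq_le_sq' this hρ0.le |>.2)
    set F : Finset (Fin r → ℤ) := (Finset.range (p + 1)).image (fun j : ℕ => (j : ℤ) • n) with hFdef
    have hcard : F.card = p + 1 := by
      rw [hFdef, Finset.card_image_of_injective, Finset.card_range]
      intro i j hij
      simp only at hij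
      have : (i : ℤ) = j := smul_left_injective ℤ hn hij
      exact_mod_cast this
    have h1 := hF F (by
      intro m hm
      obtain ⟨j, hj, rfl⟩ := Finset.mem_image.1 hm
      have hj' : (j : ℝ) ≤ p := by
        have := Finset.mem_range.1 hj
        exact_mod_cast Nat.lt_succ_iff.1 this
      have hj0 : (0 : ℝ) ≤ j := Nat.cast_nonneg j
      have hpρ : (p : ℝ) * ρ = θ := by rw [hρ]; field_simp
      constructor
      · intro i
        have e : (((j : ℤ) • n) i : ℤ) = j * n i := by simp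
        rw [e]
        push_cast
        rw [abs_mul, abs_of_nonneg hj0]
        calc (j : ℝ) * |(n i : ℝ)| ≤ p * (ρ * L i) :=
              mul_le_mul hj' (hcomp i) (abs_nonneg _) hp0.le
          _ = θ * L i := by rw [← mul_assoc, hpρ]
      · have e : ∑ i, ((((j : ℤ) • n) i : ℤ) : ℝ) • u i = (j : ℝ) • ∑ i, (n i : ℝ) • u i := by
          rw [Finset.smul_sum]
          refine Finset.sum_congr rfl fun i _ => ?_
          rw [smul_smul]
          congr 1
          simp
        rw [e, norm_smul, Real.norm_eq_abs, abs_of_nonneg hj0]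
        calc (j : ℝ) * ‖∑ i, (n i : ℝ) • u i‖ ≤ p * ρ := mul_le_mul hj' hu (norm_nonneg _) hp0.le
          _ = θ := hpρ)
    rw [hcard] at h1
    have h2 := Nat.le_ceil C'
    have h3 : ((p + 1 : ℕ) : ℝ) = ⌈C'⌉₊ + 2 := by rw [hp]; push_cast; ring
    rw [h3] at h1
    linarith
  -- no short vectors at finite heights
  obtain ⟨ρ₀, hρ₀, hρ₀'⟩ : ∃ ρ₀ : ℝ, 0 < ρ₀ ∧ ∀ i, ρ₀ * L i < 1 := by
    rcases isEmpty_or_nonempty (Fin r) with he | he
    · exact ⟨1, one_pos, fun i => (he.false i).elim⟩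
    · refine ⟨1 / (2 * (∑ i, L i)), ?_, ?_⟩
      · have : 0 < ∑ i, L i := Finset.sum_pos (fun i _ => hL i) Finset.univ_nonempty
        positivity
      · intro i
        have h1 : 0 < ∑ i, L i := Finset.sum_pos (fun i _ => hL i) Finset.univ_nonempty
        have h2 : L i ≤ ∑ i, L i := Finset.single_le_sum (fun i _ => (hL i).le) (Finset.mem_univ i)
        rw [one_div, inv_mul_lt_iff₀ (by positivity)]
        linarith
  have hshort0 : ∀ t, ∀ n : Fin r → ℤ, n ≠ 0 → ρ₀ < ‖X L w u t n‖ := by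
    intro t n hn
    obtain ⟨i, hi⟩ := Function.ne_iff.1 hn
    have h0 : (1 : ℝ) ≤ |(n i : ℝ)| := by
      have : 1 ≤ |n i| := Int.one_le_abs hi
      exact_mod_cast this
    have h1 : ((n i : ℝ) / L i) ^ 2 ≤ ‖X L w u t n‖ ^ 2 := by
      rw [norm_X_sq]
      have := Finset.single_le_sum (f := fun i => ((n i : ℝ) / L i) ^ 2)
        (fun i _ => sq_nonneg _) (Finset.mem_univ i)
      have h2 := sq_nonneg ‖∑ i, (n i : ℝ) • (w i + t • u i)‖
      linarith
    have h2 := sq_le_sq.1 h1
    rw [abs_of_nonneg (norm_nonneg _), abs_div, abs_of_pos (hL i), div_le_iff₀ (hL i)] at h2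
    have h3 := hρ₀' i
    by_contra hcon
    push Not at hcon
    nlinarith [hL i]
  obtain ⟨m₀, hm₀, hm₀'⟩ := hunif (fun k => cM k * ρ₀ ^ k) (fun k => by
    have := hcM0 k; positivity)
  set f : Submodule ℚ (Fin r → ℚ) → ℝ → ℝ := fun V t => √(Gd (fun i => X L w u t (b V i))) with hf
  have hrk : ∀ V : Submodule ℚ (Fin r → ℚ), Module.finrank ℚ V ≤ r := by
    intro V
    have := Submodule.finrank_le V
    rwa [Module.finrank_fin_fun] at this
  have key := hmain (Submodule ℚ (Fin r → ℚ)) (fun V => Module.finrank ℚ V) f (-1) hrk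
    (fun V => Gd_cont _ _ _) ?_ ?_ ?_ ?_ (2 * (6 * R) ^ r / lam) (by positivity)
  · have e1 : (-1 : ℝ) + 2 = 1 := by norm_num
    rw [e1] at key
    have e2 : C * (2 * (6 * R) ^ r / lam) ^ s = C * (2 * (6 * R) ^ r) ^ s * lam ^ (-s) := by
      rw [Real.div_rpow (by positivity) (by positivity), Real.rpow_neg (by positivity)]
      field_simp
    rw [e2] at key
    refine (measure_mono ?_).trans key
    rintro t ⟨ht, F, hFF, hFc⟩
    refine ⟨ht, ?_⟩
    have hFne : F.Nonempty := by
      rw [← Finset.card_pos]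
      have : (0 : ℝ) < F.card := by linarith
      exact_mod_cast this
    set S := F.image (X L w u t) with hS
    have hScard : S.card = F.card := Finset.card_image_of_injective _ (X_inj L hL w u t)
    obtain ⟨k, e, he1, he2, he3⟩ := Pool.Agent.N3.ST.C.main _ S R (by linarith) (hFne.image _) (by
      intro x hx
      obtain ⟨n, hn, rfl⟩ := Finset.mem_image.1 hx
      obtain ⟨h1, h2⟩ := hFF n hn
      have h3 : ‖X L w u t n‖ ^ 2 ≤ (r : ℝ) + 1 := by
        rw [norm_X_sq]
        have h4 : ∑ i, ((n i : ℝ) / L i) ^ 2 ≤ ∑ i : Fin r, (1 : ℝ) := by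
          refine Finset.sum_le_sum fun i _ => ?_
          rw [sq_le_one_iff_abs_le_one, abs_div, abs_of_pos (hL i), div_le_one (hL i)]
          exact h1 i
        simp only [Finset.sum_const, Finset.card_univ, Fintype.card_fin, nsmul_eq_mul, mul_one] at h4
        have h5 : ‖∑ i, (n i : ℝ) • (w i + t • u i)‖ ^ 2 ≤ 1 := by
          have := norm_nonneg (∑ i, (n i : ℝ) • (w i + t • u i))
          nlinarith
        linarith
      rw [hR]
      exact Real.le_sqrt_of_sq_le h3)
    have hch : ∀ i, ∃ n : Fin r → ℤ, e i = X L w u t n := by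
      intro i
      obtain ⟨s1, hs1, s2, hs2, h⟩ := he1 i
      obtain ⟨n1, -, rfl⟩ := Finset.mem_image.1 hs1
      obtain ⟨n2, -, rfl⟩ := Finset.mem_image.1 hs2
      exact ⟨n1 - n2, by rw [h, map_sub]⟩
    choose n hn using hch
    have hnind : LinearIndependent ℚ (fun i => castQ (n i)) := by
      rw [Fintype.linearIndependent_iff]
      intro g hg
      rw [Fintype.linearIndependent_iff] at he2
      intro i
      have h1 := he2 (fun i => (g i : ℝ)) (by
        have h2 : ∀ j, ∑ i, (g i : ℝ) * (n i j : ℝ) = 0 := by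
          intro j
          have h3 := congrFun hg j
          simp only [Finset.sum_apply, Pi.smul_apply, smul_eq_mul, Pi.zero_apply, castQ] at h3
          have h4 : ((∑ i, g i * (n i j : ℚ) : ℚ) : ℝ) = ((0 : ℚ) : ℝ) := by rw [h3]
          push_cast at h4
          exact h4
        ext x
        simp only [hn]
        rcases x with x | x
        · simp only [WithLp.ofLp_sum, Finset.sum_apply, PiLp.smul_apply, X_apply, smul_eq_mul,
            Sum.elim_inl]
          have h5 : ∑ i, (g i : ℝ) * ((n i x : ℝ) / L x) = (∑ i, (g i : ℝ) * (n i x : ℝ)) / L x := by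
            rw [Finset.sum_div]
            refine Finset.sum_congr rfl fun i _ => by ring
          rw [h5, h2 x]; simp
        · simp only [WithLp.ofLp_sum, Finset.sum_apply, PiLp.smul_apply, X_apply, smul_eq_mul,
            Sum.elim_inr]
          have h5 : ∀ v : Fin r → Vec d, ∑ i, (g i : ℝ) * ∑ l, (n i l : ℝ) * v l x = 0 := by
            intro v
            calc ∑ i, (g i : ℝ) * ∑ l, (n i l : ℝ) * v l x
                = ∑ i, ∑ l, (g i : ℝ) * ((n i l : ℝ) * v l x) :=
                  Finset.sum_congr rfl fun i _ => Finset.mul_sum _ _ _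
              _ = ∑ l, ∑ i, (g i : ℝ) * ((n i l : ℝ) * v l x) := Finset.sum_comm
              _ = ∑ l, (∑ i, (g i : ℝ) * (n i l : ℝ)) * v l x := by
                  refine Finset.sum_congr rfl fun l _ => ?_
                  rw [Finset.sum_mul]
                  exact Finset.sum_congr rfl fun i _ => by ring
              _ = 0 := Finset.sum_eq_zero fun l _ => by rw [h2 l, zero_mul]
          have h6 : ∑ i, (g i : ℝ) * ((∑ l, (n i l : ℝ) * w l x) + t * ∑ l, (n i l : ℝ) * u l x) =
              ∑ i, (g i : ℝ) * (∑ l, (n i l : ℝ) * w l x) +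
                t * ∑ i, (g i : ℝ) * ∑ l, (n i l : ℝ) * u l x := by
            rw [Finset.mul_sum, ← Finset.sum_add_distrib]
            exact Finset.sum_congr rfl fun i _ => by ring
          rw [h6, h5 w, h5 u]
          simp) i
      exact_mod_cast h1
    set V : Submodule ℚ (Fin r → ℚ) := Submodule.span ℚ (range (fun i => castQ (n i))) with hV
    have hVk : Module.finrank ℚ V = k := by
      rw [hV, finrank_span_eq_card hnind, Fintype.card_fin]
    refine ⟨V, ?_⟩
    have hle : Gd (fun i => X L w u t (b V i)) ≤ Gd e := by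
      have h1 : e = fun i => X L w u t (n i) := funext hn
      have h2 := hb3 _ (X L w u t) V (fun i => n (Fin.cast hVk i))
        (fun i => Submodule.subset_span ⟨_, rfl⟩)
        (hnind.comp _ (Fin.cast_injective hVk))
      refine h2.trans (le_of_eq ?_)
      rw [h1]
      have h3 := Pool.Agent.N3.ST.F.Gd_reindex (finCongr hVk) (fun i => X L w u t (n i))
      exact h3
    have h1 : f V t ≤ √(Gd e) := Real.sqrt_le_sqrt hle
    have hkr : k ≤ r := by rw [← hVk]; exact hrk V
    have h2 : f V t * lam ≤ (6 * R) ^ r := by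
      calc f V t * lam ≤ √(Gd e) * S.card := by
            rw [hScard]
            exact mul_le_mul h1 hFc (by linarith) (Real.sqrt_nonneg _)
        _ ≤ (6 * R) ^ k := he3
        _ ≤ (6 * R) ^ r := pow_le_pow_right₀ (by linarith) hkr
    have h3 : (0 : ℝ) < (6 * R) ^ r := by positivity
    rw [lt_div_iff₀ (by linarith)]
    linarith
  · -- submodularity
    intro V W hVW hrank
    refine ⟨V ⊓ W, V ⊔ W, Module.finrank ℚ V - Module.finrank ℚ (V ⊓ W : Submodule ℚ _), ?_, ?_, ?_, ?_⟩
    · have h1 : Module.finrank ℚ (V ⊓ W : Submodule ℚ _) ≤ Module.finrank ℚ V :=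
        Submodule.finrank_mono inf_le_left
      have h2 : Module.finrank ℚ (V ⊓ W : Submodule ℚ _) ≠ Module.finrank ℚ V := by
        intro h
        have h3 : V ⊓ W = V := Submodule.eq_of_le_of_finrank_eq inf_le_left h
        have h4 : V ≤ W := inf_eq_left.1 h3
        exact hVW (Submodule.eq_of_le_of_finrank_eq h4 hrank)
      omega
    · have h1 : Module.finrank ℚ (V ⊓ W : Submodule ℚ _) ≤ Module.finrank ℚ V :=
        Submodule.finrank_mono inf_le_left
      omega
    · have h1 : Module.finrank ℚ (V ⊓ W : Submodule ℚ _) ≤ Module.finrank ℚ V :=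
        Submodule.finrank_mono inf_le_left
      have h2 := Submodule.finrank_sup_add_finrank_inf_eq V W
      omega
    · intro x
      simp only [hf]
      rw [← Real.sqrt_mul (F.Gd_nonneg _), ← Real.sqrt_mul (F.Gd_nonneg _)]
      exact Real.sqrt_le_sqrt (hb4 _ (X L w u x) V W)
  · -- Remez
    intro V a' l' M η hl' hM hη hex
    refine (hCR _ _ _ _ a' l' M η hl' hM hη hex).trans ?_
    gcongr
    exact hCR1 _ (hrk V)
  · -- large somewhere
    intro V
    obtain ⟨t, ht, ht'⟩ := hCI (Module.finrank ℚ V) (fun i j => (b V i j : ℝ) / L j)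
      (fun i j => ∑ l, (b V i l : ℝ) * w l j) (fun i j => ∑ l, (b V i l : ℝ) * u l j)
    refine ⟨t, ?_, ?_⟩
    · have e1 : (-1 : ℝ) + 2 = 1 := by norm_num
      rw [e1]; exact ht
    · have h1 := low L hL u (0 : Fin r → Vec d) 0 ρ hρ0 hshort _ (hcM _) (b V) (hb2 V)
      rw [X_fr0] at h1
      have h2 := h1.trans ht'
      refine (hc₀' _ (hrk V)).trans ?_
      rw [div_le_iff₀ (hCI0 _)]
      simp only [hf]
      rw [X_fr]
      linarith
  · refine ⟨m₀, hm₀, fun V t => ?_⟩
    exact (hm₀' _ (hrk V)).trans (low L hL w u t ρ₀ hρ₀ (hshort0 t) _ (hcM _) (b V) (hb2 V))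

end Pool.Agent.N3.ST.G
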