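import Pool.Agent.N3.ST.Stm2

/-!
# Project ST (helper3): statements, second part (estimates without loss, energy)
-/

set_option autoImplicit false

open MeasureTheory Set
open scoped Pointwise

namespace Pool.Agent.N3.ST

open Pool.Agent.H810R3.Tub (Space tube dir)

/-- ST/G2: local form of `S_NL`. -/
def S_NLloc : Prop := ∀ (r d : ℕ), 1 ≤ d → ∀ (C' θ s : ℝ), 0 < θ → θ ≤ 1 → 0 < s → s < 1 / d →
  ∃ C : ℝ, 0 < C ∧ ∀ (L : Fin r → ℝ), (∀ i, 0 < L i) → ∀ (w u : Fin r → Vec d),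
  (∀ F : Finset (Fin r → ℤ), (∀ n ∈ F, (∀ i, |(n i : ℝ)| ≤ θ * L i) ∧
    ‖∑ i, (n i : ℝ) • u i‖ ≤ θ) → (F.card : ℝ) ≤ C') →
  ∀ a l : ℝ, -1 ≤ a → 0 < l → a + l ≤ 1 →
  ∀ lam : ℝ, 1 ≤ lam → volume {t ∈ Ico a (a + l) | ∃ F : Finset (Fin r → ℤ),
    (∀ n ∈ F, (∀ i, |(n i : ℝ)| ≤ L i) ∧ ‖∑ i, (n i : ℝ) • (w i + t • u i)‖ ≤ 1) ∧
    lam ≤ (F.card : ℝ)} ≤ ENNReal.ofReal (C * l ^ (1 - d * s) * lam ^ (-s))

/-- Every subset of `A` whose slopes lie in a ball of radius `δ` has at most `K` elements. -/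
def Slopes {d : ℕ} (K δ : ℝ) (A : Finset (Vec d × Vec d)) : Prop :=
  ∀ F : Finset (Vec d × Vec d), F ⊆ A → (∃ v₀ : Vec d, ∀ p ∈ F, ‖p.1 - v₀‖ ≤ δ) → (F.card : ℝ) ≤ K

/-- The heights `t` for which at least `lam` of the lines of `A` pass through some ball of radius `δ`
at the height `t`. -/
def Rich {d : ℕ} (δ : ℝ) (A : Finset (Vec d × Vec d)) (lam : ℝ) : Set ℝ :=
  {t | ∃ F ⊆ A, (∃ x : Vec d, ∀ p ∈ F, ‖p.2 + t • p.1 - x‖ ≤ δ) ∧ lam ≤ (F.card : ℝ)}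

/-- ST/K: local form of `S_double`. -/
def S_dloc : Prop := ∀ (d : ℕ), 1 ≤ d → ∀ (K s : ℝ), 1 ≤ K → 0 < s → s < 1 / d →
  ∃ C : ℝ, 0 < C ∧ ∀ (δ : ℝ), 0 < δ → ∀ (A : Finset (Vec d × Vec d)),
  ((A + A).card : ℝ) ≤ K * (A.card : ℝ) → Slopes K δ A →
  ∀ a l lam : ℝ, 0 < l → l ≤ 2 → 1 ≤ lam →
  volume (Ico a (a + l) ∩ Rich δ A lam) ≤ ENNReal.ofReal (C * l ^ (1 - d * s) * lam ^ (-s))

/-- ST/L: the sharp bound for the exponents above the critical one. -/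
def S_big : Prop := ∀ (d : ℕ), 1 ≤ d → ∀ (K s : ℝ), 1 ≤ K → 1 / (d : ℝ) < s →
  ∃ C : ℝ, 0 < C ∧ ∀ (δ : ℝ), 0 < δ → ∀ (A : Finset (Vec d × Vec d)),
  ((A + A).card : ℝ) ≤ K * (A.card : ℝ) → Slopes K δ A →
  ∀ τ lam : ℝ, 1 ≤ lam →
  volume (Ico (τ - 1) (τ + 1) ∩ Rich δ A lam) ≤
    ENNReal.ofReal (C * (A.card : ℝ) ^ (s - 1 / (d : ℝ)) * lam ^ (-s))

/-- ST/M: the inequality of the problem, without loss, for tubes near the lines of a set `A` of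
bounded doubling which is not much larger than the family of the tubes. -/
def S_tube2 : Prop := ∀ (d : ℕ), 1 ≤ d → ∀ (K q : ℝ), 1 ≤ K → ((d : ℝ) + 1) / d < q →
  ∃ C : ℝ, 0 < C ∧ ∀ (δ : ℝ), 0 < δ → δ < 1 → ∀ (A : Finset (Vec d × Vec d)),
  ((A + A).card : ℝ) ≤ K * (A.card : ℝ) → Slopes K δ A →
  ∀ (ι : Type) [Fintype ι] (v c : ι → Vec d) (h : ι → ℝ), (A.card : ℝ) ≤ K * Fintype.card ι →
  (∀ i, ‖v i‖ ≤ 1) → (∀ i j, i ≠ j → δ ≤ ‖dir (v i) - dir (v j)‖) →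
  (∀ i, ∃ p ∈ A, ‖v i - p.1‖ ≤ K * δ ∧ ‖c i - (p.2 + h i • p.1)‖ ≤ K * δ) →
  eLpNorm (tsum δ v c h) (ENNReal.ofReal q) volume ≤
    ENNReal.ofReal (C * δ ^ ((d : ℝ) / q) * (Fintype.card ι : ℝ) ^ (1 - 1 / (q * d)))

/-- The parameter set (slope, position at height `0`) of the tubes with indices in `J` has doubling
at most `K` at the scale `δ`. -/
def Dbl {d : ℕ} {ι : Type} (K δ : ℝ) (v c : ι → Vec d) (h : ι → ℝ) (J : Finset ι) : Prop :=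
  ∃ Z : Finset (Vec d × Vec d), (Z.card : ℝ) ≤ K * (J.card : ℝ) ∧
    ∀ i ∈ J, ∀ j ∈ J, ∃ z ∈ Z, ‖v i + v j - z.1‖ ≤ δ ∧
      ‖(c i - h i • v i) + (c j - h j • v j) - z.2‖ ≤ δ

/-- ST/N: the inequality of the problem, without loss, for families of bounded doubling. -/
def S_round2 : Prop := ∀ (d : ℕ), 1 ≤ d → ∀ (K S q : ℝ), 1 ≤ K → 1 ≤ S →
  ((d : ℝ) + 1) / d < q → ∃ C : ℝ, 0 < C ∧
  ∀ (δ : ℝ), 0 < δ → δ < 1 → ∀ (ι : Type) [Fintype ι] (v c : ι → Vec d) (h : ι → ℝ),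
  (∀ i, ‖v i‖ ≤ 1) → (∀ i, |h i| ≤ S) → (∀ i j, i ≠ j → δ ≤ ‖dir (v i) - dir (v j)‖) →
  Dbl K δ v c h Finset.univ →
  ∀ J : Finset ι, (Fintype.card ι : ℝ) ≤ K * (J.card : ℝ) →
    eLpNorm (fun y => ∑ i ∈ J, (tube δ (dir (v i)) (WithLp.toLp 2 (c i, h i))).indicator
      (fun _ => (1 : ℝ)) y) (ENNReal.ofReal q) volume ≤
    ENNReal.ofReal (C * δ ^ ((d : ℝ) / q) * (J.card : ℝ) ^ (1 - 1 / (q * d)))

/-- The additive energy of the parameters of the family at the scale `δ`. -/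
noncomputable def energy {d : ℕ} {ι : Type} (δ : ℝ) (v c : ι → Vec d) (h : ι → ℝ) : ℕ :=
  Set.ncard {x : ι × ι × ι × ι | ‖v x.1 + v x.2.1 - v x.2.2.1 - v x.2.2.2‖ ≤ δ ∧
    ‖(c x.1 - h x.1 • v x.1) + (c x.2.1 - h x.2.1 • v x.2.1) -
      (c x.2.2.1 - h x.2.2.1 • v x.2.2.1) - (c x.2.2.2 - h x.2.2.2 • v x.2.2.2)‖ ≤ δ}

/-- ST/P: heights in an arithmetic progression: the product of the multiplicities is at most about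
`#A` (polynomial dependence on the doubling). -/
def S_AP : Prop := ∀ (d m : ℕ), 1 ≤ d → 1 ≤ m → ∀ (M R : ℝ), 1 ≤ M → 1 ≤ R →
  ∃ (C : ℝ) (B : ℕ), 0 < C ∧ ∀ (δ K : ℝ), 0 < δ → 1 ≤ K → ∀ (A : Finset (Vec d × Vec d)),
  A.Nonempty → ((A - A).card : ℝ) ≤ K * (A.card : ℝ) → Slopes M δ A →
  ∀ (t₀ h : ℝ), |t₀| ≤ R → 1 / R ≤ h → h ≤ R → ∀ F : Fin m → Finset (Vec d × Vec d),
  (∀ j, F j ⊆ A ∧ ∃ x : Vec d, ∀ p ∈ F j, ‖p.2 + (t₀ + (j : ℝ) * h) • p.1 - x‖ ≤ R * δ) →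
  ∏ j, ((F j).card : ℝ) ≤ C * K ^ B * (A.card : ℝ)

/-- ST/Q: unions of tubes near the lines of a set with small difference set. -/
def S_unionA : Prop := ∀ (d m : ℕ), 1 ≤ d → 1 ≤ m → ∀ (M S : ℝ), 1 ≤ M → 1 ≤ S →
  ∃ (C : ℝ) (B : ℕ), 0 < C ∧ ∀ (δ K : ℝ), 0 < δ → δ < 1 → 1 ≤ K →
  ∀ (A : Finset (Vec d × Vec d)), A.Nonempty → ((A - A).card : ℝ) ≤ K * (A.card : ℝ) →
  Slopes M δ A →
  ∀ (ι : Type) [Fintype ι] (v c : ι → Vec d) (h : ι → ℝ), (∀ i, ‖v i‖ ≤ 1) → (∀ i, |h i| ≤ S) →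
  (∀ i j, i ≠ j → δ ≤ ‖dir (v i) - dir (v j)‖) →
  (∀ i, ∃ p ∈ A, ‖v i - p.1‖ ≤ M * δ ∧ ‖(c i - h i • v i) - p.2‖ ≤ M * δ) →
  ENNReal.ofReal (δ ^ d * (Fintype.card ι : ℝ) / (C * (K ^ B * (A.card : ℝ)) ^ (1 / (m : ℝ)))) ≤
    volume (⋃ i, tube δ (dir (v i)) (WithLp.toLp 2 (c i, h i)))

/-- ST/R: unions of tubes with large additive energy. -/
def S_energy : Prop := ∀ (d : ℕ), 1 ≤ d → ∀ (S ε : ℝ), 1 ≤ S → 0 < ε → ε < 1 →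
  ∃ η c₀ : ℝ, 0 < η ∧ 0 < c₀ ∧
  ∀ (δ : ℝ), 0 < δ → δ < 1 → ∀ (ι : Type) [Fintype ι] (v c : ι → Vec d) (h : ι → ℝ),
  (∀ i, ‖v i‖ ≤ 1) → (∀ i, |h i| ≤ S) → (∀ i j, i ≠ j → δ ≤ ‖dir (v i) - dir (v j)‖) →
  (Fintype.card ι : ℝ) ^ (3 - η) ≤ (energy δ v c h : ℝ) →
  ENNReal.ofReal (c₀ * δ ^ d * (Fintype.card ι : ℝ) ^ (1 - ε)) ≤
    volume (⋃ i, tube δ (dir (v i)) (WithLp.toLp 2 (c i, h i)))

end Pool.Agent.N3.ST
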