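import Pool.Agent.N3.ST.T1a

/-!
# Project ST: abstract quantitative nondivergence
-/

set_option autoImplicit false

open MeasureTheory Set

namespace Pool.Agent.N3.ST.T1c

open Pool.Agent.Helper404 (kmC kmC_nonneg)
open Pool.Agent.N3.ST.T1 (Ev node)

theorem kmC_mul (κ : ℝ) (k : ℕ) : kmC κ k = κ * kmC 1 k := by
  induction k with
  | zero => simp [kmC]
  | succ k ih => simp only [kmC]; rw [ih]; ring

theorem phi_id (r a j : ℕ) (hj : j ≤ a) (hr : a + j ≤ r) :
    (a - j) * (r - (a - j)) + (a + j) * (r - (a + j)) + 2 * j ^ 2 = 2 * (a * (r - a)) := by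
  obtain ⟨b, rfl⟩ := Nat.exists_eq_add_of_le hj
  obtain ⟨c, rfl⟩ := Nat.exists_eq_add_of_le hr
  have e1 : j + b - j = b := by omega
  have e2 : j + b + j + c - b = 2 * j + c := by omega
  have e3 : j + b + j + c - (j + b + j) = c := by omega
  have e4 : j + b + j + c - (j + b) = j + c := by omega
  rw [e1, e2, e3, e4]
  ring

/-- **Quantitative nondivergence in abstract form.** -/
theorem nondiv2 (r : ℕ) (α C₁ s : ℝ) (hs : 0 < s) (hsα : s < α) (hC₁ : 0 ≤ C₁) :
    ∃ C : ℝ, 0 < C ∧ ∀ (S : Type) (rk : S → ℕ) (f : S → ℝ → ℝ)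
    (a c₀ l : ℝ), 0 < c₀ → 0 < l → (∀ V, rk V ≤ r) → (∀ V, Continuous (f V)) →
    (∀ V W, V ≠ W → rk V = rk W → ∃ V' W' j, 1 ≤ j ∧ rk V' + j = rk V ∧ rk W' = rk V + j ∧
      ∀ x, f V' x * f W' x ≤ f V x * f W x) →
    (∀ V, ∀ a' l' M η : ℝ, 0 < l' → 0 < M → 0 < η → (∃ z ∈ Ico a' (a' + l'), M ≤ f V z) →
      volume {x ∈ Ico a' (a' + l') | f V x < η} ≤
        ENNReal.ofReal (C₁ * (η / M) ^ α) * ENNReal.ofReal l') →
    (∀ V, ∃ z ∈ Ico a (a + l), c₀ ≤ f V z) →
    (∃ m₀ : ℝ, 0 < m₀ ∧ ∀ V x, m₀ ≤ f V x) →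
    ∀ m : ℝ, 0 < m → volume {x ∈ Ico a (a + l) | ∃ V, f V x < m} ≤
      ENNReal.ofReal (C * (l * c₀ ^ (-s)) * m ^ s) := by
  set B : ℝ := kmC 1 (r + 2) with hB
  have hB0 : 0 ≤ B := kmC_nonneg zero_le_one _
  -- choice of `A`
  obtain ⟨A, hA1, hAθ⟩ : ∃ A : ℝ, 1 ≤ A ∧ A ^ (-s) + C₁ * A ^ (-α) * B * A ^ s ≤ 1 / 2 := by
    have h1 : Filter.Tendsto (fun A : ℝ => A ^ (-s) + C₁ * B * A ^ (-(α - s))) Filter.atTop
        (nhds (0 + C₁ * B * 0)) :=
      (tendsto_rpow_neg_atTop hs).add ((tendsto_rpow_neg_atTop (by linarith)).const_mul _)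
    have h2 : ∀ᶠ A : ℝ in Filter.atTop, A ^ (-s) + C₁ * B * A ^ (-(α - s)) < 1 / 2 := by
      apply h1.eventually_lt_const
      norm_num
    obtain ⟨A, hA, hA'⟩ := (h2.and (Filter.eventually_ge_atTop 1)).exists
    refine ⟨A, hA', ?_⟩
    have hApos : 0 < A := by linarith
    have e : C₁ * A ^ (-α) * B * A ^ s = C₁ * B * A ^ (-(α - s)) := by
      have : A ^ (-(α - s)) = A ^ (-α) * A ^ s := by
        rw [← Real.rpow_add hApos]; congr 1; ring
      rw [this]; ring
    rw [e]
    exact hA.le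
  have hA0 : 0 < A := by linarith
  set Q : ℝ := A ^ 2 with hQ
  have hQ1 : 1 ≤ Q := one_le_pow₀ hA1
  have hQ0 : 0 < Q := by linarith
  refine ⟨A ^ s * (Q ^ (r * r)) ^ s, by positivity, ?_⟩
  intro S rk f a c₀ l hc₀ hl hrk hcont hsub hgood hsup hlow m hm
  set D : ℝ := l * (A / c₀) ^ s with hD
  have hD0 : 0 < D := by positivity
  obtain ⟨m₀, hm₀, hlow⟩ := hlow
  set g : S → ℝ → ℝ := fun V x => f V x * Q ^ (rk V * (r - rk V)) with hg
  have hf0 : ∀ V x, 0 < f V x := fun V x => hm₀.trans_le (hlow V x)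
  have hQp : ∀ n : ℕ, 1 ≤ Q ^ n := fun n => one_le_pow₀ hQ1
  have hQp0 : ∀ n : ℕ, 0 < Q ^ n := fun n => by positivity
  have hgf : ∀ V x, f V x ≤ g V x := by
    intro V x
    simp only [hg]
    nlinarith [hf0 V x, hQp (rk V * (r - rk V))]
  have hg0 : ∀ V x, 0 < g V x := fun V x => (hf0 V x).trans_le (hgf V x)
  have hgcont : ∀ V, Continuous (g V) := fun V => (hcont V).mul_const _
  -- submodularity gives injectivity
  have hinj : ∀ m : ℝ, 0 < m → ∀ x V W, (∀ V'', m / A ≤ g V'' x) → g V x < A * m →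
      g W x < A * m → rk V = rk W → V = W := by
    intro m hm x V W h1 h2 h3 h4
    by_contra hne
    obtain ⟨V', W', j, hj1, hj2, hj3, hj4⟩ := hsub V W hne h4
    have hid := phi_id r (rk V) j (by omega) (by rw [← hj3]; exact hrk W')
    have e1 : rk V - j = rk V' := by omega
    rw [e1, ← hj3] at hid
    have h5 : g V' x * g W' x * Q ^ (2 * j ^ 2) ≤ g V x * g W x := by
      simp only [hg]
      rw [← h4]
      have e2 : f V' x * Q ^ (rk V' * (r - rk V')) * (f W' x * Q ^ (rk W' * (r - rk W'))) *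
          Q ^ (2 * j ^ 2) = f V' x * f W' x * Q ^ (2 * (rk V * (r - rk V))) := by
        rw [← hid, pow_add, pow_add]; ring
      have e3 : f V x * Q ^ (rk V * (r - rk V)) * (f W x * Q ^ (rk V * (r - rk V))) =
          f V x * f W x * Q ^ (2 * (rk V * (r - rk V))) := by
        rw [two_mul, pow_add]; ring
      rw [e2, e3]
      exact mul_le_mul_of_nonneg_right (hj4 x) (hQp0 _).le
    have h6 : Q ^ 2 ≤ Q ^ (2 * j ^ 2) := by
      apply pow_le_pow_right₀ hQ1
      nlinarith
    have h7 : (m / A) * (m / A) ≤ g V' x * g W' x :=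
      mul_le_mul (h1 V') (h1 W') (by positivity) (hg0 _ _).le
    have h8 : g V x * g W x < (A * m) * (A * m) :=
      mul_lt_mul'' h2 h3 (hg0 _ _).le (hg0 _ _).le
    have h9 : (m / A) * (m / A) * Q ^ 2 ≤ g V' x * g W' x * Q ^ (2 * j ^ 2) :=
      mul_le_mul h7 h6 (by positivity) (by have := hg0 V' x; have := hg0 W' x; positivity)
    have h10 : (m / A) * (m / A) * Q ^ 2 = (A * m) * (A * m) := by
      rw [hQ]; field_simp
    linarith
  -- good property of `g`
  have hggood : ∀ m : ℝ, 0 < m → ∀ V, ∀ a' l' : ℝ, 0 < l' → (∃ z ∈ Ico a' (a' + l'), A * m ≤ g V z) →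
      volume {x ∈ Ico a' (a' + l') | g V x < m} ≤
        ENNReal.ofReal (C₁ * A ^ (-α)) * ENNReal.ofReal l' := by
    intro m hm V a' l' hl' ⟨z, hz, hz'⟩
    have hP := hQp0 (rk V * (r - rk V))
    have h1 := hgood V a' l' (A * m / Q ^ (rk V * (r - rk V))) (m / Q ^ (rk V * (r - rk V))) hl'
      (by positivity) (by positivity) ⟨z, hz, by rw [div_le_iff₀ hP]; exact hz'⟩
    have e : m / Q ^ (rk V * (r - rk V)) / (A * m / Q ^ (rk V * (r - rk V))) = A⁻¹ := by
      field_simp
    rw [e, Real.inv_rpow hA0.le, ← Real.rpow_neg hA0.le] at h1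
    refine le_trans (measure_mono ?_) h1
    rintro x ⟨hx, hx'⟩
    exact ⟨hx, by rw [lt_div_iff₀ hP]; exact hx'⟩
  -- the distribution function
  set I : Set ℝ := Ico a (a + l) with hI
  have hvI : volume I = ENNReal.ofReal l := by
    rw [hI, Real.volume_Ico]; congr 1; ring
  set F : ℝ → ℝ := fun m => (volume {x ∈ I | ∃ V, g V x < m}).toReal with hF
  have hfin : ∀ p : ℝ → Prop, volume {x ∈ I | p x} ≠ ⊤ := by
    intro p
    refine ne_top_of_le_ne_top ?_ (measure_mono (fun x hx => hx.1) : volume {x ∈ I | p x} ≤ volume I)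
    rw [hvI]; exact ENNReal.ofReal_ne_top
  have hFl : ∀ m, F m ≤ l := by
    intro m
    have h1 : volume {x ∈ I | ∃ V, g V x < m} ≤ ENNReal.ofReal l := by
      rw [← hvI]; exact measure_mono (fun x hx => hx.1)
    have h2 := ENNReal.toReal_mono ENNReal.ofReal_ne_top h1
    rwa [ENNReal.toReal_ofReal hl.le] at h2
  have hF0 : ∀ m, 0 ≤ F m := fun m => ENNReal.toReal_nonneg
  have hFz : ∀ m, m ≤ m₀ → F m = 0 := by
    intro m hm
    have : {x ∈ I | ∃ V, g V x < m} = ∅ := by
      ext x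
      simp only [mem_ofPred_eq, mem_empty_iff_false, iff_false, not_and, not_exists, not_lt]
      intro _ V
      exact hm.trans ((hlow V x).trans (hgf V x))
    simp only [hF]
    rw [this]; simp
  set κ : ℝ := C₁ * A ^ (-α) with hκ
  have hκ0 : 0 ≤ κ := by positivity
  have hstep : ∀ m, 0 < m → A * m ≤ c₀ → F m ≤ F (m / A) + κ * B * F (A * m) := by
    intro m hm hmc
    have h1 := node g rk r hrk A m κ hA1 hm hκ0 (hinj m hm) hgcont (hggood m hm) (r + 2) ∅
      (by simp) a l hl (fun V _ => by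
        obtain ⟨z, hz, hz'⟩ := hsup V
        exact ⟨z, hz, hmc.trans (hz'.trans (hgf V z))⟩)
    have h2 : {x ∈ I | ∃ V, g V x < m} ⊆ {x ∈ I | ∃ V, g V x < m / A} ∪
        {x ∈ I | Ev g A m ∅ x} := by
      rintro x ⟨hx, V, hV⟩
      by_cases hc : ∃ V, g V x < m / A
      · exact Or.inl ⟨hx, hc⟩
      · right
        push Not at hc
        exact ⟨hx, hc, by simp, V, by simp, hV⟩
    have h3 : volume {x ∈ I | ∃ V, g V x < m} ≤ volume {x ∈ I | ∃ V, g V x < m / A} +
        ENNReal.ofReal (κ * B) * volume {x ∈ I | ∃ V, g V x < A * m} := by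
      refine (measure_mono h2).trans ((measure_union_le _ _).trans (add_le_add le_rfl ?_))
      rw [hB, ← kmC_mul]
      simp only [Finset.notMem_empty, not_false_eq_true, true_and] at h1
      exact h1
    have h4 := ENNReal.toReal_mono (by
      refine ENNReal.add_ne_top.2 ⟨hfin _, ENNReal.mul_ne_top ENNReal.ofReal_ne_top (hfin _)⟩) h3
    rw [ENNReal.toReal_add (hfin _) (ENNReal.mul_ne_top ENNReal.ofReal_ne_top (hfin _)),
      ENNReal.toReal_mul, ENNReal.toReal_ofReal (by positivity)] at h4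
    exact h4
  -- iteration
  have hind : ∀ n : ℕ, ∀ m, 0 < m → F m ≤ max D ((1 / 2) ^ n * (l / m₀ ^ s)) * m ^ s := by
    intro n
    induction n with
    | zero =>
      intro m hm
      have hms : 0 < m ^ s := Real.rpow_pos_of_pos hm _
      have hm0s : 0 < m₀ ^ s := Real.rpow_pos_of_pos hm₀ _
      rcases le_or_gt m m₀ with h | h
      · rw [hFz m h]; positivity
      · refine (hFl m).trans ?_
        have h1 : l ≤ (1 / 2 : ℝ) ^ 0 * (l / m₀ ^ s) * m ^ s := by
          rw [pow_zero, one_mul, div_mul_eq_mul_div, le_div_iff₀ hm0s]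
          exact mul_le_mul_of_nonneg_left (Real.rpow_le_rpow hm₀.le h.le hs.le) hl.le
        exact h1.trans (mul_le_mul_of_nonneg_right (le_max_right _ _) hms.le)
    | succ n ih =>
      intro m hm
      have hms : 0 < m ^ s := Real.rpow_pos_of_pos hm _
      rcases le_or_gt (c₀ / A) m with h | h
      · refine (hFl m).trans ?_
        have h1 : l ≤ D * m ^ s := by
          have h2 : (c₀ / A) ^ s ≤ m ^ s := Real.rpow_le_rpow (by positivity) h hs.le
          have h3 : D * (c₀ / A) ^ s = l := by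
            rw [hD, mul_assoc, ← Real.mul_rpow (by positivity) (by positivity)]
            have : A / c₀ * (c₀ / A) = 1 := by field_simp
            rw [this, Real.one_rpow, mul_one]
          rw [← h3]
          exact mul_le_mul_of_nonneg_left h2 hD0.le
        exact h1.trans (mul_le_mul_of_nonneg_right (le_max_left _ _) hms.le)
      · have hmc : A * m ≤ c₀ := by
          rw [lt_div_iff₀ hA0] at h
          linarith
        have h1 := hstep m hm hmc
        have h2 := ih (m / A) (by positivity)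
        have h3 := ih (A * m) (by positivity)
        set X := max D ((1 / 2) ^ n * (l / m₀ ^ s)) with hX
        have hX0 : 0 < X := hD0.trans_le (le_max_left _ _)
        have e1 : (m / A) ^ s = A ^ (-s) * m ^ s := by
          rw [Real.div_rpow hm.le hA0.le, Real.rpow_neg hA0.le]; field_simp
        have e2 : (A * m) ^ s = A ^ s * m ^ s := Real.mul_rpow hA0.le hm.le
        rw [e1] at h2
        rw [e2] at h3
        have h4 : F m ≤ X * m ^ s * (A ^ (-s) + κ * B * A ^ s) := by
          calc F m ≤ F (m / A) + κ * B * F (A * m) := h1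
            _ ≤ X * (A ^ (-s) * m ^ s) + κ * B * (X * (A ^ s * m ^ s)) :=
                add_le_add h2 (mul_le_mul_of_nonneg_left h3 (by positivity))
            _ = _ := by ring
        have h5 : F m ≤ X * m ^ s * (1 / 2) := by
          refine h4.trans (mul_le_mul_of_nonneg_left ?_ (by positivity))
          rw [hκ]; exact hAθ
        have h6 : X * (1 / 2) ≤ max D ((1 / 2) ^ (n + 1) * (l / m₀ ^ s)) := by
          rw [hX]
          rcases le_total D ((1 / 2) ^ n * (l / m₀ ^ s)) with h | h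
          · rw [max_eq_right h]
            refine le_trans (le_of_eq ?_) (le_max_right _ _)
            rw [pow_succ]; ring
          · rw [max_eq_left h]
            refine le_trans ?_ (le_max_left _ _)
            linarith
        calc F m ≤ X * m ^ s * (1 / 2) := h5
          _ = X * (1 / 2) * m ^ s := by ring
          _ ≤ _ := mul_le_mul_of_nonneg_right h6 hms.le
  have hfinal : ∀ m, 0 < m → F m ≤ D * m ^ s := by
    intro m hm
    have h1 : Filter.Tendsto (fun n : ℕ => max D ((1 / 2 : ℝ) ^ n * (l / m₀ ^ s)) * m ^ s)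
        Filter.atTop (nhds (max D (0 * (l / m₀ ^ s)) * m ^ s)) := by
      apply Filter.Tendsto.mul_const
      apply Filter.Tendsto.max tendsto_const_nhds
      exact (tendsto_pow_atTop_nhds_zero_of_lt_one (by norm_num) (by norm_num)).mul_const _
    rw [zero_mul, max_eq_left hD0.le] at h1
    exact ge_of_tendsto' h1 (fun n => hind n m hm)
  -- conclusion
  have hR := hfinal (Q ^ (r * r) * m) (by positivity)
  have h1 : {x ∈ I | ∃ V, f V x < m} ⊆ {x ∈ I | ∃ V, g V x < Q ^ (r * r) * m} := by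
    rintro x ⟨hx, V, hV⟩
    refine ⟨hx, V, ?_⟩
    simp only [hg]
    have h2 : Q ^ (rk V * (r - rk V)) ≤ Q ^ (r * r) :=
      pow_le_pow_right₀ hQ1 (Nat.mul_le_mul (hrk V) (Nat.sub_le _ _))
    calc f V x * Q ^ (rk V * (r - rk V)) ≤ f V x * Q ^ (r * r) :=
          mul_le_mul_of_nonneg_left h2 (hf0 V x).le
      _ < m * Q ^ (r * r) := mul_lt_mul_of_pos_right hV (hQp0 _)
      _ = _ := by ring
  refine (measure_mono h1).trans ?_
  rw [← ENNReal.ofReal_toReal (hfin _)]
  apply ENNReal.ofReal_le_ofReal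
  refine hR.trans (le_of_eq ?_)
  rw [Real.mul_rpow (by positivity) hm.le, hD, Real.div_rpow hA0.le hc₀.le, Real.rpow_neg hc₀.le]
  ring

end Pool.Agent.N3.ST.T1c
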