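import Pool.Agent.N3.ST.I0

/-!
# Project ST, part I: from sets of lines to tubes
-/

set_option autoImplicit false
set_option linter.unusedSectionVars false
set_option linter.unusedVariables false

open MeasureTheory Set Metric
open scoped Pointwise ENNReal

namespace Pool.Agent.N3.ST.I

open Pool.Agent.H810R3.Tub (Space tube dir dir_sub_le tube_eq tube_closed)

variable {d : ℕ}

/-- the volume constant -/
noncomputable def V (d : ℕ) : ℝ := 2 ^ d * (volume (ball (0 : Vec d) 1)).toReal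

theorem V_nonneg (d : ℕ) : 0 ≤ V d := by
  unfold V; positivity

theorem ball_vol {δ : ℝ} (hδ : 0 < δ) (y : Vec d) :
    volume (closedBall y (2 * δ)) = ENNReal.ofReal (V d * δ ^ d) := by
  rw [Measure.addHaar_closedBall volume y (by positivity : (0 : ℝ) ≤ 2 * δ)]
  have h1 : Module.finrank ℝ (Vec d) = d := by simp
  have h2 : volume (ball (0 : Vec d) 1) ≠ ∞ := measure_ball_lt_top.ne
  rw [h1, ← ENNReal.ofReal_toReal h2, ← ENNReal.ofReal_mul (by positivity)]
  congr 1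
  unfold V
  ring

/-- Fubini on the space -/
theorem fub (f : Space d → ℝ≥0∞) (hf : Measurable f) :
    ∫⁻ y, f y = ∫⁻ t : ℝ, ∫⁻ x : Vec d, f (WithLp.toLp 2 (x, t)) := by
  have h1 := (WithLp.volume_preserving_toLp (Vec d) ℝ)
  rw [← h1.lintegral_comp hf, Measure.volume_eq_prod]
  exact lintegral_prod_symm (fun p : Vec d × ℝ => f (WithLp.toLp 2 p))
    (hf.comp h1.measurable).aemeasurable

section one

variable {ι : Type} [Fintype ι]

/-- The horizontal slices of a tube. -/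
theorem slice {δ : ℝ} (hδ : 0 < δ) (hδ1 : δ < 1) {v c : Vec d} (hv : ‖v‖ ≤ 1) (h t : ℝ) :
    ∫⁻ x : Vec d, (tube δ (dir v) (WithLp.toLp 2 (c, h))).indicator (fun _ => (1 : ℝ≥0∞))
      (WithLp.toLp 2 (x, t)) ≤
    (Icc (h - 3 / 2) (h + 3 / 2)).indicator (fun _ => ENNReal.ofReal (V d * δ ^ d)) t := by
  by_cases ht : t ∈ Icc (h - 3 / 2) (h + 3 / 2)
  · rw [indicator_of_mem ht, ← ball_vol hδ (c + (t - h) • v), ← setLIntegral_one,
      ← lintegral_indicator measurableSet_closedBall]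
    refine lintegral_mono fun x => ?_
    by_cases hm : (WithLp.toLp 2 (x, t) : Space d) ∈ tube δ (dir v) (WithLp.toLp 2 (c, h))
    · rw [indicator_of_mem hm, indicator_of_mem]
      rw [mem_closedBall, dist_eq_norm]
      exact (geo hδ hδ1 hv h hm).2
    · rw [indicator_of_notMem hm]
      exact zero_le
  · rw [indicator_of_notMem ht]
    refine le_of_eq ?_
    rw [lintegral_eq_zero_iff']
    · refine Filter.Eventually.of_forall fun x => ?_
      refine indicator_of_notMem (fun hm => ht ?_) _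
      have := abs_le.1 (geo hδ hδ1 hv h hm).1
      constructor <;> linarith [this.1, this.2]
    · have h1 := (WithLp.volume_preserving_toLp (Vec d) ℝ).measurable
      have h2 : Measurable fun x : Vec d => (WithLp.toLp 2 (x, t) : Space d) :=
        h1.comp (measurable_id.prodMk measurable_const)
      exact ((measurable_const.indicator (tube_closed _ _ _).measurableSet).comp h2).aemeasurable

/-- the set of the heights of points of multiplicity `2 ^ k` -/
def Ek (δ : ℝ) (v c : ι → Vec d) (h : ι → ℝ) (k : ℕ) : Set ℝ :=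
  {t | ∃ x : Vec d, (2 : ℝ) ^ k ≤ tsum δ v c h (WithLp.toLp 2 (x, t))}

/-- a measurable majorant of a power of the multiplicity -/
noncomputable def Psi (δ : ℝ) (v c : ι → Vec d) (h : ι → ℝ) (s : ℝ) (t : ℝ) : ℝ≥0∞ :=
  1 + ∑' k : ℕ, ENNReal.ofReal ((2 : ℝ) ^ (((k : ℝ) + 1) * s)) *
    (toMeasurable volume (Ek δ v c h k)).indicator (fun _ => (1 : ℝ≥0∞)) t

theorem Psi_meas (δ : ℝ) (v c : ι → Vec d) (h : ι → ℝ) (s : ℝ) :
    Measurable (Psi δ v c h s) := by
  unfold Psi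
  refine measurable_const.add (Measurable.ennreal_tsum fun k => ?_)
  exact (measurable_const.indicator (measurableSet_toMeasurable _ _)).const_mul _

theorem le_Psi (δ : ℝ) (v c : ι → Vec d) (h : ι → ℝ) {s : ℝ} (hs : 0 < s) (x : Vec d) (t : ℝ) :
    (cnt δ v c h (WithLp.toLp 2 (x, t)) : ℝ≥0∞) ^ s ≤ Psi δ v c h s t := by
  set n := cnt δ v c h (WithLp.toLp 2 (x, t)) with hn
  rcases Nat.eq_zero_or_pos n with h0 | h0
  · rw [h0, Nat.cast_zero, ENNReal.zero_rpow_of_pos hs]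
    exact zero_le
  · set k := Nat.log 2 n with hk
    have h1 : 2 ^ k ≤ n := Nat.pow_log_le_self 2 h0.ne'
    have h2 : n < 2 ^ (k + 1) := Nat.lt_pow_succ_log_self (by norm_num) n
    have h3 : t ∈ Ek δ v c h k := by
      refine ⟨x, ?_⟩
      rw [tsum_eq, ← hn]
      exact_mod_cast h1
    have h4 : (n : ℝ≥0∞) ^ s ≤ ENNReal.ofReal ((2 : ℝ) ^ (((k : ℝ) + 1) * s)) := by
      have e1 : (n : ℝ≥0∞) = ENNReal.ofReal n := (ENNReal.ofReal_natCast n).symm
      rw [e1, ENNReal.ofReal_rpow_of_nonneg (Nat.cast_nonneg _) hs.le]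
      apply ENNReal.ofReal_le_ofReal
      rw [Real.rpow_mul (by norm_num)]
      apply Real.rpow_le_rpow (Nat.cast_nonneg _) _ hs.le
      have : ((n : ℕ) : ℝ) ≤ ((2 ^ (k + 1) : ℕ) : ℝ) := by exact_mod_cast h2.le
      refine this.trans (le_of_eq ?_)
      push_cast
      rw [← Real.rpow_natCast]
      push_cast
      rfl
    refine h4.trans ?_
    unfold Psi
    refine le_add_left ?_
    have h5 := ENNReal.le_tsum (f := fun k : ℕ => ENNReal.ofReal ((2 : ℝ) ^ (((k : ℝ) + 1) * s)) *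
      (toMeasurable volume (Ek δ v c h k)).indicator (fun _ => (1 : ℝ≥0∞)) t) k
    refine le_trans (le_of_eq ?_) h5
    show _ = ENNReal.ofReal ((2 : ℝ) ^ (((k : ℝ) + 1) * s)) *
      (toMeasurable volume (Ek δ v c h k)).indicator (fun _ => (1 : ℝ≥0∞)) t
    rw [indicator_of_mem (subset_toMeasurable _ _ h3), mul_one]

/-- the integral of the majorant over an interval -/
theorem int_Psi (δ : ℝ) (v c : ι → Vec d) (h : ι → ℝ) {s2 s C1 : ℝ} (hs2 : 0 < s2)
    (hss : s2 < s) (hC1 : 0 < C1)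
    (hE : ∀ τ lam : ℝ, 1 ≤ lam → volume {t ∈ Ico (τ - 1) (τ + 1) | ∃ x : Vec d,
      lam ≤ tsum δ v c h (WithLp.toLp 2 (x, t))} ≤ ENNReal.ofReal (C1 * lam ^ (-s))) (a : ℝ) :
    ∫⁻ t in Icc (a - 3 / 2) (a + 3 / 2), Psi δ v c h s2 t ≤
      ENNReal.ofReal (4 + 2 * C1 * (2 : ℝ) ^ s2 * (1 - (2 : ℝ) ^ (s2 - s))⁻¹) := by
  have hr0 : 0 < (2 : ℝ) ^ (s2 - s) := Real.rpow_pos_of_pos (by norm_num) _
  have hr1 : (2 : ℝ) ^ (s2 - s) < 1 := Real.rpow_lt_one_of_one_lt_of_neg (by norm_num) (by linarith)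
  have h2 : ∫⁻ t in Icc (a - 3 / 2) (a + 3 / 2), Psi δ v c h s2 t ≤
      ∫⁻ t in Ico (a - 2) (a + 2), Psi δ v c h s2 t := by
    refine lintegral_mono_set ?_
    intro t ht
    constructor <;> linarith [ht.1, ht.2]
  refine h2.trans ?_
  have hk : ∀ k : ℕ, volume (toMeasurable volume (Ek δ v c h k) ∩ Ico (a - 2) (a + 2)) ≤
      ENNReal.ofReal (2 * (C1 * ((2 : ℝ) ^ k) ^ (-s))) := by
    intro k
    rw [Measure.measure_toMeasurable_inter_of_sFinite measurableSet_Ico]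
    have h3 : Ek δ v c h k ∩ Ico (a - 2) (a + 2) ⊆
        {t ∈ Ico ((a - 1) - 1) ((a - 1) + 1) | ∃ x : Vec d,
          (2 : ℝ) ^ k ≤ tsum δ v c h (WithLp.toLp 2 (x, t))} ∪
        {t ∈ Ico ((a + 1) - 1) ((a + 1) + 1) | ∃ x : Vec d,
          (2 : ℝ) ^ k ≤ tsum δ v c h (WithLp.toLp 2 (x, t))} := by
      rintro t ⟨h4, h5⟩
      rcases lt_or_ge t a with h6 | h6
      · left
        exact ⟨⟨by linarith [h5.1], by linarith⟩, h4⟩
      · right
        exact ⟨⟨by linarith, by linarith [h5.2]⟩, h4⟩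
    have h1k : (1 : ℝ) ≤ 2 ^ k := one_le_pow₀ (by norm_num)
    refine (measure_mono h3).trans ((measure_union_le _ _).trans ?_)
    refine (add_le_add (hE (a - 1) _ h1k) (hE (a + 1) _ h1k)).trans (le_of_eq ?_)
    rw [← ENNReal.ofReal_add (by positivity) (by positivity)]
    congr 1
    ring
  unfold Psi
  rw [lintegral_add_left measurable_const, lintegral_tsum (fun k =>
    ((measurable_const.indicator (measurableSet_toMeasurable _ _)).const_mul _).aemeasurable)]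
  have e1 : ∫⁻ _ in Ico (a - 2) (a + 2), (1 : ℝ≥0∞) = ENNReal.ofReal 4 := by
    rw [setLIntegral_one, Real.volume_Ico]
    congr 1
    ring
  have e2 : ∀ k : ℕ, ∫⁻ t in Ico (a - 2) (a + 2), ENNReal.ofReal ((2 : ℝ) ^ (((k : ℝ) + 1) * s2)) *
      (toMeasurable volume (Ek δ v c h k)).indicator (fun _ => (1 : ℝ≥0∞)) t ≤
      ENNReal.ofReal (2 * C1 * (2 : ℝ) ^ s2) * ENNReal.ofReal ((2 : ℝ) ^ (s2 - s)) ^ k := by
    intro k
    rw [lintegral_const_mul _ (measurable_const.indicator (measurableSet_toMeasurable _ _)),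
      lintegral_indicator (measurableSet_toMeasurable _ _), setLIntegral_one,
      Measure.restrict_apply (measurableSet_toMeasurable _ _)]
    refine (mul_le_mul' le_rfl (hk k)).trans (le_of_eq ?_)
    rw [← ENNReal.ofReal_mul (by positivity), ← ENNReal.ofReal_pow hr0.le,
      ← ENNReal.ofReal_mul (by positivity)]
    congr 1
    have e3 : (2 : ℝ) ^ (((k : ℝ) + 1) * s2) = ((2 : ℝ) ^ s2) ^ k * (2 : ℝ) ^ s2 := by
      rw [add_mul, one_mul, Real.rpow_add (by norm_num), mul_comm (k : ℝ), Real.rpow_mul (by norm_num),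
        Real.rpow_natCast]
    have e4 : ((2 : ℝ) ^ k) ^ (-s) = ((2 : ℝ) ^ (-s)) ^ k := by
      rw [← Real.rpow_natCast, ← Real.rpow_mul (by norm_num), mul_comm, Real.rpow_mul (by norm_num),
        Real.rpow_natCast]
    have e5 : (2 : ℝ) ^ (s2 - s) = (2 : ℝ) ^ s2 * (2 : ℝ) ^ (-s) := by
      rw [← Real.rpow_add (by norm_num)]
      congr 1
    rw [e3, e4, e5, mul_pow]
    ring
  rw [e1]
  have e6 : ∑' k : ℕ, (∫⁻ t in Ico (a - 2) (a + 2), ENNReal.ofReal ((2 : ℝ) ^ (((k : ℝ) + 1) * s2)) *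
      (toMeasurable volume (Ek δ v c h k)).indicator (fun _ => (1 : ℝ≥0∞)) t) ≤
      ENNReal.ofReal (2 * C1 * (2 : ℝ) ^ s2 * (1 - (2 : ℝ) ^ (s2 - s))⁻¹) := by
    refine (ENNReal.tsum_le_tsum e2).trans (le_of_eq ?_)
    have e7 : ENNReal.ofReal (2 * C1 * (2 : ℝ) ^ s2 * (1 - (2 : ℝ) ^ (s2 - s))⁻¹) =
        ENNReal.ofReal (2 * C1 * (2 : ℝ) ^ s2) * ENNReal.ofReal ((1 - (2 : ℝ) ^ (s2 - s))⁻¹) :=
      ENNReal.ofReal_mul (by positivity)
    rw [ENNReal.tsum_mul_left, ENNReal.tsum_geometric, e7,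
      ENNReal.ofReal_inv_of_pos (by linarith), ENNReal.ofReal_sub _ hr0.le, ENNReal.ofReal_one]
  refine (add_le_add le_rfl e6).trans (le_of_eq ?_)
  rw [← ENNReal.ofReal_add (by norm_num)]
  have : 0 ≤ (1 - (2 : ℝ) ^ (s2 - s))⁻¹ := inv_nonneg.2 (by linarith)
  positivity

/-- the integral of a power of the multiplicity -/
theorem int_pow {δ : ℝ} (hδ : 0 < δ) (hδ1 : δ < 1) (v c : ι → Vec d) (h : ι → ℝ)
    (hv : ∀ i, ‖v i‖ ≤ 1) {s2 s C1 q : ℝ} (hs2 : 0 < s2) (hss : s2 < s) (hC1 : 0 < C1)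
    (hq : s2 < q - 1)
    (hE : ∀ τ lam : ℝ, 1 ≤ lam → volume {t ∈ Ico (τ - 1) (τ + 1) | ∃ x : Vec d,
      lam ≤ tsum δ v c h (WithLp.toLp 2 (x, t))} ≤ ENNReal.ofReal (C1 * lam ^ (-s))) :
    ∫⁻ y : Space d, (cnt δ v c h y : ℝ≥0∞) ^ q ≤
      ENNReal.ofReal ((Fintype.card ι : ℝ) ^ (q - s2) * (V d * δ ^ d) *
        (4 + 2 * C1 * (2 : ℝ) ^ s2 * (1 - (2 : ℝ) ^ (s2 - s))⁻¹)) := by
  set C2 := 4 + 2 * C1 * (2 : ℝ) ^ s2 * (1 - (2 : ℝ) ^ (s2 - s))⁻¹ with hC2
  have hr1 : (2 : ℝ) ^ (s2 - s) < 1 := Real.rpow_lt_one_of_one_lt_of_neg (by norm_num) (by linarith)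
  have hC20 : 0 ≤ C2 := by
    have : 0 ≤ (1 - (2 : ℝ) ^ (s2 - s))⁻¹ := inv_nonneg.2 (by linarith)
    positivity
  have hVδ : 0 ≤ V d * δ ^ d := mul_nonneg (V_nonneg d) (by positivity)
  set N := Fintype.card ι with hN
  have hm := cnt_meas (d := d) δ v c h
  rw [fub _ (hm.pow_const q)]
  have htm : ∀ t : ℝ, Measurable fun x : Vec d => (WithLp.toLp 2 (x, t) : Space d) := fun t =>
    (WithLp.volume_preserving_toLp (Vec d) ℝ).measurable.comp (measurable_id.prodMk measurable_const)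
  -- pointwise bound
  have hpt : ∀ (t : ℝ) (x : Vec d), (cnt δ v c h (WithLp.toLp 2 (x, t)) : ℝ≥0∞) ^ q ≤
      ((N : ℝ≥0∞) ^ (q - 1 - s2) * Psi δ v c h s2 t) * cnt δ v c h (WithLp.toLp 2 (x, t)) := by
    intro t x
    have h1 := le_Psi (d := d) δ v c h hs2 x t
    have h2 := cnt_le (d := d) δ v c h (WithLp.toLp 2 (x, t))
    set n := cnt δ v c h (WithLp.toLp 2 (x, t)) with hn
    have e : (n : ℝ≥0∞) ^ q = (n : ℝ≥0∞) ^ (q - 1 - s2) * (n : ℝ≥0∞) ^ s2 * n := by
      rw [← ENNReal.rpow_add_of_nonneg _ _ (by linarith) hs2.le]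
      have e' : (n : ℝ≥0∞) ^ (q - 1 - s2 + s2) * n = (n : ℝ≥0∞) ^ (q - 1 - s2 + s2) * (n : ℝ≥0∞) ^ (1 : ℝ) := by
        rw [ENNReal.rpow_one]
      rw [e', ← ENNReal.rpow_add_of_nonneg _ _ (by linarith) zero_le_one]
      congr 1
      ring
    rw [e]
    refine mul_le_mul' (mul_le_mul' (ENNReal.rpow_le_rpow ?_ (by linarith)) h1) le_rfl
    exact_mod_cast h2
  calc ∫⁻ t : ℝ, ∫⁻ x : Vec d, (cnt δ v c h (WithLp.toLp 2 (x, t)) : ℝ≥0∞) ^ q
      ≤ ∫⁻ t : ℝ, ∫⁻ x : Vec d, ((N : ℝ≥0∞) ^ (q - 1 - s2) * Psi δ v c h s2 t) *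
          cnt δ v c h (WithLp.toLp 2 (x, t)) :=
        lintegral_mono fun t => lintegral_mono fun x => hpt t x
    _ = ∫⁻ t : ℝ, ((N : ℝ≥0∞) ^ (q - 1 - s2) * Psi δ v c h s2 t) *
          ∑ i, ∫⁻ x : Vec d, (tube δ (dir (v i)) (WithLp.toLp 2 (c i, h i))).indicator
            (fun _ => (1 : ℝ≥0∞)) (WithLp.toLp 2 (x, t)) := by
        refine lintegral_congr fun t => ?_
        refine (lintegral_const_mul _ (hm.comp (htm t))).trans ?_
        congr 1
        simp only [Function.comp_def, cnt_eq]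
        exact lintegral_finsetSum _ fun i _ =>
          (measurable_const.indicator (tube_closed _ _ _).measurableSet).comp (htm t)
    _ ≤ ∫⁻ t : ℝ, ((N : ℝ≥0∞) ^ (q - 1 - s2) * Psi δ v c h s2 t) *
          ∑ i, (Icc (h i - 3 / 2) (h i + 3 / 2)).indicator
            (fun _ => ENNReal.ofReal (V d * δ ^ d)) t :=
        lintegral_mono fun t => mul_le_mul' le_rfl
          (Finset.sum_le_sum fun i _ => slice hδ hδ1 (hv i) (h i) t)
    _ = ∫⁻ t : ℝ, ∑ i, ((N : ℝ≥0∞) ^ (q - 1 - s2) * ENNReal.ofReal (V d * δ ^ d)) *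
          (Icc (h i - 3 / 2) (h i + 3 / 2)).indicator (Psi δ v c h s2) t := by
        refine lintegral_congr fun t => ?_
        rw [Finset.mul_sum]
        refine Finset.sum_congr rfl fun i _ => ?_
        by_cases ht : t ∈ Icc (h i - 3 / 2) (h i + 3 / 2)
        · rw [indicator_of_mem ht, indicator_of_mem ht]
          ring
        · rw [indicator_of_notMem ht, indicator_of_notMem ht, mul_zero, mul_zero]
    _ = ∑ i, ((N : ℝ≥0∞) ^ (q - 1 - s2) * ENNReal.ofReal (V d * δ ^ d)) *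
          ∫⁻ t in Icc (h i - 3 / 2) (h i + 3 / 2), Psi δ v c h s2 t := by
        rw [lintegral_finsetSum _ fun i _ =>
          ((Psi_meas δ v c h s2).indicator measurableSet_Icc).const_mul _]
        refine Finset.sum_congr rfl fun i _ => ?_
        rw [lintegral_const_mul _ ((Psi_meas δ v c h s2).indicator measurableSet_Icc),
          lintegral_indicator measurableSet_Icc]
    _ ≤ ∑ _i : ι, ((N : ℝ≥0∞) ^ (q - 1 - s2) * ENNReal.ofReal (V d * δ ^ d)) * ENNReal.ofReal C2 :=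
        Finset.sum_le_sum fun i _ => mul_le_mul' le_rfl (int_Psi δ v c h hs2 hss hC1 hE (h i))
    _ = (N : ℝ≥0∞) ^ (q - s2) * ENNReal.ofReal (V d * δ ^ d) * ENNReal.ofReal C2 := by
        rw [Finset.sum_const, Finset.card_univ, ← hN, nsmul_eq_mul]
        have e : (N : ℝ≥0∞) ^ (q - s2) = (N : ℝ≥0∞) ^ (1 : ℝ) * (N : ℝ≥0∞) ^ (q - 1 - s2) := by
          rw [← ENNReal.rpow_add_of_nonneg _ _ zero_le_one (by linarith)]
          congr 1
          ring
        rw [e, ENNReal.rpow_one]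
        ring
    _ = _ := by
        rw [← ENNReal.ofReal_natCast, ENNReal.ofReal_rpow_of_nonneg (Nat.cast_nonneg _) (by linarith),
          ← ENNReal.ofReal_mul (by positivity), ← ENNReal.ofReal_mul (by positivity)]

end one

/-- **from sets of lines to tubes** -/
theorem main (hD : S_double) : S_tube := by
  intro d hd K ε hK hε
  have hd0 : (0 : ℝ) < d := by exact_mod_cast hd
  have hd1 : 0 < 1 / (d : ℝ) := by positivity
  set m := min ε (1 / (2 * d)) with hm
  have hm0 : 0 < m := lt_min hε (by positivity)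
  have hm1 : m ≤ 1 / (2 * d) := min_le_right _ _
  have hm2 : m ≤ ε := min_le_left _ _
  have hhalf : 1 / (2 * (d : ℝ)) = 1 / d / 2 := by
    field_simp
  set s := 1 / (d : ℝ) - m / 2 with hs
  set s2 := 1 / (d : ℝ) - m with hs2
  have hs20 : 0 < s2 := by rw [hs2]; linarith
  have hss : s2 < s := by rw [hs, hs2]; linarith
  have hs1 : s < 1 / d := by rw [hs]; linarith
  have hs0 : 0 < s := by linarith
  obtain ⟨C1, hC1, hH⟩ := hts (d := d) hD hd hK hs0 hs1
  set C2 := 4 + 2 * C1 * (2 : ℝ) ^ s2 * (1 - (2 : ℝ) ^ (s2 - s))⁻¹ with hC2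
  have hr1 : (2 : ℝ) ^ (s2 - s) < 1 := Real.rpow_lt_one_of_one_lt_of_neg (by norm_num) (by linarith)
  have hC20 : 0 ≤ C2 := by
    have : 0 ≤ (1 - (2 : ℝ) ^ (s2 - s))⁻¹ := inv_nonneg.2 (by linarith)
    positivity
  have hVC : 0 ≤ V d * C2 := mul_nonneg (V_nonneg d) hC20
  refine ⟨C1 + (1 + V d * C2), by positivity, ?_⟩
  intro δ hδ hδ1 A hA1 hA2 ι _ v c h hv hsep hp
  have hE := hH δ hδ hδ1 A hA1 hA2 ι v c h hv hsep hp
  refine ⟨fun q hq => ?_, fun τ lam hlam => ?_⟩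
  · have hq1 : ((d : ℝ) + 1) / d = 1 + 1 / d := by field_simp
    rw [hq1] at hq
    have hq0 : 0 < q := by linarith
    have hq1' : 1 ≤ q := by linarith
    have hI := int_pow hδ hδ1 v c h hv (q := q) hs20 hss hC1 (by linarith) hE
    rw [← hC2] at hI
    have hp0 : ENNReal.ofReal q ≠ 0 := by
      rw [ne_eq, ENNReal.ofReal_eq_zero, not_le]
      exact hq0
    rw [eLpNorm_eq_lintegral_rpow_enorm_toReal hp0 ENNReal.ofReal_ne_top,
      ENNReal.toReal_ofReal hq0.le]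
    have e1 : ∀ y : Space d, ‖tsum δ v c h y‖ₑ = (cnt δ v c h y : ℝ≥0∞) := by
      intro y
      rw [tsum_eq, Real.enorm_eq_ofReal (Nat.cast_nonneg _), ENNReal.ofReal_natCast]
    simp only [e1]
    refine (ENNReal.rpow_le_rpow hI (by positivity)).trans ?_
    have hδd : 0 ≤ δ ^ d := by positivity
    set N := Fintype.card ι with hN
    have hB : 0 ≤ (N : ℝ) ^ (q - s2) * (V d * δ ^ d) * C2 :=
      mul_nonneg (mul_nonneg (by positivity) (mul_nonneg (V_nonneg d) hδd)) hC20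
    rw [ENNReal.ofReal_rpow_of_nonneg hB (by positivity)]
    apply ENNReal.ofReal_le_ofReal
    have e2 : (N : ℝ) ^ (q - s2) * (V d * δ ^ d) * C2 =
        (V d * C2) * δ ^ d * (N : ℝ) ^ (q - s2) := by ring
    rw [e2, Real.mul_rpow (by positivity) (by positivity), Real.mul_rpow hVC hδd]
    have e3 : (δ ^ d) ^ (1 / q) = δ ^ ((d : ℝ) / q) := by
      rw [← Real.rpow_natCast, ← Real.rpow_mul hδ.le]
      congr 1
      ring
    have e4 : ((N : ℝ) ^ (q - s2)) ^ (1 / q) = (N : ℝ) ^ (1 - s2 / q) := by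
      rw [← Real.rpow_mul (Nat.cast_nonneg _)]
      congr 1
      field_simp
    rw [e3, e4]
    have k1 : (V d * C2) ^ (1 / q) ≤ C1 + (1 + V d * C2) := by
      have k2 : (V d * C2) ^ (1 / q) ≤ (1 + V d * C2) ^ (1 / q) :=
        Real.rpow_le_rpow hVC (by linarith) (by positivity)
      have k3 : (1 + V d * C2) ^ (1 / q) ≤ (1 + V d * C2) ^ (1 : ℝ) :=
        Real.rpow_le_rpow_of_exponent_le (by linarith) (by rw [div_le_one hq0]; exact hq1')
      rw [Real.rpow_one] at k3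
      linarith
    have k4 : (N : ℝ) ^ (1 - s2 / q) ≤ (N : ℝ) ^ (1 - 1 / (q * d) + ε) := by
      rcases Nat.eq_zero_or_pos N with h0 | h0
      · rw [h0, Nat.cast_zero, Real.zero_rpow]
        · positivity
        · have : s2 / q < 1 := by
            rw [div_lt_one hq0]
            linarith
          linarith
      · refine Real.rpow_le_rpow_of_exponent_le (by exact_mod_cast h0) ?_
        have e5 : 1 / (q * d) = (1 / d) / q := by field_simp
        have e6 : s2 / q = (1 / d) / q - m / q := by rw [hs2, sub_div]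
        have e7 : m / q ≤ ε := by
          rw [div_le_iff₀ hq0]
          nlinarith
        rw [e5, e6]
        linarith
    exact mul_le_mul (mul_le_mul_of_nonneg_right k1 (by positivity)) k4 (by positivity)
      (by positivity)
  · refine (hE τ lam hlam).trans (ENNReal.ofReal_le_ofReal ?_)
    have k1 : lam ^ (-s) ≤ lam ^ (-(1 / (d : ℝ)) + ε) :=
      Real.rpow_le_rpow_of_exponent_le hlam (by rw [hs]; linarith)
    have k2 : 0 ≤ lam ^ (-(1 / (d : ℝ)) + ε) := Real.rpow_nonneg (by linarith) _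
    calc C1 * lam ^ (-s) ≤ C1 * lam ^ (-(1 / (d : ℝ)) + ε) := mul_le_mul_of_nonneg_left k1 hC1.le
      _ ≤ _ := mul_le_mul_of_nonneg_right (by linarith) k2

end Pool.Agent.N3.ST.I
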