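import Pool.Agent.N3.ST.Stm3
import Pool.Agent.N3.ST.H

/-!
# Project ST, part K: local form for sets of bounded doubling (helper591)
-/

set_option autoImplicit false

open MeasureTheory Set
open scoped Pointwise

namespace Pool.Agent.N3.ST.K

open Pool.Agent.N3.ST.H

theorem main (hNL : S_NLloc) : S_dloc := by
  intro d hd K s hK hs0 hs
  obtain ⟨r0, V0, T0, hV0, hT0, hfr⟩ := freiman d K
  have hNL' : ∀ r : ℕ, ∃ C : ℝ, 0 < C ∧ ∀ (L : Fin r → ℝ), (∀ i, 0 < L i) →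
      ∀ (w u : Fin r → Vec d),
      (∀ F : Finset (Fin r → ℤ), (∀ n ∈ F, (∀ i, |(n i : ℝ)| ≤ 1 / 2 * L i) ∧
        ‖∑ i, (n i : ℝ) • u i‖ ≤ 1 / 2) → (F.card : ℝ) ≤ K * T0 * 2 ^ r * V0) →
      ∀ a l : ℝ, -1 ≤ a → 0 < l → a + l ≤ 1 →
      ∀ lam : ℝ, 1 ≤ lam → volume {t ∈ Ico a (a + l) | ∃ F : Finset (Fin r → ℤ),
        (∀ n ∈ F, (∀ i, |(n i : ℝ)| ≤ L i) ∧ ‖∑ i, (n i : ℝ) • (w i + t • u i)‖ ≤ 1) ∧
        lam ≤ (F.card : ℝ)} ≤ ENNReal.ofReal (C * l ^ (1 - d * s) * lam ^ (-s)) := fun r =>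
    hNL r d hd (K * T0 * 2 ^ r * V0) (1 / 2) s (by norm_num) (by norm_num) hs0 hs
  choose Cf hCf0 hCf using hNL'
  have hT0' : 0 < T0 := by linarith
  refine ⟨(∑ r ∈ Finset.range (r0 + 1), Cf r) * T0 ^ s, ?_, ?_⟩
  · refine mul_pos (Finset.sum_pos (fun r _ => hCf0 r) ⟨0, by simp⟩) (Real.rpow_pos_of_pos hT0' _)
  intro δ hδ A hA2 hdir a l lam hl0 hl2 hlam
  rcases A.eq_empty_or_nonempty with rfl | hA
  · have : Ico a (a + l) ∩ Rich δ (∅ : Finset (Vec d × Vec d)) lam = ∅ := by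
      rw [Set.eq_empty_iff_forall_notMem]
      rintro t ⟨_, F, hF, _, hl⟩
      rw [Finset.subset_empty.1 hF, Finset.card_empty, Nat.cast_zero] at hl
      linarith
    rw [this, measure_empty]
    exact zero_le
  obtain ⟨r, g, L, T, hr, hvol, hT, hcov⟩ := hfr A hA hA2
  choose! τ hτ c hc hac using hcov
  set t₀ : ℝ := a + 1 with ht₀
  set L' : Fin r → ℝ := fun i => max (2 * (L i : ℝ)) (1 / 2) with hL'
  set w : Fin r → Vec d := fun i => (2 * δ)⁻¹ • ((g i).2 + t₀ • (g i).1) with hw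
  set u : Fin r → Vec d := fun i => (2 * δ)⁻¹ • (g i).1 with hu
  have hL'0 : ∀ i, 0 < L' i := fun i => lt_of_lt_of_le (by norm_num) (le_max_right _ _)
  have hu' : ∀ F : Finset (Fin r → ℤ), (∀ n ∈ F, (∀ i, |(n i : ℝ)| ≤ 1 / 2 * L' i) ∧
        ‖∑ i, (n i : ℝ) • u i‖ ≤ 1 / 2) → (F.card : ℝ) ≤ K * T0 * 2 ^ r * V0 := by
    intro F hF
    refine count_F hK hA hdir g L T hvol hT0'.le hT τ c hτ hc hac F ?_
    intro n hn
    obtain ⟨h1, h2⟩ := hF n hn
    refine ⟨fun i => ?_, ?_⟩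
    · have h3 := h1 i
      have h4 : 1 / 2 * L' i < (L i : ℝ) + 1 := by
        rw [hL']
        simp only
        rcases le_total (2 * (L i : ℝ)) (1 / 2) with h5 | h5
        · rw [max_eq_right h5]
          have : (0 : ℝ) ≤ L i := Nat.cast_nonneg _
          linarith
        · rw [max_eq_left h5]; linarith
      have h5 : |(n i : ℝ)| < (L i : ℝ) + 1 := lt_of_le_of_lt h3 h4
      have h6 : |n i| < (L i : ℤ) + 1 := by exact_mod_cast h5
      omega
    · have h3 : ∑ i, (n i : ℝ) • (g i).1 = (2 * δ) • ∑ i, (n i : ℝ) • u i := by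
        rw [Finset.smul_sum]
        refine Finset.sum_congr rfl fun i _ => ?_
        rw [hu]
        simp only
        rw [smul_comm (2 * δ), smul_inv_smul₀ (by positivity)]
      rw [h3, norm_smul, Real.norm_of_nonneg (by positivity)]
      nlinarith
  have hmain := hCf r L' hL'0 w u hu' (-1) l le_rfl hl0 (by linarith) (max 1 (lam / T0))
    (le_max_left _ _)
  set N := {t ∈ Ico (-1 : ℝ) (-1 + l) | ∃ F : Finset (Fin r → ℤ),
        (∀ n ∈ F, (∀ i, |(n i : ℝ)| ≤ L' i) ∧ ‖∑ i, (n i : ℝ) • (w i + t • u i)‖ ≤ 1) ∧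
        max 1 (lam / T0) ≤ (F.card : ℝ)} with hN
  have hsub : Ico a (a + l) ∩ Rich δ A lam ⊆ (fun t => t + -t₀) ⁻¹' N := by
    rintro t ⟨ht, F, hFA, ⟨x, hx⟩, hl⟩
    rw [Set.mem_preimage, hN]
    refine ⟨⟨by linarith [ht.1], by linarith [ht.2]⟩, ?_⟩
    rw [← sub_eq_add_neg]
    exact incl hδ hT0 hlam A g L T hT τ c hτ hc hac F hFA x hx hl
  refine (measure_mono hsub).trans ?_
  rw [measure_preimage_add_right]
  refine hmain.trans (ENNReal.ofReal_le_ofReal ?_)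
  have h1 : (max 1 (lam / T0)) ^ (-s) ≤ (lam / T0) ^ (-s) :=
    Real.rpow_le_rpow_of_nonpos (by positivity) (le_max_right _ _) (by linarith)
  have h2 : (lam / T0) ^ (-s) = T0 ^ s * lam ^ (-s) := by
    rw [Real.div_rpow (by linarith) hT0'.le, Real.rpow_neg hT0'.le, div_inv_eq_mul, mul_comm]
  have h3 : Cf r ≤ ∑ r ∈ Finset.range (r0 + 1), Cf r :=
    Finset.single_le_sum (fun i _ => (hCf0 i).le) (Finset.mem_range.2 (by omega))
  have hl : 0 ≤ l ^ (1 - d * s) := Real.rpow_nonneg hl0.le _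
  calc Cf r * l ^ (1 - d * s) * (max 1 (lam / T0)) ^ (-s)
      ≤ Cf r * l ^ (1 - d * s) * (T0 ^ s * lam ^ (-s)) := by
        rw [← h2]; exact mul_le_mul_of_nonneg_left h1 (mul_nonneg (hCf0 r).le hl)
    _ ≤ (∑ r ∈ Finset.range (r0 + 1), Cf r) * l ^ (1 - d * s) * (T0 ^ s * lam ^ (-s)) := by
        refine mul_le_mul_of_nonneg_right (mul_le_mul_of_nonneg_right h3 hl) ?_
        have := Real.rpow_nonneg hT0'.le s
        have := Real.rpow_nonneg (show (0 : ℝ) ≤ lam by linarith) (-s)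
        positivity
    _ = _ := by ring

end Pool.Agent.N3.ST.K
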