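import Pool.Agent.N3.ST.Stm3
import Pool.Agent.N3.ST.I

/-!
# Project ST, part M: tubes without loss
-/

set_option autoImplicit false
set_option linter.unusedSectionVars false
set_option linter.unusedVariables false

open MeasureTheory Set Metric
open scoped Pointwise ENNReal

namespace Pool.Agent.N3.ST.M

open Pool.Agent.H810R3.Tub (Space tube dir dir_sub_le tube_eq tube_closed)
open Pool.Agent.N3.ST.I

variable {d : ℕ}

/-- the estimate of the heights for the tubes, for an exponent above the critical one -/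
theorem hts2 (hB : S_big) (hd : 1 ≤ d) {K : ℝ} (hK : 1 ≤ K) {s : ℝ} (hs1 : 1 / (d : ℝ) < s) :
    ∃ (C1 : ℝ) (M : ℕ), 0 < C1 ∧ 1 ≤ M ∧ ∀ (δ : ℝ), 0 < δ → δ < 1 →
      ∀ (A : Finset (Vec d × Vec d)), A.Nonempty →
      ((A + A).card : ℝ) ≤ K * (A.card : ℝ) → Slopes K δ A →
      ∀ (ι : Type) [Fintype ι] (v c : ι → Vec d) (h : ι → ℝ), (∀ i, ‖v i‖ ≤ 1) →
      (∀ i j, i ≠ j → δ ≤ ‖dir (v i) - dir (v j)‖) →
      (∀ i, ∃ p ∈ A, ‖v i - p.1‖ ≤ K * δ ∧ ‖c i - (p.2 + h i • p.1)‖ ≤ K * δ) →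
      (∀ (x : Vec d) (t : ℝ), cnt δ v c h (WithLp.toLp 2 (x, t)) ≤ M * A.card) ∧
      ∀ τ lam : ℝ, 1 ≤ lam → volume {t ∈ Ico (τ - 1) (τ + 1) | ∃ x : Vec d,
        lam ≤ tsum δ v c h (WithLp.toLp 2 (x, t))} ≤
          ENNReal.ofReal (C1 * (A.card : ℝ) ^ (s - 1 / (d : ℝ)) * lam ^ (-s)) := by
  classical
  have hd0 : (0 : ℝ) < d := by exact_mod_cast hd
  have hs : 0 < s := lt_trans (by positivity) hs1
  obtain ⟨M, hM1, hM⟩ := to_points (d := d) K hK
  obtain ⟨N0, hN1, hN⟩ := slopes (d := d) (2 + 5 / 2 * K)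
  have hN1' : (1 : ℝ) ≤ N0 := by exact_mod_cast hN1
  have hM1' : (1 : ℝ) ≤ M := by exact_mod_cast hM1
  have hM0 : (0 : ℝ) < M := by linarith
  have hNK : 1 ≤ N0 * K := by nlinarith
  have hKN : K ≤ N0 * K := by nlinarith
  obtain ⟨C0, hC0, hC⟩ := hB d hd (N0 * K) s hNK hs1
  have hMs : 0 < (M : ℝ) ^ s := Real.rpow_pos_of_pos hM0 _
  refine ⟨(C0 + 2) * (M : ℝ) ^ s, M, by positivity, hM1, ?_⟩
  intro δ hδ hδ1 A hA0 hA1 hA2 ι _ v c h hv hsep hp
  have hcA : (1 : ℝ) ≤ A.card := by exact_mod_cast hA0.card_pos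
  refine ⟨fun x t => ?_, fun τ lam hlam => ?_⟩
  · obtain ⟨F, hF, hF1, hF2⟩ := hM δ hδ hδ1 A ι v c h hv hsep hp x t
    exact hF2.trans (Nat.mul_le_mul_left _ (Finset.card_le_card hF))
  have hlam0 : 0 < lam := by linarith
  have hls : 0 < lam ^ (-s) := Real.rpow_pos_of_pos hlam0 _
  have hAs : 1 ≤ (A.card : ℝ) ^ (s - 1 / (d : ℝ)) :=
    Real.one_le_rpow hcA (by linarith)
  rcases le_or_gt (M : ℝ) lam with hl | hl
  · have h1 := hC ((2 + 5 / 2 * K) * δ) (by positivity) A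
      (hA1.trans (mul_le_mul_of_nonneg_right hKN (Nat.cast_nonneg _)))
      (hN δ hδ K (by linarith) A hA2) τ (lam / M) (by rw [le_div_iff₀ hM0]; linarith)
    refine (measure_mono ?_).trans (h1.trans (ENNReal.ofReal_le_ofReal ?_))
    · rintro t ⟨ht, x, hx⟩
      obtain ⟨F, hF, hF1, hF2⟩ := hM δ hδ hδ1 A ι v c h hv hsep hp x t
      refine ⟨ht, F, hF, ⟨x, hF1⟩, ?_⟩
      rw [tsum_eq] at hx
      rw [div_le_iff₀ hM0, mul_comm]
      have : (cnt δ v c h (WithLp.toLp 2 (x, t)) : ℝ) ≤ M * F.card := by exact_mod_cast hF2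
      linarith
    · rw [Real.div_rpow hlam0.le hM0.le, Real.rpow_neg hM0.le s, div_inv_eq_mul]
      have h2 : C0 * (A.card : ℝ) ^ (s - 1 / (d : ℝ)) * (lam ^ (-s) * (M : ℝ) ^ s) ≤
          (C0 + 2) * (A.card : ℝ) ^ (s - 1 / (d : ℝ)) * (lam ^ (-s) * (M : ℝ) ^ s) := by
        refine mul_le_mul_of_nonneg_right (mul_le_mul_of_nonneg_right (by linarith) ?_) ?_
        · positivity
        · positivity
      refine h2.trans (le_of_eq ?_)
      ring
  · have h1 : volume {t ∈ Ico (τ - 1) (τ + 1) | ∃ x : Vec d,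
        lam ≤ tsum δ v c h (WithLp.toLp 2 (x, t))} ≤ ENNReal.ofReal 2 := by
      refine (measure_mono (sep_subset _ _)).trans (le_of_eq ?_)
      rw [Real.volume_Ico]
      congr 1
      ring
    refine h1.trans (ENNReal.ofReal_le_ofReal ?_)
    have h2 : 1 ≤ (M : ℝ) ^ s * lam ^ (-s) := by
      rw [Real.rpow_neg hlam0.le, ← div_eq_mul_inv, ← Real.div_rpow hM0.le hlam0.le]
      exact Real.one_le_rpow (by rw [le_div_iff₀ hlam0]; linarith) hs.le
    have h3 : 1 ≤ (A.card : ℝ) ^ (s - 1 / (d : ℝ)) * ((M : ℝ) ^ s * lam ^ (-s)) := by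
      nlinarith
    calc (2 : ℝ) ≤ (C0 + 2) * 1 := by linarith
      _ ≤ (C0 + 2) * ((A.card : ℝ) ^ (s - 1 / (d : ℝ)) * ((M : ℝ) ^ s * lam ^ (-s))) :=
          mul_le_mul_of_nonneg_left h3 (by linarith)
      _ = _ := by ring

section one

variable {ι : Type} [Fintype ι]

/-- the integral of the majorant over an interval, for bounded multiplicity -/
theorem int_Psi2 (δ : ℝ) (v c : ι → Vec d) (h : ι → ℝ) {s2 s C1 : ℝ} (hs2 : 0 < s2)
    (hss : s < s2) (hC1 : 0 < C1) (L : ℕ) (hL : 1 ≤ L)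
    (hcnt : ∀ (x : Vec d) (t : ℝ), cnt δ v c h (WithLp.toLp 2 (x, t)) ≤ L)
    (hE : ∀ τ lam : ℝ, 1 ≤ lam → volume {t ∈ Ico (τ - 1) (τ + 1) | ∃ x : Vec d,
      lam ≤ tsum δ v c h (WithLp.toLp 2 (x, t))} ≤ ENNReal.ofReal (C1 * lam ^ (-s))) (a : ℝ) :
    ∫⁻ t in Icc (a - 3 / 2) (a + 3 / 2), Psi δ v c h s2 t ≤
      ENNReal.ofReal (4 + 2 * C1 * (2 : ℝ) ^ s2 *
        ((2 : ℝ) ^ (s2 - s) * ((2 : ℝ) ^ (s2 - s) - 1)⁻¹ * (L : ℝ) ^ (s2 - s))) := by
  have hr0 : 0 < (2 : ℝ) ^ (s2 - s) := Real.rpow_pos_of_pos (by norm_num) _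
  have hr1 : 1 < (2 : ℝ) ^ (s2 - s) := Real.one_lt_rpow (by norm_num) (by linarith)
  have h2 : ∫⁻ t in Icc (a - 3 / 2) (a + 3 / 2), Psi δ v c h s2 t ≤
      ∫⁻ t in Ico (a - 2) (a + 2), Psi δ v c h s2 t := by
    refine lintegral_mono_set ?_
    intro t ht
    constructor <;> linarith [ht.1, ht.2]
  refine h2.trans ?_
  have hk : ∀ k : ℕ, volume (toMeasurable volume (Ek δ v c h k) ∩ Ico (a - 2) (a + 2)) ≤
      ENNReal.ofReal (2 * (C1 * ((2 : ℝ) ^ k) ^ (-s))) := by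
    intro k
    rw [Measure.measure_toMeasurable_inter_of_sFinite measurableSet_Ico]
    have h3 : Ek δ v c h k ∩ Ico (a - 2) (a + 2) ⊆
        {t ∈ Ico ((a - 1) - 1) ((a - 1) + 1) | ∃ x : Vec d,
          (2 : ℝ) ^ k ≤ tsum δ v c h (WithLp.toLp 2 (x, t))} ∪
        {t ∈ Ico ((a + 1) - 1) ((a + 1) + 1) | ∃ x : Vec d,
          (2 : ℝ) ^ k ≤ tsum δ v c h (WithLp.toLp 2 (x, t))} := by
      rintro t ⟨h4, h5⟩
      rcases lt_or_ge t a with h6 | h6
      · left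
        exact ⟨⟨by linarith [h5.1], by linarith⟩, h4⟩
      · right
        exact ⟨⟨by linarith, by linarith [h5.2]⟩, h4⟩
    have h1k : (1 : ℝ) ≤ 2 ^ k := one_le_pow₀ (by norm_num)
    refine (measure_mono h3).trans ((measure_union_le _ _).trans ?_)
    refine (add_le_add (hE (a - 1) _ h1k) (hE (a + 1) _ h1k)).trans (le_of_eq ?_)
    rw [← ENNReal.ofReal_add (by positivity) (by positivity)]
    congr 1
    ring
  set k0 := Nat.log 2 L with hk0
  have hbig : ∀ k : ℕ, k0 < k → Ek δ v c h k = ∅ := by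
    intro k hk
    rw [eq_empty_iff_forall_notMem]
    rintro t ⟨x, hx⟩
    rw [tsum_eq] at hx
    have h3 : (2 : ℕ) ^ k ≤ cnt δ v c h (WithLp.toLp 2 (x, t)) := by exact_mod_cast hx
    have h4 := h3.trans (hcnt x t)
    have h5 : L < 2 ^ k := Nat.lt_pow_of_log_lt (by norm_num) hk
    omega
  unfold Psi
  rw [lintegral_add_left measurable_const, lintegral_tsum (fun k =>
    ((measurable_const.indicator (measurableSet_toMeasurable _ _)).const_mul _).aemeasurable)]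
  have e1 : ∫⁻ _ in Ico (a - 2) (a + 2), (1 : ℝ≥0∞) = ENNReal.ofReal 4 := by
    rw [setLIntegral_one, Real.volume_Ico]
    congr 1
    ring
  have e2 : ∀ k : ℕ, ∫⁻ t in Ico (a - 2) (a + 2), ENNReal.ofReal ((2 : ℝ) ^ (((k : ℝ) + 1) * s2)) *
      (toMeasurable volume (Ek δ v c h k)).indicator (fun _ => (1 : ℝ≥0∞)) t ≤
      ENNReal.ofReal (2 * C1 * (2 : ℝ) ^ s2 * ((2 : ℝ) ^ (s2 - s)) ^ k) := by
    intro k
    rw [lintegral_const_mul _ (measurable_const.indicator (measurableSet_toMeasurable _ _)),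
      lintegral_indicator (measurableSet_toMeasurable _ _), setLIntegral_one,
      Measure.restrict_apply (measurableSet_toMeasurable _ _)]
    refine (mul_le_mul' le_rfl (hk k)).trans (le_of_eq ?_)
    rw [← ENNReal.ofReal_mul (by positivity)]
    congr 1
    have e3 : (2 : ℝ) ^ (((k : ℝ) + 1) * s2) = ((2 : ℝ) ^ s2) ^ k * (2 : ℝ) ^ s2 := by
      rw [add_mul, one_mul, Real.rpow_add (by norm_num), mul_comm (k : ℝ), Real.rpow_mul (by norm_num),
        Real.rpow_natCast]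
    have e4 : ((2 : ℝ) ^ k) ^ (-s) = ((2 : ℝ) ^ (-s)) ^ k := by
      rw [← Real.rpow_natCast, ← Real.rpow_mul (by norm_num), mul_comm, Real.rpow_mul (by norm_num),
        Real.rpow_natCast]
    have e5 : (2 : ℝ) ^ (s2 - s) = (2 : ℝ) ^ s2 * (2 : ℝ) ^ (-s) := by
      rw [← Real.rpow_add (by norm_num)]
      congr 1
    rw [e3, e4, e5, mul_pow]
    ring
  have e2' : ∀ k : ℕ, k ∉ Finset.range (k0 + 1) →
      ∫⁻ t in Ico (a - 2) (a + 2), ENNReal.ofReal ((2 : ℝ) ^ (((k : ℝ) + 1) * s2)) *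
      (toMeasurable volume (Ek δ v c h k)).indicator (fun _ => (1 : ℝ≥0∞)) t = 0 := by
    intro k hk
    have hk' : k0 < k := by
      rw [Finset.mem_range] at hk
      omega
    rw [lintegral_const_mul _ (measurable_const.indicator (measurableSet_toMeasurable _ _)),
      lintegral_indicator (measurableSet_toMeasurable _ _), setLIntegral_one,
      Measure.restrict_apply (measurableSet_toMeasurable _ _),
      Measure.measure_toMeasurable_inter_of_sFinite measurableSet_Ico, hbig k hk',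
      empty_inter, measure_empty, mul_zero]
  rw [e1, tsum_eq_sum e2']
  have hLpow : ((2 : ℝ) ^ (s2 - s)) ^ k0 ≤ (L : ℝ) ^ (s2 - s) := by
    rw [← Real.rpow_natCast, ← Real.rpow_mul (by norm_num), mul_comm, Real.rpow_mul (by norm_num),
      Real.rpow_natCast]
    refine Real.rpow_le_rpow (by positivity) ?_ (by linarith)
    have : 2 ^ k0 ≤ L := Nat.pow_log_le_self 2 (by omega)
    exact_mod_cast this
  have e6 : ∑ k ∈ Finset.range (k0 + 1), (∫⁻ t in Ico (a - 2) (a + 2),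
      ENNReal.ofReal ((2 : ℝ) ^ (((k : ℝ) + 1) * s2)) *
      (toMeasurable volume (Ek δ v c h k)).indicator (fun _ => (1 : ℝ≥0∞)) t) ≤
      ENNReal.ofReal (2 * C1 * (2 : ℝ) ^ s2 *
        ((2 : ℝ) ^ (s2 - s) * ((2 : ℝ) ^ (s2 - s) - 1)⁻¹ * (L : ℝ) ^ (s2 - s))) := by
    refine (Finset.sum_le_sum fun k _ => e2 k).trans ?_
    rw [← ENNReal.ofReal_sum_of_nonneg (fun k _ => by positivity)]
    apply ENNReal.ofReal_le_ofReal
    rw [← Finset.mul_sum]
    refine mul_le_mul_of_nonneg_left ?_ (by positivity)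
    rw [geom_sum_eq hr1.ne', div_eq_mul_inv]
    have hinv : 0 < ((2 : ℝ) ^ (s2 - s) - 1)⁻¹ := inv_pos.2 (by linarith)
    calc (((2 : ℝ) ^ (s2 - s)) ^ (k0 + 1) - 1) * ((2 : ℝ) ^ (s2 - s) - 1)⁻¹
        ≤ ((2 : ℝ) ^ (s2 - s)) ^ (k0 + 1) * ((2 : ℝ) ^ (s2 - s) - 1)⁻¹ :=
          mul_le_mul_of_nonneg_right (by linarith) hinv.le
      _ = (2 : ℝ) ^ (s2 - s) * ((2 : ℝ) ^ (s2 - s) - 1)⁻¹ * ((2 : ℝ) ^ (s2 - s)) ^ k0 := by
          rw [pow_succ]; ring
      _ ≤ _ := mul_le_mul_of_nonneg_left hLpow (by positivity)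
  refine (add_le_add le_rfl e6).trans (le_of_eq ?_)
  rw [← ENNReal.ofReal_add (by norm_num)]
  have : 0 ≤ ((2 : ℝ) ^ (s2 - s) - 1)⁻¹ := inv_nonneg.2 (by linarith)
  positivity

/-- the integral of a power of the multiplicity -/
theorem int_pow2 {δ : ℝ} (hδ : 0 < δ) (hδ1 : δ < 1) (v c : ι → Vec d) (h : ι → ℝ)
    (hv : ∀ i, ‖v i‖ ≤ 1) {q C2 : ℝ} (hq : 1 < q) (hC2 : 0 ≤ C2)
    (hE : ∀ a : ℝ, ∫⁻ t in Icc (a - 3 / 2) (a + 3 / 2), Psi δ v c h (q - 1) t ≤
      ENNReal.ofReal C2) :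
    ∫⁻ y : Space d, (cnt δ v c h y : ℝ≥0∞) ^ q ≤
      ENNReal.ofReal ((Fintype.card ι : ℝ) * (V d * δ ^ d) * C2) := by
  have hVδ : 0 ≤ V d * δ ^ d := mul_nonneg (V_nonneg d) (by positivity)
  set N := Fintype.card ι with hN
  have hm := cnt_meas (d := d) δ v c h
  rw [fub _ (hm.pow_const q)]
  have htm : ∀ t : ℝ, Measurable fun x : Vec d => (WithLp.toLp 2 (x, t) : Space d) := fun t =>
    (WithLp.volume_preserving_toLp (Vec d) ℝ).measurable.comp (measurable_id.prodMk measurable_const)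
  -- pointwise bound
  have hpt : ∀ (t : ℝ) (x : Vec d), (cnt δ v c h (WithLp.toLp 2 (x, t)) : ℝ≥0∞) ^ q ≤
      Psi δ v c h (q - 1) t * cnt δ v c h (WithLp.toLp 2 (x, t)) := by
    intro t x
    have h1 := le_Psi (d := d) δ v c h (s := q - 1) (by linarith) x t
    set n := cnt δ v c h (WithLp.toLp 2 (x, t)) with hn
    have e : (n : ℝ≥0∞) ^ q = (n : ℝ≥0∞) ^ (q - 1) * n := by
      have e' : (n : ℝ≥0∞) ^ (q - 1) * n = (n : ℝ≥0∞) ^ (q - 1) * (n : ℝ≥0∞) ^ (1 : ℝ) := by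
        rw [ENNReal.rpow_one]
      rw [e', ← ENNReal.rpow_add_of_nonneg _ _ (by linarith) zero_le_one]
      congr 1
      ring
    rw [e]
    exact mul_le_mul' h1 le_rfl
  calc ∫⁻ t : ℝ, ∫⁻ x : Vec d, (cnt δ v c h (WithLp.toLp 2 (x, t)) : ℝ≥0∞) ^ q
      ≤ ∫⁻ t : ℝ, ∫⁻ x : Vec d, Psi δ v c h (q - 1) t *
          cnt δ v c h (WithLp.toLp 2 (x, t)) :=
        lintegral_mono fun t => lintegral_mono fun x => hpt t x
    _ = ∫⁻ t : ℝ, Psi δ v c h (q - 1) t *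
          ∑ i, ∫⁻ x : Vec d, (tube δ (dir (v i)) (WithLp.toLp 2 (c i, h i))).indicator
            (fun _ => (1 : ℝ≥0∞)) (WithLp.toLp 2 (x, t)) := by
        refine lintegral_congr fun t => ?_
        refine (lintegral_const_mul _ (hm.comp (htm t))).trans ?_
        congr 1
        simp only [Function.comp_def, cnt_eq]
        exact lintegral_finsetSum _ fun i _ =>
          (measurable_const.indicator (tube_closed _ _ _).measurableSet).comp (htm t)
    _ ≤ ∫⁻ t : ℝ, Psi δ v c h (q - 1) t *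
          ∑ i, (Icc (h i - 3 / 2) (h i + 3 / 2)).indicator
            (fun _ => ENNReal.ofReal (V d * δ ^ d)) t :=
        lintegral_mono fun t => mul_le_mul' le_rfl
          (Finset.sum_le_sum fun i _ => slice hδ hδ1 (hv i) (h i) t)
    _ = ∫⁻ t : ℝ, ∑ i, (ENNReal.ofReal (V d * δ ^ d)) *
          (Icc (h i - 3 / 2) (h i + 3 / 2)).indicator (Psi δ v c h (q - 1)) t := by
        refine lintegral_congr fun t => ?_
        rw [Finset.mul_sum]
        refine Finset.sum_congr rfl fun i _ => ?_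
        by_cases ht : t ∈ Icc (h i - 3 / 2) (h i + 3 / 2)
        · rw [indicator_of_mem ht, indicator_of_mem ht]
          ring
        · rw [indicator_of_notMem ht, indicator_of_notMem ht, mul_zero, mul_zero]
    _ = ∑ i, (ENNReal.ofReal (V d * δ ^ d)) *
          ∫⁻ t in Icc (h i - 3 / 2) (h i + 3 / 2), Psi δ v c h (q - 1) t := by
        rw [lintegral_finsetSum _ fun i _ =>
          ((Psi_meas δ v c h (q - 1)).indicator measurableSet_Icc).const_mul _]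
        refine Finset.sum_congr rfl fun i _ => ?_
        rw [lintegral_const_mul _ ((Psi_meas δ v c h (q - 1)).indicator measurableSet_Icc),
          lintegral_indicator measurableSet_Icc]
    _ ≤ ∑ _i : ι, (ENNReal.ofReal (V d * δ ^ d)) * ENNReal.ofReal C2 :=
        Finset.sum_le_sum fun i _ => mul_le_mul' le_rfl (hE (h i))
    _ = (N : ℝ≥0∞) * ENNReal.ofReal (V d * δ ^ d) * ENNReal.ofReal C2 := by
        rw [Finset.sum_const, Finset.card_univ, ← hN, nsmul_eq_mul]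
        ring
    _ = _ := by
        rw [← ENNReal.ofReal_natCast,
          ← ENNReal.ofReal_mul (by positivity), ← ENNReal.ofReal_mul (by positivity)]

end one

/-- **tubes without loss** -/
theorem main (hB : S_big) : S_tube2 := by
  intro d hd K q hK hq
  have hd0 : (0 : ℝ) < d := by exact_mod_cast hd
  have hd1 : 0 < 1 / (d : ℝ) := by positivity
  have hq1 : ((d : ℝ) + 1) / d = 1 + 1 / d := by field_simp
  rw [hq1] at hq
  have hq0 : 0 < q := by linarith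
  have hq1' : 1 < q := by linarith
  set β := q - 1 - 1 / (d : ℝ) with hβ
  have hβ0 : 0 < β := by rw [hβ]; linarith
  set s := 1 / (d : ℝ) + β / 2 with hs
  have hs1 : 1 / (d : ℝ) < s := by rw [hs]; linarith
  have hs2 : s < q - 1 := by rw [hs]; linarith
  obtain ⟨C1, M, hC1, hM1, hH⟩ := hts2 (d := d) hB hd hK hs1
  have hM1' : (1 : ℝ) ≤ M := by exact_mod_cast hM1
  have hr1 : 1 < (2 : ℝ) ^ (q - 1 - s) := Real.one_lt_rpow (by norm_num) (by linarith)
  have hinv : 0 < ((2 : ℝ) ^ (q - 1 - s) - 1)⁻¹ := inv_pos.2 (by linarith)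
  set C2 := 4 + 2 * C1 * (2 : ℝ) ^ (q - 1) *
    ((2 : ℝ) ^ (q - 1 - s) * ((2 : ℝ) ^ (q - 1 - s) - 1)⁻¹ * (M : ℝ) ^ (q - 1 - s)) with hC2
  have hC20 : 0 < C2 := by positivity
  set C3 := V d * (C2 * K ^ β) with hC3
  have hC30 : 0 ≤ C3 := mul_nonneg (V_nonneg d) (by positivity)
  refine ⟨1 + C3, by positivity, ?_⟩
  intro δ hδ hδ1 A hA1 hA2 ι _ v c h hAK hv hsep hp
  have hp0 : ENNReal.ofReal q ≠ 0 := by
    rw [ne_eq, ENNReal.ofReal_eq_zero, not_le]
    exact hq0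
  rw [eLpNorm_eq_lintegral_rpow_enorm_toReal hp0 ENNReal.ofReal_ne_top,
    ENNReal.toReal_ofReal hq0.le]
  have e1 : ∀ y : Space d, ‖tsum δ v c h y‖ₑ = (cnt δ v c h y : ℝ≥0∞) := by
    intro y
    rw [tsum_eq, Real.enorm_eq_ofReal (Nat.cast_nonneg _), ENNReal.ofReal_natCast]
  simp only [e1]
  have hδd : 0 ≤ δ ^ d := by positivity
  set N := Fintype.card ι with hN
  have hI : ∫⁻ y : Space d, (cnt δ v c h y : ℝ≥0∞) ^ q ≤
      ENNReal.ofReal (C3 * δ ^ d * (N : ℝ) ^ (q - 1 / (d : ℝ))) := by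
    rcases Nat.eq_zero_or_pos N with h0 | h0
    · have h1 : ∀ y : Space d, (cnt δ v c h y : ℝ≥0∞) ^ q = 0 := by
        intro y
        have h2 := cnt_le (d := d) δ v c h y
        rw [← hN, h0] at h2
        have h3 : cnt δ v c h y = 0 := by omega
        rw [h3, Nat.cast_zero, ENNReal.zero_rpow_of_pos hq0]
      simp only [h1, lintegral_zero]
      exact zero_le
    · have hN1 : (1 : ℝ) ≤ N := by exact_mod_cast h0
      have hι : Nonempty ι := Fintype.card_pos_iff.1 (by rw [← hN]; exact h0)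
      obtain ⟨i0⟩ := hι
      obtain ⟨p0, hp0A, -⟩ := hp i0
      have hA0 : A.Nonempty := ⟨p0, hp0A⟩
      have hcA : (1 : ℝ) ≤ A.card := by exact_mod_cast hA0.card_pos
      obtain ⟨hcnt, hE⟩ := hH δ hδ hδ1 A hA0 hA1 hA2 ι v c h hv hsep hp
      have hAβ : 0 < (A.card : ℝ) ^ (s - 1 / (d : ℝ)) := Real.rpow_pos_of_pos (by linarith) _
      have hJ : ∀ a : ℝ, ∫⁻ t in Icc (a - 3 / 2) (a + 3 / 2), Psi δ v c h (q - 1) t ≤
          ENNReal.ofReal (C2 * (A.card : ℝ) ^ β) := by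
        intro a
        have h1 := int_Psi2 δ v c h (s2 := q - 1) (s := s)
          (C1 := C1 * (A.card : ℝ) ^ (s - 1 / (d : ℝ))) (by linarith) hs2 (by positivity)
          (M * A.card) (Nat.one_le_iff_ne_zero.2 (Nat.mul_ne_zero (by omega)
            hA0.card_pos.ne')) hcnt hE a
        refine h1.trans (ENNReal.ofReal_le_ofReal ?_)
        have e3 : (((M * A.card : ℕ) : ℝ)) ^ (q - 1 - s) =
            (M : ℝ) ^ (q - 1 - s) * (A.card : ℝ) ^ (q - 1 - s) := by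
          push_cast
          rw [Real.mul_rpow (by linarith) (by linarith)]
        have e4 : (A.card : ℝ) ^ (s - 1 / (d : ℝ)) * (A.card : ℝ) ^ (q - 1 - s) =
            (A.card : ℝ) ^ β := by
          rw [← Real.rpow_add (by linarith)]
          congr 1
          rw [hβ]; ring
        have e5 : 1 ≤ (A.card : ℝ) ^ β := Real.one_le_rpow hcA hβ0.le
        rw [e3]
        calc 4 + 2 * (C1 * (A.card : ℝ) ^ (s - 1 / (d : ℝ))) * (2 : ℝ) ^ (q - 1) *
              ((2 : ℝ) ^ (q - 1 - s) * ((2 : ℝ) ^ (q - 1 - s) - 1)⁻¹ *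
                ((M : ℝ) ^ (q - 1 - s) * (A.card : ℝ) ^ (q - 1 - s)))
            = 4 + 2 * C1 * (2 : ℝ) ^ (q - 1) *
              ((2 : ℝ) ^ (q - 1 - s) * ((2 : ℝ) ^ (q - 1 - s) - 1)⁻¹ * (M : ℝ) ^ (q - 1 - s)) *
              ((A.card : ℝ) ^ (s - 1 / (d : ℝ)) * (A.card : ℝ) ^ (q - 1 - s)) := by ring
          _ ≤ 4 * (A.card : ℝ) ^ β + 2 * C1 * (2 : ℝ) ^ (q - 1) *
              ((2 : ℝ) ^ (q - 1 - s) * ((2 : ℝ) ^ (q - 1 - s) - 1)⁻¹ * (M : ℝ) ^ (q - 1 - s)) *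
              (A.card : ℝ) ^ β := by
              rw [e4]
              linarith
          _ = C2 * (A.card : ℝ) ^ β := by rw [hC2]; ring
      have h2 := int_pow2 hδ hδ1 v c h hv (q := q) hq1' (by positivity) hJ
      refine h2.trans (ENNReal.ofReal_le_ofReal ?_)
      rw [← hN]
      have h3 : (A.card : ℝ) ^ β ≤ K ^ β * (N : ℝ) ^ β := by
        rw [← Real.mul_rpow (by linarith) (by linarith)]
        exact Real.rpow_le_rpow (by linarith) hAK hβ0.le
      have e6 : (N : ℝ) ^ (q - 1 / (d : ℝ)) = (N : ℝ) * (N : ℝ) ^ β := by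
        have : (N : ℝ) * (N : ℝ) ^ β = (N : ℝ) ^ (1 : ℝ) * (N : ℝ) ^ β := by rw [Real.rpow_one]
        rw [this, ← Real.rpow_add (by linarith)]
        congr 1
        rw [hβ]; ring
      rw [e6, hC3]
      have hVn := V_nonneg d
      calc (N : ℝ) * (V d * δ ^ d) * (C2 * (A.card : ℝ) ^ β)
          ≤ (N : ℝ) * (V d * δ ^ d) * (C2 * (K ^ β * (N : ℝ) ^ β)) := by
            refine mul_le_mul_of_nonneg_left ?_ (by positivity)
            exact mul_le_mul_of_nonneg_left h3 hC20.le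
        _ = _ := by ring
  refine (ENNReal.rpow_le_rpow hI (by positivity)).trans ?_
  have hB : 0 ≤ C3 * δ ^ d * (N : ℝ) ^ (q - 1 / (d : ℝ)) := by positivity
  rw [ENNReal.ofReal_rpow_of_nonneg hB (by positivity)]
  apply ENNReal.ofReal_le_ofReal
  rw [Real.mul_rpow (by positivity) (by positivity), Real.mul_rpow hC30 hδd]
  have e3 : (δ ^ d) ^ (1 / q) = δ ^ ((d : ℝ) / q) := by
    rw [← Real.rpow_natCast, ← Real.rpow_mul hδ.le]
    congr 1
    ring
  have e4 : ((N : ℝ) ^ (q - 1 / (d : ℝ))) ^ (1 / q) = (N : ℝ) ^ (1 - 1 / (q * d)) := by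
    rw [← Real.rpow_mul (Nat.cast_nonneg _)]
    congr 1
    field_simp
  rw [e3, e4]
  have k1 : C3 ^ (1 / q) ≤ 1 + C3 := by
    have k2 : C3 ^ (1 / q) ≤ (1 + C3) ^ (1 / q) :=
      Real.rpow_le_rpow hC30 (by linarith) (by positivity)
    have k3 : (1 + C3) ^ (1 / q) ≤ (1 + C3) ^ (1 : ℝ) :=
      Real.rpow_le_rpow_of_exponent_le (by linarith) (by rw [div_le_one hq0]; exact hq1'.le)
    rw [Real.rpow_one] at k3
    linarith
  exact mul_le_mul_of_nonneg_right (mul_le_mul_of_nonneg_right k1 (by positivity)) (by positivity)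

end Pool.Agent.N3.ST.M
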