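import Pool.Agent.N3.ST.Stm3
import Pool.Agent.N3.ST.I0

/-!
# ST/P: multiplicities at heights in arithmetic progression
-/

set_option autoImplicit false

open MeasureTheory Set Metric
open scoped Pointwise

namespace Pool.Agent.N3.ST.P

open Pool.Agent.N3.ST

/-- Plünnecke's inequality. -/
theorem plun {d : ℕ} {K : ℝ} {A : Finset (Vec d × Vec d)} (hA : A.Nonempty)
    (hK : ((A - A).card : ℝ) ≤ K * A.card) (n : ℕ) :
    ((n • A).card : ℝ) ≤ K ^ n * A.card := by
  have h1 := Finset.pluennecke_ruzsa_inequality_nsmul_sub hA A n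
  have h2 : ((n • A).card : ℝ) ≤ (((A - A).card : ℝ) / A.card) ^ n * A.card := by
    have h4 := (NNRat.cast_le (K := ℝ)).2 h1
    push_cast at h4
    exact h4
  have h3 : (0 : ℝ) < A.card := by exact_mod_cast hA.card_pos
  refine h2.trans ?_
  gcongr
  rw [div_le_iff₀ h3]
  exact hK

/-- Few elements of `n A` have their slope in a small ball. -/
theorem fib {d : ℕ} {K M : ℝ} {N0 : ℕ} {r δ : ℝ} {A : Finset (Vec d × Vec d)} (hA : A.Nonempty)
    (hM : 0 ≤ M) (hK : ((A - A).card : ℝ) ≤ K * A.card)
    (hN : ∀ F : Finset (Vec d × Vec d), F ⊆ A → (∃ v₀ : Vec d, ∀ p ∈ F, ‖p.1 - v₀‖ ≤ r * δ) →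
      (F.card : ℝ) ≤ N0 * M) (n : ℕ) (D : Finset (Vec d × Vec d)) (hD : D ⊆ n • A) (v₀ : Vec d)
    (hv : ∀ g ∈ D, ‖g.1 - v₀‖ ≤ r * δ) :
    (D.card : ℝ) ≤ N0 * M * K ^ (n + 1) := by
  have h3 : (0 : ℝ) < A.card := by exact_mod_cast hA.card_pos
  have h1 : ((D ×ˢ A).card : ℝ) ≤ ((n + 1) • A).card * (N0 * M) := by
    rw [Finset.card_eq_sum_card_fiberwise (f := fun x => x.1 + x.2) (t := (n + 1) • A)]
    · push_cast
      calc _ ≤ ∑ z ∈ (n + 1) • A, ((N0 : ℝ) * M) := by
            refine Finset.sum_le_sum fun z _ => ?_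
            have h4 : (({x ∈ D ×ˢ A | x.1 + x.2 = z}.image Prod.snd).card : ℝ) ≤ N0 * M := by
              refine hN _ ?_ ⟨z.1 - v₀, ?_⟩
              · intro a ha
                rw [Finset.mem_image] at ha
                obtain ⟨x, hx, rfl⟩ := ha
                rw [Finset.mem_filter, Finset.mem_product] at hx
                exact hx.1.2
              · intro a ha
                rw [Finset.mem_image] at ha
                obtain ⟨x, hx, rfl⟩ := ha
                rw [Finset.mem_filter, Finset.mem_product] at hx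
                have h5 := hv _ hx.1.1
                have h6 : x.2.1 - (z.1 - v₀) = -(x.1.1 - v₀) := by
                  rw [← hx.2, Prod.fst_add]
                  abel
                rw [h6, norm_neg]
                exact h5
            rw [Finset.card_image_of_injOn] at h4
            · exact h4
            · intro x hx y hy hxy
              simp only [Finset.coe_filter, Set.mem_ofPred_eq] at hx hy
              have h7 : x.2 = y.2 := hxy
              have h8 : x.1 + x.2 = y.1 + y.2 := hx.2.trans hy.2.symm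
              rw [h7] at h8
              exact Prod.ext (add_right_cancel h8) h7
        _ = _ := by simp
    · intro x hx
      rw [Finset.mem_coe, Finset.mem_product] at hx
      rw [Finset.mem_coe, add_nsmul, one_nsmul]
      exact Finset.add_mem_add (hD hx.1) hx.2
  rw [Finset.card_product] at h1
  push_cast at h1
  have h2 := plun hA hK (n + 1)
  have h5 : (0 : ℝ) ≤ N0 * M := by positivity
  have h6 : (D.card : ℝ) * A.card ≤ N0 * M * K ^ (n + 1) * A.card := by
    calc (D.card : ℝ) * A.card ≤ ((n + 1) • A).card * (N0 * M) := h1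
      _ ≤ K ^ (n + 1) * A.card * (N0 * M) := by gcongr
      _ = _ := by ring
  exact le_of_mul_le_mul_right h6 h3

open Classical in
/-- Counting chains. -/
theorem chain {α β : Type} [Zero β] [DecidableEq β] (P : Finset α) (e : ℕ → α → β) (c : ℕ → ℝ)
    (hc : ∀ k, 0 ≤ c k)
    (h : ∀ k (g : β), (((P.filter fun p => e k p = g).image (e (k + 1))).card : ℝ) ≤ c k)
    (n : ℕ) :
    ((P.image fun p => fun i : ℕ => if i ≤ n then e i p else 0).card : ℝ) ≤
      (P.image (e 0)).card * ∏ k ∈ Finset.range n, c k := by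
  induction n with
  | zero =>
    simp only [Finset.range_zero, Finset.prod_empty, mul_one]
    have h1 : (P.image fun p => fun i : ℕ => if i ≤ 0 then e i p else 0) =
        (P.image (e 0)).image (fun g => fun i : ℕ => if i ≤ 0 then g else 0) := by
      rw [Finset.image_image]
      refine Finset.image_congr fun p _ => ?_
      funext i
      simp only [Function.comp]
      by_cases hi : i ≤ 0
      · rw [if_pos hi, if_pos hi, Nat.le_zero.1 hi]
      · rw [if_neg hi, if_neg hi]
    rw [h1]
    exact_mod_cast Finset.card_image_le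
  | succ n ih =>
    set q : ℕ → α → ℕ → β := fun n p => fun i : ℕ => if i ≤ n then e i p else 0 with hq
    have h1 : ((P.image (q (n + 1))).card : ℝ) ≤ (P.image (q n)).card * c n := by
      rw [Finset.card_eq_sum_card_fiberwise
        (f := fun (z : ℕ → β) => fun i : ℕ => if i ≤ n then z i else 0) (t := P.image (q n))]
      · push_cast
        calc _ ≤ ∑ y ∈ P.image (q n), c n := by
              refine Finset.sum_le_sum fun y _ => ?_
              refine le_trans ?_ (h n (y n))
              have h2 : ((P.image (q (n + 1))).filter fun z =>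
                  (fun i : ℕ => if i ≤ n then z i else 0) = y).card ≤
                  ((P.filter fun p => e n p = y n).image (e (n + 1))).card := by
                refine Finset.card_le_card_of_injOn (fun z => z (n + 1)) ?_ ?_
                · intro z hz
                  rw [Finset.mem_coe, Finset.mem_filter, Finset.mem_image] at hz
                  obtain ⟨⟨p, hp, rfl⟩, hy⟩ := hz
                  rw [Finset.mem_coe, Finset.mem_image]
                  refine ⟨p, ?_, by simp [hq]⟩
                  rw [Finset.mem_filter]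
                  refine ⟨hp, ?_⟩
                  rw [← hy]
                  simp [hq]
                · intro z hz z' hz' hzz
                  rw [Finset.mem_coe, Finset.mem_filter, Finset.mem_image] at hz hz'
                  obtain ⟨⟨p, hp, rfl⟩, hy⟩ := hz
                  obtain ⟨⟨p', hp', rfl⟩, hy'⟩ := hz'
                  funext i
                  have h3 := congrFun (hy.trans hy'.symm) i
                  simp only [hq] at h3 hzz ⊢
                  rcases Nat.lt_trichotomy i (n + 1) with hi | hi | hi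
                  · have hi' : i ≤ n := by omega
                    simpa [hi', hi.le] using h3
                  · subst hi
                    simpa using hzz
                  · have hi' : ¬ i ≤ n + 1 := by omega
                    simp [hi']
              exact_mod_cast h2
          _ = _ := by simp
      · intro z hz
        rw [Finset.mem_coe, Finset.mem_image] at hz
        obtain ⟨p, hp, rfl⟩ := hz
        rw [Finset.mem_coe, Finset.mem_image]
        refine ⟨p, hp, ?_⟩
        funext i
        simp only [hq]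
        by_cases hi : i ≤ n
        · have hi' : i ≤ n + 1 := by omega
          simp [hi, hi']
        · simp [hi]
    calc ((P.image (q (n + 1))).card : ℝ) ≤ (P.image (q n)).card * c n := h1
      _ ≤ ((P.image (e 0)).card * ∏ k ∈ Finset.range n, c k) * c n :=
        mul_le_mul_of_nonneg_right ih (hc n)
      _ = _ := by rw [Finset.prod_range_succ]; ring

/-- The moments. -/
def mom {d m : ℕ} (k : ℕ) (p : Fin m → Vec d × Vec d) : Vec d × Vec d :=
  ∑ j : Fin m, ((j : ℕ) ^ k) • p j

theorem mom_mem {d m : ℕ} (k : ℕ) (p : Fin m → Vec d × Vec d) {A : Finset (Vec d × Vec d)}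
    (hp : ∀ j, p j ∈ A) : mom k p ∈ (∑ j : Fin m, (j : ℕ) ^ k) • A := by
  unfold mom
  have h : ∀ s : Finset (Fin m), ∑ j ∈ s, ((j : ℕ) ^ k) • p j ∈ (∑ j ∈ s, (j : ℕ) ^ k) • A := by
    intro s
    induction s using Finset.induction_on with
    | empty => simp
    | insert a s ha ih =>
      rw [Finset.sum_insert ha, Finset.sum_insert ha, add_nsmul]
      exact Finset.add_mem_add (Finset.nsmul_mem_nsmul (hp a)) ih
  exact h _

theorem mom_inj {d m : ℕ} {p p' : Fin m → Vec d × Vec d}
    (h : ∀ k < m, mom k p = mom k p') : p = p' := by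
  have key : ∀ φ : Vec d × Vec d →ₗ[ℝ] ℝ, (fun j => φ (p j - p' j)) = 0 := by
    intro φ
    refine Matrix.eq_zero_of_forall_pow_sum_mul_pow_eq_zero (R := ℝ)
      (f := fun j : Fin m => ((j : ℕ) : ℝ)) ?_ ?_
    · intro a b hab
      have hab' : (((a : ℕ) : ℝ)) = ((b : ℕ) : ℝ) := hab
      exact Fin.ext (by exact_mod_cast hab')
    · intro k
      have h1 : φ (mom k p - mom k p') = 0 := by rw [h k k.2, sub_self, map_zero]
      rw [← h1]
      unfold mom
      rw [← Finset.sum_sub_distrib, map_sum]
      refine Finset.sum_congr rfl fun j _ => ?_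
      rw [← nsmul_sub, map_nsmul, nsmul_eq_mul]
      push_cast
      ring
  funext j
  rw [← sub_eq_zero]
  refine Prod.ext ?_ ?_
  · ext i
    exact congrFun (key ((EuclideanSpace.proj i).toLinearMap ∘ₗ LinearMap.fst ℝ _ _)) j
  · ext i
    exact congrFun (key ((EuclideanSpace.proj i).toLinearMap ∘ₗ LinearMap.snd ℝ _ _)) j

/-- the slope of the next moment is nearly determined by the previous moment -/
theorem next {d m : ℕ} {δ R t₀ h : ℝ} (hR : 1 ≤ R) (hh : 1 / R ≤ h)
    (x : Fin m → Vec d) (p : Fin m → Vec d × Vec d)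
    (hp : ∀ j, ‖(p j).2 + (t₀ + (j : ℝ) * h) • (p j).1 - x j‖ ≤ R * δ) (k : ℕ) :
    ‖(mom (k + 1) p).1 - h⁻¹ • ((∑ j : Fin m, ((j : ℕ) ^ k) • x j) - (mom k p).2 -
      t₀ • (mom k p).1)‖ ≤ (R ^ 2 * ((∑ j : Fin m, (j : ℕ) ^ k : ℕ) : ℝ)) * δ := by
  have hR0 : 0 < R := by linarith
  have hh0 : 0 < h := lt_of_lt_of_le (by positivity) hh
  have h1 : (mom (k + 1) p).1 - h⁻¹ • ((∑ j : Fin m, ((j : ℕ) ^ k) • x j) - (mom k p).2 -
      t₀ • (mom k p).1) = h⁻¹ • ∑ j : Fin m, ((j : ℕ) ^ k) •
        ((p j).2 + (t₀ + (j : ℝ) * h) • (p j).1 - x j) := by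
    have h2 : ∑ j : Fin m, ((j : ℕ) ^ k) • ((p j).2 + (t₀ + (j : ℝ) * h) • (p j).1 - x j) =
        (mom k p).2 + t₀ • (mom k p).1 + h • (mom (k + 1) p).1 -
          ∑ j : Fin m, ((j : ℕ) ^ k) • x j := by
      unfold mom
      rw [Prod.snd_sum, Prod.fst_sum, Prod.fst_sum, Finset.smul_sum, Finset.smul_sum,
        ← Finset.sum_add_distrib, ← Finset.sum_add_distrib, ← Finset.sum_sub_distrib]
      refine Finset.sum_congr rfl fun j _ => ?_
      rw [Prod.smul_fst, Prod.smul_snd, Prod.smul_fst]
      simp only [← Nat.cast_smul_eq_nsmul ℝ]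
      push_cast
      module
    rw [h2]
    have h3 : (mom (k + 1) p).1 = h⁻¹ • (h • (mom (k + 1) p).1) := by
      rw [smul_smul, inv_mul_cancel₀ hh0.ne', one_smul]
    conv_lhs => rw [h3]
    rw [← smul_sub]
    congr 1
    abel
  rw [h1, norm_smul, norm_inv, Real.norm_eq_abs, abs_of_pos hh0]
  have h4 : ‖∑ j : Fin m, ((j : ℕ) ^ k) • ((p j).2 + (t₀ + (j : ℝ) * h) • (p j).1 - x j)‖ ≤
      ((∑ j : Fin m, (j : ℕ) ^ k : ℕ) : ℝ) * (R * δ) := by
    refine (norm_sum_le _ _).trans ?_
    push_cast
    rw [Finset.sum_mul]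
    refine Finset.sum_le_sum fun j _ => ?_
    rw [← Nat.cast_smul_eq_nsmul ℝ, norm_smul]
    rw [Real.norm_eq_abs, abs_of_nonneg (by positivity)]
    push_cast
    exact mul_le_mul_of_nonneg_left (hp j) (by positivity)
  have h5 : h⁻¹ ≤ R := by
    rw [inv_le_comm₀ hh0 hR0]
    rw [one_div] at hh
    exact hh
  calc h⁻¹ * ‖∑ j : Fin m, ((j : ℕ) ^ k) • ((p j).2 + (t₀ + (j : ℝ) * h) • (p j).1 - x j)‖
      ≤ R * (((∑ j : Fin m, (j : ℕ) ^ k : ℕ) : ℝ) * (R * δ)) :=
        mul_le_mul h5 h4 (norm_nonneg _) hR0.le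
    _ = _ := by ring

theorem main : S_AP := by
  intro d m hd hm M R hM hR
  have hsl := fun r : ℝ => Pool.Agent.N3.ST.I.slopes (d := d) r
  choose N0 hN1 hN using hsl
  set Nk : ℕ → ℕ := fun k => ∑ j : Fin m, (j : ℕ) ^ k with hNk
  refine ⟨∏ k ∈ Finset.range (m - 1), (N0 (R ^ 2 * (Nk k : ℝ)) * M),
    m + ∑ k ∈ Finset.range (m - 1), (Nk (k + 1) + 1), ?_, ?_⟩
  · refine Finset.prod_pos fun k _ => ?_
    have : (1 : ℝ) ≤ N0 (R ^ 2 * (Nk k : ℝ)) := by exact_mod_cast hN1 _
    positivity
  intro δ K hδ hK1 A hA hK hSl t₀ h ht₀ hh hh' F hF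
  choose hFA x hx using hF
  classical
  set P : Finset (Fin m → Vec d × Vec d) := Fintype.piFinset F with hP
  have hcard : (P.card : ℝ) = ∏ j, ((F j).card : ℝ) := by
    rw [hP, Fintype.card_piFinset]
    push_cast
    rfl
  rw [← hcard]
  have hPA : ∀ p ∈ P, ∀ j, p j ∈ A := fun p hp j => hFA j (Fintype.mem_piFinset.1 hp j)
  have hPx : ∀ p ∈ P, ∀ j, ‖(p j).2 + (t₀ + (j : ℝ) * h) • (p j).1 - x j‖ ≤ R * δ :=
    fun p hp j => hx j _ (Fintype.mem_piFinset.1 hp j)
  have hch := chain P (fun k => mom k)
    (fun k => N0 (R ^ 2 * (Nk k : ℝ)) * M * K ^ (Nk (k + 1) + 1)) (fun k => by positivity) ?_ (m - 1)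
  · have hinj : ((P.image fun p => fun i : ℕ => if i ≤ m - 1 then mom i p else 0).card : ℝ) =
        P.card := by
      rw [Finset.card_image_of_injOn]
      intro p _ p' _ hpp
      refine mom_inj fun k hk => ?_
      have h1 := congrFun hpp k
      have hk' : k ≤ m - 1 := by omega
      simpa [hk'] using h1
    rw [hinj] at hch
    refine hch.trans ?_
    have h0 : ((P.image (mom 0)).card : ℝ) ≤ K ^ m * A.card := by
      have h2 : P.image (mom 0) ⊆ m • A := by
        intro g hg
        rw [Finset.mem_image] at hg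
        obtain ⟨p, hp, rfl⟩ := hg
        have h3 := mom_mem 0 p (hPA p hp)
        simpa using h3
      refine le_trans ?_ (plun hA hK m)
      exact_mod_cast Finset.card_le_card h2
    calc _ ≤ K ^ m * A.card *
          ∏ k ∈ Finset.range (m - 1), (N0 (R ^ 2 * (Nk k : ℝ)) * M * K ^ (Nk (k + 1) + 1)) := by
          refine mul_le_mul_of_nonneg_right h0 (Finset.prod_nonneg fun k _ => by positivity)
      _ = _ := by
          rw [Finset.prod_mul_distrib, Finset.prod_pow_eq_pow_sum, pow_add]
          ring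
  · intro k g
    refine fib hA (by linarith) hK (r := R ^ 2 * (Nk k : ℝ)) (δ := δ) ?_ (Nk (k + 1)) _ ?_
      (h⁻¹ • ((∑ j : Fin m, ((j : ℕ) ^ k) • x j) - g.2 - t₀ • g.1)) ?_
    · exact hN _ δ hδ M (by linarith) A hSl
    · intro z hz
      rw [Finset.mem_image] at hz
      obtain ⟨p, hp, rfl⟩ := hz
      rw [Finset.mem_filter] at hp
      exact mom_mem (k + 1) p (hPA p hp.1)
    · intro z hz
      rw [Finset.mem_image] at hz
      obtain ⟨p, hp, rfl⟩ := hz
      rw [Finset.mem_filter] at hp
      have h1 := next hR hh x p (hPx p hp.1) k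
      rw [hp.2] at h1
      exact h1

end Pool.Agent.N3.ST.P
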