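import Pool.Agent.N3.ST.Stm3
import Pool.Agent.N3.ST.I0

/-!
# Project ST (helper3), part Q (helper690): unions of tubes near structured sets of lines
-/

set_option autoImplicit false
set_option linter.unusedSectionVars false
set_option linter.unusedVariables false

open MeasureTheory Set Metric
open scoped Pointwise ENNReal

namespace Pool.Agent.N3.ST.Q

open Pool.Agent.H810R3.Tub (Space tube dir dir_sub_le tube_eq tube_closed)
open Pool.Agent.N3.ST.I (packing)

variable {d : ℕ}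

/-- Fubini on the space -/
theorem fub (f : Space d → ℝ≥0∞) (hf : Measurable f) :
    ∫⁻ y, f y = ∫⁻ t : ℝ, ∫⁻ x : Vec d, f (WithLp.toLp 2 (x, t)) := by
  have h1 := (WithLp.volume_preserving_toLp (Vec d) ℝ)
  rw [← h1.lintegral_comp hf, Measure.volume_eq_prod]
  exact lintegral_prod_symm (fun p : Vec d × ℝ => f (WithLp.toLp 2 p))
    (hf.comp h1.measurable).aemeasurable

/-- the union of the tubes -/
def UU {ι : Type} (δ : ℝ) (v c : ι → Vec d) (h : ι → ℝ) : Set (Space d) :=
  ⋃ i, tube δ (dir (v i)) (WithLp.toLp 2 (c i, h i))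

/-- the measure of a horizontal slice of the union -/
noncomputable def gg {ι : Type} (δ : ℝ) (v c : ι → Vec d) (h : ι → ℝ) (t : ℝ) : ℝ≥0∞ :=
  ∫⁻ x : Vec d, (UU δ v c h).indicator (fun _ => (1 : ℝ≥0∞)) (WithLp.toLp 2 (x, t))

theorem UU_meas {ι : Type} [Fintype ι] (δ : ℝ) (v c : ι → Vec d) (h : ι → ℝ) :
    MeasurableSet (UU δ v c h) :=
  MeasurableSet.iUnion fun _ => (tube_closed _ _ _).measurableSet

theorem gg_meas {ι : Type} [Fintype ι] (δ : ℝ) (v c : ι → Vec d) (h : ι → ℝ) :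
    Measurable (gg δ v c h) := by
  have h1 := (WithLp.volume_preserving_toLp (Vec d) ℝ).measurable
  have h2 : Measurable (fun p : Vec d × ℝ =>
      (UU δ v c h).indicator (fun _ => (1 : ℝ≥0∞)) (WithLp.toLp 2 p)) :=
    (measurable_const.indicator (UU_meas δ v c h)).comp h1
  exact h2.lintegral_prod_left'

theorem gg_int {ι : Type} [Fintype ι] (δ : ℝ) (v c : ι → Vec d) (h : ι → ℝ) :
    ∫⁻ t, gg δ v c h t = volume (UU δ v c h) := by
  have := fub (d := d) ((UU δ v c h).indicator (fun _ => (1 : ℝ≥0∞)))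
    (measurable_const.indicator (UU_meas δ v c h))
  rw [lintegral_indicator (UU_meas δ v c h), setLIntegral_one] at this
  rw [this]
  rfl

/-- a natural number valued bounded function has a maximum -/
theorem exists_max {X : Type*} [Nonempty X] (f : X → ℕ) (b : ℕ) (hb : ∀ x, f x ≤ b) :
    ∃ x₀, ∀ x, f x ≤ f x₀ := by
  have h1 : (range f).Nonempty := range_nonempty f
  have h2 : BddAbove (range f) := ⟨b, by rintro _ ⟨x, rfl⟩; exact hb x⟩
  obtain ⟨x₀, hx₀⟩ := Nat.sSup_mem h1 h2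
  exact ⟨x₀, fun x => by rw [hx₀]; exact le_csSup h2 (mem_range_self x)⟩

/-- one height: the measure of the slice is bounded below by the multiplicity -/
theorem one_height {M S : ℝ} (hM : 1 ≤ M) (hS : 1 ≤ S) : ∃ M1 : ℕ, 1 ≤ M1 ∧
    ∀ (δ : ℝ), 0 < δ → δ < 1 → ∀ (A : Finset (Vec d × Vec d)) (ι : Type) [Fintype ι]
    (v c : ι → Vec d) (h : ι → ℝ), (∀ i, ‖v i‖ ≤ 1) →
    (∀ i j, i ≠ j → δ ≤ ‖dir (v i) - dir (v j)‖) →
    (∀ i, ∃ p ∈ A, ‖v i - p.1‖ ≤ M * δ ∧ ‖(c i - h i • v i) - p.2‖ ≤ M * δ) →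
    ∀ (J : Finset ι) (t : ℝ), |t| ≤ S + 1 → (∀ i ∈ J, |t - h i| ≤ 1 / 8) →
    ∃ F ⊆ A, (∃ x : Vec d, ∀ p ∈ F, ‖p.2 + t • p.1 - x‖ ≤ (M * (S + 3)) * δ) ∧
      (J.card : ℝ≥0∞) * volume (closedBall (0 : Vec d) (δ / 4)) ≤
        ((M1 * F.card : ℕ) : ℝ≥0∞) * gg δ v c h t := by
  classical
  obtain ⟨M1, hM1, hP⟩ := packing (d := d) M
  refine ⟨M1, hM1, ?_⟩
  intro δ hδ hδ1 A ι _ v c h hv hsep hA J t ht hJ
  choose p hpA hp1 hp2 using hA
  have hs' : ∀ i j, i ≠ j → δ ≤ ‖v i - v j‖ := fun i j hij => (hsep i j hij).trans (dir_sub_le _ _)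
  set Jx : Vec d → Finset ι := fun x => J.filter fun i =>
    x ∈ closedBall ((c i - h i • v i) + t • v i) (δ / 4) with hJx
  obtain ⟨x₀, hx₀⟩ := exists_max (fun x => (Jx x).card) J.card
    (fun x => Finset.card_le_card (Finset.filter_subset _ _))
  have hfib : (Jx x₀).card ≤ M1 * ((Jx x₀).image p).card := by
    refine Finset.card_le_mul_card_image (Jx x₀) M1 fun z hz => ?_
    refine hP δ hδ ι v z.1 _ (fun i hi => ?_) hs'
    rw [← (Finset.mem_filter.1 hi).2]
    exact hp1 i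
  refine ⟨(Jx x₀).image p, ?_, ⟨x₀, ?_⟩, ?_⟩
  · intro z hz
    obtain ⟨i, -, rfl⟩ := Finset.mem_image.1 hz
    exact hpA i
  · intro z hz
    obtain ⟨i, hi, rfl⟩ := Finset.mem_image.1 hz
    have h1 : ‖x₀ - ((c i - h i • v i) + t • v i)‖ ≤ δ / 4 := by
      have := (Finset.mem_filter.1 hi).2
      rwa [mem_closedBall, dist_eq_norm] at this
    have e : (p i).2 + t • (p i).1 - x₀ = -((c i - h i • v i) - (p i).2) -
        t • (v i - (p i).1) - (x₀ - ((c i - h i • v i) + t • v i)) := by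
      rw [smul_sub]
      abel
    have k1 : ‖t • (v i - (p i).1)‖ ≤ (S + 1) * (M * δ) := by
      rw [norm_smul, Real.norm_eq_abs]
      exact mul_le_mul ht (hp1 i) (norm_nonneg _) (by linarith)
    rw [e]
    calc _ ≤ ‖-((c i - h i • v i) - (p i).2) - t • (v i - (p i).1)‖ +
          ‖x₀ - ((c i - h i • v i) + t • v i)‖ := norm_sub_le _ _
      _ ≤ ‖-((c i - h i • v i) - (p i).2)‖ + ‖t • (v i - (p i).1)‖ +
          ‖x₀ - ((c i - h i • v i) + t • v i)‖ := by
          gcongr
          exact norm_sub_le _ _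
      _ ≤ M * δ + (S + 1) * (M * δ) + δ / 4 := by
          rw [norm_neg]
          have := hp2 i
          linarith
      _ ≤ _ := by nlinarith
  · have hmb : ∀ i : ι, MeasurableSet (closedBall ((c i - h i • v i) + t • v i) (δ / 4)) :=
      fun i => measurableSet_closedBall
    have e1 : (J.card : ℝ≥0∞) * volume (closedBall (0 : Vec d) (δ / 4)) =
        ∫⁻ x : Vec d, ((Jx x).card : ℝ≥0∞) := by
      have e2 : ∀ x : Vec d, ((Jx x).card : ℝ≥0∞) = ∑ i ∈ J,
          (closedBall ((c i - h i • v i) + t • v i) (δ / 4)).indicator (fun _ => (1 : ℝ≥0∞)) x := by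
        intro x
        rw [hJx]
        simp only
        rw [Finset.card_filter]
        push_cast
        refine Finset.sum_congr rfl fun i _ => ?_
        by_cases hy : x ∈ closedBall ((c i - h i • v i) + t • v i) (δ / 4)
        · rw [indicator_of_mem hy, if_pos hy]
        · rw [indicator_of_notMem hy, if_neg hy]
      rw [lintegral_congr e2, lintegral_finsetSum _ fun i _ => measurable_const.indicator (hmb i)]
      have e3 : ∀ i ∈ J, ∫⁻ x : Vec d, (closedBall ((c i - h i • v i) + t • v i) (δ / 4)).indicator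
          (fun _ => (1 : ℝ≥0∞)) x = volume (closedBall (0 : Vec d) (δ / 4)) := by
        intro i _
        rw [lintegral_indicator (hmb i), setLIntegral_one,
          Measure.addHaar_closedBall volume _ (by positivity : (0 : ℝ) ≤ δ / 4),
          Measure.addHaar_closedBall volume _ (by positivity : (0 : ℝ) ≤ δ / 4)]
      rw [Finset.sum_congr rfl e3, Finset.sum_const, nsmul_eq_mul]
    rw [e1]
    have hpt : ∀ x : Vec d, ((Jx x).card : ℝ≥0∞) ≤ ((M1 * ((Jx x₀).image p).card : ℕ) : ℝ≥0∞) *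
        (UU δ v c h).indicator (fun _ => (1 : ℝ≥0∞)) (WithLp.toLp 2 (x, t)) := by
      intro x
      rcases Finset.eq_empty_or_nonempty (Jx x) with h0 | ⟨i, hi⟩
      · rw [h0, Finset.card_empty, Nat.cast_zero]
        exact zero_le
      · have hiJ : i ∈ J := (Finset.mem_filter.1 hi).1
        have hm := (Finset.mem_filter.1 hi).2
        rw [mem_closedBall, dist_eq_norm] at hm
        have ht8 := abs_le.1 (hJ i hiJ)
        have hin : (WithLp.toLp 2 (x, t) : Space d) ∈ UU δ v c h := by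
          refine mem_iUnion.2 ⟨i, ?_⟩
          have e : (WithLp.toLp 2 (c i, h i) : Space d) =
              WithLp.toLp 2 ((c i - h i • v i) + h i • v i, h i) := by
            rw [sub_add_cancel]
          rw [e, tube_eq]
          exact Pool.Agent.H803R2.KakFTO.subset_tube hδ hδ1 (fun _ => c i - h i • v i) (hv i) (h i)
            ⟨by linarith [ht8.1], by linarith [ht8.2]⟩ hm
        rw [indicator_of_mem hin, mul_one]
        exact_mod_cast (hx₀ x).trans hfib
    calc ∫⁻ x : Vec d, ((Jx x).card : ℝ≥0∞) ≤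
        ∫⁻ x : Vec d, ((M1 * ((Jx x₀).image p).card : ℕ) : ℝ≥0∞) *
        (UU δ v c h).indicator (fun _ => (1 : ℝ≥0∞)) (WithLp.toLp 2 (x, t)) := lintegral_mono hpt
      _ = _ := by
        rw [lintegral_const_mul' _ _ (ENNReal.natCast_ne_top _)]
        rfl

/-- one of finitely many numbers is at most the geometric mean -/
theorem pick {m : ℕ} (hm : 1 ≤ m) (X : ℝ) (hX : 0 < X) (F : Fin m → ℝ)
    (h : ∏ j, F j ≤ X) : ∃ j, F j ≤ X ^ (1 / (m : ℝ)) := by
  by_contra hc
  simp only [not_exists, not_le] at hc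
  have hy : 0 < X ^ (1 / (m : ℝ)) := Real.rpow_pos_of_pos hX _
  have hne : (Finset.univ : Finset (Fin m)).Nonempty := ⟨⟨0, hm⟩, Finset.mem_univ _⟩
  have h1 : ∏ _j : Fin m, X ^ (1 / (m : ℝ)) < ∏ j, F j :=
    Finset.prod_lt_prod_of_nonempty (fun _ _ => hy) (fun j _ => hc j) hne
  rw [Finset.prod_const, Finset.card_univ, Fintype.card_fin, ← Real.rpow_natCast,
    ← Real.rpow_mul hX.le, one_div, inv_mul_cancel₀ (by positivity), Real.rpow_one] at h1
  linarith

/-- pigeonhole on the heights -/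
theorem heights {S : ℝ} (hS : 1 ≤ S) : ∃ P : ℕ, 1 ≤ P ∧ ∀ (ι : Type) [Fintype ι] (h : ι → ℝ),
    (∀ i, |h i| ≤ S) → ∃ (k : ℝ) (J : Finset ι), (∀ i ∈ J, |h i - k| ≤ 1 / 32) ∧
      (Fintype.card ι : ℝ) ≤ P * J.card := by
  classical
  set T : Finset ℤ := Finset.Icc ⌊-(16 * S)⌋ ⌊16 * S⌋ with hT
  have hTn : T.Nonempty := by
    refine ⟨0, ?_⟩
    rw [hT, Finset.mem_Icc]
    constructor
    · rw [Int.floor_le_iff]
      push_cast
      linarith
    · rw [Int.le_floor]
      push_cast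
      linarith
  refine ⟨T.card, Finset.card_pos.2 hTn, ?_⟩
  intro ι _ h hh
  have hP : (0 : ℝ) < T.card := by exact_mod_cast Finset.card_pos.2 hTn
  obtain ⟨k, hk, hb⟩ := Finset.exists_le_card_fiber_of_nsmul_le_card_of_maps_to
    (s := (Finset.univ : Finset ι)) (t := T) (f := fun i => ⌊16 * h i⌋)
    (b := (Fintype.card ι : ℝ) / T.card) (by
      intro i _
      have := abs_le.1 (hh i)
      rw [hT, Finset.mem_Icc]
      exact ⟨Int.floor_le_floor (by linarith [this.1]), Int.floor_le_floor (by linarith [this.2])⟩)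
    hTn (by
      rw [nsmul_eq_mul, mul_div_cancel₀ _ hP.ne', Finset.card_univ])
  refine ⟨((k : ℝ) + 1 / 2) / 16, Finset.univ.filter fun i => ⌊16 * h i⌋ = k, ?_, ?_⟩
  · intro i hi
    have h1 := (Finset.mem_filter.1 hi).2
    have h2 := Int.floor_le (16 * h i)
    have h3 := Int.lt_floor_add_one (16 * h i)
    rw [h1] at h2 h3
    rw [abs_le]
    constructor <;> linarith
  · rw [div_le_iff₀ hP] at hb
    linarith

/-- **unions of tubes near structured sets of lines** -/
theorem main (hA : S_AP) : S_unionA := by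
  intro d m hd hm M S hM hS
  have hm1 : (1 : ℝ) ≤ m := by exact_mod_cast hm
  have hm0 : (0 : ℝ) < m := by linarith
  set R : ℝ := 8 * m + M * (S + 3) + (S + 2) with hR
  have hMS : 0 < M * (S + 3) := by nlinarith
  have hR1 : 1 ≤ R := by nlinarith
  obtain ⟨C1, B, hC1, hAP⟩ := hA d m hd hm M R hM hR1
  obtain ⟨M1, hM1, hone⟩ := one_height (d := d) hM hS
  obtain ⟨P, hP1, hhe⟩ := heights hS
  have hM1' : (0 : ℝ) < M1 := by exact_mod_cast hM1
  have hP1' : (0 : ℝ) < P := by exact_mod_cast hP1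
  set ω : ℝ := (volume (ball (0 : Vec d) 1)).toReal with hω
  have hω0 : 0 < ω := ENNReal.toReal_pos (measure_ball_pos volume _ one_pos).ne'
    measure_ball_lt_top.ne
  have hC1m : 0 < C1 ^ (1 / (m : ℝ)) := Real.rpow_pos_of_pos hC1 _
  refine ⟨8 * m ^ 2 * P * M1 * 4 ^ d * C1 ^ (1 / (m : ℝ)) / ω, B, by positivity, ?_⟩
  intro δ K hδ hδ1 hK A hAn hAA hSl ι _ v c h hv hh hsep hp
  obtain ⟨k, J, hJ, hcard⟩ := hhe ι h hh
  have hK0 : 0 < K := by linarith
  have hA0 : (0 : ℝ) < A.card := by exact_mod_cast Finset.card_pos.2 hAn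
  rcases Finset.eq_empty_or_nonempty J with h0 | ⟨i₀, hi₀⟩
  · have : (Fintype.card ι : ℝ) ≤ 0 := by
      rw [h0, Finset.card_empty, Nat.cast_zero, mul_zero] at hcard
      exact hcard
    have h1 : (Fintype.card ι : ℝ) = 0 := le_antisymm this (Nat.cast_nonneg _)
    rw [h1, mul_zero, zero_div, ENNReal.ofReal_zero]
    exact zero_le
  have hkS : |k| ≤ S + 1 / 32 := by
    have h1 := abs_le.1 (hJ i₀ hi₀)
    have h2 := abs_le.1 (hh i₀)
    rw [abs_le]
    constructor <;> linarith [h1.1, h1.2, h2.1, h2.2]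
  have hkS' := abs_le.1 hkS
  set X : ℝ := C1 * K ^ B * (A.card : ℝ) with hX
  have hX0 : 0 < X := by positivity
  set Y0 : ℝ := X ^ (1 / (m : ℝ)) with hY0
  have hY00 : 0 < Y0 := Real.rpow_pos_of_pos hX0 _
  set a : ℝ := k - 1 / 16 with ha
  set h' : ℝ := 1 / (8 * m) with hh'
  have hh'0 : 0 < h' := by positivity
  set n' : ℝ := (J.card : ℝ) with hn'
  set L : ℝ := n' * ((δ / 4) ^ d * ω) / (M1 * Y0) with hL
  have hL0 : 0 ≤ L := by positivity
  -- the volume of a ball
  have hball : volume (closedBall (0 : Vec d) (δ / 4)) = ENNReal.ofReal ((δ / 4) ^ d * ω) := by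
    rw [Measure.addHaar_closedBall volume _ (by positivity : (0 : ℝ) ≤ δ / 4)]
    have h1 : Module.finrank ℝ (Vec d) = d := by simp
    have h2 : volume (ball (0 : Vec d) 1) ≠ ∞ := measure_ball_lt_top.ne
    rw [h1, ← ENNReal.ofReal_toReal h2, ← ENNReal.ofReal_mul (by positivity)]
  -- the key pointwise inequality
  have key : ∀ t₀ ∈ Ico a (a + h'), ENNReal.ofReal L ≤
      ∑ j : Fin m, gg δ v c h (t₀ + (j : ℝ) * h') := by
    intro t₀ ht₀
    have hjb : ∀ j : Fin m, a ≤ t₀ + (j : ℝ) * h' ∧ t₀ + (j : ℝ) * h' ≤ a + 1 / 8 := by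
      intro j
      have h1 : (0 : ℝ) ≤ (j : ℝ) * h' := by positivity
      have h2 : ((j : ℕ) : ℝ) + 1 ≤ m := by exact_mod_cast j.2
      have h3 : ((j : ℝ) + 1) * h' ≤ m * h' := mul_le_mul_of_nonneg_right h2 hh'0.le
      have h4 : (m : ℝ) * h' = 1 / 8 := by
        rw [hh']
        field_simp
      constructor
      · linarith [ht₀.1]
      · linarith [ht₀.2]
    have hF : ∀ j : Fin m, ∃ F ⊆ A, (∃ x : Vec d, ∀ p ∈ F,
        ‖p.2 + (t₀ + (j : ℝ) * h') • p.1 - x‖ ≤ (M * (S + 3)) * δ) ∧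
        (J.card : ℝ≥0∞) * volume (closedBall (0 : Vec d) (δ / 4)) ≤
          ((M1 * F.card : ℕ) : ℝ≥0∞) * gg δ v c h (t₀ + (j : ℝ) * h') := by
      intro j
      obtain ⟨h1, h2⟩ := hjb j
      refine hone δ hδ hδ1 A ι v c h hv hsep hp J (t₀ + (j : ℝ) * h') ?_ ?_
      · rw [abs_le]
        constructor <;> linarith [hkS'.1, hkS'.2]
      · intro i hi
        have h3 := abs_le.1 (hJ i hi)
        rw [abs_le]
        constructor <;> linarith [h3.1, h3.2]
    choose F hFA hFx hFg using hF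
    have hprod : ∏ j, ((F j).card : ℝ) ≤ X := by
      refine hAP δ K hδ hK A hAn hAA hSl t₀ h' ?_ ?_ ?_ F ?_
      · rw [abs_le]
        constructor
        · nlinarith [ht₀.1, hkS'.1]
        · have h5 : h' ≤ 1 / 8 := by
            rw [hh']
            apply one_div_le_one_div_of_le (by norm_num)
            linarith
          nlinarith [ht₀.2, hkS'.2]
      · rw [hh']
        apply one_div_le_one_div_of_le (by positivity)
        nlinarith
      · have h5 : h' ≤ 1 / 8 := by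
          rw [hh']
          apply one_div_le_one_div_of_le (by norm_num)
          linarith
        linarith
      · intro j
        refine ⟨hFA j, ?_⟩
        obtain ⟨x, hx⟩ := hFx j
        refine ⟨x, fun p hp => (hx p hp).trans ?_⟩
        apply mul_le_mul_of_nonneg_right _ hδ.le
        rw [hR]
        linarith
    obtain ⟨j, hj⟩ := pick hm X hX0 (fun j => ((F j).card : ℝ)) hprod
    have h1 := hFg j
    rw [hball] at h1
    have h2 : ((M1 * (F j).card : ℕ) : ℝ≥0∞) ≤ ENNReal.ofReal (M1 * Y0) := by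
      rw [← ENNReal.ofReal_natCast]
      apply ENNReal.ofReal_le_ofReal
      push_cast
      exact mul_le_mul_of_nonneg_left hj hM1'.le
    have h3 : ENNReal.ofReal (n' * ((δ / 4) ^ d * ω)) ≤
        ENNReal.ofReal (M1 * Y0) * gg δ v c h (t₀ + (j : ℝ) * h') := by
      rw [ENNReal.ofReal_mul (by positivity), hn', ENNReal.ofReal_natCast]
      exact h1.trans (mul_le_mul' h2 le_rfl)
    have h4 : ENNReal.ofReal L ≤ gg δ v c h (t₀ + (j : ℝ) * h') := by
      rw [hL, ENNReal.ofReal_div_of_pos (by positivity)]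
      refine ENNReal.div_le_of_le_mul' h3
    exact h4.trans (Finset.single_le_sum (f := fun j : Fin m => gg δ v c h (t₀ + (j : ℝ) * h'))
      (fun _ _ => zero_le) (Finset.mem_univ j))
  -- integration over the starting height
  have hint : ENNReal.ofReal h' * ENNReal.ofReal L ≤ (m : ℝ≥0∞) * volume (UU δ v c h) := by
    calc ENNReal.ofReal h' * ENNReal.ofReal L = ∫⁻ t₀ in Ico a (a + h'), ENNReal.ofReal L := by
          rw [lintegral_const, Measure.restrict_apply MeasurableSet.univ, univ_inter,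
            Real.volume_Ico, add_sub_cancel_left, mul_comm]
      _ ≤ ∫⁻ t₀ in Ico a (a + h'), ∑ j : Fin m, gg δ v c h (t₀ + (j : ℝ) * h') :=
          setLIntegral_mono' measurableSet_Ico key
      _ ≤ ∫⁻ t₀, ∑ j : Fin m, gg δ v c h (t₀ + (j : ℝ) * h') := setLIntegral_le_lintegral _ _
      _ = ∑ j : Fin m, ∫⁻ t₀, gg δ v c h (t₀ + (j : ℝ) * h') :=
          lintegral_finsetSum _ fun j _ => (gg_meas δ v c h).comp (measurable_id.add_const _)
      _ = ∑ j : Fin m, volume (UU δ v c h) := by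
          refine Finset.sum_congr rfl fun j _ => ?_
          rw [lintegral_add_right_eq_self (gg δ v c h) ((j : ℝ) * h')]
          exact gg_int δ v c h
      _ = _ := by
          rw [Finset.sum_const, Finset.card_univ, Fintype.card_fin, nsmul_eq_mul]
  have hfin : ENNReal.ofReal (h' * L / m) ≤ volume (UU δ v c h) := by
    rw [ENNReal.ofReal_div_of_pos hm0, ENNReal.ofReal_mul hh'0.le, ENNReal.ofReal_natCast]
    exact ENNReal.div_le_of_le_mul' hint
  refine le_trans (ENNReal.ofReal_le_ofReal ?_) hfin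
  have e1 : Y0 = C1 ^ (1 / (m : ℝ)) * (K ^ B * (A.card : ℝ)) ^ (1 / (m : ℝ)) := by
    rw [hY0, hX, mul_assoc, Real.mul_rpow hC1.le (by positivity)]
  set Z : ℝ := (K ^ B * (A.card : ℝ)) ^ (1 / (m : ℝ)) with hZ
  have hZ0 : 0 < Z := Real.rpow_pos_of_pos (by positivity) _
  have e2 : h' * L / m = (δ ^ d * (P * n') /
      (8 * m ^ 2 * P * M1 * 4 ^ d * C1 ^ (1 / (m : ℝ)) / ω * Z)) := by
    rw [hh', hL, e1, div_pow]
    field_simp
  rw [e2]
  apply div_le_div_of_nonneg_right _ (by positivity)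
  exact mul_le_mul_of_nonneg_left hcard (by positivity)

end Pool.Agent.N3.ST.Q
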