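import Pool.Agent.N3.ST.Stm3
import Pool.Agent.N3.ST.J
import Pool.Agent.H217R3.AK.Bsg

/-!
# Project ST, job R: unions of tubes with large additive energy (helper73)
-/

set_option autoImplicit false

open MeasureTheory Set
open scoped Pointwise

namespace Pool.Agent.N3.ST.R

open Pool.Agent.N3.ST Pool.Agent.N3.ST.J
open Pool.Agent.H810R3.Tub (Space tube dir dir_sub_le tube_eq)

/-- the cardinality of a difference set does not depend on the decidability instance -/
lemma card_sub_inst {G : Type*} [Sub G] (i j : DecidableEq G) (A B : Finset G) :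
    (@HSub.hSub _ _ _ (@instHSub _ (@Finset.sub G i _)) A B).card =
      (@HSub.hSub _ _ _ (@instHSub _ (@Finset.sub G j _)) A B).card := by
  have h : i = j := Subsingleton.elim _ _
  subst h
  rfl

/-- the cardinality of an image does not depend on the decidability instance -/
lemma card_image_inst {α β : Type*} (i j : DecidableEq β) (f : α → β) (s : Finset α) :
    (@Finset.image α β i f s).card = (@Finset.image α β j f s).card := by
  have h : i = j := Subsingleton.elim _ _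
  subst h
  rfl

/-- The number of the solutions of a shifted additive equation is at most the energy. -/
lemma shift_energy {G : Type*} [AddCommGroup G] [DecidableEq G] (A : Finset G) (z : G) :
    ((A ×ˢ A ×ˢ A ×ˢ A).filter fun x => x.1 + x.2.1 - x.2.2.1 - x.2.2.2 = z).card ≤
      A.addEnergy A := by
  set r : G → ℕ := fun s => ((A ×ˢ A).filter fun p => p.1 + p.2 = s).card with hr
  have hE : A.addEnergy A = ∑ s ∈ A + A, r s ^ 2 := by
    rw [Finset.addEnergy_eq_sum_sq']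
  have h1 : ((A ×ˢ A ×ˢ A ×ˢ A).filter fun x => x.1 + x.2.1 - x.2.2.1 - x.2.2.2 = z).card ≤
      ∑ s ∈ A + A, r s * r (s - z) := by
    rw [Finset.card_eq_sum_card_fiberwise (f := fun x : G × G × G × G => x.1 + x.2.1)
      (t := A + A) (fun x hx => by
        rw [Finset.mem_coe, Finset.mem_filter, Finset.mem_product, Finset.mem_product] at hx
        exact Finset.add_mem_add hx.1.1 hx.1.2.1)]
    refine Finset.sum_le_sum fun s _ => ?_
    simp only [hr]
    rw [← Finset.card_product]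
    refine Finset.card_le_card_of_injOn (fun x => ((x.1, x.2.1), (x.2.2.1, x.2.2.2))) ?_ ?_
    · intro x hx
      rw [Finset.mem_coe, Finset.mem_filter, Finset.mem_filter, Finset.mem_product,
        Finset.mem_product, Finset.mem_product] at hx
      obtain ⟨⟨⟨a1, a2, a3, a4⟩, h2⟩, h3⟩ := hx
      rw [Finset.mem_coe, Finset.mem_product, Finset.mem_filter, Finset.mem_filter,
        Finset.mem_product, Finset.mem_product]
      refine ⟨⟨⟨a1, a2⟩, h3⟩, ⟨a3, a4⟩, ?_⟩
      show x.2.2.1 + x.2.2.2 = s - z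
      rw [← h3, ← h2]
      abel
    · intro x _ y _ hxy
      simp only [Prod.mk.injEq] at hxy
      obtain ⟨⟨e1, e2⟩, e3, e4⟩ := hxy
      exact Prod.ext e1 (Prod.ext e2 (Prod.ext e3 e4))
  have h2 : ∑ s ∈ A + A, r (s - z) ^ 2 ≤ ∑ s ∈ A + A, r s ^ 2 := by
    have e : ∑ s ∈ A + A, r (s - z) ^ 2 = ∑ s ∈ (A + A).image (fun s => s - z), r s ^ 2 := by
      rw [Finset.sum_image]
      intro x _ y _ hxy
      exact sub_left_injective hxy
    rw [e]
    refine Finset.sum_le_sum_of_ne_zero fun s _ hs => ?_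
    by_contra hcon
    apply hs
    have : r s = 0 := by
      simp only [hr]
      rw [Finset.card_eq_zero, Finset.filter_eq_empty_iff]
      intro p hp hps
      rw [Finset.mem_product] at hp
      exact hcon (hps ▸ Finset.add_mem_add hp.1 hp.2)
    rw [this]
    rfl
  have h3 : 2 * ∑ s ∈ A + A, r s * r (s - z) ≤ ∑ s ∈ A + A, r s ^ 2 + ∑ s ∈ A + A, r (s - z) ^ 2 := by
    rw [Finset.mul_sum, ← Finset.sum_add_distrib]
    refine Finset.sum_le_sum fun s _ => ?_
    have := two_mul_le_add_sq (r s) (r (s - z))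
    linarith
  omega

/-- fibres of quadruples -/
lemma quad_fibres {ι G : Type*} [Fintype ι] [DecidableEq ι] [DecidableEq G] (R : ι → G) (n : ℕ)
    (hR : ∀ a, ((Finset.univ : Finset ι).filter fun i => R i = a).card ≤ n)
    (T : Finset (ι × ι × ι × ι)) :
    T.card ≤ n ^ 4 * (T.image fun x => (R x.1, R x.2.1, R x.2.2.1, R x.2.2.2)).card := by
  refine Finset.card_le_mul_card_image _ _ fun b _ => ?_
  have hsub : (T.filter fun x => (R x.1, R x.2.1, R x.2.2.1, R x.2.2.2) = b) ⊆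
      ((Finset.univ : Finset ι).filter fun i => R i = b.1) ×ˢ
      ((Finset.univ : Finset ι).filter fun i => R i = b.2.1) ×ˢ
      ((Finset.univ : Finset ι).filter fun i => R i = b.2.2.1) ×ˢ
      ((Finset.univ : Finset ι).filter fun i => R i = b.2.2.2) := by
    intro x hx
    have h2 := (Finset.mem_filter.1 hx).2
    simp only [Finset.mem_product, Finset.mem_filter, Finset.mem_univ, true_and]
    rw [← h2]
    exact ⟨rfl, rfl, rfl, rfl⟩
  refine (Finset.card_le_card hsub).trans ?_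
  rw [Finset.card_product, Finset.card_product, Finset.card_product]
  calc _ ≤ n * (n * (n * n)) := Nat.mul_le_mul (hR _) (Nat.mul_le_mul (hR _)
        (Nat.mul_le_mul (hR _) (hR _)))
    _ = n ^ 4 := by ring

lemma lat_sub {d : ℕ} {ρ : ℝ} {x y : Vec d} (hx : Lat ρ x) (hy : Lat ρ y) : Lat ρ (x - y) := by
  intro j
  obtain ⟨n, hn⟩ := hx j
  obtain ⟨m, hm⟩ := hy j
  refine ⟨n - m, ?_⟩
  rw [PiLp.sub_apply, hn, hm]
  push_cast
  ring

/-- lattice pairs near zero -/
lemma lat_zero {d : ℕ} (hd : 1 ≤ d) {δ : ℝ} (hδ : 0 < δ) (F : Finset (Vec d × Vec d))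
    (hF : ∀ p ∈ F, Lat (δ / √(d : ℝ)) p.1 ∧ Lat (δ / √(d : ℝ)) p.2)
    (hz : ∀ p ∈ F, ‖p.1‖ ≤ 5 * δ ∧ ‖p.2‖ ≤ 5 * δ) :
    (F.card : ℝ) ≤ (10 * √(d : ℝ) + 1) ^ d * (10 * √(d : ℝ) + 1) ^ d := by
  classical
  have hd0 : (0 : ℝ) < d := by exact_mod_cast hd
  have hs : 0 < √(d : ℝ) := Real.sqrt_pos.2 hd0
  have hρ0 : 0 < δ / √(d : ℝ) := by positivity
  have e : 5 * √(d : ℝ) * (δ / √(d : ℝ)) = 5 * δ := by field_simp
  have h1 : ((F.image Prod.fst).card : ℝ) ≤ (2 * (5 * √(d : ℝ)) + 1) ^ d := by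
    refine pack _ 0 (δ / √(d : ℝ)) _ hρ0 (by positivity) ?_ ?_
    · intro x hx y hy hxy
      obtain ⟨p, hp, rfl⟩ := Finset.mem_image.1 hx
      obtain ⟨q, hq, rfl⟩ := Finset.mem_image.1 hy
      exact lat_sep hρ0 (hF p hp).1 (hF q hq).1 hxy
    · intro x hx
      obtain ⟨p, hp, rfl⟩ := Finset.mem_image.1 hx
      rw [e, sub_zero]
      exact (hz p hp).1
  have h2 : ((F.image Prod.snd).card : ℝ) ≤ (2 * (5 * √(d : ℝ)) + 1) ^ d := by
    refine pack _ 0 (δ / √(d : ℝ)) _ hρ0 (by positivity) ?_ ?_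
    · intro x hx y hy hxy
      obtain ⟨p, hp, rfl⟩ := Finset.mem_image.1 hx
      obtain ⟨q, hq, rfl⟩ := Finset.mem_image.1 hy
      exact lat_sep hρ0 (hF p hp).2 (hF q hq).2 hxy
    · intro x hx
      obtain ⟨p, hp, rfl⟩ := Finset.mem_image.1 hx
      rw [e, sub_zero]
      exact (hz p hp).2
  have h3 : F.card ≤ (F.image Prod.fst).card * (F.image Prod.snd).card := by
    rw [← Finset.card_product]
    refine Finset.card_le_card fun p hp => ?_
    rw [Finset.mem_product]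
    exact ⟨Finset.mem_image_of_mem _ hp, Finset.mem_image_of_mem _ hp⟩
  have h4 : (F.card : ℝ) ≤ ((F.image Prod.fst).card : ℝ) * ((F.image Prod.snd).card : ℝ) := by
    exact_mod_cast h3
  refine h4.trans ?_
  have e2 : 2 * (5 * √(d : ℝ)) + 1 = 10 * √(d : ℝ) + 1 := by ring
  rw [e2] at h1 h2
  exact mul_le_mul h1 h2 (Nat.cast_nonneg _) (by positivity)

/-- the numerical part -/
lemma numer (N J A' K0 M6 D C ε η δd : ℝ) (m B : ℕ) (hN : 1 ≤ N) (hm : 1 ≤ m)
    (hM6 : 1 ≤ M6) (hD : 0 < D) (hC : 0 < C) (hε : 0 < ε) (hmε : 1 / (m : ℝ) ≤ ε / 2)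
    (hη : η * (10 * B + 1) = ε / 2) (hK0 : K0 = M6 * N ^ η) (hη0 : 0 ≤ η) (hA' : A' ≤ N)
    (hA'0 : 0 < A') (hJ : N ≤ D * K0 * J) (hδ : 0 ≤ δd) :
    1 / (D * C * (2 ^ 22) ^ B * M6 ^ (10 * B + 1)) * δd * N ^ (1 - ε) ≤
      δd * J / (C * ((2 ^ 22 * K0 ^ 10) ^ B * A') ^ (1 / (m : ℝ))) := by
  have hN0 : 0 < N := by linarith
  have hNη : 1 ≤ N ^ η := Real.one_le_rpow hN hη0
  have hK1 : 1 ≤ K0 := by rw [hK0]; nlinarith
  have hK00 : 0 < K0 := by linarith
  have hm0 : (0 : ℝ) < m := by exact_mod_cast hm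
  have hm1 : (1 : ℝ) ≤ m := by exact_mod_cast hm
  set Q : ℝ := (2 ^ 22) ^ B * K0 ^ (10 * B) with hQ
  have hQ1 : 1 ≤ Q := by
    rw [hQ]
    exact one_le_mul_of_one_le_of_one_le (one_le_pow₀ (by norm_num)) (one_le_pow₀ hK1)
  have hQ0 : 0 < Q := by linarith
  have h1 : (2 ^ 22 * K0 ^ 10) ^ B = Q := by rw [hQ, mul_pow, ← pow_mul K0]
  have h2 : ((2 ^ 22 * K0 ^ 10) ^ B * A') ^ (1 / (m : ℝ)) ≤ Q * N ^ (ε / 2) := by
    rw [h1, Real.mul_rpow hQ0.le hA'0.le]
    refine mul_le_mul ?_ ?_ (Real.rpow_nonneg hA'0.le _) hQ0.le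
    · calc Q ^ (1 / (m : ℝ)) ≤ Q ^ (1 : ℝ) := Real.rpow_le_rpow_of_exponent_le hQ1 (by
            rw [div_le_one hm0]; exact hm1)
        _ = Q := Real.rpow_one _
    · calc A' ^ (1 / (m : ℝ)) ≤ N ^ (1 / (m : ℝ)) :=
            Real.rpow_le_rpow hA'0.le hA' (by positivity)
        _ ≤ N ^ (ε / 2) := Real.rpow_le_rpow_of_exponent_le hN hmε
  have h3 : 0 < ((2 ^ 22 * K0 ^ 10) ^ B * A') ^ (1 / (m : ℝ)) := by positivity
  rw [le_div_iff₀ (by positivity)]
  have h4 : K0 ^ (10 * B + 1) = M6 ^ (10 * B + 1) * N ^ (ε / 2) := by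
    rw [hK0, mul_pow, ← Real.rpow_natCast (N ^ η), ← Real.rpow_mul hN0.le]
    congr 2
    rw [← hη]
    push_cast
    ring
  have h5 : N ^ (1 - ε) * (N ^ (ε / 2) * N ^ (ε / 2)) = N := by
    rw [← Real.rpow_add hN0, ← Real.rpow_add hN0]
    have : 1 - ε + (ε / 2 + ε / 2) = 1 := by ring
    rw [this, Real.rpow_one]
  have hJ0 : 0 ≤ J := by
    by_contra hcon
    have : D * K0 * J < 0 := mul_neg_of_pos_of_neg (by positivity) (not_le.1 hcon)
    linarith
  have hDM : 0 < D * C * (2 ^ 22) ^ B * M6 ^ (10 * B + 1) := by positivity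
  calc 1 / (D * C * (2 ^ 22) ^ B * M6 ^ (10 * B + 1)) * δd * N ^ (1 - ε) *
        (C * ((2 ^ 22 * K0 ^ 10) ^ B * A') ^ (1 / (m : ℝ)))
      ≤ 1 / (D * C * (2 ^ 22) ^ B * M6 ^ (10 * B + 1)) * δd * N ^ (1 - ε) *
        (C * (Q * N ^ (ε / 2))) := by
        refine mul_le_mul_of_nonneg_left (mul_le_mul_of_nonneg_left h2 hC.le) ?_
        have := Real.rpow_nonneg hN0.le (1 - ε)
        positivity
    _ = δd * (1 / (D * C * (2 ^ 22) ^ B * M6 ^ (10 * B + 1)) * C * Q *
          (N ^ (1 - ε) * N ^ (ε / 2))) := by ring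
    _ ≤ δd * J := by
        refine mul_le_mul_of_nonneg_left ?_ hδ
        have h6 : D * K0 * (1 / (D * C * (2 ^ 22) ^ B * M6 ^ (10 * B + 1)) * C * Q *
          (N ^ (1 - ε) * N ^ (ε / 2))) = N := by
          have e : D * K0 * (1 / (D * C * (2 ^ 22) ^ B * M6 ^ (10 * B + 1)) * C * Q *
            (N ^ (1 - ε) * N ^ (ε / 2))) = (D * C * (2 ^ 22) ^ B * (K0 ^ (10 * B + 1))) /
            (D * C * (2 ^ 22) ^ B * M6 ^ (10 * B + 1)) * (N ^ (1 - ε) * N ^ (ε / 2)) := by
            rw [hQ, pow_succ]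
            ring
          rw [e, h4]
          have hM0 : M6 ^ (10 * B + 1) ≠ 0 := by positivity
          have e2 : (D * C * (2 ^ 22) ^ B * (M6 ^ (10 * B + 1) * N ^ (ε / 2))) /
            (D * C * (2 ^ 22) ^ B * M6 ^ (10 * B + 1)) = N ^ (ε / 2) := by
            rw [div_eq_iff hDM.ne']
            ring
          rw [e2]
          linarith [h5, (by ring : N ^ (1 - ε) * (N ^ (ε / 2) * N ^ (ε / 2)) =
            N ^ (ε / 2) * (N ^ (1 - ε) * N ^ (ε / 2)))]
        have h7 : D * K0 * (1 / (D * C * (2 ^ 22) ^ B * M6 ^ (10 * B + 1)) * C * Q *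
          (N ^ (1 - ε) * N ^ (ε / 2))) ≤ D * K0 * J := by rw [h6]; exact hJ
        exact le_of_mul_le_mul_left h7 (by positivity)

theorem main (hU : S_unionA) : S_energy := by
  classical
  intro d hd S ε hS hε hε1
  obtain ⟨m0, hm0⟩ := exists_nat_ge (2 / ε)
  set m : ℕ := m0 + 1 with hm
  have hm1 : 1 ≤ m := by omega
  have hmε : 1 / (m : ℝ) ≤ ε / 2 := by
    have h1 : 2 / ε ≤ (m : ℝ) := by
      rw [hm]; push_cast; linarith
    rw [div_le_iff₀ hε] at h1
    rw [div_le_iff₀ (by exact_mod_cast hm1)]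
    linarith
  obtain ⟨C, B, hC, hmain⟩ := hU d m hd hm1 (5 ^ d) S (one_le_pow₀ (by norm_num)) hS
  set M5 : ℝ := (10 * √(d : ℝ) + 1) ^ d * (10 * √(d : ℝ) + 1) ^ d with hM5
  have hM51 : 1 ≤ M5 := by
    have : 1 ≤ (10 * √(d : ℝ) + 1) ^ d := one_le_pow₀ (by
      have := Real.sqrt_nonneg (d : ℝ)
      linarith)
    rw [hM5]
    nlinarith
  set M6 : ℝ := M5 * ((3 : ℝ) ^ d) ^ 4 with hM6
  have h31 : (1 : ℝ) ≤ 3 ^ d := one_le_pow₀ (by norm_num)
  have hM61 : 1 ≤ M6 := by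
    have : (1 : ℝ) ≤ ((3 : ℝ) ^ d) ^ 4 := one_le_pow₀ h31
    rw [hM6]
    nlinarith
  set η : ℝ := ε / (2 * (10 * B + 1)) with hη
  have hη0 : 0 < η := by positivity
  have hηB : η * (10 * B + 1) = ε / 2 := by
    rw [hη]; field_simp
  refine ⟨η, 1 / (3 ^ d * 8 * C * (2 ^ 22) ^ B * M6 ^ (10 * B + 1)), hη0, by positivity, ?_⟩
  intro δ hδ hδ1 ι _ v c h hv hh hsep hen
  rcases isEmpty_or_nonempty ι with hemp | hne
  · have h0 : (Fintype.card ι : ℝ) = 0 := by
      rw [Fintype.card_eq_zero]; simp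
    rw [h0, Real.zero_rpow (by linarith), mul_zero, ENNReal.ofReal_zero]
    exact zero_le
  have hN1 : (1 : ℝ) ≤ Fintype.card ι := by exact_mod_cast Fintype.card_pos
  set N : ℝ := (Fintype.card ι : ℝ) with hN
  set ρ : ℝ := δ / √(d : ℝ) with hρ
  set β : ι → Vec d := fun i => c i - h i • v i with hβ
  set R : ι → Vec d × Vec d := fun i => (rd ρ (v i), rd ρ (β i)) with hR
  set A : Finset (Vec d × Vec d) := Finset.univ.image R with hA
  have hsep' : ∀ i j, i ≠ j → δ ≤ ‖v i - v j‖ := fun i j hij => (hsep i j hij).trans (dir_sub_le _ _)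
  have hR1 : ∀ i, ‖v i - (R i).1‖ ≤ δ := fun i => rd_close hd hδ _
  have hR2 : ∀ i, ‖β i - (R i).2‖ ≤ δ := fun i => rd_close hd hδ _
  -- a packing lemma for slopes
  have hslope : ∀ (T : Finset ι) (v₀ : Vec d) (r : ℝ), 0 ≤ r → (∀ i ∈ T, ‖v i - v₀‖ ≤ r * δ) →
      (T.card : ℝ) ≤ (2 * r + 1) ^ d := by
    intro T v₀ r hr hT'
    have hinj : Set.InjOn v T := by
      intro i _ j _ hij
      by_contra hne
      have := hsep' i j hne
      rw [hij, sub_self, norm_zero] at this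
      linarith
    rw [← Finset.card_image_of_injOn hinj]
    refine pack _ v₀ δ r hδ hr ?_ ?_
    · intro x hx y hy hxy
      obtain ⟨i, _, rfl⟩ := Finset.mem_image.1 hx
      obtain ⟨j, _, rfl⟩ := Finset.mem_image.1 hy
      exact hsep' i j fun hij => hxy (by rw [hij])
    · intro x hx
      obtain ⟨i, hi, rfl⟩ := Finset.mem_image.1 hx
      exact hT' i hi
  have hfib : ∀ p, ((Finset.univ : Finset ι).filter fun i => R i = p).card ≤ 3 ^ d := by
    intro p
    have h2 : (((Finset.univ : Finset ι).filter fun i => R i = p).card : ℝ) ≤ (2 * 1 + 1) ^ d := by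
      refine hslope _ p.1 1 zero_le_one fun i hi => ?_
      have hi' : R i = p := (Finset.mem_filter.1 hi).2
      rw [← hi', one_mul]
      exact hR1 i
    have h3 : (((Finset.univ : Finset ι).filter fun i => R i = p).card : ℝ) ≤
        ((3 ^ d : ℕ) : ℝ) := by
      refine h2.trans (le_of_eq ?_)
      push_cast
      norm_num
    exact_mod_cast h3
  -- (a)
  have ha : N ≤ 3 ^ d * A.card := by
    have h1 : (Finset.univ : Finset ι).card ≤ 3 ^ d * A.card :=
      Finset.card_le_mul_card_image _ _ fun p _ => hfib p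
    rw [Finset.card_univ] at h1
    rw [hN]
    exact_mod_cast h1
  have haN : (A.card : ℝ) ≤ N := by
    have : A.card ≤ (Finset.univ : Finset ι).card := Finset.card_image_le
    rw [Finset.card_univ] at this
    rw [hN]
    exact_mod_cast this
  have hAne : A.Nonempty := Finset.univ_nonempty.image _
  -- (b) the energy
  set T : Finset (ι × ι × ι × ι) := Finset.univ.filter fun x =>
    ‖v x.1 + v x.2.1 - v x.2.2.1 - v x.2.2.2‖ ≤ δ ∧
    ‖β x.1 + β x.2.1 - β x.2.2.1 - β x.2.2.2‖ ≤ δ with hT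
  have hTe : energy δ v c h = T.card := by
    rw [energy, ← Set.ncard_coe_finset]
    congr 1
    ext x
    rw [hT, Finset.coe_filter]
    simp only [Set.mem_ofPred_eq, Finset.mem_univ, true_and, hβ]
  set T2 : Finset ((Vec d × Vec d) × (Vec d × Vec d) × (Vec d × Vec d) × (Vec d × Vec d)) :=
    T.image fun x => (R x.1, R x.2.1, R x.2.2.1, R x.2.2.2) with hT2
  have hq : T.card ≤ (3 ^ d) ^ 4 * T2.card := by
    have := quad_fibres R (3 ^ d) hfib T
    exact this.trans (le_of_eq (congrArg (fun n => (3 ^ d) ^ 4 * n) (card_image_inst _ _ _ _)))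
  set zf : (Vec d × Vec d) × (Vec d × Vec d) × (Vec d × Vec d) × (Vec d × Vec d) → Vec d × Vec d :=
    fun x => x.1 + x.2.1 - x.2.2.1 - x.2.2.2 with hzf
  set Z : Finset (Vec d × Vec d) := T2.image zf with hZ
  have hZc : (Z.card : ℝ) ≤ M5 := by
    refine lat_zero hd hδ Z ?_ ?_
    · intro p hp
      obtain ⟨y, hy, rfl⟩ := Finset.mem_image.1 hp
      obtain ⟨x, hx, rfl⟩ := Finset.mem_image.1 hy
      exact ⟨lat_sub (lat_sub (lat_add (lat_rd _ _) (lat_rd _ _)) (lat_rd _ _)) (lat_rd _ _),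
        lat_sub (lat_sub (lat_add (lat_rd _ _) (lat_rd _ _)) (lat_rd _ _)) (lat_rd _ _)⟩
    · intro p hp
      obtain ⟨y, hy, rfl⟩ := Finset.mem_image.1 hp
      obtain ⟨x, hx, rfl⟩ := Finset.mem_image.1 hy
      obtain ⟨-, hx1, hx2⟩ := Finset.mem_filter.1 hx
      have key : ∀ (a b c' d' a' b' c'' d'' : Vec d), ‖a + b - c' - d'‖ ≤ δ → ‖a - a'‖ ≤ δ →
          ‖b - b'‖ ≤ δ → ‖c' - c''‖ ≤ δ → ‖d' - d''‖ ≤ δ → ‖a' + b' - c'' - d''‖ ≤ 5 * δ := by
        intro a b c' d' a' b' c'' d'' h1 h2 h3 h4 h5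
        have e : a' + b' - c'' - d'' = (a + b - c' - d') - (a - a') - (b - b') + (c' - c'') +
          (d' - d'') := by abel
        rw [e]
        have n1 := norm_add_le ((a + b - c' - d') - (a - a') - (b - b') + (c' - c'')) (d' - d'')
        have n2 := norm_add_le ((a + b - c' - d') - (a - a') - (b - b')) (c' - c'')
        have n3 := norm_sub_le ((a + b - c' - d') - (a - a')) (b - b')
        have n4 := norm_sub_le (a + b - c' - d') (a - a')
        linarith
      exact ⟨key _ _ _ _ _ _ _ _ hx1 (hR1 _) (hR1 _) (hR1 _) (hR1 _),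
        key _ _ _ _ _ _ _ _ hx2 (hR2 _) (hR2 _) (hR2 _) (hR2 _)⟩
  have hT2c : T2.card ≤ Z.card * A.addEnergy A := by
    rw [mul_comm]
    refine Finset.card_le_mul_card_image _ _ fun z _ => ?_
    refine le_trans (Finset.card_le_card ?_) (shift_energy A z)
    intro y hy
    obtain ⟨hy1, hy2⟩ := Finset.mem_filter.1 hy
    obtain ⟨x, hx, rfl⟩ := Finset.mem_image.1 hy1
    rw [Finset.mem_filter, Finset.mem_product, Finset.mem_product, Finset.mem_product]
    have hm' : ∀ i, R i ∈ A := fun i => Finset.mem_image_of_mem _ (Finset.mem_univ _)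
    exact ⟨⟨hm' _, hm' _, hm' _, hm' _⟩, hy2⟩
  set K0 : ℝ := M6 * N ^ η with hK0
  have hNη : 1 ≤ N ^ η := Real.one_le_rpow hN1 hη0.le
  have hK01 : 1 ≤ K0 := by rw [hK0]; nlinarith
  have hE : (A.card : ℝ) ^ 3 ≤ K0 * (A.addEnergy A : ℕ) := by
    have h1 : (T.card : ℝ) ≤ ((3 : ℝ) ^ d) ^ 4 * (T2.card : ℝ) := by exact_mod_cast hq
    have h2 : (T2.card : ℝ) ≤ Z.card * (A.addEnergy A : ℕ) := by exact_mod_cast hT2c
    have h3 : (Z.card : ℝ) * (A.addEnergy A : ℕ) ≤ M5 * (A.addEnergy A : ℕ) :=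
      mul_le_mul_of_nonneg_right hZc (Nat.cast_nonneg _)
    have h4 : (T.card : ℝ) ≤ M6 * (A.addEnergy A : ℕ) := by
      calc (T.card : ℝ) ≤ ((3 : ℝ) ^ d) ^ 4 * (T2.card : ℝ) := h1
        _ ≤ ((3 : ℝ) ^ d) ^ 4 * (M5 * (A.addEnergy A : ℕ)) :=
          mul_le_mul_of_nonneg_left (h2.trans h3) (by positivity)
        _ = _ := by rw [hM6]; ring
    rw [hTe] at hen
    have h5 : N ^ (3 : ℝ) = N ^ η * N ^ (3 - η) := by
      rw [← Real.rpow_add (by linarith)]
      congr 1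
      ring
    calc (A.card : ℝ) ^ 3 ≤ N ^ 3 := pow_le_pow_left₀ (Nat.cast_nonneg _) haN 3
      _ = N ^ (3 : ℝ) := by rw [← Real.rpow_natCast]; norm_num
      _ = N ^ η * N ^ (3 - η) := h5
      _ ≤ N ^ η * (M6 * (A.addEnergy A : ℕ)) :=
        mul_le_mul_of_nonneg_left (hen.trans h4) (by linarith)
      _ = _ := by rw [hK0]; ring
  obtain ⟨A', hA'A, hA'ne, hb1, hb2⟩ := Pool.Agent.H217R3.AK.bsg A hAne K0 (by linarith) hE
  have hA'0 : (0 : ℝ) < A'.card := by exact_mod_cast hA'ne.card_pos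
  have hA'N : (A'.card : ℝ) ≤ N :=
    le_trans (by exact_mod_cast Finset.card_le_card hA'A) haN
  set J : Finset ι := Finset.univ.filter fun i => R i ∈ A' with hJ
  have hJA : (A'.card : ℝ) ≤ J.card := by
    have : A' ⊆ J.image R := by
      intro p hp
      obtain ⟨i, _, rfl⟩ := Finset.mem_image.1 (hA'A hp)
      exact Finset.mem_image_of_mem _ (Finset.mem_filter.2 ⟨Finset.mem_univ _, hp⟩)
    exact_mod_cast (Finset.card_le_card this).trans Finset.card_image_le
  -- slopes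
  have hsl : Slopes ((5 : ℝ) ^ d) δ A' := by
    intro F hF hv0
    obtain ⟨v₀, hv0⟩ := hv0
    have hch : ∀ p : Vec d × Vec d, p ∈ F → ∃ i, R i = p := by
      intro p hp
      obtain ⟨i, _, hi⟩ := Finset.mem_image.1 (hA'A (hF hp))
      exact ⟨i, hi⟩
    rcases F.eq_empty_or_nonempty with rfl | hne
    · simp only [Finset.card_empty, Nat.cast_zero]
      positivity
    · obtain ⟨p0, hp0⟩ := hne
      obtain ⟨i0, hi0⟩ := hch p0 hp0
      let g : Vec d × Vec d → ι := fun p => if hp : p ∈ F then (hch p hp).choose else i0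
      have hg : ∀ p ∈ F, R (g p) = p := by
        intro p hp
        simp only [g, dif_pos hp]
        exact (hch p hp).choose_spec
      have hginj : Set.InjOn g F := by
        intro p hp q hq hpq
        rw [← hg p hp, ← hg q hq, hpq]
      have h5 : ((F.image g).card : ℝ) ≤ (2 * 2 + 1) ^ d := by
        refine hslope _ v₀ 2 zero_le_two fun i hi => ?_
        obtain ⟨p, hp, rfl⟩ := Finset.mem_image.1 hi
        have e : v (g p) - v₀ = (v (g p) - (R (g p)).1) + (p.1 - v₀) := by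
          rw [hg p hp]; abel
        rw [e]
        have := norm_add_le (v (g p) - (R (g p)).1) (p.1 - v₀)
        linarith [hR1 (g p), hv0 p hp]
      rw [Finset.card_image_of_injOn hginj] at h5
      refine h5.trans (le_of_eq ?_)
      norm_num
  have h51 : (1 : ℝ) ≤ 5 ^ d := one_le_pow₀ (by norm_num)
  have hK1 : (1 : ℝ) ≤ 2 ^ 22 * K0 ^ 10 := by
    exact one_le_mul_of_one_le_of_one_le (by norm_num) (one_le_pow₀ hK01)
  have h5δ : δ ≤ 5 ^ d * δ := le_mul_of_one_le_left hδ.le h51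
  have hfin := hmain δ (2 ^ 22 * K0 ^ 10) hδ hδ1 hK1 A' hA'ne (le_trans
      (le_of_eq (congrArg (Nat.cast : ℕ → ℝ) (card_sub_inst _ _ A' A'))) hb2) hsl {i // i ∈ J} (fun i => v i) (fun i => c i)
    (fun i => h i) (fun i => hv i) (fun i => hh i) (fun i j hij => hsep i j fun he => hij (Subtype.ext he))
    (fun i => by
      refine ⟨R i, (Finset.mem_filter.1 i.2).2, ?_, ?_⟩
      · exact (hR1 i).trans h5δ
      · exact (hR2 i).trans h5δ)
  have hsub : (⋃ i : {i // i ∈ J}, tube δ (dir (v i)) (WithLp.toLp 2 (c i, h i))) ⊆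
      ⋃ i, tube δ (dir (v i)) (WithLp.toLp 2 (c i, h i)) :=
    iUnion_subset fun i => subset_iUnion
      (fun i => tube δ (dir (v i)) (WithLp.toLp 2 (c i, h i))) i.1
  refine le_trans (ENNReal.ofReal_le_ofReal ?_) (hfin.trans (measure_mono hsub))
  rw [Fintype.card_coe]
  have hJN : N ≤ 3 ^ d * 8 * K0 * J.card := by
    calc N ≤ 3 ^ d * A.card := ha
      _ ≤ 3 ^ d * (8 * K0 * A'.card) := mul_le_mul_of_nonneg_left hb1 (by positivity)
      _ ≤ 3 ^ d * (8 * K0 * J.card) := mul_le_mul_of_nonneg_left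
          (mul_le_mul_of_nonneg_left hJA (by linarith)) (by positivity)
      _ = _ := by ring
  exact numer N J.card A'.card K0 M6 (3 ^ d * 8) C ε η (δ ^ d) m B hN1 hm1 hM61 (by positivity) hC
    hε hmε hηB hK0 hη0.le hA'N hA'0 hJN (by positivity)

end Pool.Agent.N3.ST.R
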