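import Pool.Agent.N3.ST.Stm
import Pool.Agent.H810R3.Tub.Main

/-!
# Project ST (helper3): statements about tubes
-/

set_option autoImplicit false

open MeasureTheory Set
open scoped Pointwise

namespace Pool.Agent.N3.ST

open Pool.Agent.H810R3.Tub (Space tube dir)

/-- The sum of the indicators of the tubes with slopes `v i` and centres `(c i, h i)`. -/
noncomputable def tsum {d : ℕ} {ι : Type} [Fintype ι] (δ : ℝ) (v c : ι → Vec d) (h : ι → ℝ)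
    (y : Space d) : ℝ :=
  ∑ i, (tube δ (dir (v i)) (WithLp.toLp 2 (c i, h i))).indicator (fun _ => (1 : ℝ)) y

/-- ST/I: the estimates for tubes near the lines of a set of bounded doubling. -/
def S_tube : Prop := ∀ (d : ℕ), 1 ≤ d → ∀ (K ε : ℝ), 1 ≤ K → 0 < ε → ∃ C : ℝ, 0 < C ∧
  ∀ (δ : ℝ), 0 < δ → δ < 1 → ∀ (A : Finset (Vec d × Vec d)),
  ((A + A).card : ℝ) ≤ K * (A.card : ℝ) →
  (∀ F : Finset (Vec d × Vec d), F ⊆ A → (∃ v₀ : Vec d, ∀ p ∈ F, ‖p.1 - v₀‖ ≤ δ) →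
    (F.card : ℝ) ≤ K) →
  ∀ (ι : Type) [Fintype ι] (v c : ι → Vec d) (h : ι → ℝ), (∀ i, ‖v i‖ ≤ 1) →
  (∀ i j, i ≠ j → δ ≤ ‖dir (v i) - dir (v j)‖) →
  (∀ i, ∃ p ∈ A, ‖v i - p.1‖ ≤ K * δ ∧ ‖c i - (p.2 + h i • p.1)‖ ≤ K * δ) →
  (∀ q : ℝ, ((d : ℝ) + 1) / d ≤ q → eLpNorm (tsum δ v c h) (ENNReal.ofReal q) volume ≤
    ENNReal.ofReal (C * δ ^ ((d : ℝ) / q) * (Fintype.card ι : ℝ) ^ (1 - 1 / (q * d) + ε))) ∧
  (∀ τ lam : ℝ, 1 ≤ lam → volume {t ∈ Ico (τ - 1) (τ + 1) | ∃ x : Vec d,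
    lam ≤ tsum δ v c h (WithLp.toLp 2 (x, t))} ≤ ENNReal.ofReal (C * lam ^ (-(1 / (d : ℝ)) + ε)))

/-- ST/J: the estimate for every subfamily of a family whose set of parameters (slope, position at
height `0`) has bounded doubling at the scale `δ`. -/
def S_round : Prop := ∀ (d : ℕ), 1 ≤ d → ∀ (K S ε : ℝ), 1 ≤ K → 1 ≤ S → 0 < ε → ∃ C : ℝ, 0 < C ∧
  ∀ (δ : ℝ), 0 < δ → δ < 1 → ∀ (ι : Type) [Fintype ι] (v c : ι → Vec d) (h : ι → ℝ),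
  (∀ i, ‖v i‖ ≤ 1) → (∀ i, |h i| ≤ S) → (∀ i j, i ≠ j → δ ≤ ‖dir (v i) - dir (v j)‖) →
  (∃ Z : Finset (Vec d × Vec d), (Z.card : ℝ) ≤ K * (Fintype.card ι : ℝ) ∧
    ∀ i j, ∃ z ∈ Z, ‖v i + v j - z.1‖ ≤ δ ∧
      ‖(c i - h i • v i) + (c j - h j • v j) - z.2‖ ≤ δ) →
  ∀ J : Finset ι,
  (∀ q : ℝ, ((d : ℝ) + 1) / d ≤ q →
    eLpNorm (fun y => ∑ i ∈ J, (tube δ (dir (v i)) (WithLp.toLp 2 (c i, h i))).indicator
      (fun _ => (1 : ℝ)) y) (ENNReal.ofReal q) volume ≤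
    ENNReal.ofReal (C * δ ^ ((d : ℝ) / q) * (J.card : ℝ) ^ (1 - 1 / (q * d) + ε))) ∧
  (∀ lam : ℝ, 1 ≤ lam → volume {t : ℝ | ∃ x : Vec d,
    lam ≤ ∑ i ∈ J, (tube δ (dir (v i)) (WithLp.toLp 2 (c i, h i))).indicator
      (fun _ => (1 : ℝ)) (WithLp.toLp 2 (x, t))} ≤ ENNReal.ofReal (C * lam ^ (-(1 / (d : ℝ)) + ε)))

end Pool.Agent.N3.ST
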