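import Pool.Agent.N3.ST.Stm3

/-!
# Project ST (helper3): the volume form for boxes with large additive energy (page MP_ac5134_an)
-/

set_option autoImplicit false

open MeasureTheory Set
open scoped Pointwise

namespace Pool.Agent.N3.ST

open Pool.Agent.H810R3.Tub (Space tube dir)

/-- The unit normal `(-2ω, 1)/√(1+4|ω|²)` of the paraboloid at the point over `ω`. -/
noncomputable def nor {d : ℕ} (ω : Vec d) : Space d :=
  (√(1 + ‖-(2 : ℝ) • ω‖ ^ 2))⁻¹ • WithLp.toLp 2 (-(2 : ℝ) • ω, (1:ℝ))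

/-- The box with centre `a`, with one side of length `N²` in the direction `e` and with sides of length
`N` in the directions `f j`. -/
def box {d : ℕ} (N : ℝ) (e : Space d) (f : Fin d → Space d) (a : Space d) : Set (Space d) :=
  {y | |inner ℝ e (y - a)| ≤ N ^ 2 / 2 ∧ ∀ j, |inner ℝ (f j) (y - a)| ≤ N / 2}

/-- The centre, at the height `s`, of the translate of the box at `ω` with the position `β`. -/
def centre {d : ℕ} (ω β : Vec d) (s : ℝ) : Space d := WithLp.toLp 2 (β + s • (-(2 : ℝ) • ω), s)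

/-- Energy of the pairs (cap, position) at the scale (`1/N`, `N`). -/
noncomputable def boxEnergy {d : ℕ} {ι : Type} (N : ℝ) (ω β : ι → Vec d) : ℕ :=
  Set.ncard {x : ι × ι × ι × ι | ‖ω x.1 + ω x.2.1 - ω x.2.2.1 - ω x.2.2.2‖ ≤ 1 / N ∧
    ‖β x.1 + β x.2.1 - β x.2.2.1 - β x.2.2.2‖ ≤ N}

/-- ST/T: the volume form for boxes with large additive energy. -/
def S_boxenergy : Prop := ∀ (d : ℕ), 1 ≤ d → ∀ (σ S ε : ℝ), 0 < σ → σ ≤ 1 → 1 ≤ S → 0 < ε → ε < 1 →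
  ∃ η c₀ : ℝ, 0 < η ∧ 0 < c₀ ∧ ∀ (N : ℝ), 1 ≤ N → ∀ (ι : Type) [Fintype ι] (ω β : ι → Vec d)
  (s : ι → ℝ) (f : ι → Fin d → Space d), (∀ i, ‖ω i‖ ≤ 1) →
  (∀ i j, i ≠ j → σ / N ≤ ‖ω i - ω j‖) →
  (∀ i, Orthonormal ℝ (Fin.cons (nor (ω i)) (f i) : Fin (d + 1) → Space d)) →
  (∀ i, |s i| ≤ S * N ^ 2) → (Fintype.card ι : ℝ) ^ (3 - η) ≤ (boxEnergy N ω β : ℝ) →
  ENNReal.ofReal (c₀ * N ^ (d + 2) * (Fintype.card ι : ℝ) ^ (1 - ε)) ≤
    volume (⋃ i, box N (nor (ω i)) (f i) (centre (ω i) (β i) (s i)))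

end Pool.Agent.N3.ST
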