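import Pool.Agent.N3.ST.Stm4
import Pool.Agent.N3.ST.P
import Pool.Agent.N3.ST.Q
import Pool.Agent.N3.ST.R
import Pool.Agent.H810R3.Tub.Box

/-!
# Project ST, job T: unions of boxes with large additive energy (helper692)
-/

set_option autoImplicit false

open MeasureTheory Set
open scoped Pointwise

namespace Pool.Agent.N3.ST.T

open Pool.Agent.N3.ST Pool.Agent.N3.ST.J Pool.Agent.N3.ST.R
open Pool.Agent.H810R3.Tub (Space tube dir dir_sub_le tube_eq scl scl_add scl_smul scl_sub norm_space_sq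
  norm_dir)

/-- lattice pairs near zero, with a general radius -/
lemma latR_zero {d : ℕ} (hd : 1 ≤ d) {δ : ℝ} (hδ : 0 < δ) (R1 : ℝ) (hR1 : 0 ≤ R1)
    (F : Finset (Vec d × Vec d))
    (hF : ∀ p ∈ F, Lat (δ / √(d : ℝ)) p.1 ∧ Lat (δ / √(d : ℝ)) p.2)
    (hz : ∀ p ∈ F, ‖p.1‖ ≤ R1 * δ ∧ ‖p.2‖ ≤ R1 * δ) :
    (F.card : ℝ) ≤ (2 * (R1 * √(d : ℝ)) + 1) ^ d * (2 * (R1 * √(d : ℝ)) + 1) ^ d := by
  classical
  have hd0 : (0 : ℝ) < d := by exact_mod_cast hd
  have hs : 0 < √(d : ℝ) := Real.sqrt_pos.2 hd0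
  have hρ0 : 0 < δ / √(d : ℝ) := by positivity
  have e : R1 * √(d : ℝ) * (δ / √(d : ℝ)) = R1 * δ := by field_simp
  have h1 : ((F.image Prod.fst).card : ℝ) ≤ (2 * (R1 * √(d : ℝ)) + 1) ^ d := by
    refine pack _ 0 (δ / √(d : ℝ)) _ hρ0 (by positivity) ?_ ?_
    · intro x hx y hy hxy
      obtain ⟨p, hp, rfl⟩ := Finset.mem_image.1 hx
      obtain ⟨q, hq, rfl⟩ := Finset.mem_image.1 hy
      exact lat_sep hρ0 (hF p hp).1 (hF q hq).1 hxy
    · intro x hx
      obtain ⟨p, hp, rfl⟩ := Finset.mem_image.1 hx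
      rw [e, sub_zero]
      exact (hz p hp).1
  have h2 : ((F.image Prod.snd).card : ℝ) ≤ (2 * (R1 * √(d : ℝ)) + 1) ^ d := by
    refine pack _ 0 (δ / √(d : ℝ)) _ hρ0 (by positivity) ?_ ?_
    · intro x hx y hy hxy
      obtain ⟨p, hp, rfl⟩ := Finset.mem_image.1 hx
      obtain ⟨q, hq, rfl⟩ := Finset.mem_image.1 hy
      exact lat_sep hρ0 (hF p hp).2 (hF q hq).2 hxy
    · intro x hx
      obtain ⟨p, hp, rfl⟩ := Finset.mem_image.1 hx
      rw [e, sub_zero]
      exact (hz p hp).2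
  have h3 : F.card ≤ (F.image Prod.fst).card * (F.image Prod.snd).card := by
    rw [← Finset.card_product]
    refine Finset.card_le_card fun p hp => ?_
    rw [Finset.mem_product]
    exact ⟨Finset.mem_image_of_mem _ hp, Finset.mem_image_of_mem _ hp⟩
  have h4 : (F.card : ℝ) ≤ ((F.image Prod.fst).card : ℝ) * ((F.image Prod.snd).card : ℝ) := by
    exact_mod_cast h3
  refine h4.trans ?_
  exact mul_le_mul h1 h2 (Nat.cast_nonneg _) (by positivity)

/-- `R.main` with the energy at the scale `R0 * δ`. -/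
theorem gen (hU : S_unionA) (d : ℕ) (hd : 1 ≤ d) (S ε R0 : ℝ) (hS : 1 ≤ S) (hε : 0 < ε) (hε1 : ε < 1)
    (hR0 : 1 ≤ R0) : ∃ η c₀ : ℝ, 0 < η ∧ 0 < c₀ ∧
    ∀ (δ : ℝ), 0 < δ → δ < 1 → ∀ (ι : Type) [Fintype ι] (v c : ι → Vec d) (h : ι → ℝ),
    (∀ i, ‖v i‖ ≤ 1) → (∀ i, |h i| ≤ S) → (∀ i j, i ≠ j → δ ≤ ‖dir (v i) - dir (v j)‖) →
    (Fintype.card ι : ℝ) ^ (3 - η) ≤ ((Set.ncard {x : ι × ι × ι × ι |
      ‖v x.1 + v x.2.1 - v x.2.2.1 - v x.2.2.2‖ ≤ R0 * δ ∧
      ‖(c x.1 - h x.1 • v x.1) + (c x.2.1 - h x.2.1 • v x.2.1) -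
        (c x.2.2.1 - h x.2.2.1 • v x.2.2.1) - (c x.2.2.2 - h x.2.2.2 • v x.2.2.2)‖ ≤ R0 * δ} : ℕ) : ℝ) →
    ENNReal.ofReal (c₀ * δ ^ d * (Fintype.card ι : ℝ) ^ (1 - ε)) ≤
      volume (⋃ i, tube δ (dir (v i)) (WithLp.toLp 2 (c i, h i))) := by
  classical
  obtain ⟨m0, hm0⟩ := exists_nat_ge (2 / ε)
  set m : ℕ := m0 + 1 with hm
  have hm1 : 1 ≤ m := by omega
  have hmε : 1 / (m : ℝ) ≤ ε / 2 := by
    have h1 : 2 / ε ≤ (m : ℝ) := by
      rw [hm]; push_cast; linarith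
    rw [div_le_iff₀ hε] at h1
    rw [div_le_iff₀ (by exact_mod_cast hm1)]
    linarith
  obtain ⟨C, B, hC, hmain⟩ := hU d m hd hm1 (5 ^ d) S (one_le_pow₀ (by norm_num)) hS
  set M5 : ℝ := (2 * ((R0 + 4) * √(d : ℝ)) + 1) ^ d * (2 * ((R0 + 4) * √(d : ℝ)) + 1) ^ d with hM5
  have hM51 : 1 ≤ M5 := by
    have : 1 ≤ (2 * ((R0 + 4) * √(d : ℝ)) + 1) ^ d := one_le_pow₀ (by
      have h0 := Real.sqrt_nonneg (d : ℝ)
      have h1 : 0 ≤ (R0 + 4) * √(d : ℝ) := mul_nonneg (by linarith) h0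
      linarith)
    rw [hM5]
    nlinarith
  set M6 : ℝ := M5 * ((3 : ℝ) ^ d) ^ 4 with hM6
  have h31 : (1 : ℝ) ≤ 3 ^ d := one_le_pow₀ (by norm_num)
  have hM61 : 1 ≤ M6 := by
    have : (1 : ℝ) ≤ ((3 : ℝ) ^ d) ^ 4 := one_le_pow₀ h31
    rw [hM6]
    nlinarith
  set η : ℝ := ε / (2 * (10 * B + 1)) with hη
  have hη0 : 0 < η := by positivity
  have hηB : η * (10 * B + 1) = ε / 2 := by
    rw [hη]; field_simp
  refine ⟨η, 1 / (3 ^ d * 8 * C * (2 ^ 22) ^ B * M6 ^ (10 * B + 1)), hη0, by positivity, ?_⟩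
  intro δ hδ hδ1 ι _ v c h hv hh hsep hen
  rcases isEmpty_or_nonempty ι with hemp | hne
  · have h0 : (Fintype.card ι : ℝ) = 0 := by
      rw [Fintype.card_eq_zero]; simp
    rw [h0, Real.zero_rpow (by linarith), mul_zero, ENNReal.ofReal_zero]
    exact zero_le
  have hN1 : (1 : ℝ) ≤ Fintype.card ι := by exact_mod_cast Fintype.card_pos
  set N : ℝ := (Fintype.card ι : ℝ) with hN
  set ρ : ℝ := δ / √(d : ℝ) with hρ
  set β : ι → Vec d := fun i => c i - h i • v i with hβ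
  set R : ι → Vec d × Vec d := fun i => (rd ρ (v i), rd ρ (β i)) with hR
  set A : Finset (Vec d × Vec d) := Finset.univ.image R with hA
  have hsep' : ∀ i j, i ≠ j → δ ≤ ‖v i - v j‖ := fun i j hij => (hsep i j hij).trans (dir_sub_le _ _)
  have hR1 : ∀ i, ‖v i - (R i).1‖ ≤ δ := fun i => rd_close hd hδ _
  have hR2 : ∀ i, ‖β i - (R i).2‖ ≤ δ := fun i => rd_close hd hδ _
  -- a packing lemma for slopes
  have hslope : ∀ (T : Finset ι) (v₀ : Vec d) (r : ℝ), 0 ≤ r → (∀ i ∈ T, ‖v i - v₀‖ ≤ r * δ) →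
      (T.card : ℝ) ≤ (2 * r + 1) ^ d := by
    intro T v₀ r hr hT'
    have hinj : Set.InjOn v T := by
      intro i _ j _ hij
      by_contra hne
      have := hsep' i j hne
      rw [hij, sub_self, norm_zero] at this
      linarith
    rw [← Finset.card_image_of_injOn hinj]
    refine pack _ v₀ δ r hδ hr ?_ ?_
    · intro x hx y hy hxy
      obtain ⟨i, _, rfl⟩ := Finset.mem_image.1 hx
      obtain ⟨j, _, rfl⟩ := Finset.mem_image.1 hy
      exact hsep' i j fun hij => hxy (by rw [hij])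
    · intro x hx
      obtain ⟨i, hi, rfl⟩ := Finset.mem_image.1 hx
      exact hT' i hi
  have hfib : ∀ p, ((Finset.univ : Finset ι).filter fun i => R i = p).card ≤ 3 ^ d := by
    intro p
    have h2 : (((Finset.univ : Finset ι).filter fun i => R i = p).card : ℝ) ≤ (2 * 1 + 1) ^ d := by
      refine hslope _ p.1 1 zero_le_one fun i hi => ?_
      have hi' : R i = p := (Finset.mem_filter.1 hi).2
      rw [← hi', one_mul]
      exact hR1 i
    have h3 : (((Finset.univ : Finset ι).filter fun i => R i = p).card : ℝ) ≤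
        ((3 ^ d : ℕ) : ℝ) := by
      refine h2.trans (le_of_eq ?_)
      push_cast
      norm_num
    exact_mod_cast h3
  -- (a)
  have ha : N ≤ 3 ^ d * A.card := by
    have h1 : (Finset.univ : Finset ι).card ≤ 3 ^ d * A.card :=
      Finset.card_le_mul_card_image _ _ fun p _ => hfib p
    rw [Finset.card_univ] at h1
    rw [hN]
    exact_mod_cast h1
  have haN : (A.card : ℝ) ≤ N := by
    have : A.card ≤ (Finset.univ : Finset ι).card := Finset.card_image_le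
    rw [Finset.card_univ] at this
    rw [hN]
    exact_mod_cast this
  have hAne : A.Nonempty := Finset.univ_nonempty.image _
  -- (b) the energy
  set T : Finset (ι × ι × ι × ι) := Finset.univ.filter fun x =>
    ‖v x.1 + v x.2.1 - v x.2.2.1 - v x.2.2.2‖ ≤ R0 * δ ∧
    ‖β x.1 + β x.2.1 - β x.2.2.1 - β x.2.2.2‖ ≤ R0 * δ with hT
  have hTe : Set.ncard {x : ι × ι × ι × ι |
      ‖v x.1 + v x.2.1 - v x.2.2.1 - v x.2.2.2‖ ≤ R0 * δ ∧
      ‖(c x.1 - h x.1 • v x.1) + (c x.2.1 - h x.2.1 • v x.2.1) -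
        (c x.2.2.1 - h x.2.2.1 • v x.2.2.1) - (c x.2.2.2 - h x.2.2.2 • v x.2.2.2)‖ ≤ R0 * δ} = T.card := by
    rw [← Set.ncard_coe_finset]
    congr 1
    ext x
    rw [hT, Finset.coe_filter]
    simp only [Set.mem_ofPred_eq, Finset.mem_univ, true_and, hβ]
  set T2 : Finset ((Vec d × Vec d) × (Vec d × Vec d) × (Vec d × Vec d) × (Vec d × Vec d)) :=
    T.image fun x => (R x.1, R x.2.1, R x.2.2.1, R x.2.2.2) with hT2
  have hq : T.card ≤ (3 ^ d) ^ 4 * T2.card := by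
    have := quad_fibres R (3 ^ d) hfib T
    exact this.trans (le_of_eq (congrArg (fun n => (3 ^ d) ^ 4 * n) (card_image_inst _ _ _ _)))
  set zf : (Vec d × Vec d) × (Vec d × Vec d) × (Vec d × Vec d) × (Vec d × Vec d) → Vec d × Vec d :=
    fun x => x.1 + x.2.1 - x.2.2.1 - x.2.2.2 with hzf
  set Z : Finset (Vec d × Vec d) := T2.image zf with hZ
  have hZc : (Z.card : ℝ) ≤ M5 := by
    refine latR_zero hd hδ (R0 + 4) (by linarith) Z ?_ ?_
    · intro p hp
      obtain ⟨y, hy, rfl⟩ := Finset.mem_image.1 hp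
      obtain ⟨x, hx, rfl⟩ := Finset.mem_image.1 hy
      exact ⟨lat_sub (lat_sub (lat_add (lat_rd _ _) (lat_rd _ _)) (lat_rd _ _)) (lat_rd _ _),
        lat_sub (lat_sub (lat_add (lat_rd _ _) (lat_rd _ _)) (lat_rd _ _)) (lat_rd _ _)⟩
    · intro p hp
      obtain ⟨y, hy, rfl⟩ := Finset.mem_image.1 hp
      obtain ⟨x, hx, rfl⟩ := Finset.mem_image.1 hy
      obtain ⟨-, hx1, hx2⟩ := Finset.mem_filter.1 hx
      have key : ∀ (a b c' d' a' b' c'' d'' : Vec d), ‖a + b - c' - d'‖ ≤ R0 * δ → ‖a - a'‖ ≤ δ →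
          ‖b - b'‖ ≤ δ → ‖c' - c''‖ ≤ δ → ‖d' - d''‖ ≤ δ → ‖a' + b' - c'' - d''‖ ≤ (R0 + 4) * δ := by
        intro a b c' d' a' b' c'' d'' h1 h2 h3 h4 h5
        have e : a' + b' - c'' - d'' = (a + b - c' - d') - (a - a') - (b - b') + (c' - c'') +
          (d' - d'') := by abel
        rw [e]
        have n1 := norm_add_le ((a + b - c' - d') - (a - a') - (b - b') + (c' - c'')) (d' - d'')
        have n2 := norm_add_le ((a + b - c' - d') - (a - a') - (b - b')) (c' - c'')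
        have n3 := norm_sub_le ((a + b - c' - d') - (a - a')) (b - b')
        have n4 := norm_sub_le (a + b - c' - d') (a - a')
        linarith
      exact ⟨key _ _ _ _ _ _ _ _ hx1 (hR1 _) (hR1 _) (hR1 _) (hR1 _),
        key _ _ _ _ _ _ _ _ hx2 (hR2 _) (hR2 _) (hR2 _) (hR2 _)⟩
  have hT2c : T2.card ≤ Z.card * A.addEnergy A := by
    rw [mul_comm]
    refine Finset.card_le_mul_card_image _ _ fun z _ => ?_
    refine le_trans (Finset.card_le_card ?_) (shift_energy A z)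
    intro y hy
    obtain ⟨hy1, hy2⟩ := Finset.mem_filter.1 hy
    obtain ⟨x, hx, rfl⟩ := Finset.mem_image.1 hy1
    rw [Finset.mem_filter, Finset.mem_product, Finset.mem_product, Finset.mem_product]
    have hm' : ∀ i, R i ∈ A := fun i => Finset.mem_image_of_mem _ (Finset.mem_univ _)
    exact ⟨⟨hm' _, hm' _, hm' _, hm' _⟩, hy2⟩
  set K0 : ℝ := M6 * N ^ η with hK0
  have hNη : 1 ≤ N ^ η := Real.one_le_rpow hN1 hη0.le
  have hK01 : 1 ≤ K0 := by rw [hK0]; nlinarith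
  have hE : (A.card : ℝ) ^ 3 ≤ K0 * (A.addEnergy A : ℕ) := by
    have h1 : (T.card : ℝ) ≤ ((3 : ℝ) ^ d) ^ 4 * (T2.card : ℝ) := by exact_mod_cast hq
    have h2 : (T2.card : ℝ) ≤ Z.card * (A.addEnergy A : ℕ) := by exact_mod_cast hT2c
    have h3 : (Z.card : ℝ) * (A.addEnergy A : ℕ) ≤ M5 * (A.addEnergy A : ℕ) :=
      mul_le_mul_of_nonneg_right hZc (Nat.cast_nonneg _)
    have h4 : (T.card : ℝ) ≤ M6 * (A.addEnergy A : ℕ) := by
      calc (T.card : ℝ) ≤ ((3 : ℝ) ^ d) ^ 4 * (T2.card : ℝ) := h1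
        _ ≤ ((3 : ℝ) ^ d) ^ 4 * (M5 * (A.addEnergy A : ℕ)) :=
          mul_le_mul_of_nonneg_left (h2.trans h3) (by positivity)
        _ = _ := by rw [hM6]; ring
    rw [hTe] at hen
    have h5 : N ^ (3 : ℝ) = N ^ η * N ^ (3 - η) := by
      rw [← Real.rpow_add (by linarith)]
      congr 1
      ring
    calc (A.card : ℝ) ^ 3 ≤ N ^ 3 := pow_le_pow_left₀ (Nat.cast_nonneg _) haN 3
      _ = N ^ (3 : ℝ) := by rw [← Real.rpow_natCast]; norm_num
      _ = N ^ η * N ^ (3 - η) := h5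
      _ ≤ N ^ η * (M6 * (A.addEnergy A : ℕ)) :=
        mul_le_mul_of_nonneg_left (hen.trans h4) (by linarith)
      _ = _ := by rw [hK0]; ring
  obtain ⟨A', hA'A, hA'ne, hb1, hb2⟩ := Pool.Agent.H217R3.AK.bsg A hAne K0 (by linarith) hE
  have hA'0 : (0 : ℝ) < A'.card := by exact_mod_cast hA'ne.card_pos
  have hA'N : (A'.card : ℝ) ≤ N :=
    le_trans (by exact_mod_cast Finset.card_le_card hA'A) haN
  set J : Finset ι := Finset.univ.filter fun i => R i ∈ A' with hJ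
  have hJA : (A'.card : ℝ) ≤ J.card := by
    have : A' ⊆ J.image R := by
      intro p hp
      obtain ⟨i, _, rfl⟩ := Finset.mem_image.1 (hA'A hp)
      exact Finset.mem_image_of_mem _ (Finset.mem_filter.2 ⟨Finset.mem_univ _, hp⟩)
    exact_mod_cast (Finset.card_le_card this).trans Finset.card_image_le
  -- slopes
  have hsl : Slopes ((5 : ℝ) ^ d) δ A' := by
    intro F hF hv0
    obtain ⟨v₀, hv0⟩ := hv0
    have hch : ∀ p : Vec d × Vec d, p ∈ F → ∃ i, R i = p := by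
      intro p hp
      obtain ⟨i, _, hi⟩ := Finset.mem_image.1 (hA'A (hF hp))
      exact ⟨i, hi⟩
    rcases F.eq_empty_or_nonempty with rfl | hne
    · simp only [Finset.card_empty, Nat.cast_zero]
      positivity
    · obtain ⟨p0, hp0⟩ := hne
      obtain ⟨i0, hi0⟩ := hch p0 hp0
      let g : Vec d × Vec d → ι := fun p => if hp : p ∈ F then (hch p hp).choose else i0
      have hg : ∀ p ∈ F, R (g p) = p := by
        intro p hp
        simp only [g, dif_pos hp]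
        exact (hch p hp).choose_spec
      have hginj : Set.InjOn g F := by
        intro p hp q hq hpq
        rw [← hg p hp, ← hg q hq, hpq]
      have h5 : ((F.image g).card : ℝ) ≤ (2 * 2 + 1) ^ d := by
        refine hslope _ v₀ 2 zero_le_two fun i hi => ?_
        obtain ⟨p, hp, rfl⟩ := Finset.mem_image.1 hi
        have e : v (g p) - v₀ = (v (g p) - (R (g p)).1) + (p.1 - v₀) := by
          rw [hg p hp]; abel
        rw [e]
        have := norm_add_le (v (g p) - (R (g p)).1) (p.1 - v₀)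
        linarith [hR1 (g p), hv0 p hp]
      rw [Finset.card_image_of_injOn hginj] at h5
      refine h5.trans (le_of_eq ?_)
      norm_num
  have h51 : (1 : ℝ) ≤ 5 ^ d := one_le_pow₀ (by norm_num)
  have hK1 : (1 : ℝ) ≤ 2 ^ 22 * K0 ^ 10 := by
    exact one_le_mul_of_one_le_of_one_le (by norm_num) (one_le_pow₀ hK01)
  have h5δ : δ ≤ 5 ^ d * δ := le_mul_of_one_le_left hδ.le h51
  have hfin := hmain δ (2 ^ 22 * K0 ^ 10) hδ hδ1 hK1 A' hA'ne (le_trans
      (le_of_eq (congrArg (Nat.cast : ℕ → ℝ) (card_sub_inst _ _ A' A'))) hb2) hsl {i // i ∈ J} (fun i => v i) (fun i => c i)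
    (fun i => h i) (fun i => hv i) (fun i => hh i) (fun i j hij => hsep i j fun he => hij (Subtype.ext he))
    (fun i => by
      refine ⟨R i, (Finset.mem_filter.1 i.2).2, ?_, ?_⟩
      · exact (hR1 i).trans h5δ
      · exact (hR2 i).trans h5δ)
  have hsub : (⋃ i : {i // i ∈ J}, tube δ (dir (v i)) (WithLp.toLp 2 (c i, h i))) ⊆
      ⋃ i, tube δ (dir (v i)) (WithLp.toLp 2 (c i, h i)) :=
    iUnion_subset fun i => subset_iUnion
      (fun i => tube δ (dir (v i)) (WithLp.toLp 2 (c i, h i))) i.1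
  refine le_trans (ENNReal.ofReal_le_ofReal ?_) (hfin.trans (measure_mono hsub))
  rw [Fintype.card_coe]
  have hJN : N ≤ 3 ^ d * 8 * K0 * J.card := by
    calc N ≤ 3 ^ d * A.card := ha
      _ ≤ 3 ^ d * (8 * K0 * A'.card) := mul_le_mul_of_nonneg_left hb1 (by positivity)
      _ ≤ 3 ^ d * (8 * K0 * J.card) := mul_le_mul_of_nonneg_left
          (mul_le_mul_of_nonneg_left hJA (by linarith)) (by positivity)
      _ = _ := by ring
  exact numer N J.card A'.card K0 M6 (3 ^ d * 8) C ε η (δ ^ d) m B hN1 hm1 hM61 (by positivity) hC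
    hε hmε hηB hK0 hη0.le hA'N hA'0 hJN (by positivity)

/-- the scaling as a linear map -/
noncomputable def sclL {d : ℕ} (c : ℝ) : Space d →ₗ[ℝ] Space d where
  toFun := scl c
  map_add' := scl_add c
  map_smul' r y := scl_smul c r y

lemma det_sclL {d : ℕ} (c : ℝ) : LinearMap.det (sclL c : Space d →ₗ[ℝ] Space d) = (-(c / 2)) ^ d * c := by
  set e := (WithLp.linearEquiv 2 ℝ (Vec d × ℝ)).symm with he
  set g : Vec d × ℝ →ₗ[ℝ] Vec d × ℝ :=
    ((-(c / 2)) • LinearMap.id : Vec d →ₗ[ℝ] Vec d).prodMap (c • LinearMap.id : ℝ →ₗ[ℝ] ℝ) with hg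
  have h1 : (sclL c : Space d →ₗ[ℝ] Space d) = (e : Vec d × ℝ →ₗ[ℝ] Space d) ∘ₗ g ∘ₗ
      (e.symm : Space d →ₗ[ℝ] Vec d × ℝ) := by
    ext y
    rfl
  rw [h1, LinearMap.det_conj, hg, LinearMap.det_prodMap, LinearMap.det_smul, LinearMap.det_smul,
    LinearMap.det_id, LinearMap.det_id, finrank_euclideanSpace_fin, Module.finrank_self]
  ring

lemma vol_scl {d : ℕ} {c : ℝ} (hc : 0 < c) (s : Set (Space d)) :
    volume (scl c ⁻¹' s) = ENNReal.ofReal (((c / 2) ^ d * c)⁻¹) * volume s := by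
  have hdet : LinearMap.det (sclL c : Space d →ₗ[ℝ] Space d) ≠ 0 := by
    rw [det_sclL]
    exact mul_ne_zero (pow_ne_zero _ (neg_ne_zero.2 (by positivity))) hc.ne'
  have h := Measure.addHaar_preimage_linearMap (volume : Measure (Space d)) hdet s
  have h2 : |(LinearMap.det (sclL c : Space d →ₗ[ℝ] Space d))⁻¹| = ((c / 2) ^ d * c)⁻¹ := by
    rw [det_sclL, abs_inv, abs_mul, abs_pow, abs_neg, abs_of_pos hc, abs_of_pos (by positivity : 0 < c / 2)]
  rw [h2] at h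
  exact h

/-- separation of the directions -/
lemma dir_lower {d : ℕ} {v w : Vec d} (hv : ‖v‖ ≤ 1) (hw : ‖w‖ ≤ 1) :
    ‖v - w‖ ≤ 4 * ‖dir v - dir w‖ := by
  set l := √(1 + ‖v‖ ^ 2) with hl
  set m := √(1 + ‖w‖ ^ 2) with hm
  have hl0 : 0 < l := by positivity
  have hm0 : 0 < m := by positivity
  have hl2 : l ≤ 3 / 2 := by
    rw [hl]
    apply Real.sqrt_le_iff.2
    constructor
    · norm_num
    · nlinarith [norm_nonneg v]
  have hm2 : m ≤ 3 / 2 := by
    rw [hm]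
    apply Real.sqrt_le_iff.2
    constructor
    · norm_num
    · nlinarith [norm_nonneg w]
  have hm1 : 1 ≤ m := Real.one_le_sqrt.2 (by nlinarith [sq_nonneg ‖w‖])
  have hD := norm_space_sq (dir v - dir w)
  have e1 : (dir v - dir w).fst = l⁻¹ • v - m⁻¹ • w := rfl
  have e2 : (dir v - dir w).snd = l⁻¹ - m⁻¹ := by
    show l⁻¹ • (1 : ℝ) - m⁻¹ • (1 : ℝ) = _
    rw [smul_eq_mul, smul_eq_mul, mul_one, mul_one]
  set D := ‖dir v - dir w‖ with hDdef
  have hD0 : 0 ≤ D := norm_nonneg _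
  have hF : ‖l⁻¹ • v - m⁻¹ • w‖ ≤ D := by
    rw [← e1]
    apply le_of_sq_le_sq _ hD0
    nlinarith [sq_nonneg (dir v - dir w).snd]
  have hS : |l⁻¹ - m⁻¹| ≤ D := by
    rw [← e2]
    apply le_of_sq_le_sq _ hD0
    rw [sq_abs]
    nlinarith [sq_nonneg ‖(dir v - dir w).fst‖]
  have hkey : v - w = l • (l⁻¹ • v - m⁻¹ • w) + (-(l * m * (l⁻¹ - m⁻¹))) • (m⁻¹ • w) := by
    rw [smul_sub, smul_smul, smul_smul, smul_smul, mul_inv_cancel₀ hl0.ne', one_smul]
    have e3 : -(l * m * (l⁻¹ - m⁻¹)) * m⁻¹ = l * m⁻¹ - 1 := by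
      field_simp
      ring
    rw [e3, sub_smul, one_smul]
    abel
  have hw' : ‖m⁻¹ • w‖ ≤ 1 := by
    rw [norm_smul, norm_inv, Real.norm_of_nonneg hm0.le]
    calc m⁻¹ * ‖w‖ ≤ 1 * 1 := mul_le_mul (inv_le_one_of_one_le₀ hm1) hw (norm_nonneg _) zero_le_one
      _ = 1 := one_mul 1
  have n1 : ‖v - w‖ ≤ l * ‖l⁻¹ • v - m⁻¹ • w‖ + (l * m * |l⁻¹ - m⁻¹|) * ‖m⁻¹ • w‖ := by
    conv_lhs => rw [hkey]
    refine (norm_add_le _ _).trans (le_of_eq ?_)
    rw [norm_smul, norm_smul, Real.norm_of_nonneg hl0.le, Real.norm_eq_abs, abs_neg, abs_mul,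
      abs_of_pos (mul_pos hl0 hm0)]
  have n2 : l * ‖l⁻¹ • v - m⁻¹ • w‖ ≤ 3 / 2 * D := mul_le_mul hl2 hF (norm_nonneg _) (by norm_num)
  have n3 : (l * m * |l⁻¹ - m⁻¹|) * ‖m⁻¹ • w‖ ≤ (3 / 2 * (3 / 2) * D) * 1 := by
    refine mul_le_mul ?_ hw' (norm_nonneg _) (by positivity)
    exact mul_le_mul (mul_le_mul hl2 hm2 hm0.le (by norm_num)) hS (abs_nonneg _) (by norm_num)
  linarith

/-- A tube is contained in the image of a box. -/
lemma tube_in_box {d : ℕ} {N σ : ℝ} (hN : 1 ≤ N) (hσ : 0 < σ) (hσ1 : σ ≤ 1) {ω : Vec d}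
    (hω : ‖ω‖ ≤ 1) {f : Fin d → Space d}
    (hf : Orthonormal ℝ (Fin.cons (nor ω) f : Fin (d + 1) → Space d)) (β : Vec d) (s : ℝ) :
    scl (12 / N ^ 2) ⁻¹' (tube (σ / (4 * N)) (dir ω)
      (WithLp.toLp 2 (-(12 / N ^ 2 / 2) • β + (12 / N ^ 2 * s) • ω, 12 / N ^ 2 * s))) ⊆
    box N (nor ω) f (centre ω β s) := by
  have hN0 : 0 < N := by linarith
  set c : ℝ := 12 / N ^ 2 with hc
  have hc0 : 0 < c := by positivity
  set δ : ℝ := σ / (4 * N) with hδ
  have hδ0 : 0 < δ := by positivity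
  have hδ1 : δ < 1 := by
    rw [hδ, div_lt_one (by positivity)]
    linarith
  intro y hy
  have hy2 : (WithLp.toLp 2 (-(c / 2) • y.fst, c * y.snd) : Space d) ∈
      Pool.Agent.H803R2.KakFTO.tube δ (Pool.Agent.H803R2.KakFTO.dir ω)
        (Pool.Agent.H803R2.KakFTO.linePt (fun _ => -(c / 2) • β) ω (c * s)) := hy
  obtain ⟨ht, hx⟩ := Pool.Agent.H803R2.KakFTO.tube_subset hδ0 hδ1 (fun _ => -(c / 2) • β) hω (c * s) hy2
  -- the height
  have hts : |y.snd - s| ≤ N ^ 2 / 8 := by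
    have h1 : |c * (y.snd - s)| ≤ 3 / 2 := by
      rw [abs_le]
      constructor <;> linarith [ht.1, ht.2]
    rw [abs_mul, abs_of_pos hc0, hc] at h1
    have h2 : N ^ 2 / 12 * (12 / N ^ 2 * |y.snd - s|) ≤ N ^ 2 / 12 * (3 / 2) :=
      mul_le_mul_of_nonneg_left h1 (by positivity)
    have e : N ^ 2 / 12 * (12 / N ^ 2 * |y.snd - s|) = |y.snd - s| := by
      field_simp
    rw [e] at h2
    linarith
  set u : Vec d := y.fst - β + (2 * y.snd) • ω with hu
  have hun : ‖u‖ ≤ N / 12 := by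
    have e : -(c / 2) • y.fst - (-(c / 2) • β + (c * y.snd) • ω) = -(c / 2) • u := by
      rw [hu, smul_add, smul_sub, smul_smul]
      have : -(c / 2) * (2 * y.snd) = -(c * y.snd) := by ring
      rw [this, neg_smul (c * y.snd)]
      abel
    rw [e, norm_smul, norm_neg, Real.norm_of_nonneg (by positivity : 0 ≤ c / 2)] at hx
    have h2 : N ^ 2 / 6 * (c / 2 * ‖u‖) ≤ N ^ 2 / 6 * (2 * δ) :=
      mul_le_mul_of_nonneg_left hx (by positivity)
    have e1 : N ^ 2 / 6 * (c / 2 * ‖u‖) = ‖u‖ := by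
      rw [hc]; field_simp; norm_num
    have e2 : N ^ 2 / 6 * (2 * δ) = σ * N / 12 := by
      rw [hδ]; field_simp; norm_num
    rw [e1, e2] at h2
    nlinarith
  -- the decomposition
  set p : Space d := WithLp.toLp 2 (-(2 : ℝ) • ω, (1:ℝ)) with hp
  set q : Space d := WithLp.toLp 2 (u, (0:ℝ)) with hq
  have hdec : y - centre ω β s = (y.snd - s) • p + q := by
    have e1 : y - centre ω β s = WithLp.toLp 2 (y.fst - (β + s • (-(2 : ℝ) • ω)), y.snd - s) := rfl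
    have e2 : (y.snd - s) • p + q = WithLp.toLp 2 ((y.snd - s) • (-(2 : ℝ) • ω) + u,
      (y.snd - s) * 1 + 0) := rfl
    rw [e1, e2]
    congr 1
    refine Prod.ext ?_ ?_
    · show y.fst - (β + s • (-(2 : ℝ) • ω)) = (y.snd - s) • (-(2 : ℝ) • ω) + u
      rw [hu, sub_smul, smul_smul, smul_smul]
      have : (2 * y.snd) = -(y.snd * -2) := by ring
      rw [this, neg_smul]
      abel
    · show y.snd - s = (y.snd - s) * 1 + 0
      ring
  set r : ℝ := √(1 + ‖-(2 : ℝ) • ω‖ ^ 2) with hr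
  have hr0 : 0 < r := by positivity
  have hpr : p = r • nor ω := by
    unfold nor
    rw [smul_smul, ← hr, mul_inv_cancel₀ hr0.ne', one_smul]
  have hn1 : ‖nor ω‖ = 1 := by
    have := hf.1 0
    simpa using this
  have hr3 : r ≤ 3 := by
    rw [hr]
    apply Real.sqrt_le_iff.2
    constructor
    · norm_num
    · rw [norm_smul, norm_neg, Real.norm_eq_abs, abs_of_pos (by norm_num : (0:ℝ) < 2)]
      nlinarith [norm_nonneg ω]
  have hpn : ‖p‖ ≤ 3 := by
    rw [hpr, norm_smul, hn1, mul_one, Real.norm_of_nonneg hr0.le]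
    exact hr3
  have hqn : ‖q‖ = ‖u‖ := by
    have h1 := norm_space_sq q
    have e1 : q.fst = u := rfl
    have e2 : q.snd = 0 := rfl
    rw [e1, e2] at h1
    have h2 : ‖q‖ ^ 2 = ‖u‖ ^ 2 := by rw [h1]; ring
    exact (sq_eq_sq₀ (norm_nonneg _) (norm_nonneg _)).1 h2
  refine ⟨?_, fun j => ?_⟩
  · have h1 := abs_real_inner_le_norm (nor ω) (y - centre ω β s)
    rw [hn1, one_mul] at h1
    refine h1.trans ?_
    rw [hdec]
    refine (norm_add_le _ _).trans ?_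
    rw [norm_smul, Real.norm_eq_abs, hqn]
    have h2 : |y.snd - s| * ‖p‖ ≤ N ^ 2 / 8 * 3 :=
      mul_le_mul hts hpn (norm_nonneg _) (by positivity)
    nlinarith
  · have hfn : ‖f j‖ = 1 := by
      have := hf.1 j.succ
      simpa using this
    have horth : inner ℝ (f j) (nor ω) = 0 := by
      have := hf.2 (Fin.succ_ne_zero j)
      simpa using this
    rw [hdec, inner_add_right, inner_smul_right, hpr, inner_smul_right, horth, mul_zero, mul_zero,
      zero_add]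
    have h1 := abs_real_inner_le_norm (f j) q
    rw [hfn, one_mul, hqn] at h1
    linarith

theorem main : S_boxenergy := by
  classical
  intro d hd σ S ε hσ hσ1 hS hε hε1
  have hR0 : 1 ≤ 24 / σ := by
    rw [le_div_iff₀ hσ]
    linarith
  obtain ⟨η, c₀, hη, hc₀, hmain⟩ := gen (Q.main P.main) d hd (12 * S) ε (24 / σ) (by linarith) hε hε1 hR0
  refine ⟨η, c₀ * (σ ^ d / (24 ^ d * 12)), hη, by positivity, ?_⟩
  intro N hN ι _ ω β s f hω hsep hf hs hen
  have hN0 : 0 < N := by linarith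
  set c : ℝ := 12 / N ^ 2 with hc
  have hc0 : 0 < c := by positivity
  set δ : ℝ := σ / (4 * N) with hδ
  have hδ0 : 0 < δ := by positivity
  have hδ1 : δ < 1 := by
    rw [hδ, div_lt_one (by positivity)]
    linarith
  have hh : ∀ i, |c * s i| ≤ 12 * S := by
    intro i
    rw [abs_mul, abs_of_pos hc0]
    calc c * |s i| ≤ c * (S * N ^ 2) := mul_le_mul_of_nonneg_left (hs i) hc0.le
      _ = 12 * S := by rw [hc]; field_simp
  have hsep' : ∀ i j, i ≠ j → δ ≤ ‖dir (ω i) - dir (ω j)‖ := by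
    intro i j hij
    have h1 := (hsep i j hij).trans (dir_lower (hω i) (hω j))
    have e : δ = (σ / N) / 4 := by rw [hδ]; field_simp
    rw [e]
    linarith
  have hβ : ∀ i, (-(c / 2) • β i + (c * s i) • ω i) - (c * s i) • ω i = -(c / 2) • β i := by
    intro i
    abel
  have hfin := hmain δ hδ0 hδ1 ι ω (fun i => -(c / 2) • β i + (c * s i) • ω i) (fun i => c * s i)
    hω hh hsep' (by
      refine hen.trans ?_
      unfold boxEnergy
      have : (Set.ncard {x : ι × ι × ι × ι | ‖ω x.1 + ω x.2.1 - ω x.2.2.1 - ω x.2.2.2‖ ≤ 1 / N ∧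
          ‖β x.1 + β x.2.1 - β x.2.2.1 - β x.2.2.2‖ ≤ N}) ≤ Set.ncard {x : ι × ι × ι × ι |
          ‖ω x.1 + ω x.2.1 - ω x.2.2.1 - ω x.2.2.2‖ ≤ 24 / σ * δ ∧
          ‖((-(c / 2) • β x.1 + (c * s x.1) • ω x.1) - (c * s x.1) • ω x.1) +
            ((-(c / 2) • β x.2.1 + (c * s x.2.1) • ω x.2.1) - (c * s x.2.1) • ω x.2.1) -
            ((-(c / 2) • β x.2.2.1 + (c * s x.2.2.1) • ω x.2.2.1) - (c * s x.2.2.1) • ω x.2.2.1) -
            ((-(c / 2) • β x.2.2.2 + (c * s x.2.2.2) • ω x.2.2.2) - (c * s x.2.2.2) • ω x.2.2.2)‖ ≤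
            24 / σ * δ} := by
        refine Set.ncard_le_ncard ?_ (Set.toFinite _)
        intro x hx
        obtain ⟨h1, h2⟩ := hx
        have e1 : 24 / σ * δ = 6 / N := by rw [hδ]; field_simp; norm_num
        refine ⟨?_, ?_⟩
        · rw [e1]
          refine h1.trans ?_
          exact div_le_div_of_nonneg_right (by norm_num) hN0.le
        · rw [hβ, hβ, hβ, hβ, e1]
          have e2 : -(c / 2) • β x.1 + -(c / 2) • β x.2.1 - -(c / 2) • β x.2.2.1 -
              -(c / 2) • β x.2.2.2 = -(c / 2) • (β x.1 + β x.2.1 - β x.2.2.1 - β x.2.2.2) := by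
            rw [smul_sub, smul_sub, smul_add]
          rw [e2, norm_smul, norm_neg, Real.norm_of_nonneg (by positivity : 0 ≤ c / 2)]
          calc c / 2 * ‖β x.1 + β x.2.1 - β x.2.2.1 - β x.2.2.2‖ ≤ c / 2 * N :=
                mul_le_mul_of_nonneg_left h2 (by positivity)
            _ = 6 / N := by rw [hc]; field_simp; norm_num
      exact_mod_cast this)
  have hsub : scl c ⁻¹' (⋃ i, tube δ (dir (ω i))
      (WithLp.toLp 2 (-(c / 2) • β i + (c * s i) • ω i, c * s i))) ⊆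
      ⋃ i, box N (nor (ω i)) (f i) (centre (ω i) (β i) (s i)) := by
    rw [preimage_iUnion]
    exact iUnion_mono fun i => tube_in_box hN hσ hσ1 (hω i) (hf i) (β i) (s i)
  refine le_trans ?_ (measure_mono hsub)
  rw [vol_scl hc0]
  refine le_trans ?_ (mul_le_mul_right hfin _)
  rw [← ENNReal.ofReal_mul (by positivity)]
  refine le_of_eq ?_
  congr 1
  have e1 : ((c / 2) ^ d * c)⁻¹ = N ^ (2 * d + 2) / (6 ^ d * 12) := by
    have : c / 2 = 6 / N ^ 2 := by rw [hc]; field_simp; norm_num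
    rw [this, hc, div_pow, ← pow_mul, pow_add]
    field_simp
  have e2 : δ ^ d = σ ^ d / (4 ^ d * N ^ d) := by rw [hδ, div_pow, mul_pow]
  rw [e1, e2]
  have e3 : (24 : ℝ) ^ d = 6 ^ d * 4 ^ d := by rw [← mul_pow]; norm_num
  have e4 : N ^ (2 * d + 2) = N ^ d * N ^ (d + 2) := by rw [← pow_add]; congr 1; ring
  rw [e3, e4]
  field_simp

end Pool.Agent.N3.ST.T
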