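import Mathlib
import Pool.Agent.Helper404.KM

/-!
# Project ST: abstract quantitative nondivergence, the covering step
-/

set_option autoImplicit false

open MeasureTheory Set

namespace Pool.Agent.N3.ST.T1

open Pool.Agent.Helper404 (Dy idx mem_Dy idx_succ idx_mono Dy_measurable Dy_volume kmC kmC_nonneg)

variable {S : Type} (g : S → ℝ → ℝ)

/-- bad points -/
def Ev (A m : ℝ) (T : Finset S) (x : ℝ) : Prop :=
  (∀ s, m / A ≤ g s x) ∧ (∀ s ∈ T, g s x < A * m) ∧ ∃ s, s ∉ T ∧ g s x < m

theorem node (rk : S → ℕ) (r : ℕ) (hrk : ∀ s, rk s ≤ r) (A m κ : ℝ) (hA : 1 ≤ A) (hm : 0 < m)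
    (hκ : 0 ≤ κ)
    (hinj : ∀ x s s', (∀ s'', m / A ≤ g s'' x) → g s x < A * m → g s' x < A * m →
      rk s = rk s' → s = s')
    (hcont : ∀ s, Continuous (g s))
    (hgood : ∀ s, ∀ a l : ℝ, 0 < l → (∃ z ∈ Ico a (a + l), A * m ≤ g s z) →
      volume {x ∈ Ico a (a + l) | g s x < m} ≤ ENNReal.ofReal κ * ENNReal.ofReal l) :
    ∀ (k : ℕ) (T : Finset S), T.card + k = r + 2 → ∀ a l : ℝ, 0 < l →
      (∀ s, s ∉ T → ∃ z ∈ Ico a (a + l), A * m ≤ g s z) →
      volume {x ∈ Ico a (a + l) | Ev g A m T x} ≤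
        ENNReal.ofReal (kmC κ k) * volume {x ∈ Ico a (a + l) | ∃ s, s ∉ T ∧ g s x < A * m} := by
  classical
  intro k
  induction k with
  | zero =>
    intro T hT a l hl hrich
    have : {x ∈ Ico a (a + l) | Ev g A m T x} = ∅ := by
      ext x
      simp only [mem_ofPred_eq, mem_empty_iff_false, iff_false, not_and]
      rintro - ⟨h1, h2, -⟩
      have h3 : (T.image rk).card = T.card := Finset.card_image_of_injOn (by
        intro s hs s' hs' h
        exact hinj x s s' h1 (h2 s hs) (h2 s' hs') h)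
      have h4 : T.image rk ⊆ Finset.range (r + 1) := by
        intro i hi
        obtain ⟨s, -, rfl⟩ := Finset.mem_image.1 hi
        exact Finset.mem_range.2 (Nat.lt_succ_of_le (hrk s))
      have h5 := Finset.card_le_card h4
      rw [h3, Finset.card_range] at h5
      omega
    rw [this]; simp
  | succ k ih =>
    intro T hT a l hl hrich
    set Poor : ℕ → ℤ → Prop := fun k i => ∃ s, s ∉ T ∧ ∀ z ∈ Dy a l k i, g s z < A * m with hPoor
    set P : Set (ℕ × ℤ) := {p | Poor (p.1 + 1) p.2 ∧ ¬ Poor p.1 (p.2 / 2) ∧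
      Dy a l (p.1 + 1) p.2 ⊆ Ico a (a + l)} with hP
    have hI : Dy a l 0 0 = Ico a (a + l) := by unfold Dy; simp
    set B := ENNReal.ofReal (kmC κ (k + 1)) with hB
    have hmA : m ≤ A * m := by nlinarith
    -- covering
    have hcover : {x ∈ Ico a (a + l) | Ev g A m T x} ⊆
        ⋃ p ∈ P, {x ∈ Dy a l (p.1 + 1) p.2 | Ev g A m T x} := by
      rintro x ⟨hxI, hxM⟩
      have hx0 : idx a l 0 x = 0 := by rw [← mem_Dy hl, hI]; exact hxI
      obtain ⟨s, hsT, hsx⟩ : ∃ s, s ∉ T ∧ g s x < A * m := by
        obtain ⟨s, h1, h2⟩ := hxM.2.2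
        exact ⟨s, h1, h2.trans_le hmA⟩
      obtain ⟨δ, hδ, hball⟩ := Metric.isOpen_iff.1 ((hcont s).isOpen_preimage _ isOpen_Iio) x hsx
      have hex : ∃ k, Poor k (idx a l k x) := by
        obtain ⟨k, hk⟩ : ∃ k : ℕ, l / 2 ^ k < δ := by
          obtain ⟨k, hk⟩ := pow_unbounded_of_one_lt (l / δ) (one_lt_two (α := ℝ))
          refine ⟨k, ?_⟩
          rw [div_lt_iff₀ (by positivity)]
          rw [div_lt_iff₀ hδ] at hk
          linarith
        refine ⟨k, s, hsT, fun z hz => ?_⟩
        have hx' : x ∈ Dy a l k (idx a l k x) := (mem_Dy hl k _ x).2 rfl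
        have : z ∈ Metric.ball x δ := by
          rw [Metric.mem_ball, Real.dist_eq, abs_lt]
          unfold Dy at hz hx'
          rw [mem_Ico] at hz hx'
          constructor <;> linarith [hz.1, hz.2, hx'.1, hx'.2]
        exact hball this
      have hmin := Nat.find_spec hex
      have hne : Nat.find hex ≠ 0 := by
        intro h0
        rw [h0] at hmin
        rw [hx0] at hmin
        obtain ⟨s', hs', h'⟩ := hmin
        rw [hI] at h'
        obtain ⟨z, hz, hz'⟩ := hrich s' hs'
        exact absurd (h' z hz) (not_lt.2 hz')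
      obtain ⟨k, hk⟩ := Nat.exists_eq_succ_of_ne_zero hne
      rw [hk] at hmin
      have hnot : ¬ Poor k (idx a l k x) := Nat.find_min hex (by omega)
      rw [mem_iUnion₂]
      refine ⟨(k, idx a l (k + 1) x), ⟨hmin, ?_, ?_⟩, (mem_Dy hl _ _ x).2 rfl, hxM⟩
      · simp only
        rw [← idx_succ]; exact hnot
      · intro y hy
        have hy' : idx a l (k + 1) y = idx a l (k + 1) x := (mem_Dy hl _ _ y).1 hy
        rw [← hI, mem_Dy hl, idx_mono 0 (k + 1) (Nat.zero_le _) hy', hx0]
    -- estimate on each piece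
    have hpiece : ∀ p ∈ P, volume {x ∈ Dy a l (p.1 + 1) p.2 | Ev g A m T x} ≤
        B * volume (Dy a l (p.1 + 1) p.2) := by
      rintro ⟨j, i⟩ ⟨hpoor, hnp, -⟩
      simp only at hpoor hnp ⊢
      obtain ⟨s0, hs0T, hs0⟩ := hpoor
      set b := a + ((i / 2 : ℤ) : ℝ) * (l / 2 ^ j) with hb
      set l' := l / 2 ^ j with hl'
      have hl'pos : 0 < l' := by positivity
      have hPar : Dy a l j (i / 2) = Ico b (b + l') := rfl
      have hsub : Dy a l (j + 1) i ⊆ Ico b (b + l') := by
        rw [← hPar]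
        intro y hy
        rw [mem_Dy hl] at hy ⊢
        rw [idx_succ, hy]
      have hrich' : ∀ s, s ∉ T → ∃ z ∈ Ico b (b + l'), A * m ≤ g s z := by
        intro s hs
        by_contra hcon
        push Not at hcon
        exact hnp ⟨s, hs, by rw [hPar]; exact hcon⟩
      have h1 := ih (insert s0 T) (by rw [Finset.card_insert_of_notMem hs0T]; omega)
        b l' hl'pos (fun s hs => hrich' s (fun h => hs (Finset.mem_insert_of_mem h)))
      have h1' : volume {x ∈ Ico b (b + l') | Ev g A m (insert s0 T) x} ≤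
          ENNReal.ofReal (kmC κ k) * ENNReal.ofReal l' := by
        refine h1.trans (mul_le_mul' le_rfl ?_)
        refine (measure_mono (fun x hx => hx.1)).trans ?_
        rw [Real.volume_Ico]
        exact le_of_eq (by congr 1; ring)
      have h2 := hgood s0 b l' hl'pos (hrich' s0 hs0T)
      have h3 : {x ∈ Dy a l (j + 1) i | Ev g A m T x} ⊆
          {x ∈ Ico b (b + l') | Ev g A m (insert s0 T) x} ∪ {x ∈ Ico b (b + l') | g s0 x < m} := by
        rintro x ⟨hxD, hx1, hx2, s1, hs1, hs1'⟩
        by_cases hc : g s0 x < m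
        · exact Or.inr ⟨hsub hxD, hc⟩
        · left
          refine ⟨hsub hxD, hx1, ?_, s1, ?_, hs1'⟩
          · intro s hs
            rcases Finset.mem_insert.1 hs with h | h
            · rw [h]; exact hs0 x hxD
            · exact hx2 s h
          · intro h
            rcases Finset.mem_insert.1 h with h | h
            · rw [h] at hs1'; exact hc hs1'
            · exact hs1 h
      calc volume {x ∈ Dy a l (j + 1) i | Ev g A m T x}
          ≤ volume ({x ∈ Ico b (b + l') | Ev g A m (insert s0 T) x} ∪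
              {x ∈ Ico b (b + l') | g s0 x < m}) := measure_mono h3
        _ ≤ _ := measure_union_le _ _
        _ ≤ ENNReal.ofReal (kmC κ k) * ENNReal.ofReal l' +
            ENNReal.ofReal κ * ENNReal.ofReal l' := add_le_add h1' h2
        _ = B * volume (Dy a l (j + 1) i) := by
            have hk0 := kmC_nonneg hκ k
            rw [Dy_volume, hB, ← add_mul, ← ENNReal.ofReal_add (by positivity) (by positivity),
              ← ENNReal.ofReal_mul (by positivity), ← ENNReal.ofReal_mul (by
                have := kmC_nonneg hκ (k + 1); positivity)]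
            congr 1
            simp only [kmC]
            rw [hl', pow_succ]; field_simp
    have hdisj : P.PairwiseDisjoint (fun p => Dy a l (p.1 + 1) p.2) := by
      have key : ∀ p ∈ P, ∀ q ∈ P, ∀ x, x ∈ Dy a l (p.1 + 1) p.2 → x ∈ Dy a l (q.1 + 1) q.2 →
          q.1 ≤ p.1 → p = q := by
        rintro ⟨k, i⟩ hp ⟨k', i'⟩ hq x hx hx' hle
        simp only at hx hx' hle
        rw [mem_Dy hl] at hx hx'
        rcases Nat.lt_or_ge k' k with hlt | hge
        · exfalso
          apply hp.2.1
          obtain ⟨s, hs, hs'⟩ := hq.1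
          simp only at hs'
          refine ⟨s, hs, fun z hz => hs' z ?_⟩
          simp only at hz
          rw [mem_Dy hl] at hz ⊢
          rw [← hx, ← idx_succ] at hz
          rw [idx_mono (k' + 1) k hlt hz, hx']
        · have hkk : k = k' := le_antisymm hge hle
          subst hkk
          rw [← hx, ← hx']
      intro p hp q hq hpq
      rw [Function.onFun, Set.disjoint_left]
      intro x hx hx'
      apply hpq
      rcases le_total q.1 p.1 with h | h
      · exact key p hp q hq x hx hx' h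
      · exact (key q hq p hp x hx' hx h).symm
    calc volume {x ∈ Ico a (a + l) | Ev g A m T x}
        ≤ volume (⋃ p ∈ P, {x ∈ Dy a l (p.1 + 1) p.2 | Ev g A m T x}) := measure_mono hcover
      _ ≤ ∑' p : P, volume {x ∈ Dy a l (p.1.1 + 1) p.1.2 | Ev g A m T x} :=
          measure_biUnion_le volume (to_countable P) _
      _ ≤ ∑' p : P, B * volume (Dy a l (p.1.1 + 1) p.1.2) :=
          ENNReal.tsum_le_tsum (fun p => hpiece p.1 p.2)
      _ = B * ∑' p : P, volume (Dy a l (p.1.1 + 1) p.1.2) := ENNReal.tsum_mul_left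
      _ = B * volume (⋃ p ∈ P, Dy a l (p.1 + 1) p.2) := by
          rw [measure_biUnion (to_countable P) hdisj (fun p _ => Dy_measurable _ _ _ _)]
      _ ≤ B * volume {x ∈ Ico a (a + l) | ∃ s, s ∉ T ∧ g s x < A * m} := by
          gcongr
          refine iUnion₂_subset (fun p hp x hx => ⟨hp.2.2 hx, ?_⟩)
          obtain ⟨s, hs, hs'⟩ := hp.1
          exact ⟨s, hs, hs' x hx⟩

end Pool.Agent.N3.ST.T1
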